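import Pool.Agent.FLB.Ax
import Pool.Agent.SHF.QHTa

/-!
# FLB-Alg: the algebra of the big equivariant quantum product near `t ∈ H^2(X)`

PLAN. Copy the proofs of `mulAt_comm`, `mulAt_pderiv`, `mulAt_euler` in Pool/Agent/DST/VAlg.lean (there for
`T : BulkGW X t`, only the fields in `AxGW` are used; do not import VAlg if it is not needed, copy the private
lemmas). `ax_hom` is the coefficient `m` of `mulAt_euler` (`algx_lamMv` is `λ d/dλ` on coefficients).
`ax_const`: constant coefficient. `ax_unit` as `mulAt_unit`.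
-/

set_option autoImplicit false

open scoped BigOperators Topology

namespace Pool.Agent.FLB

open Pool.Agent.Helper18.Dub Pool.Agent.Helper7.DubStokes Pool.Agent.SHF Pool.Agent.DST

variable {N : ℕ} {X : FanoGW (Fin N)}

private noncomputable def algx_lamMv {N : ℕ} (f : MvPowerSeries (Fin N) (Polynomial ℂ)) :
    MvPowerSeries (Fin N) (Polynomial ℂ) :=
  fun m => Polynomial.X * Polynomial.derivative (MvPowerSeries.coeff m f)

private theorem algx_coeff_serAt (T : EquivData X) (t' : Fin N → ℂ) (s : Multiset (Fin N))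
    (m : Fin N →₀ ℕ) : MvPowerSeries.coeff m (serAt T t' s) =
      Polynomial.C (∏ i, ((m i).factorial : ℂ))⁻¹ * corrAt T t' (s + Finsupp.toMultiset m) := rfl

private theorem algx_pderiv_serAt (T : EquivData X) (t' : Fin N → ℂ) (a : Fin N)
    (s : Multiset (Fin N)) :
    MvPowerSeries.pderiv (Polynomial ℂ) a (serAt T t' s) = serAt T t' (a ::ₘ s) := by
  ext m : 1
  rw [MvPowerSeries.coeff_pderiv, algx_coeff_serAt, algx_coeff_serAt, FanoGW.prod_factorial_add_single]
  have h1 : s + Finsupp.toMultiset (m + Finsupp.single a 1) =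
      (a ::ₘ s) + Finsupp.toMultiset m := by
    rw [map_add, Finsupp.toMultiset_single, one_smul, Multiset.cons_add, ← Multiset.singleton_add]
    abel
  rw [h1]
  have h2 : ((m a : ℂ) + 1) ≠ 0 := Nat.cast_add_one_ne_zero _
  have h4 : ((m a : Polynomial ℂ) + 1) = Polynomial.C ((m a : ℂ) + 1) := by
    rw [map_add, map_one, map_natCast]
  rw [h4]
  generalize corrAt T t' ((a ::ₘ s) + Finsupp.toMultiset m) = c
  generalize (∏ j, ((m j).factorial : ℂ)) = P
  generalize ((m a : ℂ) + 1) = q at h2
  have h5 : Polynomial.C (q * P)⁻¹ * c * Polynomial.C q =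
      Polynomial.C ((q * P)⁻¹ * q) * c := by
    rw [map_mul]
    ring
  rw [h5]
  congr 2
  rw [mul_inv, mul_comm q⁻¹ P⁻¹, mul_assoc, inv_mul_cancel₀ h2, mul_one]

private noncomputable def algx_SA (T : EquivData X) (t' : Fin N → ℂ) (a : Fin N) :
    Matrix (Fin N) (Fin N) (MvPowerSeries (Fin N) (Polynomial ℂ)) :=
  Matrix.of fun k b => serAt T t' {a, b, k}

private theorem algx_mulAt_eq (T : EquivData X) (t' : Fin N → ℂ) (a : Fin N) :
    mulAt T t' a = (T.pairT⁻¹).map (MvPowerSeries.C (σ := Fin N)) * algx_SA T t' a := by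
  ext1 k b
  rw [Matrix.mul_apply]
  rfl

private theorem algx_pair_mul (T : EquivGW X) : T.pairT.map (MvPowerSeries.C (σ := Fin N)) *
    (T.pairT⁻¹).map (MvPowerSeries.C (σ := Fin N)) = 1 := by
  rw [← Matrix.map_mul, Matrix.mul_nonsing_inv _ T.pair_nondeg]
  exact Matrix.map_one _ (map_zero _) (map_one _)

private theorem algx_mset_last (a b l : Fin N) : ({a, b, l} : Multiset (Fin N)) = {a, l, b} :=
  congrArg (fun s => a ::ₘ s) (Multiset.pair_comm b l)

private theorem algx_mulAt_self (T : EquivGW X) (t' : Fin N → ℂ) (a : Fin N) :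
    (T.pairT.map (MvPowerSeries.C (σ := Fin N)) * mulAt T.toEquivData t' a).transpose =
      T.pairT.map (MvPowerSeries.C (σ := Fin N)) * mulAt T.toEquivData t' a := by
  rw [algx_mulAt_eq, ← Matrix.mul_assoc, algx_pair_mul, Matrix.one_mul]
  ext1 i j
  show serAt T.toEquivData t' {a, i, j} = serAt T.toEquivData t' {a, j, i}
  rw [algx_mset_last]

private theorem algx_mulAt_comm (T : AxGW X) {t' : Fin N → ℂ} (ht' : ∀ i, t' i ≠ 0 → X.deg i = 1)
    (a b : Fin N) : mulAt T.toEquivData t' a * mulAt T.toEquivData t' b =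
      mulAt T.toEquivData t' b * mulAt T.toEquivData t' a := by
  have key : ∀ a b : Fin N, ∀ f c, (algx_SA T.toEquivData t' a *
      ((T.pairT⁻¹).map (MvPowerSeries.C (σ := Fin N)) * algx_SA T.toEquivData t' b)) f c =
      ∑ e, ∑ l, MvPowerSeries.C (T.pairT⁻¹ e l) * serAt T.toEquivData t' {b, c, e} *
        serAt T.toEquivData t' {l, a, f} := by
    intro a b f c
    rw [← Matrix.mul_assoc, Matrix.mul_apply]
    refine Finset.sum_congr rfl fun e _ => ?_
    rw [Matrix.mul_apply, Finset.sum_mul]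
    refine Finset.sum_congr rfl fun l _ => ?_
    rw [T.toEquivGW.pairInv_symm e l, FanoGW.mset_swap l a f]
    show serAt T.toEquivData t' {a, l, f} * MvPowerSeries.C (T.pairT⁻¹ l e) *
      serAt T.toEquivData t' {b, c, e} = _
    ring
  rw [algx_mulAt_eq, algx_mulAt_eq, Matrix.mul_assoc, Matrix.mul_assoc]
  refine congrArg (fun M => (T.pairT⁻¹).map (MvPowerSeries.C (σ := Fin N)) * M) ?_
  ext1 f c
  rw [key, key, T.wdvvAt t' ht' b c a f]
  refine Finset.sum_congr rfl fun e _ => Finset.sum_congr rfl fun l _ => ?_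
  rw [FanoGW.mset_swap c a e]

private theorem algx_corrAt_unit (T : AxGW X) (t' : Fin N → ℂ) (i j : Fin N) :
    corrAt T.toEquivData t' {X.one, i, j} = T.pairT i j := by
  rw [corrAt, finsum_eq_single _ X.zero]
  · rw [T.unit_zero]
    have h : ∑ k, t' k * X.period X.zero k = 0 :=
      Finset.sum_eq_zero fun k _ => by rw [T.period_zero, mul_zero]
    rw [h, Complex.exp_zero, Polynomial.C_1, one_mul]
  · intro β hβ
    rw [T.unit_ne β i j hβ, mul_zero]

private theorem algx_corrAt_unit_many (T : EquivGW X) (t' : Fin N → ℂ) (s : Multiset (Fin N))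
    (hs : 3 ≤ Multiset.card s) : corrAt T.toEquivData t' (X.one ::ₘ s) = 0 := by
  rw [corrAt]
  rw [finsum_congr (fun β => by rw [T.unit_many β s hs, mul_zero]), finsum_zero]

private theorem algx_serAt_unit (T : AxGW X) (t' : Fin N → ℂ) (b l : Fin N) :
    serAt T.toEquivData t' {X.one, b, l} = MvPowerSeries.C (T.pairT b l) := by
  ext m : 1
  rw [algx_coeff_serAt, MvPowerSeries.coeff_C]
  by_cases hm : m = 0
  · subst hm
    rw [if_pos rfl, map_zero, add_zero, algx_corrAt_unit]
    simp
  · rw [if_neg hm]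
    have h1 : ({X.one, b, l} : Multiset (Fin N)) + Finsupp.toMultiset m =
        X.one ::ₘ (({b, l} : Multiset (Fin N)) + Finsupp.toMultiset m) := by
      rw [← Multiset.cons_add]; rfl
    rw [h1, algx_corrAt_unit_many T.toEquivGW, mul_zero]
    rw [Multiset.card_add]
    have h2 : Multiset.card (Finsupp.toMultiset m) ≠ 0 := by
      intro h0
      rw [Multiset.card_eq_zero] at h0
      apply hm
      have := congrArg Multiset.toFinsupp h0
      rwa [Finsupp.toMultiset_toFinsupp, map_zero] at this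
    have h3 : Multiset.card ({b, l} : Multiset (Fin N)) = 2 := rfl
    omega

private theorem algx_mulAt_unit (T : AxGW X) {t' : Fin N → ℂ} (a k : Fin N) :
    mulAt T.toEquivData t' a k X.one = if k = a then 1 else 0 := by
  have h1 : mulAt T.toEquivData t' a k X.one =
      ∑ l, MvPowerSeries.C (T.pairT⁻¹ k l) * serAt T.toEquivData t' {a, X.one, l} := rfl
  have h2 : ∀ l, MvPowerSeries.C (T.pairT⁻¹ k l) * serAt T.toEquivData t' {a, X.one, l} =
      MvPowerSeries.C (σ := Fin N) (T.pairT⁻¹ k l * T.pairT l a) := by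
    intro l
    rw [FanoGW.mset_swap a X.one l, algx_serAt_unit, T.pair_symm l a, map_mul]
  rw [h1, Finset.sum_congr rfl fun l _ => h2 l, ← map_sum]
  have h := congrFun (congrFun (Matrix.nonsing_inv_mul _ T.pair_nondeg) k) a
  rw [Matrix.mul_apply, Matrix.one_apply] at h
  rw [h]
  split_ifs
  · exact map_one _
  · exact map_zero _

private theorem algx_mulAt_pderiv (T : EquivGW X) (t' : Fin N → ℂ) (a b : Fin N) :
    (mulAt T.toEquivData t' b).map (MvPowerSeries.pderiv (Polynomial ℂ) a) =
      (mulAt T.toEquivData t' a).map (MvPowerSeries.pderiv (Polynomial ℂ) b) := by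
  have key : ∀ a b k c, MvPowerSeries.pderiv (Polynomial ℂ) a (mulAt T.toEquivData t' b k c) =
      ∑ l, MvPowerSeries.C (T.pairT⁻¹ k l) * serAt T.toEquivData t' (a ::ₘ {b, c, l}) := by
    intro a b k c
    have h1 : mulAt T.toEquivData t' b k c =
      ∑ l, MvPowerSeries.C (T.pairT⁻¹ k l) * serAt T.toEquivData t' {b, c, l} := rfl
    rw [h1, map_sum]
    refine Finset.sum_congr rfl fun l _ => ?_
    rw [Derivation.leibniz, MvPowerSeries.pderiv_C, smul_zero, add_zero, algx_pderiv_serAt, smul_eq_mul]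
  ext1 k c
  rw [Matrix.map_apply, Matrix.map_apply, key, key]
  refine Finset.sum_congr rfl fun l _ => ?_
  have h : (a ::ₘ ({b, c, l} : Multiset (Fin N))) = b ::ₘ ({a, c, l} : Multiset (Fin N)) :=
    Multiset.cons_swap _ _ _
  rw [h]


private theorem algx_coeff_lamMv (f : MvPowerSeries (Fin N) (Polynomial ℂ)) (m : Fin N →₀ ℕ) :
    MvPowerSeries.coeff m (algx_lamMv f) =
      Polynomial.X * Polynomial.derivative (MvPowerSeries.coeff m f) := rfl

private theorem algx_coeff_X_pderiv (b : Fin N) (f : MvPowerSeries (Fin N) (Polynomial ℂ))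
    (m : Fin N →₀ ℕ) : MvPowerSeries.coeff m (MvPowerSeries.X b *
      MvPowerSeries.pderiv (Polynomial ℂ) b f) =
      Polynomial.C (m b : ℂ) * MvPowerSeries.coeff m f := by
  rw [MvPowerSeries.X_def, MvPowerSeries.coeff_monomial_mul]
  by_cases h : Finsupp.single b 1 ≤ m
  · rw [if_pos h, one_mul, MvPowerSeries.coeff_pderiv, tsub_add_cancel_of_le h]
    have h1 : 1 ≤ m b := Finsupp.single_le_iff.1 h
    have h2 : (m - Finsupp.single b 1 : Fin N →₀ ℕ) b + 1 = m b := by
      rw [Finsupp.tsub_apply, Finsupp.single_eq_same]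
      omega
    have h3 : (((m - Finsupp.single b 1 : Fin N →₀ ℕ) b : ℕ) : Polynomial ℂ) + 1 = Polynomial.C (m b : ℂ) := by
      rw [← h2, map_natCast]
      push_cast
      ring
    rw [h3, mul_comm]
  · rw [if_neg h]
    have h1 : m b = 0 := by
      by_contra h0
      exact h (Finsupp.single_le_iff.2 (Nat.one_le_iff_ne_zero.2 h0))
    rw [h1, Nat.cast_zero, Polynomial.C_0, zero_mul]

/-- homogeneity of one invariant -/
private theorem algx_inv_homog (T : EquivGW X) (β : X.Curve) (s : Multiset (Fin N)) (δ : ℂ)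
    (h : ∀ n : ℕ, (s.map X.deg).sum + 3 = X.dim + Multiset.card s + X.c1 β + n →
      δ = (n : ℂ)) :
    Polynomial.X * Polynomial.derivative (T.invT β s) = Polynomial.C δ * T.invT β s := by
  ext n
  rw [Polynomial.coeff_C_mul]
  rcases n with _ | n
  · rw [Polynomial.coeff_X_mul_zero]
    by_cases h0 : (T.invT β s).coeff 0 = 0
    · rw [h0, mul_zero]
    · rw [h 0 (T.dimension β s 0 h0)]
      simp
  · rw [Polynomial.coeff_X_mul, Polynomial.coeff_derivative]
    by_cases h0 : (T.invT β s).coeff (n + 1) = 0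
    · rw [h0, mul_zero, zero_mul]
    · rw [h (n + 1) (T.dimension β s (n + 1) h0)]
      push_cast
      ring

private theorem algx_corrAt_eq (T : EquivGW X) (t' : Fin N → ℂ) (s : Multiset (Fin N))
    (K : Finset X.Curve) (hK : (T.finite_support s).toFinset ⊆ K) :
    corrAt T.toEquivData t' s =
      ∑ β ∈ K, Polynomial.C (Complex.exp (∑ i, t' i * X.period β i)) * T.invT β s := by
  rw [corrAt]
  refine finsum_eq_sum_of_support_subset _ fun β hβ => hK ?_
  rw [Set.Finite.mem_toFinset, Function.mem_support]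
  rw [Function.mem_support] at hβ
  exact right_ne_zero_of_mul hβ

private theorem algx_chern_div (T : AxGW X) (β : X.Curve) (s : Multiset (Fin N))
    (hs : 3 ≤ Multiset.card s) :
    ∑ b, Polynomial.C (X.chern b) * T.invT β (b ::ₘ s) =
      Polynomial.C (X.c1 β : ℂ) * T.invT β s := by
  by_cases hβ : β = X.zero
  · have h0 : X.c1 β = 0 := (X.c1_eq_zero β).2 hβ
    rw [h0, Nat.cast_zero, Polynomial.C_0, zero_mul]
    refine Finset.sum_eq_zero fun b _ => ?_
    rw [hβ, T.degree_zeroT (b ::ₘ s) (by rw [Multiset.card_cons]; omega), mul_zero]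
  · have h1 : ∀ b, Polynomial.C (X.chern b) * T.invT β (b ::ₘ s) =
        Polynomial.C (X.chern b * X.period β b) * T.invT β s := by
      intro b
      by_cases hb : X.chern b = 0
      · rw [hb, zero_mul, Polynomial.C_0, zero_mul, zero_mul]
      · rw [T.divisorT β s b hβ hs (X.chern_deg b hb), map_mul, mul_assoc]
    rw [Finset.sum_congr rfl fun b _ => h1 b, ← Finset.sum_mul, ← map_sum, X.chern_period]

private theorem algx_corr_euler (T : AxGW X) (t' : Fin N → ℂ) (s : Multiset (Fin N))
    (hs : 3 ≤ Multiset.card s) :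
    ∑ b, Polynomial.C (X.chern b) * corrAt T.toEquivData t' (b ::ₘ s) +
      Polynomial.X * Polynomial.derivative (corrAt T.toEquivData t' s) =
    Polynomial.C (((s.map X.deg).sum : ℂ) + 3 - X.dim - Multiset.card s) *
      corrAt T.toEquivData t' s := by
  classical
  obtain ⟨K, hK⟩ : ∃ K : Finset X.Curve, K = (T.toEquivGW.finite_support s).toFinset ∪
    Finset.univ.biUnion fun b => (T.toEquivGW.finite_support (b ::ₘ s)).toFinset := ⟨_, rfl⟩
  have h0 := algx_corrAt_eq T.toEquivGW t' s K (by rw [hK]; exact Finset.subset_union_left)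
  have h1 : ∀ b, corrAt T.toEquivData t' (b ::ₘ s) = ∑ β ∈ K,
      Polynomial.C (Complex.exp (∑ i, t' i * X.period β i)) * T.invT β (b ::ₘ s) := by
    intro b
    refine algx_corrAt_eq T.toEquivGW t' (b ::ₘ s) K ?_
    rw [hK]
    exact (Finset.subset_biUnion_of_mem (fun b => (T.toEquivGW.finite_support (b ::ₘ s)).toFinset)
      (Finset.mem_univ b)).trans Finset.subset_union_right
  rw [Finset.sum_congr rfl fun b _ => by rw [h1 b, Finset.mul_sum], Finset.sum_comm, h0,
    Polynomial.derivative_sum, Finset.mul_sum, ← Finset.sum_add_distrib, Finset.mul_sum]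
  refine Finset.sum_congr rfl fun β _ => ?_
  have h2 : ∑ b, Polynomial.C (X.chern b) *
      (Polynomial.C (Complex.exp (∑ i, t' i * X.period β i)) * T.invT β (b ::ₘ s)) =
      Polynomial.C (Complex.exp (∑ i, t' i * X.period β i)) *
        (Polynomial.C (X.c1 β : ℂ) * T.invT β s) := by
    rw [← algx_chern_div T β s hs, Finset.mul_sum]
    exact Finset.sum_congr rfl fun b _ => mul_left_comm _ _ _
  have h3 := algx_inv_homog T.toEquivGW β s
    (((s.map X.deg).sum : ℂ) + 3 - X.dim - Multiset.card s - X.c1 β) (fun n hn => by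
      have h4 : (((s.map X.deg).sum : ℕ) : ℂ) + 3 = X.dim + Multiset.card s + X.c1 β + n := by
        exact_mod_cast hn
      linear_combination h4)
  rw [h2, Polynomial.derivative_C_mul]
  have h5 : Polynomial.X * (Polynomial.C (Complex.exp (∑ i, t' i * X.period β i)) *
      Polynomial.derivative (T.invT β s)) =
      Polynomial.C (Complex.exp (∑ i, t' i * X.period β i)) *
        (Polynomial.C (((s.map X.deg).sum : ℂ) + 3 - X.dim - Multiset.card s - X.c1 β) *
          T.invT β s) := by
    rw [← h3]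
    exact mul_left_comm _ _ _
  rw [h5, map_sub Polynomial.C _ (X.c1 β : ℂ)]
  ring

private theorem algx_sum_toMultiset (f : Fin N → ℕ) (m : Fin N →₀ ℕ) :
    ((Finsupp.toMultiset m).map f).sum = ∑ b, m b * f b := by
  have h1 : Finsupp.toMultiset m = ∑ b, m b • ({b} : Multiset (Fin N)) := by
    rw [Finsupp.toMultiset_apply, Finsupp.sum_fintype]
    intro b
    exact zero_smul _ _
  have h2 : ((Finsupp.toMultiset m).map f).sum =
      (Multiset.sumAddMonoidHom.comp (Multiset.mapAddMonoidHom f)) (Finsupp.toMultiset m) := rfl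
  rw [h2, h1, map_sum]
  refine Finset.sum_congr rfl fun b _ => ?_
  rw [map_nsmul]
  simp

private theorem algx_serAt_euler (T : AxGW X) (t' : Fin N → ℂ) (a c l : Fin N) :
    ∑ b, (MvPowerSeries.C (Polynomial.C (X.chern b)) +
        MvPowerSeries.C (Polynomial.C (1 - (X.deg b : ℂ))) * MvPowerSeries.X b) *
        MvPowerSeries.pderiv (Polynomial ℂ) b (serAt T.toEquivData t' {a, c, l}) +
      algx_lamMv (serAt T.toEquivData t' {a, c, l}) =
    MvPowerSeries.C (Polynomial.C ((X.deg a : ℂ) + X.deg c + X.deg l - X.dim)) *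
      serAt T.toEquivData t' {a, c, l} := by
  ext m : 1
  rw [map_add, map_sum, algx_coeff_lamMv, MvPowerSeries.coeff_C_mul]
  have h1 : ∀ b, MvPowerSeries.coeff m ((MvPowerSeries.C (Polynomial.C (X.chern b)) +
        MvPowerSeries.C (Polynomial.C (1 - (X.deg b : ℂ))) * MvPowerSeries.X b) *
        MvPowerSeries.pderiv (Polynomial ℂ) b (serAt T.toEquivData t' {a, c, l})) =
      Polynomial.C (∏ i, ((m i).factorial : ℂ))⁻¹ * (Polynomial.C (X.chern b) *
        corrAt T.toEquivData t' (b ::ₘ ({a, c, l} + Finsupp.toMultiset m)) +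
        Polynomial.C ((1 - (X.deg b : ℂ)) * m b) *
          corrAt T.toEquivData t' ({a, c, l} + Finsupp.toMultiset m)) := by
    intro b
    rw [add_mul, mul_assoc, map_add, MvPowerSeries.coeff_C_mul, MvPowerSeries.coeff_C_mul,
      algx_coeff_X_pderiv, algx_pderiv_serAt, algx_coeff_serAt, algx_coeff_serAt, Multiset.cons_add, map_mul]
    ring
  rw [Finset.sum_congr rfl fun b _ => h1 b, ← Finset.mul_sum, Finset.sum_add_distrib,
    algx_coeff_serAt, Polynomial.derivative_C_mul]
  have h2 := algx_corr_euler T t' ({a, c, l} + Finsupp.toMultiset m) (by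
    rw [Multiset.card_add]
    have h3 : Multiset.card ({a, c, l} : Multiset (Fin N)) = 3 := rfl
    omega)
  have h4 : ((({a, c, l} + Finsupp.toMultiset m : Multiset (Fin N)).map X.deg).sum : ℂ) =
      X.deg a + X.deg c + X.deg l + ∑ b, (m b : ℂ) * X.deg b := by
    rw [Multiset.map_add, Multiset.sum_add, algx_sum_toMultiset]
    have h5 : (({a, c, l} : Multiset (Fin N)).map X.deg).sum =
        X.deg a + (X.deg c + X.deg l) := rfl
    rw [h5]
    push_cast
    ring
  have h6 : (Multiset.card ({a, c, l} + Finsupp.toMultiset m : Multiset (Fin N)) : ℂ) =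
      3 + ∑ b, (m b : ℂ) := by
    rw [Multiset.card_add, Finsupp.card_toMultiset, Finsupp.sum_fintype]
    · have h3 : Multiset.card ({a, c, l} : Multiset (Fin N)) = 3 := rfl
      rw [h3]
      push_cast
      rfl
    · intro b
      rfl
  rw [h4, h6] at h2
  rw [← Finset.sum_mul, ← map_sum]
  have h7 : ∑ b, (1 - (X.deg b : ℂ)) * m b = ∑ b, (m b : ℂ) - ∑ b, (m b : ℂ) * X.deg b := by
    rw [← Finset.sum_sub_distrib]
    exact Finset.sum_congr rfl fun b _ => by ring
  rw [h7]
  have h8 : Polynomial.C ((X.deg a : ℂ) + X.deg c + X.deg l - X.dim) =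
      Polynomial.C ((X.deg a : ℂ) + X.deg c + X.deg l + ∑ b, (m b : ℂ) * X.deg b + 3 - X.dim -
        (3 + ∑ b, (m b : ℂ))) +
      Polynomial.C (∑ b, (m b : ℂ) - ∑ b, (m b : ℂ) * X.deg b) := by
    rw [← map_add]
    congr 1
    ring
  rw [h8]
  linear_combination Polynomial.C (∏ i, ((m i).factorial : ℂ))⁻¹ * h2

private theorem algx_pairT_homog (T : EquivGW X) (i j : Fin N) :
    Polynomial.X * Polynomial.derivative (T.pairT i j) =
      Polynomial.C ((X.deg i : ℂ) + X.deg j - X.dim) * T.pairT i j := by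
  have key : ∀ n, (T.pairT i j).coeff n ≠ 0 → (X.deg i : ℂ) + X.deg j - X.dim = n := by
    intro n hn
    have h1 : (X.deg i : ℂ) + X.deg j = X.dim + n := by exact_mod_cast T.pair_deg i j n hn
    linear_combination h1
  ext n
  rw [Polynomial.coeff_C_mul]
  rcases n with _ | n
  · rw [Polynomial.coeff_X_mul_zero]
    by_cases h0 : (T.pairT i j).coeff 0 = 0
    · rw [h0, mul_zero]
    · rw [key 0 h0]
      simp
  · rw [Polynomial.coeff_X_mul, Polynomial.coeff_derivative]
    by_cases h0 : (T.pairT i j).coeff (n + 1) = 0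
    · rw [h0, mul_zero, zero_mul]
    · rw [key (n + 1) h0]
      push_cast
      ring

private theorem algx_pairInv_homog (T : EquivGW X) (k l : Fin N) :
    Polynomial.X * Polynomial.derivative (T.pairT⁻¹ k l) =
      Polynomial.C ((X.dim : ℂ) - X.deg k - X.deg l) * T.pairT⁻¹ k l := by
  obtain ⟨A, hA⟩ : ∃ A, A = T.pairT := ⟨_, rfl⟩
  obtain ⟨B, hB⟩ : ∃ B, B = T.pairT⁻¹ := ⟨_, rfl⟩
  have hAB : A * B = 1 := by
    rw [hA, hB]
    exact Matrix.mul_nonsing_inv _ T.pair_nondeg
  have hBA : B * A = 1 := by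
    rw [hA, hB]
    exact Matrix.nonsing_inv_mul _ T.pair_nondeg
  obtain ⟨dA, hdA⟩ : ∃ dA : Matrix (Fin N) (Fin N) (Polynomial ℂ),
    dA = A.map fun p => Polynomial.X * Polynomial.derivative p := ⟨_, rfl⟩
  obtain ⟨dB, hdB⟩ : ∃ dB : Matrix (Fin N) (Fin N) (Polynomial ℂ),
    dB = B.map fun p => Polynomial.X * Polynomial.derivative p := ⟨_, rfl⟩
  obtain ⟨D, hD⟩ : ∃ D : Matrix (Fin N) (Fin N) (Polynomial ℂ),
    D = Matrix.diagonal fun i => Polynomial.C (X.deg i : ℂ) := ⟨_, rfl⟩
  obtain ⟨c, hc⟩ : ∃ c : Polynomial ℂ, c = Polynomial.C (X.dim : ℂ) := ⟨_, rfl⟩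
  have h1 : dA = D * A + A * D - c • A := by
    ext1 i j
    rw [hdA, Matrix.map_apply, Matrix.sub_apply, Matrix.add_apply, hD, Matrix.diagonal_mul,
      Matrix.mul_diagonal, Matrix.smul_apply, smul_eq_mul, hc, hA, algx_pairT_homog T i j, map_sub,
      map_add]
    ring
  have h2 : dA * B + A * dB = 0 := by
    ext1 i j
    have h3 := congrArg (fun p => Polynomial.X * Polynomial.derivative p)
      (congrFun (congrFun hAB i) j)
    simp only [Matrix.mul_apply] at h3
    rw [Polynomial.derivative_sum, Finset.mul_sum] at h3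
    have h4 : Polynomial.X * Polynomial.derivative ((1 : Matrix (Fin N) (Fin N) (Polynomial ℂ)) i j)
        = 0 := by
      rw [Matrix.one_apply]
      split_ifs
      · rw [Polynomial.derivative_one, mul_zero]
      · rw [Polynomial.derivative_zero, mul_zero]
    rw [h4] at h3
    rw [Matrix.add_apply, Matrix.mul_apply, Matrix.mul_apply, ← Finset.sum_add_distrib,
      Matrix.zero_apply, ← h3]
    refine Finset.sum_congr rfl fun k _ => ?_
    rw [hdA, hdB, Matrix.map_apply, Matrix.map_apply, Polynomial.derivative_mul]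
    ring
  have h5 : dB = -(B * D + D * B - c • B) := by
    have h6 : A * dB = -(dA * B) := by
      rw [eq_neg_iff_add_eq_zero, add_comm]
      exact h2
    calc dB = (B * A) * dB := by rw [hBA, Matrix.one_mul]
      _ = B * -(dA * B) := by rw [Matrix.mul_assoc, h6]
      _ = -(B * D * (A * B) + (B * A) * D * B - c • (B * (A * B))) := by
        rw [h1, Matrix.mul_neg]
        simp only [Matrix.mul_add, Matrix.add_mul, Matrix.mul_sub, Matrix.sub_mul,
          Matrix.mul_smul, Matrix.smul_mul, Matrix.mul_assoc]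
      _ = -(B * D + D * B - c • B) := by
        rw [hAB, hBA, Matrix.mul_one, Matrix.one_mul, Matrix.mul_one]
  have h7 := congrFun (congrFun h5 k) l
  rw [hdB, Matrix.map_apply, Matrix.neg_apply, Matrix.sub_apply, Matrix.add_apply, hD,
    Matrix.mul_diagonal, Matrix.diagonal_mul, Matrix.smul_apply, smul_eq_mul, hc, hB] at h7
  rw [h7, map_sub, map_sub]
  ring

private theorem algx_lamMv_sum {ι : Type} (s : Finset ι)
    (f : ι → MvPowerSeries (Fin N) (Polynomial ℂ)) :
    algx_lamMv (∑ i ∈ s, f i) = ∑ i ∈ s, algx_lamMv (f i) := by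
  ext m : 1
  rw [algx_coeff_lamMv, map_sum, map_sum, map_sum, Finset.mul_sum]
  rfl

private theorem algx_lamMv_C_mul (p : Polynomial ℂ) (f : MvPowerSeries (Fin N) (Polynomial ℂ)) :
    algx_lamMv (MvPowerSeries.C p * f) =
      MvPowerSeries.C (Polynomial.X * Polynomial.derivative p) * f +
        MvPowerSeries.C p * algx_lamMv f := by
  ext m : 1
  rw [algx_coeff_lamMv, map_add, MvPowerSeries.coeff_C_mul, MvPowerSeries.coeff_C_mul,
    MvPowerSeries.coeff_C_mul, algx_coeff_lamMv, Polynomial.derivative_mul]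
  ring

private theorem algx_mulAt_euler (T : AxGW X) {t' : Fin N → ℂ} (a k c : Fin N) :
    ∑ b, (MvPowerSeries.C (Polynomial.C (X.chern b)) +
        MvPowerSeries.C (Polynomial.C (1 - (X.deg b : ℂ))) * MvPowerSeries.X b) *
        MvPowerSeries.pderiv (Polynomial ℂ) b (mulAt T.toEquivData t' a k c) +
      algx_lamMv (mulAt T.toEquivData t' a k c) =
    MvPowerSeries.C (Polynomial.C ((X.deg a : ℂ) + X.deg c - X.deg k)) *
      mulAt T.toEquivData t' a k c := by
  have h1 : mulAt T.toEquivData t' a k c =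
      ∑ l, MvPowerSeries.C (T.pairT⁻¹ k l) * serAt T.toEquivData t' {a, c, l} := rfl
  have h2 : ∀ b, MvPowerSeries.pderiv (Polynomial ℂ) b (mulAt T.toEquivData t' a k c) =
      ∑ l, MvPowerSeries.C (T.pairT⁻¹ k l) *
        MvPowerSeries.pderiv (Polynomial ℂ) b (serAt T.toEquivData t' {a, c, l}) := by
    intro b
    rw [h1, map_sum]
    refine Finset.sum_congr rfl fun l _ => ?_
    rw [Derivation.leibniz, MvPowerSeries.pderiv_C, smul_zero, add_zero, smul_eq_mul]
  have h3 : algx_lamMv (mulAt T.toEquivData t' a k c) =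
      ∑ l, (MvPowerSeries.C (Polynomial.C ((X.dim : ℂ) - X.deg k - X.deg l) * T.pairT⁻¹ k l) *
        serAt T.toEquivData t' {a, c, l} + MvPowerSeries.C (T.pairT⁻¹ k l) *
          algx_lamMv (serAt T.toEquivData t' {a, c, l})) := by
    rw [h1, algx_lamMv_sum]
    refine Finset.sum_congr rfl fun l _ => ?_
    rw [algx_lamMv_C_mul, algx_pairInv_homog T.toEquivGW]
  rw [h3, Finset.sum_congr rfl fun b _ => by rw [h2 b, Finset.mul_sum], Finset.sum_comm,
    ← Finset.sum_add_distrib, h1, Finset.mul_sum]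
  refine Finset.sum_congr rfl fun l _ => ?_
  have h4 := algx_serAt_euler T t' a c l
  have h5 : ∑ b, (MvPowerSeries.C (Polynomial.C (X.chern b)) +
        MvPowerSeries.C (Polynomial.C (1 - (X.deg b : ℂ))) * MvPowerSeries.X b) *
        (MvPowerSeries.C (T.pairT⁻¹ k l) *
          MvPowerSeries.pderiv (Polynomial ℂ) b (serAt T.toEquivData t' {a, c, l})) =
      MvPowerSeries.C (T.pairT⁻¹ k l) * ∑ b, (MvPowerSeries.C (Polynomial.C (X.chern b)) +
        MvPowerSeries.C (Polynomial.C (1 - (X.deg b : ℂ))) * MvPowerSeries.X b) *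
          MvPowerSeries.pderiv (Polynomial ℂ) b (serAt T.toEquivData t' {a, c, l}) := by
    rw [Finset.mul_sum]
    exact Finset.sum_congr rfl fun b _ => mul_left_comm _ _ _
  rw [h5]
  have h6 : (Polynomial.C ((X.deg a : ℂ) + X.deg c - X.deg k) : Polynomial ℂ) =
      Polynomial.C ((X.deg a : ℂ) + X.deg c + X.deg l - X.dim) +
        Polynomial.C ((X.dim : ℂ) - X.deg k - X.deg l) := by
    rw [← map_add]
    congr 1
    ring
  rw [h6, map_add, map_mul]
  linear_combination MvPowerSeries.C (T.pairT⁻¹ k l) * h4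


variable (T : AxGW X) {t : Fin N → ℂ}

theorem ax_comm (ht : ∀ i, t i ≠ 0 → X.deg i = 1) (a b : Fin N) :
    mulAt T.toEquivData t a * mulAt T.toEquivData t b =
      mulAt T.toEquivData t b * mulAt T.toEquivData t a :=
  algx_mulAt_comm T ht a b

theorem ax_pderiv (a b : Fin N) :
    (mulAt T.toEquivData t b).map (MvPowerSeries.pderiv (Polynomial ℂ) a) =
      (mulAt T.toEquivData t a).map (MvPowerSeries.pderiv (Polynomial ℂ) b) :=
  algx_mulAt_pderiv T.toEquivGW t a b

theorem ax_unit (a k : Fin N) :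
    mulAt T.toEquivData t a k X.one = if k = a then 1 else 0 :=
  algx_mulAt_unit T a k

theorem ax_const (κ : ℂ) : ∑ a, Polynomial.C (X.chern a) •
      (mulAt T.toEquivData t a).map MvPowerSeries.constantCoeff +
        (Polynomial.C κ * Polynomial.X) • (1 : Matrix (Fin N) (Fin N) (Polynomial ℂ)) =
    chernT T.toEquivData t κ := by
  have h1 : ∀ b c l, MvPowerSeries.constantCoeff (serAt T.toEquivData t {b, c, l}) =
      corrAt T.toEquivData t {b, c, l} := by
    intro b c l
    rw [← MvPowerSeries.coeff_zero_eq_constantCoeff, algx_coeff_serAt, map_zero, add_zero]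
    simp
  ext1 k c
  have h2 : ∀ b, MvPowerSeries.constantCoeff (mulAt T.toEquivData t b k c) =
      ∑ l, T.pairT⁻¹ k l * corrAt T.toEquivData t {b, c, l} := by
    intro b
    have h3 : mulAt T.toEquivData t b k c =
      ∑ l, MvPowerSeries.C (T.pairT⁻¹ k l) * serAt T.toEquivData t {b, c, l} := rfl
    rw [h3, map_sum]
    refine Finset.sum_congr rfl fun l _ => ?_
    rw [map_mul, MvPowerSeries.constantCoeff_C, h1]
  unfold chernT
  rw [Matrix.add_apply, Matrix.add_apply, Matrix.sum_apply]
  congr 1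
  rw [Matrix.of_apply]
  refine Finset.sum_congr rfl fun b _ => ?_
  rw [Matrix.smul_apply, Matrix.map_apply, smul_eq_mul, h2]

theorem ax_hom (ht : ∀ i, t i ≠ 0 → X.deg i = 1) (a k c : Fin N) (m : Fin N →₀ ℕ) :
    Polynomial.X * Polynomial.derivative (MvPowerSeries.coeff m (mulAt T.toEquivData t a k c)) +
      (∑ b, (m b : ℂ) * (1 - (X.deg b : ℂ))) •
        MvPowerSeries.coeff m (mulAt T.toEquivData t a k c) +
      ∑ b, X.chern b • MvPowerSeries.coeff m
        (MvPowerSeries.pderiv (Polynomial ℂ) b (mulAt T.toEquivData t a k c)) =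
    ((X.deg a : ℂ) + X.deg c - X.deg k) •
      MvPowerSeries.coeff m (mulAt T.toEquivData t a k c) := by
  have h := congrArg (MvPowerSeries.coeff m) (algx_mulAt_euler T (t' := t) a k c)
  rw [map_add, map_sum, algx_coeff_lamMv, MvPowerSeries.coeff_C_mul] at h
  have h1 : ∀ b, MvPowerSeries.coeff m ((MvPowerSeries.C (Polynomial.C (X.chern b)) +
        MvPowerSeries.C (Polynomial.C (1 - (X.deg b : ℂ))) * MvPowerSeries.X b) *
        MvPowerSeries.pderiv (Polynomial ℂ) b (mulAt T.toEquivData t a k c)) =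
      X.chern b • MvPowerSeries.coeff m
        (MvPowerSeries.pderiv (Polynomial ℂ) b (mulAt T.toEquivData t a k c)) +
      Polynomial.C ((m b : ℂ) * (1 - (X.deg b : ℂ))) *
        MvPowerSeries.coeff m (mulAt T.toEquivData t a k c) := by
    intro b
    rw [add_mul, mul_assoc, map_add, MvPowerSeries.coeff_C_mul, MvPowerSeries.coeff_C_mul,
      algx_coeff_X_pderiv, Polynomial.smul_eq_C_mul, map_mul]
    ring
  rw [Finset.sum_congr rfl fun b _ => h1 b, Finset.sum_add_distrib, ← Finset.sum_mul,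
    ← map_sum] at h
  rw [Polynomial.smul_eq_C_mul, Polynomial.smul_eq_C_mul]
  rw [← h]
  ring

end Pool.Agent.FLB
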