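import Pool.Agent.DST.BulkDefs

/-!
# FLB-Ax: the axioms of an equivariant genus-zero theory (`AxGW`)
-/

set_option autoImplicit false

open scoped BigOperators Topology

namespace Pool.Agent.FLB

open Pool.Agent.Helper18.Dub Pool.Agent.Helper7.DubStokes Pool.Agent.SHF Pool.Agent.DST

/-- equivariant theory with the divisor axiom, the degree zero axiom and the WDVV equations at the
points of `H^2` -/
structure AxGW {N : ℕ} (X : FanoGW (Fin N)) extends EquivGW X where
  period_zero : ∀ i, X.period X.zero i = 0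
  divisorT : ∀ β s i, β ≠ X.zero → 3 ≤ Multiset.card s → X.deg i = 1 →
    invT β (i ::ₘ s) = Polynomial.C (X.period β i) * invT β s
  degree_zeroT : ∀ s, 4 ≤ Multiset.card s → invT X.zero s = 0
  wdvvAt : ∀ t' : Fin N → ℂ, (∀ i, t' i ≠ 0 → X.deg i = 1) → ∀ a b c d,
    ∑ e, ∑ f, MvPowerSeries.C (pairT⁻¹ e f) * serAt toEquivData t' {a, b, e} *
        serAt toEquivData t' {f, c, d} =
      ∑ e, ∑ f, MvPowerSeries.C (pairT⁻¹ e f) * serAt toEquivData t' {b, c, e} *
        serAt toEquivData t' {f, a, d}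

end Pool.Agent.FLB
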