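import Mathlib

/-!
# FLB-Com: matrices commuting with a regular semisimple matrix, to a finite order

`comm_zero`: a matrix which commutes with a matrix `E₀` with separable characteristic polynomial and is
orthogonal to all powers of `E₀` for the trace form is `0`. `comm_upto`: if `E` and `A` commute and the
constant term of `E` is regular semisimple, then a `T` which commutes with `E` up to order `k` commutes with
`A` up to order `k`. `comm_upto_poly`: the same with coefficients in `ℂ[λ]`.
-/

set_option autoImplicit false

open scoped BigOperators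

namespace Pool.Agent.FLB

variable {n σ : Type} [Fintype n] [DecidableEq n] [Fintype σ] [DecidableEq σ]

theorem comm_zero {E₀ Z : Matrix n n ℂ} (hs : E₀.charpoly.Separable) (h : E₀ * Z = Z * E₀)
    (ht : ∀ j : ℕ, (Z * E₀ ^ j).trace = 0) : Z = 0 := by
  classical
  rcases isEmpty_or_nonempty n with hn | hn
  · exact Subsingleton.elim _ _
  let f : Module.End ℂ (n → ℂ) := Matrix.toLin' E₀
  let g : Module.End ℂ (n → ℂ) := Matrix.toLin' Z
  let I := {r // r ∈ E₀.charpoly.roots.toFinset}
  have hcard : Fintype.card I = Fintype.card n := by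
    rw [Fintype.card_coe, Multiset.toFinset_card_of_nodup (Polynomial.nodup_roots hs),
      IsAlgClosed.card_roots_eq_natDegree, Matrix.charpoly_natDegree_eq_dim]
  have hne : E₀.charpoly ≠ 0 := (Matrix.charpoly_monic E₀).ne_zero
  have hev : ∀ r : I, ∃ v, Module.End.HasEigenvector f r.1 v := by
    intro r
    refine Module.End.HasEigenvalue.exists_hasEigenvector ?_
    rw [Module.End.hasEigenvalue_iff_isRoot_charpoly]
    have h1 : LinearMap.charpoly f = E₀.charpoly := by
      simp [f]
    rw [h1]
    have h2 := r.2
    rw [Multiset.mem_toFinset, Polynomial.mem_roots hne] at h2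
    exact h2
  choose v hv using hev
  have hli : LinearIndependent ℂ v :=
    Module.End.eigenvectors_linearIndependent' f (fun r : I => r.1) Subtype.val_injective v hv
  have : Nonempty I := by
    rw [← Fintype.card_pos_iff, hcard]
    exact Fintype.card_pos
  let b : Module.Basis I ℂ (n → ℂ) := basisOfLinearIndependentOfCardEqFinrank hli (by
    rw [hcard, Module.finrank_pi])
  have hb : ∀ r, b r = v r := fun r => by
    simp [b]
  have hf : ∀ r, f (b r) = r.1 • b r := fun r => by
    rw [hb]
    exact (hv r).apply_eq_smul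
  have hfg : ∀ x, f (g x) = g (f x) := by
    intro x
    have h1 : E₀.mulVec (Z.mulVec x) = Z.mulVec (E₀.mulVec x) := by
      rw [Matrix.mulVec_mulVec, Matrix.mulVec_mulVec, h]
    simpa [f, g] using h1
  -- coordinates of `f x`
  have hrep : ∀ x s, b.repr (f x) s = s.1 * b.repr x s := by
    intro x s
    have h1 : f x = ∑ r, b.repr x r • (r.1 • b r) := by
      conv_lhs => rw [← b.sum_repr x]
      rw [map_sum]
      exact Finset.sum_congr rfl fun r _ => by rw [map_smul, hf]
    rw [h1, map_sum, Finset.sum_apply']
    simp only [map_smul, Module.Basis.repr_self, Finsupp.smul_apply, smul_eq_mul]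
    rw [Finset.sum_eq_single s]
    · rw [Finsupp.single_eq_same]
      ring
    · intro r _ hr
      rw [Finsupp.single_eq_of_ne (by tauto)]
      ring
    · intro hs
      exact absurd (Finset.mem_univ s) hs
  have hoff : ∀ r s : I, s ≠ r → b.repr (g (b r)) s = 0 := by
    intro r s hsr
    have h1 := hrep (g (b r)) s
    rw [hfg, hf, map_smul, map_smul, Finsupp.smul_apply, smul_eq_mul] at h1
    have h2 : (r.1 - s.1) * b.repr (g (b r)) s = 0 := by
      linear_combination h1
    rcases mul_eq_zero.1 h2 with h3 | h3
    · exact absurd (Subtype.ext (sub_eq_zero.1 h3)).symm hsr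
    · exact h3
  have hfpow : ∀ (j : ℕ) (r : I), (f ^ j) (b r) = r.1 ^ j • b r := by
    intro j r
    induction j with
    | zero => simp
    | succ j ih =>
      rw [pow_succ', Module.End.mul_apply, ih, map_smul, hf, smul_smul, pow_succ]
  have htr : ∀ j : ℕ, ∑ r : I, b.repr (g (b r)) r * r.1 ^ j = 0 := by
    intro j
    have h1 : LinearMap.trace ℂ (n → ℂ) (g * f ^ j) = 0 := by
      have h2 : g * f ^ j = Matrix.toLin' (Z * E₀ ^ j) := by
        rw [Matrix.toLin'_mul, Matrix.toLin'_pow]
        rfl
      rw [h2, Matrix.trace_toLin'_eq]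
      exact ht j
    rw [LinearMap.trace_eq_matrix_trace ℂ b, Matrix.trace] at h1
    rw [← h1]
    refine Finset.sum_congr rfl fun r _ => ?_
    rw [Matrix.diag_apply, LinearMap.toMatrix_apply, Module.End.mul_apply, hfpow, map_smul, map_smul,
      Finsupp.smul_apply, smul_eq_mul]
    ring
  have hdiag : ∀ r : I, b.repr (g (b r)) r = 0 := by
    intro r
    have h1 : ∀ p : Polynomial ℂ, ∑ s : I, b.repr (g (b s)) s * p.eval s.1 = 0 := by
      intro p
      simp only [Polynomial.eval_eq_sum_range, Finset.mul_sum]
      rw [Finset.sum_comm]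
      refine Finset.sum_eq_zero fun j _ => ?_
      have h2 := htr j
      calc ∑ s : I, b.repr (g (b s)) s * (p.coeff j * s.1 ^ j)
          = p.coeff j * ∑ s : I, b.repr (g (b s)) s * s.1 ^ j := by
            rw [Finset.mul_sum]
            exact Finset.sum_congr rfl fun s _ => by ring
        _ = 0 := by rw [h2, mul_zero]
    have h2 := h1 (Lagrange.basis Finset.univ (fun s : I => s.1) r)
    rw [Finset.sum_eq_single r] at h2
    · rw [Lagrange.eval_basis_self (Set.injOn_of_injective Subtype.val_injective) (Finset.mem_univ r), mul_one] at h2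
      exact h2
    · intro s _ hsr
      rw [Lagrange.eval_basis_of_ne hsr.symm (Finset.mem_univ s), mul_zero]
    · intro h3
      exact absurd (Finset.mem_univ r) h3
  have hg : g = 0 := by
    refine b.ext fun r => ?_
    apply b.repr.injective
    ext s
    by_cases hsr : s = r
    · rw [hsr, hdiag]
      simp
    · rw [hoff r s hsr]
      simp
  have h5 : Matrix.toLin' Z = 0 := hg
  exact (LinearEquiv.map_eq_zero_iff Matrix.toLin').1 h5

/-- all coefficients up to order `k` of all entries vanish -/
private def Van {R : Type} [CommRing R] (k : ℕ) (M : Matrix n n (MvPowerSeries σ R)) : Prop :=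
  ∀ m : σ →₀ ℕ, m.degree ≤ k → ∀ i j, MvPowerSeries.coeff m (M i j) = 0

private theorem Van.add {R : Type} [CommRing R] {k : ℕ} {M N : Matrix n n (MvPowerSeries σ R)}
    (hM : Van k M) (hN : Van k N) : Van k (M + N) := fun m hm i j => by
  rw [Matrix.add_apply, map_add, hM m hm, hN m hm, add_zero]

private theorem Van.sub {R : Type} [CommRing R] {k : ℕ} {M N : Matrix n n (MvPowerSeries σ R)}
    (hM : Van k M) (hN : Van k N) : Van k (M - N) := fun m hm i j => by
  rw [Matrix.sub_apply, map_sub, hM m hm, hN m hm, sub_zero]

private theorem deg_le {m a b : σ →₀ ℕ} (h : a + b = m) : a.degree ≤ m.degree ∧ b.degree ≤ m.degree := by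
  rw [← h, map_add]
  omega

private theorem Van.mul_right {R : Type} [CommRing R] {k : ℕ} {M N : Matrix n n (MvPowerSeries σ R)}
    (hM : Van k M) : Van k (M * N) := fun m hm i j => by
  rw [Matrix.mul_apply, map_sum]
  refine Finset.sum_eq_zero fun l _ => ?_
  rw [MvPowerSeries.coeff_mul]
  refine Finset.sum_eq_zero fun p hp => ?_
  rw [hM p.1 ((deg_le (Finset.HasAntidiagonal.mem_antidiagonal.1 hp)).1.trans hm), zero_mul]

private theorem Van.mul_left {R : Type} [CommRing R] {k : ℕ} {M N : Matrix n n (MvPowerSeries σ R)}
    (hM : Van k M) : Van k (N * M) := fun m hm i j => by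
  rw [Matrix.mul_apply, map_sum]
  refine Finset.sum_eq_zero fun l _ => ?_
  rw [MvPowerSeries.coeff_mul]
  refine Finset.sum_eq_zero fun p hp => ?_
  rw [hM p.2 ((deg_le (Finset.HasAntidiagonal.mem_antidiagonal.1 hp)).2.trans hm), mul_zero]

private theorem low_right {R : Type} [CommRing R] {m : σ →₀ ℕ} {f g : MvPowerSeries σ R}
    (h : ∀ b : σ →₀ ℕ, b.degree < m.degree → MvPowerSeries.coeff b g = 0) :
    MvPowerSeries.coeff m (f * g) = MvPowerSeries.constantCoeff f * MvPowerSeries.coeff m g := by
  rw [MvPowerSeries.coeff_mul, Finset.sum_eq_single (0, m)]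
  · rw [MvPowerSeries.coeff_zero_eq_constantCoeff]
  · intro p hp hne
    have h1 := Finset.HasAntidiagonal.mem_antidiagonal.1 hp
    have h2 : p.1 ≠ 0 := by
      intro h2
      apply hne
      rw [h2, zero_add] at h1
      exact Prod.ext h2 h1
    have h3 : p.1.degree ≠ 0 := by
      rw [Ne, Finsupp.degree_eq_zero_iff]
      exact h2
    have h4 : p.1.degree + p.2.degree = m.degree := by
      rw [← h1, map_add]
    rw [h p.2 (by omega), mul_zero]
  · intro h1
    exact absurd (Finset.HasAntidiagonal.mem_antidiagonal.2 (zero_add m)) h1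

private theorem low_left {R : Type} [CommRing R] {m : σ →₀ ℕ} {f g : MvPowerSeries σ R}
    (h : ∀ b : σ →₀ ℕ, b.degree < m.degree → MvPowerSeries.coeff b g = 0) :
    MvPowerSeries.coeff m (g * f) = MvPowerSeries.coeff m g * MvPowerSeries.constantCoeff f := by
  rw [mul_comm, low_right h, mul_comm]

private theorem comm_pow {R : Type} [CommRing R] {k : ℕ} {E T : Matrix n n (MvPowerSeries σ R)}
    (h : Van k (E * T - T * E)) (j : ℕ) : Van k (T * E ^ j - E ^ j * T) := by
  induction j with
  | zero =>
    intro m _ i l
    rw [pow_zero, mul_one, one_mul, sub_self, Matrix.zero_apply, map_zero]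
  | succ j ih =>
    have h1 : T * E ^ (j + 1) - E ^ (j + 1) * T =
        (T * E ^ j - E ^ j * T) * E - E ^ j * (E * T - T * E) := by
      rw [pow_succ]
      noncomm_ring
    rw [h1]
    exact ih.mul_right.sub h.mul_left

theorem comm_upto {E A T : Matrix n n (MvPowerSeries σ ℂ)} (hEA : E * A = A * E)
    (hs : (E.map MvPowerSeries.constantCoeff).charpoly.Separable) (k : ℕ)
    (h : ∀ m : σ →₀ ℕ, m.degree ≤ k → ∀ i j, MvPowerSeries.coeff m ((E * T - T * E) i j) = 0)
    (m : σ →₀ ℕ) (hm : m.degree ≤ k) (i j : n) :
    MvPowerSeries.coeff m ((A * T - T * A) i j) = 0 := by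
  have hE : Van k (E * T - T * E) := h
  have hJ : Van k (E * (A * T - T * A) - (A * T - T * A) * E) := by
    have h1 : E * (A * T - T * A) - (A * T - T * A) * E =
        A * (E * T - T * E) - (E * T - T * E) * A := by
      have h2 : E * A * T = A * E * T := by rw [hEA]
      have h3 : T * A * E = T * E * A := by rw [Matrix.mul_assoc, ← hEA, Matrix.mul_assoc]
      calc E * (A * T - T * A) - (A * T - T * A) * E
          = E * A * T - E * T * A - A * T * E + T * A * E := by noncomm_ring
        _ = A * E * T - E * T * A - A * T * E + T * E * A := by rw [h2, h3]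
        _ = A * (E * T - T * E) - (E * T - T * E) * A := by noncomm_ring
    rw [h1]
    exact hE.mul_left.sub hE.mul_right
  have htr : ∀ l : ℕ, ((A * T - T * A) * E ^ l).trace = (A * (T * E ^ l - E ^ l * T)).trace := by
    intro l
    have h1 : (T * A * E ^ l).trace = (A * (E ^ l * T)).trace := by
      rw [Matrix.mul_assoc, Matrix.trace_mul_comm, Matrix.mul_assoc]
    rw [Matrix.sub_mul, Matrix.trace_sub, h1, Matrix.mul_sub, Matrix.trace_sub, Matrix.mul_assoc]
  generalize hZ : A * T - T * A = Z at hJ htr ⊢
  have key : ∀ d : ℕ, d ≤ k → ∀ m : σ →₀ ℕ, m.degree = d → ∀ i j, MvPowerSeries.coeff m (Z i j) = 0 := by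
    intro d
    induction d using Nat.strong_induction_on with
    | _ d ih =>
      intro hd m hm
      have hlow : ∀ i j, ∀ b : σ →₀ ℕ, b.degree < m.degree → MvPowerSeries.coeff b (Z i j) = 0 :=
        fun i j b hb => ih b.degree (by omega) (by omega) b rfl i j
      have h0 : Z.map (MvPowerSeries.coeff m) = 0 := by
        refine comm_zero hs ?_ ?_
        · ext i j
          have h1 := hJ m (by omega) i j
          rw [Matrix.sub_apply, map_sub, sub_eq_zero, Matrix.mul_apply, Matrix.mul_apply, map_sum,
            map_sum] at h1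
          rw [Matrix.mul_apply, Matrix.mul_apply]
          simp only [Matrix.map_apply]
          rw [Finset.sum_congr rfl fun l _ => low_right (hlow l j),
            Finset.sum_congr rfl fun l _ => low_left (hlow i l)] at h1
          exact h1
        · intro l
          have h1 : MvPowerSeries.coeff m ((Z * E ^ l).trace) = 0 := by
            rw [htr, Matrix.trace, map_sum]
            refine Finset.sum_eq_zero fun i _ => ?_
            rw [Matrix.diag_apply]
            exact (comm_pow hE l).mul_left m (by omega) i i
          rw [Matrix.trace, map_sum] at h1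
          rw [Matrix.trace, ← h1]
          refine Finset.sum_congr rfl fun i _ => ?_
          rw [Matrix.diag_apply, Matrix.diag_apply, Matrix.mul_apply, Matrix.mul_apply, map_sum]
          refine Finset.sum_congr rfl fun q _ => ?_
          rw [low_left (hlow i q), Matrix.map_apply]
          congr 1
          have h2 := congrFun (congrFun (map_pow (MvPowerSeries.constantCoeff (σ := σ) (R := ℂ)).mapMatrix E l) q) i
          rw [RingHom.mapMatrix_apply, Matrix.map_apply, RingHom.mapMatrix_apply] at h2
          exact h2.symm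
      intro i j
      exact congrFun (congrFun h0 i) j
  exact key m.degree hm m rfl i j

theorem comm_upto_poly {E A T : Matrix n n (MvPowerSeries σ (Polynomial ℂ))}
    (hEA : E * A = A * E)
    (hs : Set.Infinite {y : ℂ |
      ((E.map MvPowerSeries.constantCoeff).map (Polynomial.eval y)).charpoly.Separable}) (k : ℕ)
    (h : ∀ m : σ →₀ ℕ, m.degree ≤ k → ∀ i j, MvPowerSeries.coeff m ((E * T - T * E) i j) = 0)
    (m : σ →₀ ℕ) (hm : m.degree ≤ k) (i j : n) :
    MvPowerSeries.coeff m ((A * T - T * A) i j) = 0 := by
  refine Polynomial.eq_zero_of_infinite_isRoot _ (hs.mono fun y hy => ?_)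
  let φ : MvPowerSeries σ (Polynomial ℂ) →+* MvPowerSeries σ ℂ :=
    MvPowerSeries.map (Polynomial.evalRingHom y)
  have hφ : ∀ (a : σ →₀ ℕ) (p : MvPowerSeries σ (Polynomial ℂ)),
      MvPowerSeries.coeff a (φ p) = (MvPowerSeries.coeff a p).eval y := by
    intro a p
    rw [MvPowerSeries.coeff_map]
    rfl
  have hc : ∀ P Q : Matrix n n (MvPowerSeries σ (Polynomial ℂ)), ∀ a b,
      (φ.mapMatrix P * φ.mapMatrix Q - φ.mapMatrix Q * φ.mapMatrix P) a b = φ ((P * Q - Q * P) a b) := by
    intro P Q a b
    rw [← map_mul, ← map_mul, ← map_sub]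
    rfl
  have h1 := comm_upto (E := φ.mapMatrix E) (A := φ.mapMatrix A) (T := φ.mapMatrix T)
    (by rw [← map_mul, ← map_mul, hEA]) (by
      have h2 : (φ.mapMatrix E).map MvPowerSeries.constantCoeff =
          (E.map MvPowerSeries.constantCoeff).map (Polynomial.eval y) := by
        ext a b
        rw [RingHom.mapMatrix_apply, Matrix.map_apply, Matrix.map_apply, Matrix.map_apply,
          Matrix.map_apply, ← MvPowerSeries.coeff_zero_eq_constantCoeff_apply, hφ,
          MvPowerSeries.coeff_zero_eq_constantCoeff_apply]
      rw [h2]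
      exact hy) k (fun a ha b c => by
      rw [hc, hφ, h a ha b c, Polynomial.eval_zero]) m hm i j
  rw [hc, hφ] at h1
  exact h1

end Pool.Agent.FLB
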