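import Pool.Agent.FLB.Ind
import Pool.Agent.FLB.Com
import Pool.Agent.FLB.Alg

/-!
# FLB-ExtA: the extension of the shift operator from `H^2` to big quantum cohomology

PLAN. Apply `exists_ext` with `R₀ = ℂ[λ]`, `R = ℂ[λ][z]`, `z = X`, `π` = evaluation at `z = 0`
(`Polynomial.evalRingHom 0`, `X ∣ p ↔ eval 0 p = 0`), `i₀ = C`, `i₁ = shiftHom 1` (as `ℂ`-algebra homs),
`δ₀ = λ d/dλ` and `δ` = the Euler derivation: coefficient of `z^n` is `n f_n + λ f_n'` (define it as a
`Derivation ℂ _ _`; it is determined by `δ λ = λ`, `δ z = z`, so `δ ∘ i₁ = i₁ ∘ δ₀` follows from the value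
`λ - z` on the generator: both are derivations along `i₁`), `d = D = deg`, `c = chern`, `A = mulAt T t`
(`ax_comm`, `ax_pderiv`, `ax_hom`), `hcomm` = `comm_upto_poly` (`E = ∑ chern_b mulAt_b` commutes with `mulAt_a`;
its constant coefficient is `chernT T t κ - κ λ` by `ax_const`, whose values have a separable characteristic
polynomial iff those of `chernT` have: the shift by a scalar matrix).
`h₀`: the numerical equation `hS` says `(δ S)(x, z) = θ S - S θ - z⁻¹ (C_t(x) S - S C_t(x - z))` at
`x = y e^w`, `z = e^w` (derivative of `evm₂ S (y e^w) (e^w)` is `(δ S)(y e^w, e^w)`: induction on polynomials);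
multiply by `z`: two polynomials in `(x, z)` agree for all `z ≠ 0`, so they are equal
(`Polynomial.funext` twice / infinitely many zeros). `theta X = D/2 - deg`, so
`(θ S - S θ)_{ij} = (deg j - deg i) S_{ij}`; `chernT(x) S - S chernT(x - z)` contains
`κ x S - κ (x - z) S = κ z S`.
-/

set_option autoImplicit false

open scoped BigOperators Topology

namespace Pool.Agent.FLB

open Pool.Agent.Helper18.Dub Pool.Agent.Helper7.DubStokes Pool.Agent.SHF Pool.Agent.DST


private noncomputable def ExtA_d0 : Derivation ℂ (Polynomial ℂ) (Polynomial ℂ) :=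
  (Polynomial.X : Polynomial ℂ) • Polynomial.derivative'

private theorem ExtA_d0_apply (p : Polynomial ℂ) :
    ExtA_d0 p = Polynomial.X * Polynomial.derivative p := rfl

private noncomputable def ExtA_dl :
    Derivation ℂ (Polynomial (Polynomial ℂ)) (Polynomial (Polynomial ℂ)) :=
  (PolynomialModule.equivPolynomialSelf (R := Polynomial ℂ)).toLinearMap.compDer ExtA_d0.mapCoeffs

private noncomputable def ExtA_dz :
    Derivation ℂ (Polynomial (Polynomial ℂ)) (Polynomial (Polynomial ℂ)) :=
  (Polynomial.X : Polynomial (Polynomial ℂ)) •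
    Derivation.restrictScalars ℂ (Polynomial.derivative' (R := Polynomial ℂ))

private noncomputable def ExtA_d :
    Derivation ℂ (Polynomial (Polynomial ℂ)) (Polynomial (Polynomial ℂ)) := ExtA_dl + ExtA_dz

private theorem ExtA_dl_monomial (n : ℕ) (a : Polynomial ℂ) :
    ExtA_dl (Polynomial.monomial n a) =
      Polynomial.monomial n (Polynomial.X * Polynomial.derivative a) := by
  have h1 : ExtA_dl (Polynomial.monomial n a) =
    PolynomialModule.equivPolynomialSelf (ExtA_d0.mapCoeffs (Polynomial.monomial n a)) := rfl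
  rw [h1, Derivation.mapCoeffs_monomial, PolynomialModule.equivPolynomialSelf_apply_eq,
    PolynomialModule.equivPolynomial_single, ExtA_d0_apply]

private theorem ExtA_dz_apply (p : Polynomial (Polynomial ℂ)) :
    ExtA_dz p = Polynomial.X * Polynomial.derivative p := rfl

private theorem ExtA_d_monomial (n : ℕ) (a : Polynomial ℂ) :
    ExtA_d (Polynomial.monomial n a) =
      Polynomial.monomial n (Polynomial.X * Polynomial.derivative a + (n : Polynomial ℂ) * a) := by
  have h1 : ExtA_d (Polynomial.monomial n a) =
    ExtA_dl (Polynomial.monomial n a) + ExtA_dz (Polynomial.monomial n a) := rfl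
  rw [h1, ExtA_dl_monomial, ExtA_dz_apply, Polynomial.derivative_monomial, map_add]
  congr 1
  rcases n with _ | n
  · simp
  · rw [Nat.add_sub_cancel, Polynomial.X_mul_monomial]
    congr 1
    ring

private theorem ExtA_d_X : ExtA_d Polynomial.X = Polynomial.X := by
  rw [← Polynomial.monomial_one_one_eq_X, ExtA_d_monomial]
  congr 1
  simp

private theorem ExtA_d_C (a : Polynomial ℂ) :
    ExtA_d (Polynomial.C a) = Polynomial.C (Polynomial.X * Polynomial.derivative a) := by
  rw [← Polynomial.monomial_zero_left, ExtA_d_monomial, ← Polynomial.monomial_zero_left]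
  congr 1
  simp

private theorem ExtA_eval_d (p : Polynomial (Polynomial ℂ)) (y w : ℂ) :
    HasDerivAt (fun w => Polynomial.evalEval (y * Complex.exp w) (Complex.exp w) p)
      (Polynomial.evalEval (y * Complex.exp w) (Complex.exp w) (ExtA_d p)) w := by
  induction p using Polynomial.induction_on' with
  | add p q hp hq =>
    simp only [Polynomial.evalEval_add, map_add]
    exact hp.add hq
  | monomial n a =>
    have h0 : ∀ x z : ℂ, ∀ b : Polynomial ℂ,
        Polynomial.evalEval x z (Polynomial.monomial n b) = b.eval x * z ^ n := by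
      intro x z b
      rw [Polynomial.evalEval, Polynomial.eval_monomial, Polynomial.eval_mul, Polynomial.eval_pow,
        Polynomial.eval_C]
    rw [ExtA_d_monomial]
    simp only [h0]
    have h1 : HasDerivAt (fun w => y * Complex.exp w) (y * Complex.exp w) w :=
      (Complex.hasDerivAt_exp w).const_mul y
    have h2 : HasDerivAt (fun w => a.eval (y * Complex.exp w))
        ((Polynomial.derivative a).eval (y * Complex.exp w) * (y * Complex.exp w)) w :=
      HasDerivAt.comp (h₂ := fun x => a.eval x) w (a.hasDerivAt (y * Complex.exp w)) h1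
    have h3 : HasDerivAt (fun w => Complex.exp w ^ n)
        ((n : ℂ) * Complex.exp w ^ (n - 1) * Complex.exp w) w :=
      (Complex.hasDerivAt_exp w).pow n
    have h4 : HasDerivAt (fun w => a.eval (y * Complex.exp w) * Complex.exp w ^ n) _ w := h2.mul h3
    refine h4.congr_deriv ?_
    rw [Polynomial.eval_add, Polynomial.eval_mul, Polynomial.eval_X, Polynomial.eval_mul,
      Polynomial.eval_natCast]
    rcases n with _ | n
    · simp
      ring
    · rw [Nat.add_sub_cancel]
      ring

private noncomputable def ExtA_i1 : Polynomial ℂ →ₐ[ℂ] Polynomial (Polynomial ℂ) :=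
  { shiftHom 1 with
    commutes' := fun r => by
      show shiftHom 1 (Polynomial.C r) = Polynomial.C (Polynomial.C r)
      unfold shiftHom
      rw [Polynomial.coe_eval₂RingHom, Polynomial.eval₂_C]
      rfl }

private theorem ExtA_i1_apply (p : Polynomial ℂ) : ExtA_i1 p = shiftHom 1 p := rfl

private theorem ExtA_shift_C (r : ℂ) :
    shiftHom 1 (Polynomial.C r) = Polynomial.C (Polynomial.C r) := by
  unfold shiftHom
  rw [Polynomial.coe_eval₂RingHom, Polynomial.eval₂_C]
  rfl

private theorem ExtA_shift_X : shiftHom 1 (Polynomial.X : Polynomial ℂ) =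
    Polynomial.C Polynomial.X - Polynomial.X := by
  unfold shiftHom
  rw [Polynomial.coe_eval₂RingHom, Polynomial.eval₂_X]
  simp

private theorem ExtA_d_shift (p : Polynomial ℂ) :
    ExtA_d (shiftHom 1 p) = shiftHom 1 (Polynomial.X * Polynomial.derivative p) := by
  induction p using Polynomial.induction_on' with
  | add p q hp hq =>
    rw [map_add, map_add, hp, hq, Polynomial.derivative_add, mul_add, map_add]
  | monomial n a =>
    have hx : ExtA_d (Polynomial.C Polynomial.X - Polynomial.X) =
        Polynomial.C Polynomial.X - Polynomial.X := by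
      rw [map_sub, ExtA_d_C, ExtA_d_X, Polynomial.derivative_X, mul_one]
    have hc : ExtA_d (Polynomial.C (Polynomial.C a)) = 0 := by
      rw [ExtA_d_C, Polynomial.derivative_C, mul_zero, map_zero]
    rw [← Polynomial.C_mul_X_pow_eq_monomial, map_mul, map_pow, ExtA_shift_C, ExtA_shift_X,
      Derivation.leibniz, hc, smul_zero, add_zero, Derivation.leibniz_pow, hx,
      Polynomial.derivative_C_mul, Polynomial.derivative_X_pow, map_mul, map_mul, map_mul, map_pow,
      ExtA_shift_C, ExtA_shift_C, ExtA_shift_X]
    rcases n with _ | n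
    · simp
    · rw [Nat.add_sub_cancel, smul_eq_mul, smul_eq_mul, nsmul_eq_mul]
      push_cast
      have h1 : (Polynomial.C ((n : ℂ) + 1) : Polynomial ℂ) = (n : Polynomial ℂ) + 1 := by
        simp
      have h2 : (Polynomial.C ((n : Polynomial ℂ) + 1) : Polynomial (Polynomial ℂ)) =
          (n : Polynomial (Polynomial ℂ)) + 1 := by
        simp
      rw [h1, h2]
      ring

private noncomputable def ExtA_pi : Polynomial (Polynomial ℂ) →ₐ[ℂ] Polynomial ℂ :=
  (Polynomial.aeval (R := Polynomial ℂ) (0 : Polynomial ℂ)).restrictScalars ℂ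

private theorem ExtA_pi_apply (p : Polynomial (Polynomial ℂ)) : ExtA_pi p = p.eval 0 := by
  show Polynomial.aeval (0 : Polynomial ℂ) p = _
  rw [Polynomial.coe_aeval_eq_eval]

private theorem ExtA_pi_zero (p : Polynomial (Polynomial ℂ)) :
    ExtA_pi p = 0 ↔ Polynomial.X ∣ p := by
  rw [ExtA_pi_apply, Polynomial.X_dvd_iff, Polynomial.coeff_zero_eq_eval_zero]

private theorem ExtA_pi_i0 (p : Polynomial ℂ) :
    ExtA_pi ((Polynomial.CAlgHom : Polynomial ℂ →ₐ[ℂ] Polynomial (Polynomial ℂ)) p) = p := by
  rw [ExtA_pi_apply]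
  exact Polynomial.eval_C

private theorem ExtA_pi_i1 (p : Polynomial ℂ) : ExtA_pi (ExtA_i1 p) = p := by
  have h : ExtA_pi.comp ExtA_i1 = AlgHom.id ℂ (Polynomial ℂ) := by
    refine Polynomial.algHom_ext ?_
    rw [AlgHom.comp_apply, ExtA_i1_apply, ExtA_shift_X, ExtA_pi_apply]
    simp
  exact DFunLike.congr_fun h p

private theorem ExtA_smul (r : ℂ) (p : Polynomial (Polynomial ℂ)) :
    r • p = Polynomial.C (Polynomial.C r) * p := by
  rw [Algebra.smul_def]
  rfl

private theorem ExtA_ev_shift (x z : ℂ) (p : Polynomial ℂ) :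
    Polynomial.evalEval x z (shiftHom 1 p) = p.eval (x - z) := by
  have h : (Polynomial.evalEvalRingHom x z).comp (shiftHom 1) = Polynomial.evalRingHom (x - z) := by
    refine Polynomial.ringHom_ext (fun a => ?_) ?_
    · rw [RingHom.comp_apply, ExtA_shift_C]
      simp
    · rw [RingHom.comp_apply, ExtA_shift_X]
      simp
  exact DFunLike.congr_fun h p

variable {N : ℕ} {X : FanoGW (Fin N)}

private theorem ExtA_theta (e : ℂ) (A A' B : Matrix (Fin N) (Fin N) ℂ) (i j : Fin N) :
    ((theta X - e • A) * B - B * (theta X - e • A')) i j =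
      ((X.deg j : ℂ) - X.deg i) * B i j - e * ((A * B) i j - (B * A') i j) := by
  rw [Matrix.sub_mul, Matrix.mul_sub, Matrix.smul_mul, Matrix.mul_smul]
  simp only [Matrix.sub_apply, Matrix.smul_apply, smul_eq_mul]
  unfold theta
  rw [Matrix.diagonal_mul, Matrix.mul_diagonal]
  ring

private theorem ExtA_zero (p : Polynomial (Polynomial ℂ))
    (h : ∀ x z : ℂ, z ≠ 0 → Polynomial.evalEval x z p = 0) : p = 0 := by
  have h1 : ∀ z : ℂ, z ≠ 0 → p.eval (Polynomial.C z) = 0 := by
    intro z hz
    refine Polynomial.funext fun x => ?_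
    rw [Polynomial.eval_zero]
    exact h x z hz
  refine Polynomial.eq_zero_of_infinite_isRoot p ?_
  have h2 : Set.Infinite (Polynomial.C '' {z : ℂ | z ≠ 0}) := by
    refine Set.Infinite.image (Polynomial.C_injective.injOn) ?_
    exact (Set.finite_singleton (0 : ℂ)).infinite_compl
  refine h2.mono ?_
  rintro _ ⟨z, hz, rfl⟩
  exact h1 z hz

private theorem ExtA_h0 (C0 : Matrix (Fin N) (Fin N) (Polynomial ℂ))
    (S : Matrix (Fin N) (Fin N) (Polynomial (Polynomial ℂ)))
    (hS : ∀ (y w : ℂ) (i j : Fin N),
      HasDerivAt (fun w => evm₂ S (y * Complex.exp w) (Complex.exp w) i j)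
        (((theta X - Complex.exp (-w) • evm C0 (y * Complex.exp w)) *
            evm₂ S (y * Complex.exp w) (Complex.exp w) -
          evm₂ S (y * Complex.exp w) (Complex.exp w) *
            (theta X - Complex.exp (-w) •
              evm C0 ((y - 1) * Complex.exp w))) i j) w) (i j : Fin N) :
    Polynomial.X * ExtA_d (S i j) +
      (C0.map Polynomial.C * S - S * C0.map (shiftHom 1)) i j =
      ((X.deg j : ℂ) - X.deg i) • (Polynomial.X * S i j) := by
  rw [← sub_eq_zero]
  refine ExtA_zero _ fun x z hz => ?_
  have hw : Complex.exp (Complex.log z) = z := Complex.exp_log hz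
  have hw' : Complex.exp (-Complex.log z) = z⁻¹ := by
    rw [Complex.exp_neg, hw]
  have h1 := (ExtA_eval_d (S i j) (x / z) (Complex.log z)).unique (hS (x / z) (Complex.log z) i j)
  rw [hw, hw', div_mul_cancel₀ x hz, ExtA_theta] at h1
  have h2 : (x / z - 1) * z = x - z := by
    field_simp
  rw [h2] at h1
  have h3 : Polynomial.evalEval x z ((C0.map Polynomial.C * S) i j) =
      (evm C0 x * evm₂ S x z) i j := by
    rw [Matrix.mul_apply, Matrix.mul_apply, Polynomial.evalEval_finsetSum]
    refine Finset.sum_congr rfl fun k _ => ?_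
    rw [Polynomial.evalEval_mul, Matrix.map_apply, Polynomial.evalEval_C]
    rfl
  have h4 : Polynomial.evalEval x z ((S * C0.map (shiftHom 1)) i j) =
      (evm₂ S x z * evm C0 (x - z)) i j := by
    rw [Matrix.mul_apply, Matrix.mul_apply, Polynomial.evalEval_finsetSum]
    refine Finset.sum_congr rfl fun k _ => ?_
    rw [Polynomial.evalEval_mul, Matrix.map_apply, ExtA_ev_shift]
    rfl
  rw [Polynomial.evalEval_sub, Polynomial.evalEval_add, Polynomial.evalEval_mul,
    Polynomial.evalEval_X, h1, Matrix.sub_apply, Polynomial.evalEval_sub, h3, h4,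
    Polynomial.evalEval_smul, Polynomial.evalEval_mul, Polynomial.evalEval_X, smul_eq_mul]
  have h5 : evm₂ S x z i j = Polynomial.evalEval x z (S i j) := rfl
  rw [h5]
  field_simp
  ring

private theorem ExtA_sep (M : Matrix (Fin N) (Fin N) ℂ) (μ : ℂ) (h : M.charpoly.Separable) :
    (M - Matrix.scalar (Fin N) μ).charpoly.Separable := by
  rw [Matrix.charpoly_sub_scalar]
  have h1 : IsCoprime (M.charpoly.comp (Polynomial.X + Polynomial.C μ))
      ((Polynomial.derivative M.charpoly).comp (Polynomial.X + Polynomial.C μ)) :=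
    IsCoprime.map h (Polynomial.compRingHom (Polynomial.X + Polynomial.C μ))
  unfold Polynomial.Separable
  rw [Polynomial.derivative_comp]
  simpa using h1

theorem exists_Sb (T : AxGW X) {t : Fin N → ℂ} (ht : ∀ i, t i ≠ 0 → X.deg i = 1) (κ : ℂ)
    (hsep : Set.Infinite {y : ℂ | (evm (chernT T.toEquivData t κ) y).charpoly.Separable})
    (S : Matrix (Fin N) (Fin N) (Polynomial (Polynomial ℂ)))
    (hS : ∀ (y w : ℂ) (i j : Fin N),
      HasDerivAt (fun w => evm₂ S (y * Complex.exp w) (Complex.exp w) i j)
        (((theta X - Complex.exp (-w) • evm (chernT T.toEquivData t κ) (y * Complex.exp w)) *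
            evm₂ S (y * Complex.exp w) (Complex.exp w) -
          evm₂ S (y * Complex.exp w) (Complex.exp w) *
            (theta X - Complex.exp (-w) •
              evm (chernT T.toEquivData t κ) ((y - 1) * Complex.exp w))) i j) w) :
    ∃ Sb : Matrix (Fin N) (Fin N) (MvPowerSeries (Fin N) (Polynomial (Polynomial ℂ))),
      (∀ i j, MvPowerSeries.constantCoeff (Sb i j) = S i j) ∧
      ∀ a, (MvPowerSeries.C (Polynomial.X : Polynomial (Polynomial ℂ)) :
          MvPowerSeries (Fin N) (Polynomial (Polynomial ℂ))) •
          Sb.map (MvPowerSeries.pderiv (Polynomial (Polynomial ℂ)) a) =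
        (mulAt T.toEquivData t a).map (MvPowerSeries.map Polynomial.C) * Sb -
          Sb * (mulAt T.toEquivData t a).map (MvPowerSeries.map (shiftHom 1)) := by
  classical
  have hh0 := ExtA_h0 (chernT T.toEquivData t κ) S hS
  have hconst := ax_const T (t := t) κ
  have hAc : ∀ a, (∑ b, X.chern b • mulAt T.toEquivData t b) * mulAt T.toEquivData t a =
      mulAt T.toEquivData t a * ∑ b, X.chern b • mulAt T.toEquivData t b := by
    intro a
    rw [Finset.sum_mul, Finset.mul_sum]
    refine Finset.sum_congr rfl fun b _ => ?_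
    rw [Matrix.smul_mul, Matrix.mul_smul, ax_comm T ht b a]
  have hE0 : ∀ y : ℂ, (((∑ b, X.chern b • mulAt T.toEquivData t b).map
      MvPowerSeries.constantCoeff).map (Polynomial.eval y)) =
      evm (chernT T.toEquivData t κ) y - Matrix.scalar (Fin N) (κ * y) := by
    intro y
    rw [← hconst]
    ext i j
    unfold evm
    rw [Matrix.sub_apply, Matrix.map_apply, Matrix.map_apply, Matrix.map_apply, Matrix.add_apply,
      Matrix.sum_apply, Matrix.sum_apply, map_sum, Polynomial.eval_add, Polynomial.eval_finsetSum,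
      Polynomial.eval_finsetSum, Matrix.smul_apply, Matrix.scalar_apply, Matrix.diagonal_apply,
      Matrix.one_apply]
    have h1 : ∀ b, Polynomial.eval y (MvPowerSeries.constantCoeff
        ((X.chern b • mulAt T.toEquivData t b) i j)) =
        Polynomial.eval y ((Polynomial.C (X.chern b) •
          (mulAt T.toEquivData t b).map MvPowerSeries.constantCoeff) i j) := by
      intro b
      rw [Matrix.smul_apply, Matrix.smul_apply, Matrix.map_apply]
      have h2 : MvPowerSeries.constantCoeff (X.chern b • mulAt T.toEquivData t b i j) =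
        X.chern b • MvPowerSeries.constantCoeff (mulAt T.toEquivData t b i j) := rfl
      rw [h2, Polynomial.smul_eq_C_mul, smul_eq_mul]
    rw [Finset.sum_congr rfl fun b _ => h1 b]
    split_ifs <;> simp
  have hinf : Set.Infinite {y : ℂ | (((∑ b, X.chern b • mulAt T.toEquivData t b).map
      MvPowerSeries.constantCoeff).map (Polynomial.eval y)).charpoly.Separable} := by
    refine hsep.mono fun y hy => ?_
    rw [Set.mem_ofPred_eq, hE0]
    exact ExtA_sep _ _ hy
  obtain ⟨Sb, h1, h2⟩ := exists_ext (Polynomial.X : Polynomial (Polynomial ℂ))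
    Polynomial.X_ne_zero ExtA_d ExtA_d_X ExtA_d0 ExtA_pi ExtA_pi_zero
    (Polynomial.CAlgHom : Polynomial ℂ →ₐ[ℂ] Polynomial (Polynomial ℂ)) ExtA_i1
    ExtA_pi_i0 ExtA_pi_i1 (fun x => ExtA_d_C x) (fun x => ExtA_d_shift x)
    (fun a => (X.deg a : ℂ)) X.chern (fun i => (X.deg i : ℂ)) κ (mulAt T.toEquivData t)
    (fun a b => ax_pderiv T a b) (fun a b => ax_comm T ht a b)
    (fun a i j m => ax_hom T ht a i j m)
    (fun U k hU a m hm i j => comm_upto_poly (hAc a) hinf k hU m hm i j) S (by
      intro i j
      have e1 : (chernT T.toEquivData t κ).map Polynomial.C =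
          ∑ a, Polynomial.C (Polynomial.C (X.chern a)) •
            ((mulAt T.toEquivData t a).map MvPowerSeries.constantCoeff).map Polynomial.C +
          Polynomial.C (Polynomial.C κ * Polynomial.X) •
            (1 : Matrix (Fin N) (Fin N) (Polynomial (Polynomial ℂ))) := by
        rw [← hconst]
        ext1 k l
        simp only [Matrix.map_apply, Matrix.add_apply, Matrix.sum_apply, Matrix.smul_apply,
          smul_eq_mul, map_add, map_sum, map_mul, Matrix.one_apply]
        congr 1
        split_ifs <;> simp
      have e2 : (chernT T.toEquivData t κ).map (shiftHom 1) =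
          ∑ a, Polynomial.C (Polynomial.C (X.chern a)) •
            ((mulAt T.toEquivData t a).map MvPowerSeries.constantCoeff).map (shiftHom 1) +
          (Polynomial.C (Polynomial.C κ) * (Polynomial.C Polynomial.X - Polynomial.X)) •
            (1 : Matrix (Fin N) (Fin N) (Polynomial (Polynomial ℂ))) := by
        rw [← hconst]
        ext1 k l
        simp only [Matrix.map_apply, Matrix.add_apply, Matrix.sum_apply, Matrix.smul_apply,
          smul_eq_mul, map_add, map_sum, map_mul, Matrix.one_apply, ExtA_shift_C, ExtA_shift_X]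
        congr 1
        split_ifs <;> simp
      have e3 := hh0 i j
      rw [e1, e2, Matrix.add_mul, Matrix.mul_add, Matrix.sum_mul, Matrix.mul_sum] at e3
      have e4 : ∀ a, X.chern a • ((((mulAt T.toEquivData t a).map MvPowerSeries.constantCoeff).map
          (Polynomial.CAlgHom : Polynomial ℂ →ₐ[ℂ] Polynomial (Polynomial ℂ)) * S -
          S * ((mulAt T.toEquivData t a).map MvPowerSeries.constantCoeff).map ExtA_i1) i j) =
          (Polynomial.C (Polynomial.C (X.chern a)) •
            ((mulAt T.toEquivData t a).map MvPowerSeries.constantCoeff).map Polynomial.C * S) i j -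
          (S * Polynomial.C (Polynomial.C (X.chern a)) •
            ((mulAt T.toEquivData t a).map MvPowerSeries.constantCoeff).map (shiftHom 1)) i j := by
        intro a
        rw [ExtA_smul, Matrix.smul_mul, Matrix.mul_smul, Matrix.smul_apply, Matrix.smul_apply,
          smul_eq_mul, smul_eq_mul, Matrix.sub_apply, mul_sub]
        rfl
      rw [Finset.sum_congr rfl fun a _ => e4 a, Finset.sum_sub_distrib]
      rw [Matrix.sub_apply, Matrix.add_apply, Matrix.add_apply, Matrix.sum_apply, Matrix.sum_apply,
        Matrix.smul_mul, Matrix.mul_smul, Matrix.one_mul, Matrix.mul_one, Matrix.smul_apply,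
        Matrix.smul_apply, smul_eq_mul, smul_eq_mul, ExtA_smul] at e3
      rw [ExtA_smul]
      simp only [map_sub, map_mul] at e3 ⊢
      linear_combination e3)
  exact ⟨Sb, h1, h2⟩

end Pool.Agent.FLB
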