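import Pool.Agent.FLG.P.Gq

/-!
# FLB-KLem: the `K`-theory of `G/P` along `ξ`

The restrictions to the line `ℂ ξ` of the `K`-theoretic data: the diagonal and the triangularity
of the restriction matrix, the localization formula of the pairing and the fundamental solution.
-/

set_option autoImplicit false

open scoped BigOperators Topology
open Filter
open Pool.Agent.DST Pool.Agent.DST.TE Pool.Agent.DSTJ Pool.Agent.DSTJ.Spec

namespace Pool.Agent.FLG.Par

open RS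

variable {r : ℕ} {P : Par r} {N : ℕ} (n : P.Num N) {t : Fin r → ℂ} (K : P.KD t)

theorem strict_wtz : StrictMono fun p => ∑ k, wtz n p k := by
  have h1 : (fun p => ∑ k, wtz n p k) = fun p =>
      -dotProduct n.ξ (P.D.rt (n.e p).1 P.tr) := funext fun p => sum_wtz n p
  rw [h1]
  exact n.mono

theorem kl_tri {i p : Fin N} (h : p < i) : resK n.ξ (K.B (n.e i) (n.e p)) = 0 := by
  rw [K.tri n h, map_zero]

private theorem klem_ξ_sign {b : Fin r → ℤ} (hb : b ∈ P.D.Φ) :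
    0 < ∑ i, b i * n.ξ i ↔ b ∈ P.D.Pos := by
  have hpos : ∀ b ∈ P.D.Pos, 0 < ∑ i, b i * n.ξ i := by
    intro b hb
    have h1 : 0 ≤ ∑ i, b i * n.ξ i :=
      Finset.sum_nonneg fun i _ => mul_nonneg ((RS.mem_Pos.1 hb).2 i) (n.ξ_pos i).le
    exact lt_of_le_of_ne h1 (ξ_ne n (mem_of_pos hb)).symm
  constructor
  · intro h
    by_contra hn
    have h1 := hpos _ ((not_pos_iff hb).1 hn)
    have h2 : ∑ i, (-b) i * n.ξ i = -∑ i, b i * n.ξ i := by
      rw [← Finset.sum_neg_distrib]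
      exact Finset.sum_congr rfl fun i _ => by rw [Pi.neg_apply]; ring
    rw [h2] at h1
    omega
  · exact hpos b

theorem kl_diag (p : Fin N) : resK n.ξ (K.B (n.e p) (n.e p)) =
    ∏ k, if 0 < wtz n p k then 1 - LaurentPolynomial.T (wtz n p k) else 1 := by
  have h0 : ∀ a : Fin r → ℤ, -∑ i, P.D.rt (n.e p).1 a i * n.ξ i =
      ∑ i, (-P.D.rt (n.e p).1 a) i * n.ξ i := by
    intro a
    rw [← Finset.sum_neg_distrib]
    exact Finset.sum_congr rfl fun i _ => by rw [Pi.neg_apply]; ring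
  rw [K.B_diag, map_prod]
  have h1 : (∏ k, if 0 < wtz n p k then 1 - LaurentPolynomial.T (wtz n p k) else 1 :
      LaurentPolynomial ℤ) = ∏ a ∈ P.Pos, if -P.D.rt (n.e p).1 a ∈ P.D.Pos then
        1 - LaurentPolynomial.T (∑ i, (-P.D.rt (n.e p).1 a) i * n.ξ i) else 1 := by
    rw [← prod_pe fun a => (if -P.D.rt (n.e p).1 a ∈ P.D.Pos then
        1 - LaurentPolynomial.T (∑ i, (-P.D.rt (n.e p).1 a) i * n.ξ i) else 1 :
          LaurentPolynomial ℤ)]
    refine Finset.prod_congr rfl fun k _ => ?_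
    unfold wtz
    rw [h0]
    exact if_congr (klem_ξ_sign n (neg_mem (P.D.rt_mem.2 (pos_mem (pe P k).2)))) rfl rfl
  rw [h1, ← Finset.prod_filter]
  refine Finset.prod_bij' (fun b _ => -P.D.rt (n.e p).1⁻¹ b) (fun a _ => -P.D.rt (n.e p).1 a)
    ?_ ?_ ?_ ?_ ?_
  · intro b hb
    rw [RS.Inv, Finset.mem_filter] at hb
    have h2 : -P.D.rt (n.e p).1⁻¹ b ∈ P.D.Pos :=
      (not_pos_iff (P.D.rt_mem.2 (mem_of_pos hb.1))).1 hb.2
    rw [Finset.mem_filter, P.D.rt_neg, P.D.rt_rt_inv, neg_neg]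
    refine ⟨mem_Pos.2 ⟨h2, fun hl => ?_⟩, hb.1⟩
    have h3 := (x_levi (n.e p) hl).2 h2
    rw [P.D.rt_neg, P.D.rt_rt_inv] at h3
    exact neg_not_pos hb.1 h3
  · intro a ha
    rw [Finset.mem_filter] at ha
    rw [RS.Inv, Finset.mem_filter, P.D.rt_neg, P.D.rt_inv_rt]
    exact ⟨ha.2, neg_not_pos (mem_Pos.1 ha.1).1⟩
  · intro b _
    rw [P.D.rt_neg, P.D.rt_rt_inv, neg_neg]
  · intro a _
    rw [P.D.rt_neg, P.D.rt_inv_rt, neg_neg]
  · intro b _
    rw [map_sub, map_one, resK_chr, P.D.rt_neg, P.D.rt_rt_inv, neg_neg]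

theorem kl_unit : IsUnit (Matrix.of fun i j => resK n.ξ (K.χ (n.e i) (n.e j)) :
    Matrix (Fin N) (Fin N) (LaurentPolynomial ℤ)).det := by
  have h1 : (Matrix.of fun i j => resK n.ξ (K.χ (n.e i) (n.e j)) :
      Matrix (Fin N) (Fin N) (LaurentPolynomial ℤ)) =
      ((Matrix.of K.χ : Matrix P.X P.X (RH r)).map (resK n.ξ)).submatrix n.e n.e := by
    ext i j
    rfl
  rw [h1, Matrix.det_submatrix_equiv_self]
  have h2 := RingHom.map_det (resK n.ξ) (Matrix.of K.χ : Matrix P.X P.X (RH r))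
  rw [RingHom.mapMatrix_apply] at h2
  rw [← h2]
  exact K.χ_unit.map _

theorem kl_loc {y : ℂ} (hy : y.im ≠ 0) (i j : Fin N) :
    evZ y (resK n.ξ (K.χ (n.e i) (n.e j))) =
      ∑ p, evZ (-y) (resK n.ξ (K.B (n.e i) (n.e p))) * evZ y (resK n.ξ (K.B (n.e j) (n.e p))) /
        ∏ k, (1 - Complex.exp (-(2 * Real.pi * Complex.I * y * wtz n p k))) := by
  have h1 := K.χ_loc (n.e i) (n.e j) (ln0 n y) (line_nint n hy)
  rw [evZ_resK]
  have h2 : evK (fun k => y * (n.ξ k : ℂ)) (K.χ (n.e i) (n.e j)) =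
      evK (ln0 n y) (K.χ (n.e i) (n.e j)) := rfl
  rw [h2, h1]
  rw [← Equiv.sum_comp n.e]
  refine Finset.sum_congr rfl fun p _ => ?_
  rw [map_mul, evK_sK, evZ_resK, evZ_resK]
  have h3 : (-ln0 n y : Fin r → ℂ) = fun k => -y * (n.ξ k : ℂ) := by
    funext k
    simp [ln0]
  rw [h3]
  have h4 : (∏ a ∈ P.Pos, (1 - Complex.exp (2 * Real.pi * Complex.I *
      pr (P.D.rt (n.e p).1 a) (ln0 n y)))) =
      ∏ k, (1 - Complex.exp (-(2 * Real.pi * Complex.I * y * wtz n p k))) := by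
    rw [← prod_pe fun a => 1 - Complex.exp (2 * Real.pi * Complex.I *
      pr (P.D.rt (n.e p).1 a) (ln0 n y))]
    refine Finset.prod_congr rfl fun k _ => ?_
    congr 2
    have := wtz_cast n p k y
    linear_combination (2 * Real.pi * Complex.I) * this
  rw [h4]
  rfl

theorem kl_G {y : ℂ} (hy : y.im ≠ 0) (p i : Fin N) :
    ∑ a : P.X, P.Rm (ln0 n 1) (n.e p) a * y ^ P.len a.1 * K.G (ln0 n y) a (n.e i) =
    Complex.exp ((-P.D.hv t (n.e p).1 (ln0 n 1) +
      Real.pi * Complex.I * ∑ k, (wtz n p k : ℂ)) * y) *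
      evZ y (resK n.ξ (K.B (n.e i) (n.e p))) * ∏ k, Complex.Gamma (1 - wtz n p k * y) := by
  have hy0 : y ≠ 0 := by
    rintro rfl
    exact hy rfl
  have h1 := congrFun (congrFun (K.G_res (line_ne n hy0)) (n.e p)) (n.e i)
  rw [Matrix.mul_apply, Matrix.diagonal_mul, gam_line] at h1
  have h2 : ∀ a : P.X, P.Rm (ln0 n 1) (n.e p) a * y ^ P.len a.1 =
      P.Rm (ln0 n y) (n.e p) a := fun a => (res_line n y _ _).symm
  simp only [h2]
  rw [h1, evZ_resK]
  show _ * evK (ln0 n y) (K.B (n.e i) (n.e p)) = _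
  unfold ln0
  ring

end Pool.Agent.FLG.Par
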