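import Pool.Agent.FLB.PDefs
import Pool.Agent.FLG.P.Gq
import Pool.Agent.FLG.ZP.Sep

/-!
# FLB-Chern: the product with `c_1` in the theory of `G/P`

`ln0 n y = y ξ`, `wtz` are the tangent weights (Pool/Agent/FLG/P/Gq.lean). The equivariant quantum product with
`c_1` at `λ = y` is the matrix `Cq ctr t (y ξ)`, the classical one is `C0 ctr (y ξ)`; the restrictions of `c_1`
to the fixed points are the sums of the tangent weights; for infinitely many `y` the quantum product with `c_1`
has a separable characteristic polynomial (after conjugation by `diag(x^θ)` and multiplication by `x = y⁻¹` it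
is a polynomial in `x` with value `C0 ctr ξ` at `x = 0`, whose eigenvalues are distinct).
-/

set_option autoImplicit false

open scoped BigOperators Topology
open Filter

namespace Pool.Agent.FLG.Par

open RS Pool.Agent.DST.TE
open Pool.Agent.Helper18.Dub Pool.Agent.Helper7.DubStokes Pool.Agent.SHF Pool.Agent.DST
open Pool.Agent.FLB

variable {r N : ℕ} {P : Par r} {n : P.Num N} {ε : Fin N ≃ P.X} {X : FanoGW (Fin N)}

private theorem len_one0 : P.len P.one.1 = 0 := by
  rw [len_val]
  exact RS.len_one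

theorem cl_len {h : Fin r → ℂ} {a : Fin N} (ha : P.cl ε h a ≠ 0) : P.len (ε a).1 = 1 := by
  have h1 := E0_ne (P := P) ha
  rw [len_one0] at h1
  exact h1

variable (G : P.GW n ε X)

include G in
theorem cl_deg {h : Fin r → ℂ} (a : Fin N) (ha : P.cl ε h a ≠ 0) : X.deg a = 1 := by
  rw [G.deg_eq]
  exact cl_len ha

include G in
theorem theta_eq : theta X = (Matrix.diagonal P.th).submatrix ε ε := by
  ext a b
  unfold theta
  rw [Matrix.submatrix_apply, Matrix.diagonal_apply, Matrix.diagonal_apply]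
  by_cases hab : a = b
  · rw [if_pos hab, if_pos (by rw [hab])]
    unfold th
    rw [G.dim_eq, G.deg_eq]
  · rw [if_neg hab, if_neg (fun h => hab (ε.injective h))]

private theorem hv_line' (h : Fin r → ℂ) (u : P.D.W) (x : ℂ) :
    P.D.hv h u (ln0 n x) = P.D.hv h u (cc n.ξ) * x := by
  unfold hv yt ln0 cc
  rw [Finset.sum_mul]
  refine Finset.sum_congr rfl fun j _ => ?_
  rw [mul_assoc, Finset.sum_mul]
  congr 1
  refine Finset.sum_congr rfl fun i _ => ?_
  ring

private theorem diag_eq (y : ℂ) (a b : Fin N) :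
    Polynomial.eval y (P.rd n.ξ P.ctr (ε a) (ε b)) +
      Polynomial.eval y ((Polynomial.C (P.kap1 n.ξ) * Polynomial.X) •
        (1 : Matrix (Fin N) (Fin N) (Polynomial ℂ))  a b) =
      -(Matrix.diagonal (fun u : P.X => P.D.hv P.ctr u.1 (ln0 n y)) (ε a) (ε b)) := by
  unfold rd kap1
  rw [Matrix.diagonal_apply, Matrix.diagonal_apply, Matrix.one_apply]
  by_cases hab : a = b
  · have h1 : ε a = ε b := by rw [hab]
    rw [if_pos hab, if_pos h1, if_pos h1, hv_line']
    simp only [smul_eq_mul, Polynomial.eval_mul, Polynomial.eval_C, Polynomial.eval_X, Polynomial.eval_one]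
    ring
  · have h1 : ε a ≠ ε b := fun h => hab (ε.injective h)
    rw [if_neg hab, if_neg h1, if_neg h1]
    simp

theorem chernT_eq {t : Fin r → ℂ} (ht : P.Inv t) (y : ℂ) :
    evm (chernT G.toEquivData (P.cl ε t) (P.kap1 n.ξ)) y =
      (P.Cq P.ctr t (ln0 n y)).submatrix ε ε := by
  have h0 : (Matrix.of fun k b => ∑ a, Polynomial.C (X.chern a) * ∑ l, G.pairT⁻¹ k l *
      corrAt G.toEquivData (P.cl ε t) {a, b, l}) =
      ((P.E (P.D.ch P.ctr) t).map Polynomial.C + P.rd n.ξ P.ctr).submatrix ε ε := by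
    rw [← G.qchev t P.ctr ht inv_ctr]
    ext k b
    simp only [Matrix.of_apply, G.chern_eq]
  ext a b
  unfold evm chernT
  rw [h0, Matrix.map_apply, Matrix.add_apply, Matrix.submatrix_apply, Matrix.submatrix_apply,
    Matrix.add_apply, Polynomial.eval_add, Polynomial.eval_add, Matrix.map_apply, Polynomial.eval_C,
    Matrix.smul_apply, add_assoc, diag_eq]
  unfold Cq
  rw [Matrix.sub_apply]
  ring

theorem cupChernT_eq (y : ℂ) : evm (cupChernT G.toEquivData (P.kap1 n.ξ)) y =
    (P.C0 P.ctr (ln0 n y)).submatrix ε ε := by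
  have h0 : (∑ a, Polynomial.C (X.chern a) • G.cupMatT a) =
      ((P.E0 (P.D.ch P.ctr)).map Polynomial.C + P.rd n.ξ P.ctr).submatrix ε ε := by
    rw [← G.chev P.ctr inv_ctr]
    exact Finset.sum_congr rfl fun a _ => by rw [G.chern_eq]
  ext a b
  unfold evm cupChernT
  rw [h0, Matrix.map_apply, Matrix.add_apply, Matrix.submatrix_apply, Matrix.submatrix_apply,
    Matrix.add_apply, Polynomial.eval_add, Polynomial.eval_add, Matrix.map_apply, Polynomial.eval_C,
    Matrix.smul_apply, add_assoc, diag_eq]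
  unfold C0
  rw [Matrix.sub_apply]
  ring

include G in
theorem chern_res (p : Fin N) : ∑ a, X.chern a * P.Rm (ln0 n 1) (n.e p) (ε a) + P.kap1 n.ξ =
    ∑ k, (wtz n p k : ℂ) := by
  have h1 := congrFun (congrFun (Rm_C0 (P := P) inv_ctr (ln0 n 1)) (n.e p)) P.one
  rw [Matrix.mul_apply, Matrix.diagonal_mul, Rm_one, mul_one] at h1
  have h2 : ∑ u, P.Rm (ln0 n 1) (n.e p) u * P.C0 P.ctr (ln0 n 1) u P.one =
      ∑ u, P.Rm (ln0 n 1) (n.e p) u * P.E0 (P.D.ch P.ctr) u P.one -
        P.D.hv P.ctr 1 (ln0 n 1) := by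
    unfold C0
    simp only [Matrix.sub_apply, mul_sub]
    rw [Finset.sum_sub_distrib]
    congr 1
    rw [Finset.sum_eq_single P.one]
    · rw [Matrix.diagonal_apply_eq, Rm_one, one_mul]
      rfl
    · intro u _ hu
      rw [Matrix.diagonal_apply_ne _ hu, mul_zero]
    · intro h
      exact absurd (Finset.mem_univ _) h
  rw [h2] at h1
  have h3 := sum_wtz_cast n p 1
  rw [mul_one] at h3
  rw [h3, pr_neg', ← hv_ctr, ← h1, ← Equiv.sum_comp ε]
  have h4 : P.kap1 n.ξ = -P.D.hv P.ctr 1 (ln0 n 1) := by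
    unfold kap1
    rw [hv_line' (n := n), mul_one]
  rw [h4, ← sub_eq_add_neg]
  congr 1
  refine Finset.sum_congr rfl fun a _ => ?_
  rw [G.chern_eq, mul_comm]
  rfl

/-- the family with value `C0 ctr ξ` at `0` -/
private noncomputable def fam (P : Par r) (n : P.Num N) (t : Fin r → ℂ) (x : ℂ) : Matrix P.X P.X ℂ :=
  ∑ k ∈ Finset.range (P.KK + 1), x ^ k • P.Cg t k (ln0 n 1)

private theorem fam_zero (t : Fin r → ℂ) : fam P n t 0 = P.C0 P.ctr (ln0 n 1) := by
  unfold fam
  rw [Finset.sum_eq_single 0]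
  · rw [pow_zero, one_smul]
    unfold Cg
    rw [if_pos rfl]
  · intro k _ hk
    rw [zero_pow hk, zero_smul]
  · intro h
    exact absurd (Finset.mem_range.2 (Nat.succ_pos _)) h

private theorem fam_diff (t : Fin r → ℂ) (i j : P.X) : Differentiable ℂ fun x => fam P n t x i j := by
  have h1 : (fun x => fam P n t x i j) =
      fun x => ∑ k ∈ Finset.range (P.KK + 1), x ^ k * P.Cg t k (ln0 n 1) i j := by
    funext x
    unfold fam
    rw [Matrix.sum_apply]
    exact Finset.sum_congr rfl fun k _ => by rw [Matrix.smul_apply, smul_eq_mul]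
  rw [h1]
  fun_prop

private theorem isUnit_Rm : IsUnit (P.Rm (ln0 n 1)) := by
  rw [Matrix.isUnit_iff_isUnit_det, isUnit_iff_ne_zero]
  exact Rm_det_ne (line_ne n one_ne_zero)

private theorem sep_zero (n : P.Num N) : (P.C0 P.ctr (ln0 n 1)).charpoly.Separable := by
  obtain ⟨U, hU⟩ := isUnit_Rm (P := P) (n := n)
  have h1 : P.C0 P.ctr (ln0 n 1) = U⁻¹.val * Matrix.diagonal (fun p : P.X => -P.D.hv P.ctr p.1 (ln0 n 1)) *
      U.val := by
    have h2 := Rm_C0 (P := P) inv_ctr (ln0 n 1)
    rw [← hU] at h2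
    rw [mul_assoc, ← h2, ← mul_assoc, Units.inv_mul, one_mul]
  rw [h1, Matrix.coe_units_inv, Matrix.charpoly_units_conj', Matrix.charpoly_diagonal,
    Polynomial.separable_prod_X_sub_C_iff]
  intro p q hpq
  have h3 : ∀ p : P.X, -P.D.hv P.ctr p.1 (ln0 n 1) =
      ((∑ i, (-P.D.rt (n.e (n.e.symm p)).1 P.tr) i * n.ξ i : ℤ) : ℂ) := by
    intro p
    rw [hv_ctr, ← pr_neg', pr_line, mul_one, Equiv.apply_symm_apply]
  simp only [h3] at hpq
  exact n.e.symm.injective (base_ξ_e n (by exact_mod_cast hpq))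

private theorem sep_smul {κ : Type} [Fintype κ] [DecidableEq κ] {M : Matrix κ κ ℂ} {c : ℂ} (hc : c ≠ 0)
    (h : M.charpoly.Separable) : (c • M).charpoly.Separable := by
  have h1 : (c • M).charpoly = Polynomial.C (c ^ Fintype.card κ) *
      M.charpoly.comp (Polynomial.C c⁻¹ * Polynomial.X) := by
    apply Polynomial.funext
    intro x
    rw [Matrix.eval_charpoly, Polynomial.eval_mul, Polynomial.eval_C, Polynomial.eval_comp,
      Matrix.eval_charpoly, ← Matrix.det_smul]
    congr 1
    rw [smul_sub]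
    congr 1
    ext i j
    by_cases hij : i = j
    · subst hij
      simp [hc]
    · simp [hij]
  rw [h1]
  refine Polynomial.Separable.unit_mul (Polynomial.isUnit_C.2 (isUnit_iff_ne_zero.2 (pow_ne_zero _ hc))) ?_
  obtain ⟨a, b, hab⟩ := h
  refine ⟨a.comp (Polynomial.C c⁻¹ * Polynomial.X), Polynomial.C c * b.comp (Polynomial.C c⁻¹ * Polynomial.X), ?_⟩
  have h2 := congrArg (fun p => Polynomial.comp p (Polynomial.C c⁻¹ * Polynomial.X)) hab
  simp only [Polynomial.add_comp, Polynomial.mul_comp, Polynomial.one_comp] at h2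
  rw [← h2, Polynomial.derivative_comp]
  congr 1
  rw [Polynomial.derivative_C_mul, Polynomial.derivative_X, mul_one]
  have h3 : (Polynomial.C c * Polynomial.C c⁻¹ : Polynomial ℂ) = 1 := by
    rw [← Polynomial.C_mul, mul_inv_cancel₀ hc, Polynomial.C_1]
  calc Polynomial.C c * b.comp (Polynomial.C c⁻¹ * Polynomial.X) *
        (Polynomial.C c⁻¹ * (Polynomial.derivative M.charpoly).comp (Polynomial.C c⁻¹ * Polynomial.X))
      = (Polynomial.C c * Polynomial.C c⁻¹) * (b.comp (Polynomial.C c⁻¹ * Polynomial.X) *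
        (Polynomial.derivative M.charpoly).comp (Polynomial.C c⁻¹ * Polynomial.X)) := by ring
    _ = _ := by rw [h3, one_mul]

private theorem fam_conj (t : Fin r → ℂ) (s : ℂ) :
    P.Cq P.ctr t (ln0 n (Complex.exp s)) = Matrix.diagonal (fun u => Complex.exp (s * P.th u)) *
      (Complex.exp s • fam P n t (Complex.exp (-s))) *
        Matrix.diagonal (fun u => Complex.exp (-(s * P.th u))) := by
  ext u v
  rw [Matrix.mul_diagonal, Matrix.diagonal_mul, Matrix.smul_apply, smul_eq_mul]
  have h1 := P.C_graded t (ln0 n 1) s u v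
  rw [line_smul, one_mul] at h1
  have h2 : fam P n t (Complex.exp (-s)) u v =
      ∑ k ∈ Finset.range (P.KK + 1), Complex.exp (-(k * s)) * P.Cg t k (ln0 n 1) u v := by
    unfold fam
    rw [Matrix.sum_apply]
    refine Finset.sum_congr rfl fun k _ => ?_
    rw [Matrix.smul_apply, smul_eq_mul, ← Complex.exp_nat_mul]
    congr 2
    ring
  have h3 : Complex.exp (-s) * P.Cq P.ctr t (ln0 n (Complex.exp s)) u v =
      Complex.exp (s * (P.th u - P.th v)) * fam P n t (Complex.exp (-s)) u v := by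
    rw [h1, h2, Finset.mul_sum]
    exact Finset.sum_congr rfl fun k _ => by ring
  have h4 : Complex.exp (s * (P.th u - P.th v)) =
      Complex.exp (s * P.th u) * Complex.exp (-(s * P.th v)) := by
    rw [← Complex.exp_add]
    congr 1
    ring
  have h5 : Complex.exp s * Complex.exp (-s) = 1 := by
    rw [← Complex.exp_add, add_neg_cancel, Complex.exp_zero]
  calc P.Cq P.ctr t (ln0 n (Complex.exp s)) u v
      = (Complex.exp s * Complex.exp (-s)) * P.Cq P.ctr t (ln0 n (Complex.exp s)) u v := by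
        rw [h5, one_mul]
    _ = Complex.exp s * (Complex.exp (-s) * P.Cq P.ctr t (ln0 n (Complex.exp s)) u v) := by ring
    _ = _ := by
        rw [h3, h4]
        ring

private theorem sep_conj {t : Fin r → ℂ} (s : ℂ)
    (h : (fam P n t (Complex.exp (-s))).charpoly.Separable) :
    (P.Cq P.ctr t (ln0 n (Complex.exp s))).charpoly.Separable := by
  let U : (Matrix P.X P.X ℂ)ˣ :=
    { val := Matrix.diagonal (fun u => Complex.exp (s * P.th u))
      inv := Matrix.diagonal (fun u => Complex.exp (-(s * P.th u)))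
      val_inv := by
        rw [Matrix.diagonal_mul_diagonal, ← Matrix.diagonal_one]
        congr 1
        funext u
        rw [← Complex.exp_add, add_neg_cancel, Complex.exp_zero]
      inv_val := by
        rw [Matrix.diagonal_mul_diagonal, ← Matrix.diagonal_one]
        congr 1
        funext u
        rw [← Complex.exp_add, neg_add_cancel, Complex.exp_zero] }
  have h1 : P.Cq P.ctr t (ln0 n (Complex.exp s)) =
      U.val * (Complex.exp s • fam P n t (Complex.exp (-s))) * U⁻¹.val := fam_conj t s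
  rw [h1, Matrix.coe_units_inv, Matrix.charpoly_units_conj]
  exact sep_smul (Complex.exp_ne_zero s) h

theorem sep_inf {t : Fin r → ℂ} (ht : P.Inv t) : Set.Infinite {y : ℂ |
    (evm (chernT G.toEquivData (P.cl ε t) (P.kap1 n.ξ)) y).charpoly.Separable} := by
  intro hfin
  have h1 : ∀ᶠ x in 𝓝[≠] (0 : ℂ), (fam P n t x).charpoly.Separable := by
    refine sep_near (fam_diff t) (z₁ := 0) ?_
    rw [fam_zero]
    exact sep_zero n
  have h2 : Set.Finite ((fun x : ℂ => x⁻¹) ⁻¹' {y : ℂ |
      (evm (chernT G.toEquivData (P.cl ε t) (P.kap1 n.ξ)) y).charpoly.Separable}) :=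
    hfin.preimage inv_injective.injOn
  have h3 : ∀ᶠ x in 𝓝[≠] (0 : ℂ), x ∉ ((fun x : ℂ => x⁻¹) ⁻¹' {y : ℂ |
      (evm (chernT G.toEquivData (P.cl ε t) (P.kap1 n.ξ)) y).charpoly.Separable}) \ {0} := by
    have h4 : IsOpen (((fun x : ℂ => x⁻¹) ⁻¹' {y : ℂ |
      (evm (chernT G.toEquivData (P.cl ε t) (P.kap1 n.ξ)) y).charpoly.Separable}) \ {0})ᶜ :=
      (h2.subset Set.sdiff_subset).isClosed.isOpen_compl
    exact nhdsWithin_le_nhds (h4.mem_nhds (fun h => h.2 rfl))
  have h4 : ∀ᶠ x in 𝓝[≠] (0 : ℂ), x ≠ 0 := self_mem_nhdsWithin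
  obtain ⟨x, ⟨hx1, hx2⟩, hx3⟩ := ((h1.and h3).and h4).exists
  apply hx2
  refine ⟨?_, hx3⟩
  have hx0 : x ≠ 0 := hx3
  show (evm (chernT G.toEquivData (P.cl ε t) (P.kap1 n.ξ)) x⁻¹).charpoly.Separable
  have h5 : Complex.exp (-(-Complex.log x)) = x := by
    rw [neg_neg, Complex.exp_log hx0]
  have h6 : Complex.exp (-Complex.log x) = x⁻¹ := by
    rw [Complex.exp_neg, Complex.exp_log hx0]
  have h7 := sep_conj (P := P) (n := n) (t := t) (-Complex.log x) (by rw [h5]; exact hx1)
  rw [h6] at h7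
  rw [chernT_eq G ht]
  have h8 : (P.Cq P.ctr t (ln0 n x⁻¹)).submatrix ε ε =
      Matrix.reindex ε.symm ε.symm (P.Cq P.ctr t (ln0 n x⁻¹)) := rfl
  rw [h8, Matrix.charpoly_reindex]
  exact h7

end Pool.Agent.FLG.Par
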