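import Pool.Agent.FLB.ClA
import Pool.Agent.FLB.Chern
import Pool.Agent.FLG.P.Pair

/-!
# FLB-Res: the restrictions to the fixed points and localisation, in the theory of `G/P`

PLAN. For a number `y ≠ 0` let `C_a = (cupMatT a).map (eval y)`, `C = ∑ chern_a C_a + kap1 y = C0 ctr (y ξ)`
(`cupChernT_eq`). The rows of `Rm (y ξ)` are left eigenvectors of `C` with pairwise distinct eigenvalues
`- hv ctr p (y ξ)` (`Rm_C0`; `n.mono`, `y ≠ 0`) and a basis (`Rm_det_ne`, `line_ne`). `C_a` commutes with `C`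
(`cup_comm`), so row `p` of `Rm C_a` is `μ_{pa}` times row `p` of `Rm`; column `one`: `C_a` maps `one` to `a`
(`cup_unit`), `Rm p one = 1` (`Rm_one`), so `μ_{pa} = Rm (y ξ) p (ε a)`: this is `rm_cup`.
`isRestriction`: `rm_cup` for all `y ≠ 0` and `Rm (y ξ) p a = Rm ξ p a y^{len a}` (`res_line`), polynomial identity
(infinitely many `y`).
`pair_eval`: `pairT(y)` is self-adjoint for the `C_a` (`pair_cup`), so for `C`: `pairT(y) = Rmᵀ diag(d) Rm` (a form
for which `C` is self-adjoint is diagonal in the basis of eigenvectors of distinct eigenvalues), similarly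
`Pg (y ξ) = Rmᵀ diag(1/∏ w) Rm` (`Pg_loc`). To see `d_p = 1/∏ w` compare the rows of `one`: `∑_p d_p Rm p u =
pairT one u`, `∑_p Rm p u / ∏ w = Pg one u`; both are `1` if `u` is the class with `len u = dm`
(`u = lm w0 one`) and `0` else: for `pairT` by `pair_deg` (`deg u ≤ dm`, degree `0` part is `X.pair` by `pair_zero`,
`pair_eq`; `len_w0`), for `Pg` by `Pg_homog` (`Pg (x y) one u x^dm = x^{len u} Pg y one u` for all `x`, so for
`len u < dm` it vanishes, since `Pg` is regular at `0`: divide by `x^{len u}` and let `x → 0`; for `len u = dm` it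
does not depend on `x`, `Pg_zero`). `Rm` is invertible, so `d_p = 1/∏ w`.
`inv0_eval`: `invT 0 {a, b, c}(y) = (pairT C_a)_{c b}` (`pair_cup`), `pairT C_a = Rmᵀ diag(1/∏ w) Rm C_a` and `rm_cup`.
-/

set_option autoImplicit false

open scoped BigOperators Topology
open Filter

namespace Pool.Agent.FLG.Par

open RS Pool.Agent.DST.TE
open Pool.Agent.Helper18.Dub Pool.Agent.Helper7.DubStokes Pool.Agent.SHF Pool.Agent.DST
open Pool.Agent.FLB

/-! ### Linear algebra: eigenvectors with distinct eigenvalues -/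

private theorem res_diag {N : ℕ} {R C M : Matrix (Fin N) (Fin N) ℂ} {d : Fin N → ℂ}
    (hdet : R.det ≠ 0) (hR : R * C = Matrix.diagonal d * R) (hd : Function.Injective d)
    (hM : M * C = C * M) : ∃ μ : Fin N → ℂ, R * M = Matrix.diagonal μ * R := by
  have hu : IsUnit R.det := isUnit_iff_ne_zero.2 hdet
  obtain ⟨K, hK⟩ : ∃ K, K = R * M * R⁻¹ := ⟨_, rfl⟩
  have hKR : K * R = R * M := by
    rw [hK, Matrix.nonsing_inv_mul_cancel_right _ _ hu]
  have hcomm : K * Matrix.diagonal d = Matrix.diagonal d * K := by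
    have h1 : K * Matrix.diagonal d * R = Matrix.diagonal d * K * R := by
      rw [Matrix.mul_assoc, ← hR, ← Matrix.mul_assoc, hKR, Matrix.mul_assoc, hM,
        ← Matrix.mul_assoc, hR, Matrix.mul_assoc, ← hKR, Matrix.mul_assoc]
    have h2 := congrArg (fun A => A * R⁻¹) h1
    simpa only [Matrix.mul_nonsing_inv_cancel_right _ _ hu] using h2
  refine ⟨fun p => K p p, ?_⟩
  have hdiag : K = Matrix.diagonal fun p => K p p := by
    ext p q
    by_cases hpq : p = q
    · rw [hpq, Matrix.diagonal_apply_eq]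
    · rw [Matrix.diagonal_apply_ne _ hpq]
      have h1 := congrFun (congrFun hcomm p) q
      rw [Matrix.mul_diagonal, Matrix.diagonal_mul] at h1
      have h3 : K p q * (d q - d p) = 0 := by linear_combination h1
      rcases mul_eq_zero.1 h3 with h4 | h4
      · exact h4
      · exact absurd (hd (sub_eq_zero.1 h4)) (Ne.symm hpq)
  rw [← hKR, ← hdiag]

private theorem res_form {N : ℕ} {R C g : Matrix (Fin N) (Fin N) ℂ} {d : Fin N → ℂ}
    (hdet : R.det ≠ 0) (hR : R * C = Matrix.diagonal d * R) (hd : Function.Injective d)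
    (hg : g * C = C.transpose * g) :
    ∃ μ : Fin N → ℂ, g = R.transpose * Matrix.diagonal μ * R := by
  have hu : IsUnit R.det := isUnit_iff_ne_zero.2 hdet
  have hu' : IsUnit R.transpose.det := by rwa [Matrix.det_transpose]
  obtain ⟨K, hK⟩ : ∃ K, K = R.transpose⁻¹ * g * R⁻¹ := ⟨_, rfl⟩
  have hgK : g = R.transpose * K * R := by
    rw [hK]
    simp only [Matrix.mul_assoc]
    rw [Matrix.nonsing_inv_mul _ hu, Matrix.mul_one, Matrix.mul_nonsing_inv_cancel_left _ _ hu']
  have hRt : C.transpose * R.transpose = R.transpose * Matrix.diagonal d := by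
    rw [← Matrix.transpose_mul, hR, Matrix.transpose_mul, Matrix.diagonal_transpose]
  have hcomm : K * Matrix.diagonal d = Matrix.diagonal d * K := by
    have h1 := hg
    rw [hgK] at h1
    have h2 : R.transpose * (K * Matrix.diagonal d) * R =
        R.transpose * (Matrix.diagonal d * K) * R := by
      calc R.transpose * (K * Matrix.diagonal d) * R
          = R.transpose * K * (Matrix.diagonal d * R) := by simp only [Matrix.mul_assoc]
        _ = R.transpose * K * R * C := by
            rw [← hR]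
            simp only [Matrix.mul_assoc]
        _ = C.transpose * (R.transpose * K * R) := h1
        _ = C.transpose * R.transpose * (K * R) := by simp only [Matrix.mul_assoc]
        _ = R.transpose * (Matrix.diagonal d * K) * R := by
            rw [hRt]
            simp only [Matrix.mul_assoc]
    have h3 := congrArg (fun M => R.transpose⁻¹ * M * R⁻¹) h2
    simp only [Matrix.mul_assoc] at h3
    rw [Matrix.mul_nonsing_inv _ hu, Matrix.mul_one, Matrix.mul_one,
      Matrix.nonsing_inv_mul_cancel_left _ _ hu', Matrix.nonsing_inv_mul_cancel_left _ _ hu'] at h3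
    exact h3
  refine ⟨fun p => K p p, ?_⟩
  have hdiag : K = Matrix.diagonal fun p => K p p := by
    ext p q
    by_cases hpq : p = q
    · rw [hpq, Matrix.diagonal_apply_eq]
    · rw [Matrix.diagonal_apply_ne _ hpq]
      have h1 := congrFun (congrFun hcomm p) q
      rw [Matrix.mul_diagonal, Matrix.diagonal_mul] at h1
      have h3 : K p q * (d q - d p) = 0 := by linear_combination h1
      rcases mul_eq_zero.1 h3 with h4 | h4
      · exact h4
      · exact absurd (hd (sub_eq_zero.1 h4)) (Ne.symm hpq)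
  rw [← hdiag]
  exact hgK

variable {r N : ℕ} {P : Par r} {n : P.Num N} {ε : Fin N ≃ P.X} {X : FanoGW (Fin N)}
  (G : P.GW n ε X)

/-- the matrix of the restrictions -/
private noncomputable def resR (n : P.Num N) (ε : Fin N ≃ P.X) (y : ℂ) :
    Matrix (Fin N) (Fin N) ℂ := (P.Rm (ln0 n y)).submatrix ε ε

private noncomputable def resd (n : P.Num N) (ε : Fin N ≃ P.X) (y : ℂ) (p : Fin N) : ℂ :=
  -P.D.hv P.ctr (ε p).1 (ln0 n y)

private theorem res_det {y : ℂ} (hy : y ≠ 0) : (resR n ε y).det ≠ 0 := by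
  unfold resR
  rw [Matrix.det_submatrix_equiv_self]
  exact Rm_det_ne (line_ne n hy)

private theorem res_inj {y : ℂ} (hy : y ≠ 0) : Function.Injective (resd n ε y) := by
  intro p q h
  unfold resd at h
  rw [hv_ctr, hv_ctr, pr_line, pr_line] at h
  have h1 : ((∑ i, P.D.rt (ε p).1 P.tr i * n.ξ i : ℤ) : ℂ) =
      ((∑ i, P.D.rt (ε q).1 P.tr i * n.ξ i : ℤ) : ℂ) := mul_right_cancel₀ hy (neg_injective h)
  have h2 : (∑ i, P.D.rt (ε p).1 P.tr i * n.ξ i : ℤ) = ∑ i, P.D.rt (ε q).1 P.tr i * n.ξ i := by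
    exact_mod_cast h1
  have h3 : ∀ u : P.X, (fun p => -dotProduct n.ξ (P.D.rt (n.e p).1 P.tr)) (n.e.symm u) =
      -∑ i, P.D.rt u.1 P.tr i * n.ξ i := by
    intro u
    show -dotProduct n.ξ (P.D.rt (n.e (n.e.symm u)).1 P.tr) = _
    rw [Equiv.apply_symm_apply]
    congr 1
    exact Finset.sum_congr rfl fun i _ => mul_comm _ _
  have h4 : n.e.symm (ε p) = n.e.symm (ε q) := by
    apply n.mono.injective
    rw [h3, h3, h2]
  exact ε.injective (n.e.symm.injective h4)

private theorem res_C (y : ℂ) : resR n ε y * evm (cupChernT G.toEquivData (P.kap1 n.ξ)) y =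
    Matrix.diagonal (resd n ε y) * resR n ε y := by
  rw [cupChernT_eq]
  unfold resR
  rw [Matrix.submatrix_mul_equiv, Rm_C0 inv_ctr]
  ext p q
  rw [Matrix.submatrix_apply, Matrix.diagonal_mul, Matrix.diagonal_mul, Matrix.submatrix_apply]
  rfl

private theorem evm_mul (A B : Matrix (Fin N) (Fin N) (Polynomial ℂ)) (y : ℂ) :
    evm (A * B) y = evm A y * evm B y := by
  unfold evm
  exact Matrix.map_mul (f := Polynomial.evalRingHom y)

private theorem res_comm (a : Fin N) : G.cupMatT a * cupChernT G.toEquivData (P.kap1 n.ξ) =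
    cupChernT G.toEquivData (P.kap1 n.ξ) * G.cupMatT a := by
  unfold cupChernT
  rw [mul_add, add_mul, Finset.mul_sum, Finset.sum_mul, mul_smul_comm, smul_mul_assoc, mul_one,
    one_mul]
  congr 1
  refine Finset.sum_congr rfl fun b _ => ?_
  rw [mul_smul_comm, smul_mul_assoc, cup_comm G.toAxGW a b]

private theorem res_cup {y : ℂ} (hy : y ≠ 0) (p a b : Fin N) :
    (resR n ε y * evm (G.cupMatT a) y) p b = resR n ε y p a * resR n ε y p b := by
  have hc : evm (G.cupMatT a) y * evm (cupChernT G.toEquivData (P.kap1 n.ξ)) y =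
      evm (cupChernT G.toEquivData (P.kap1 n.ξ)) y * evm (G.cupMatT a) y := by
    rw [← evm_mul, res_comm, evm_mul]
  obtain ⟨μ, hμ⟩ := res_diag (res_det hy) (res_C G y) (res_inj hy) hc
  have h1 := congrFun (congrFun hμ p) X.one
  rw [Matrix.diagonal_mul, Matrix.mul_apply] at h1
  have h2 : ∀ k, resR n ε y p k * evm (G.cupMatT a) y k X.one =
      if k = a then resR n ε y p a else 0 := by
    intro k
    have h3 : evm (G.cupMatT a) y k X.one = (G.cupMatT a k X.one).eval y := rfl
    rw [h3, cup_unit G.toAxGW a k]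
    by_cases hk : k = a
    · rw [if_pos hk, if_pos hk, Polynomial.eval_one, mul_one, hk]
    · rw [if_neg hk, if_neg hk, Polynomial.eval_zero, mul_zero]
  have h3 : resR n ε y p X.one = 1 := by
    show P.Rm (ln0 n y) (ε p) (ε X.one) = 1
    rw [G.one_eq, Rm_one]
  rw [Finset.sum_congr rfl fun k _ => h2 k, Finset.sum_ite_eq' Finset.univ a,
    if_pos (Finset.mem_univ a), h3, mul_one] at h1
  rw [hμ, Matrix.diagonal_mul, ← h1]

theorem rm_cup {y : ℂ} (hy : y ≠ 0) (p : P.X) (a b : Fin N) :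
    ∑ k, P.Rm (ln0 n y) p (ε k) * (G.cupMatT a k b).eval y =
      P.Rm (ln0 n y) p (ε a) * P.Rm (ln0 n y) p (ε b) := by
  have h1 := res_cup G hy (ε.symm p) a b
  rw [Matrix.mul_apply] at h1
  have h2 : ∀ k, resR n ε y (ε.symm p) k = P.Rm (ln0 n y) p (ε k) := by
    intro k
    show P.Rm (ln0 n y) (ε (ε.symm p)) (ε k) = _
    rw [Equiv.apply_symm_apply]
  simp only [h2] at h1
  exact h1

theorem isRestriction (p : Fin N) : G.toEquivData.IsRestriction
    (fun a => Polynomial.C (P.Rm (ln0 n 1) (n.e p) (ε a)) * Polynomial.X ^ X.deg a) := by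
  have hev : ∀ (y : ℂ) (a : Fin N), (Polynomial.C (P.Rm (ln0 n 1) (n.e p) (ε a)) *
      Polynomial.X ^ X.deg a).eval y = P.Rm (ln0 n y) (n.e p) (ε a) := by
    intro y a
    rw [Polynomial.eval_mul, Polynomial.eval_C, Polynomial.eval_pow, Polynomial.eval_X, G.deg_eq,
      ← res_line]
  refine ⟨?_, fun a b => ?_⟩
  · show Polynomial.C (P.Rm (ln0 n 1) (n.e p) (ε X.one)) * Polynomial.X ^ X.deg X.one = 1
    rw [G.one_eq, Rm_one, X.deg_one, pow_zero, Polynomial.C_1, mul_one]
  · refine Polynomial.eq_of_infinite_eval_eq _ _ ?_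
    refine Set.Infinite.mono (s := {0}ᶜ) ?_ (Set.Finite.infinite_compl (Set.finite_singleton 0))
    intro y hy
    have hy' : y ≠ 0 := hy
    show Polynomial.eval y _ = Polynomial.eval y _
    rw [Polynomial.eval_mul, hev, hev, Polynomial.eval_finsetSum, ← rm_cup G hy']
    refine Finset.sum_congr rfl fun k _ => ?_
    rw [Polynomial.eval_mul, hev]
    exact mul_comm _ _

/-! ### The pairing -/

private theorem res_self (y : ℂ) : evm G.pairT y * evm (cupChernT G.toEquivData (P.kap1 n.ξ)) y =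
    (evm (cupChernT G.toEquivData (P.kap1 n.ξ)) y).transpose * evm G.pairT y := by
  have h0 : (G.pairT).transpose = G.pairT := by
    ext1 i j
    rw [Matrix.transpose_apply]
    exact G.pair_symm j i
  have h1 : ∀ a, (G.cupMatT a).transpose * G.pairT = G.pairT * G.cupMatT a := by
    intro a
    have h2 : (G.pairT * G.cupMatT a).transpose = G.pairT * G.cupMatT a := by
      ext1 i j
      rw [Matrix.transpose_apply]
      have h3 := pair_cup G.toAxGW a i j
      have h4 := pair_cup G.toAxGW a j i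
      have h5 : ({a, i, j} : Multiset (Fin N)) = {a, j, i} :=
        congrArg (fun s => a ::ₘ s) (Multiset.pair_comm i j)
      rw [h5] at h3
      exact h3.trans h4.symm
    rw [← h2, Matrix.transpose_mul, h0]
  have h2 : G.pairT * cupChernT G.toEquivData (P.kap1 n.ξ) =
      (cupChernT G.toEquivData (P.kap1 n.ξ)).transpose * G.pairT := by
    unfold cupChernT
    rw [Matrix.transpose_add, Matrix.transpose_sum, Matrix.transpose_smul, Matrix.transpose_one,
      mul_add, add_mul, Finset.mul_sum, Finset.sum_mul, mul_smul_comm, smul_mul_assoc, mul_one,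
      one_mul]
    congr 1
    refine Finset.sum_congr rfl fun b _ => ?_
    rw [Matrix.transpose_smul, mul_smul_comm, smul_mul_assoc, h1]
  have h3 := congrArg (fun M => evm M y) h2
  simp only [evm_mul] at h3
  exact h3

private theorem res_len_one : P.len P.one.1 = 0 := by
  unfold len
  rw [Finset.card_eq_zero, Finset.filter_eq_empty_iff]
  intro a ha h
  apply h
  have h1 : P.D.rt P.one.1 a = a := P.D.rt_one a
  rw [h1]
  exact (Finset.mem_filter.1 ha).1

private theorem res_top {u : P.X} (h : P.one = P.lm P.D.w0 u) : P.len u.1 = P.dm := by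
  have h1 : P.len P.one.1 = P.len (P.lm P.D.w0 u).1 := congrArg (fun v : P.X => P.len v.1) h
  rw [len_lm, res_len_one] at h1
  have h2 := len_w0 (P := P) u.1
  omega

private theorem res_len_le (u : P.X) : P.len u.1 ≤ P.dm := by
  unfold len dm
  exact Finset.card_filter_le _ _

/-- the row of the unit in `Pg` -/
private theorem res_Pg (y : Fin r → ℂ) (u : P.X) :
    P.Pg y P.one u = if P.one = P.lm P.D.w0 u then 1 else 0 := by
  obtain ⟨f, hf⟩ : ∃ f : ℂ → ℂ, f = fun x => x ^ (P.dm - P.len u.1) *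
    P.Pg (fun i => x * y i) P.one u := ⟨_, rfl⟩
  have hfc : Continuous f := by
    rw [hf]
    refine (continuous_pow _).mul ?_
    refine (Pg_diff P.one u).continuous.comp ?_
    exact continuous_pi fun i => continuous_id.mul continuous_const
  have h1 : ∀ x : ℂ, x ≠ 0 → f x = P.Pg y P.one u := by
    intro x hx
    have h2 := P.Pg_homog x y P.one u
    rw [res_len_one, zero_add] at h2
    have h3 : x ^ P.dm = x ^ P.len u.1 * x ^ (P.dm - P.len u.1) := by
      rw [← pow_add]
      congr 1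
      have := res_len_le u
      omega
    rw [h3, mul_assoc] at h2
    rw [hf]
    exact mul_left_cancel₀ (pow_ne_zero _ hx) h2
  have h2 : f 0 = P.Pg y P.one u := by
    have h3 : Tendsto f (𝓝[≠] 0) (𝓝 (f 0)) := hfc.continuousAt.tendsto.mono_left nhdsWithin_le_nhds
    have h4 : Tendsto f (𝓝[≠] 0) (𝓝 (P.Pg y P.one u)) := by
      refine tendsto_const_nhds.congr' ?_
      filter_upwards [self_mem_nhdsWithin] with x hx
      exact (h1 x hx).symm
    exact tendsto_nhds_unique h3 h4
  have h3 : (fun i => (0 : ℂ) * y i) = 0 := by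
    funext i
    rw [zero_mul]
    rfl
  rw [← h2, hf]
  simp only
  rw [h3, Pg_zero]
  by_cases h : P.one = P.lm P.D.w0 u
  · rw [if_pos h, res_top h, Nat.sub_self, pow_zero, one_mul]
  · rw [if_neg h, mul_zero]

private theorem res_pair (y : ℂ) (u : Fin N) : (G.pairT X.one u).eval y =
    if P.one = P.lm P.D.w0 (ε u) then 1 else 0 := by
  have h1 : ∀ m, (G.pairT X.one u).coeff m ≠ 0 → m = 0 := by
    intro m hm
    have h2 := G.pair_deg X.one u m hm
    rw [X.deg_one, G.deg_eq, G.dim_eq] at h2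
    have := res_len_le (ε u)
    omega
  have h2 : G.pairT X.one u = Polynomial.C ((G.pairT X.one u).coeff 0) := by
    ext m
    rw [Polynomial.coeff_C]
    by_cases hm : m = 0
    · rw [if_pos hm, hm]
    · rw [if_neg hm]
      by_contra h
      exact hm (h1 m h)
  have h3 : (G.pairT X.one u).eval y = (G.pairT X.one u).eval 0 := by
    rw [h2, Polynomial.eval_C, Polynomial.eval_C]
  rw [h3, G.pair_zero, G.pair_eq, G.one_eq]

private theorem res_pair_eval {y : ℂ} (hy : y ≠ 0) (a b : Fin N) : (G.pairT a b).eval y =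
    ∑ p : P.X, P.Rm (ln0 n y) p (ε a) * P.Rm (ln0 n y) p (ε b) /
      ∏ c ∈ P.Pos, (-pr (P.D.rt p.1 c) (ln0 n y)) := by
  obtain ⟨μ, hμ⟩ := res_form (res_det hy) (res_C G y) (res_inj hy) (res_self G y)
  obtain ⟨w, hw⟩ : ∃ w : Fin N → ℂ, w = fun p =>
    (∏ c ∈ P.Pos, (-pr (P.D.rt (ε p).1 c) (ln0 n y)))⁻¹ := ⟨_, rfl⟩
  have hR1 : ∀ p, resR n ε y p X.one = 1 := by
    intro p
    show P.Rm (ln0 n y) (ε p) (ε X.one) = 1
    rw [G.one_eq, Rm_one]
  have h1 : ∀ (ν : Fin N → ℂ) (i j : Fin N),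
      ((resR n ε y).transpose * Matrix.diagonal ν * resR n ε y) i j =
        ∑ p, resR n ε y p i * ν p * resR n ε y p j := by
    intro ν i j
    rw [Matrix.mul_apply]
    refine Finset.sum_congr rfl fun p _ => ?_
    rw [Matrix.mul_diagonal, Matrix.transpose_apply]
  have h2 : ∀ u, ∑ p, μ p * resR n ε y p u = if P.one = P.lm P.D.w0 (ε u) then 1 else 0 := by
    intro u
    rw [← res_pair G y u]
    have h3 : (G.pairT X.one u).eval y = evm G.pairT y X.one u := rfl
    rw [h3, hμ, h1]
    refine Finset.sum_congr rfl fun p _ => ?_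
    rw [hR1, one_mul]
  have h3 : ∀ u, ∑ p, w p * resR n ε y p u = if P.one = P.lm P.D.w0 (ε u) then 1 else 0 := by
    intro u
    rw [← res_Pg (ln0 n y) (ε u), Pg_loc (line_ne n hy)]
    rw [← Equiv.sum_comp ε fun p : P.X => P.Rm (ln0 n y) p P.one * P.Rm (ln0 n y) p (ε u) /
      ∏ c ∈ P.Pos, (-pr (P.D.rt p.1 c) (ln0 n y))]
    refine Finset.sum_congr rfl fun p _ => ?_
    rw [Rm_one, one_mul, hw, div_eq_inv_mul]
    rfl
  have h4 : μ = w := by
    have h5 : Matrix.vecMul (μ - w) (resR n ε y) = 0 := by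
      funext u
      show ∑ p, (μ - w) p * resR n ε y p u = 0
      have h6 : ∀ p, (μ - w) p * resR n ε y p u = μ p * resR n ε y p u - w p * resR n ε y p u := by
        intro p
        rw [Pi.sub_apply, sub_mul]
      rw [Finset.sum_congr rfl fun p _ => h6 p, Finset.sum_sub_distrib, h2, h3, sub_self]
    exact sub_eq_zero.1 (Matrix.eq_zero_of_vecMul_eq_zero (res_det hy) h5)
  have h5 : (G.pairT a b).eval y = evm G.pairT y a b := rfl
  rw [h5, hμ, h1, h4, ← Equiv.sum_comp ε fun p : P.X => P.Rm (ln0 n y) p (ε a) *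
    P.Rm (ln0 n y) p (ε b) / ∏ c ∈ P.Pos, (-pr (P.D.rt p.1 c) (ln0 n y))]
  refine Finset.sum_congr rfl fun p _ => ?_
  rw [hw]
  show P.Rm (ln0 n y) (ε p) (ε a) * (∏ c ∈ P.Pos, (-pr (P.D.rt (ε p).1 c) (ln0 n y)))⁻¹ *
    P.Rm (ln0 n y) (ε p) (ε b) = _
  rw [div_eq_mul_inv]
  ring

theorem pair_eval {y : ℂ} (hy : y ≠ 0) (a b : Fin N) : (G.pairT a b).eval y =
    ∑ p : P.X, P.Rm (ln0 n y) p (ε a) * P.Rm (ln0 n y) p (ε b) /
      ∏ c ∈ P.Pos, (-pr (P.D.rt p.1 c) (ln0 n y)) := by
  exact res_pair_eval G hy a b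

theorem localization_eq (a b : Fin N) : (G.pairT a b).eval 1 =
    ∑ p, P.Rm (ln0 n 1) (n.e p) (ε a) * P.Rm (ln0 n 1) (n.e p) (ε b) /
      ∏ k, (wtz n p k : ℂ) := by
  rw [pair_eval G one_ne_zero, ← Equiv.sum_comp n.e fun p : P.X => P.Rm (ln0 n 1) p (ε a) *
    P.Rm (ln0 n 1) p (ε b) / ∏ c ∈ P.Pos, (-pr (P.D.rt p.1 c) (ln0 n 1))]
  refine Finset.sum_congr rfl fun p _ => ?_
  congr 1
  rw [← prod_pe fun c => -pr (P.D.rt (n.e p).1 c) (ln0 n 1)]
  refine Finset.prod_congr rfl fun k _ => ?_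
  rw [← wtz_cast, mul_one]

theorem inv0_eval {y : ℂ} (hy : y ≠ 0) (a b c : Fin N) :
    (G.invT X.zero {a, b, c}).eval y =
      ∑ p : P.X, P.Rm (ln0 n y) p (ε a) * P.Rm (ln0 n y) p (ε b) * P.Rm (ln0 n y) p (ε c) /
        ∏ c ∈ P.Pos, (-pr (P.D.rt p.1 c) (ln0 n y)) := by
  have h1 := pair_cup G.toAxGW a b c
  have h2 : (G.invT X.zero {a, b, c}).eval y =
      ∑ k, (G.pairT c k).eval y * (G.cupMatT a k b).eval y := by
    have h3 : (G.invT X.zero {a, b, c}).eval y = ((G.pairT * G.cupMatT a) c b).eval y :=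
      congrArg (Polynomial.eval y) h1.symm
    rw [h3, Matrix.mul_apply, Polynomial.eval_finsetSum]
    exact Finset.sum_congr rfl fun k _ => Polynomial.eval_mul
  rw [h2]
  have h3 : ∀ k, (G.pairT c k).eval y * (G.cupMatT a k b).eval y =
      ∑ p : P.X, P.Rm (ln0 n y) p (ε c) / (∏ c ∈ P.Pos, (-pr (P.D.rt p.1 c) (ln0 n y))) *
        (P.Rm (ln0 n y) p (ε k) * (G.cupMatT a k b).eval y) := by
    intro k
    rw [pair_eval G hy, Finset.sum_mul]
    refine Finset.sum_congr rfl fun p _ => ?_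
    ring
  rw [Finset.sum_congr rfl fun k _ => h3 k, Finset.sum_comm]
  refine Finset.sum_congr rfl fun p _ => ?_
  rw [← Finset.mul_sum, rm_cup G hy]
  ring

end Pool.Agent.FLG.Par
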