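import Pool.Agent.FLB.TodA
import Pool.Agent.FLB.Res

/-!
# FLB-TodB: Hirzebruch–Riemann–Roch in the theory of `G/P`

PLAN. `Td a = P.Tdv (ε a)`.
`todd_like`: `tdv_dual`, `X.cupMat = (P.E0 (ch ctr)).submatrix ε ε` (`cup_zero`) and `exp` of a submatrix.
`cup_zero`: `chev` at `h = ctr`, `λ = 0`: `(cupMatT a)(0) = ∑_l pair⁻¹ k l inv 0 {a, b, l}` (`pair_zero`,
`inv_zero`, inverse of the evaluated matrix), `chern_eq`; compare `gcupChern_zero` in
Pool/Agent/DSTJ/HStd.lean.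
`hrr`: for `y = x ξ`, `x ∉ ℝ` (`ln0 n x`, `line_nint`, `line_ne`) let `v^i_a(y) = cls (p ↦ evK y (Bk i p)) y (ε a)`
(`cls_res` restricts it: `∑_{u ∈ P.X} Rm y p u v^i_u(y) = evK y (Bk i p)` for `p ∈ P.X`, the components outside
`P.X` vanish by `cls_out`), the same for `tdc`. `chi_td` for `f p = sK (Bk i p) * Bk j p`, `F = chiM i j`
(`isChi_chiM`), `evK y (sK g) = evK (-y) g`, `Rm (-y) p u = (-1)^{len u} Rm y p u` (`Rm_homog`) and `inv0_eval` give
`(2πi)^dm evK y (chiM i j) = ∑_{a,b,c} (-1)^{deg a} v^i_a(-y) v^j_b(y) T_c(y) (invT 0 {a,b,c})(x)`, `T = cls tdc`.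
Let `x → 0` along `x = i s`, `s → 0+` (both sides are continuous at `0`: `cls_diff`, `gh_evK`, `gh_td`):
`v^i_a(0) = (2πi)^{deg a} chK (bB i) (ε a)` (`cls_Bk`), `T_c(0) = (2πi)^{deg c} Td c`, `inv_zero`; a nonzero
`inv 0 {a,b,c}` has `deg a + deg b + deg c = dim` (`X.dimension`), so the powers of `2πi` cancel. The left side tends
to `evK 0 (chiM i j) = eul (bB i) (bB j)` (`chiM_eul`; `evK` is continuous in `y`, `evK_diff`).
-/

set_option autoImplicit false

open scoped BigOperators Topology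
open Filter

namespace Pool.Agent.FLG.Par

open RS Pool.Agent.DST.TE Pool.Agent.DSTJ.Spec
open Pool.Agent.Helper18.Dub Pool.Agent.Helper7.DubStokes Pool.Agent.SHF Pool.Agent.DST
open Pool.Agent.FLB

variable {r N : ℕ} {P : Par r} {n : P.Num N} {ε : Fin N ≃ P.X} {X : FanoGW (Fin N)}
  (G : P.GW n ε X)

private theorem tb_map_inv {m : Type*} [Fintype m] [DecidableEq m] {R S : Type*} [CommRing R]
    [CommRing S] (f : R →+* S) {M : Matrix m m R} (hM : IsUnit M.det) :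
    (M.map f)⁻¹ = M⁻¹.map f := by
  apply Matrix.inv_eq_right_inv
  rw [← Matrix.map_mul, Matrix.mul_nonsing_inv _ hM]
  exact Matrix.map_one f (map_zero f) (map_one f)

private theorem tb_exp_sub {ι : Type*} [Fintype ι] [DecidableEq ι] (A : Matrix ι ι ℂ)
    (e : Fin N ≃ ι) : (NormedSpace.exp A).submatrix e e = NormedSpace.exp (A.submatrix e e) := by
  let _ : NormedRing (Matrix ι ι ℂ) := Matrix.linftyOpNormedRing
  let _ : NormedAlgebra ℂ (Matrix ι ι ℂ) := Matrix.linftyOpNormedAlgebra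
  let _ : NormedAlgebra ℚ (Matrix ι ι ℂ) := NormedAlgebra.restrictScalars ℚ ℂ _
  let _ : NormedRing (Matrix (Fin N) (Fin N) ℂ) := Matrix.linftyOpNormedRing
  let _ : NormedAlgebra ℂ (Matrix (Fin N) (Fin N) ℂ) := Matrix.linftyOpNormedAlgebra
  let _ : NormedAlgebra ℚ (Matrix (Fin N) (Fin N) ℂ) := NormedAlgebra.restrictScalars ℚ ℂ _
  exact NormedSpace.map_exp (Matrix.reindexAlgEquiv ℂ ℂ e.symm)
    (continuous_id.matrix_submatrix e e) A

include G in
private theorem tb_cup_eval (a k b : Fin N) : (G.cupMatT a k b).eval 0 =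
    ∑ l, X.pair⁻¹ k l * X.inv X.zero {a, b, l} := by
  have h2 : X.pair⁻¹ = G.pairT⁻¹.map (Polynomial.evalRingHom 0) := by
    rw [← tb_map_inv (Polynomial.evalRingHom 0) G.pair_nondeg]
    congr 1
    ext i j
    exact (G.pair_zero i j).symm
  have h3 : ∀ l, X.pair⁻¹ k l = (G.pairT⁻¹ k l).eval 0 := fun l => congrFun (congrFun h2 k) l
  show Polynomial.eval 0 (∑ l, G.pairT⁻¹ k l * G.invT X.zero {a, b, l}) = _
  rw [Polynomial.eval_finsetSum]
  refine Finset.sum_congr rfl fun l _ => ?_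
  rw [Polynomial.eval_mul, G.inv_zero, h3]

include G in
theorem cup_zero : X.cupMat = (P.E0 (P.D.ch P.ctr)).submatrix ε ε := by
  ext k b
  have h1 := congrArg (Polynomial.eval 0) (congrFun (congrFun (G.chev P.ctr inv_ctr) k) b)
  rw [Matrix.submatrix_apply, Matrix.add_apply, Matrix.sum_apply, Polynomial.eval_add,
    Polynomial.eval_finsetSum, Matrix.map_apply, Polynomial.eval_C] at h1
  have h2 : Polynomial.eval 0 (P.rd n.ξ P.ctr (ε k) (ε b)) = 0 := by
    unfold rd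
    rw [Matrix.diagonal_apply]
    split_ifs
    · rw [Polynomial.eval_mul, Polynomial.eval_X, mul_zero]
    · rw [Polynomial.eval_zero]
  rw [h2, add_zero] at h1
  rw [Matrix.submatrix_apply, ← h1]
  show ∑ a, X.chern a * ∑ l, X.pair⁻¹ k l * X.inv X.zero {a, b, l} = _
  refine Finset.sum_congr rfl fun a _ => ?_
  rw [Matrix.smul_apply, smul_eq_mul, Polynomial.eval_mul, Polynomial.eval_C, tb_cup_eval,
    G.chern_eq]

include G in
theorem todd_like : IsToddLike X fun a => P.Tdv (ε a) := by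
  unfold IsToddLike
  have h1 := tdv_dual P
  have h2 : NormedSpace.exp (-X.cupMat) =
      (NormedSpace.exp (-P.E0 (P.D.ch P.ctr))).submatrix ε ε := by
    rw [tb_exp_sub, cup_zero G]
    rfl
  funext c
  have h3 := congrFun h1 (ε c)
  show (-1) ^ X.deg c * P.Tdv (ε c) = _
  rw [G.deg_eq, h2]
  refine h3.trans ?_
  show ∑ v, NormedSpace.exp (-P.E0 (P.D.ch P.ctr)) (ε c) v * P.Tdv v =
    ∑ a, NormedSpace.exp (-P.E0 (P.D.ch P.ctr)) (ε c) (ε a) * P.Tdv (ε a)
  exact (Equiv.sum_comp ε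
    fun v => NormedSpace.exp (-P.E0 (P.D.ch P.ctr)) (ε c) v * P.Tdv v).symm

/-- sums over the fixed points of `G/B` of the restrictions of the class of a family -/
private theorem tb_res {H : P.D.W → (Fin r → ℂ) → ℂ} (hr : ∀ y, P.RI fun p => H p y)
    {y : Fin r → ℂ} (hy : ∀ a ∈ P.D.Φ, pr a y ≠ 0) (ε : Fin N ≃ P.X) (p : P.X) :
    ∑ a, P.Rm y p (ε a) * P.D.cls H y (ε a).1 = H p.1 y := by
  classical
  rw [Equiv.sum_comp ε fun u => P.Rm y p u * P.D.cls H y u.1, ← cls_res (H := H) hy p.1]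
  refine Fintype.sum_of_injective (fun u : P.X => u.1) (fun a b hab => Subtype.ext hab) _ _ ?_
    (fun u => rfl)
  intro v hv
  rw [cls_reg hr hy, mul_zero]
  intro hcon
  exact hv ⟨⟨v, hcon⟩, rfl⟩

private theorem tb_ri_Bk (i : P.X) (y : Fin r → ℂ) : P.RI fun p => evK y (P.Bk i p) := by
  intro p w hw
  show evK y (P.Bk i (p * w)) = evK y (P.Bk i p)
  rw [(isB_Bk i).ri p w hw]

include G in
private theorem tb_key (i j : P.X) {x : ℂ} (hx : x.im ≠ 0) :
    (2 * Real.pi * Complex.I) ^ P.dm * evK (ln0 n x) (P.chiM i j) =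
      ∑ a, ∑ b, ∑ c, (-1) ^ P.len (ε a).1 *
        P.D.cls (fun p y => evK y (P.Bk i p)) (ln0 n (-x)) (ε a).1 *
        P.D.cls (fun p y => evK y (P.Bk j p)) (ln0 n x) (ε b).1 *
        P.D.cls P.tdc (ln0 n x) (ε c).1 * (G.invT X.zero {a, b, c}).eval x := by
  have hx0 : x ≠ 0 := by
    intro h
    rw [h] at hx
    exact hx Complex.zero_im
  have hm : -ln0 n x = ln0 n (-x) := by
    funext l
    show -(x * (n.ξ l : ℂ)) = -x * (n.ξ l : ℂ)
    ring
  rw [chi_td _ (isChi_chiM i j) (line_nint n hx)]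
  have h1 : ∀ p : P.X, evK (ln0 n x) (sK (P.Bk i p.1) * P.Bk j p.1) =
      (∑ a, (-1) ^ P.len (ε a).1 * P.Rm (ln0 n x) p (ε a) *
        P.D.cls (fun p y => evK y (P.Bk i p)) (ln0 n (-x)) (ε a).1) *
      ∑ b, P.Rm (ln0 n x) p (ε b) *
        P.D.cls (fun p y => evK y (P.Bk j p)) (ln0 n x) (ε b).1 := by
    intro p
    rw [map_mul, evK_sK, hm, ← tb_res (tb_ri_Bk i) (line_ne n (neg_ne_zero.2 hx0)) ε p,
      ← tb_res (tb_ri_Bk j) (line_ne n hx0) ε p]
    congr 1
    refine Finset.sum_congr rfl fun a _ => ?_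
    rw [res_line n (-x), res_line n x, neg_pow x]
    ring
  have h2 : ∀ p : P.X, P.tdc p.1 (ln0 n x) =
      ∑ c, P.Rm (ln0 n x) p (ε c) * P.D.cls P.tdc (ln0 n x) (ε c).1 := fun p =>
    (tb_res (ri_td P) (line_ne n hx0) ε p).symm
  have h3 : ∀ a b c : Fin N, (-1) ^ P.len (ε a).1 *
        P.D.cls (fun p y => evK y (P.Bk i p)) (ln0 n (-x)) (ε a).1 *
        P.D.cls (fun p y => evK y (P.Bk j p)) (ln0 n x) (ε b).1 *
        P.D.cls P.tdc (ln0 n x) (ε c).1 * (G.invT X.zero {a, b, c}).eval x =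
      ∑ p : P.X, ((-1) ^ P.len (ε a).1 * P.Rm (ln0 n x) p (ε a) *
        P.D.cls (fun p y => evK y (P.Bk i p)) (ln0 n (-x)) (ε a).1) *
        (P.Rm (ln0 n x) p (ε b) * P.D.cls (fun p y => evK y (P.Bk j p)) (ln0 n x) (ε b).1) *
        (P.Rm (ln0 n x) p (ε c) * P.D.cls P.tdc (ln0 n x) (ε c).1) /
        ∏ c ∈ P.Pos, (-pr (P.D.rt p.1 c) (ln0 n x)) := by
    intro a b c
    rw [inv0_eval G hx0, Finset.mul_sum]
    refine Finset.sum_congr rfl fun p _ => ?_
    ring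
  simp only [h3]
  have h4 : ∀ p : P.X, evK (ln0 n x) (sK (P.Bk i p.1) * P.Bk j p.1) * P.tdc p.1 (ln0 n x) /
      ∏ a ∈ P.Pos, (-pr (P.D.rt p.1 a) (ln0 n x)) =
      ∑ a, ∑ b, ∑ c, ((-1) ^ P.len (ε a).1 * P.Rm (ln0 n x) p (ε a) *
        P.D.cls (fun p y => evK y (P.Bk i p)) (ln0 n (-x)) (ε a).1) *
        (P.Rm (ln0 n x) p (ε b) * P.D.cls (fun p y => evK y (P.Bk j p)) (ln0 n x) (ε b).1) *
        (P.Rm (ln0 n x) p (ε c) * P.D.cls P.tdc (ln0 n x) (ε c).1) /
        ∏ c ∈ P.Pos, (-pr (P.D.rt p.1 c) (ln0 n x)) := by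
    intro p
    rw [h1, h2, Finset.sum_mul_sum, Finset.sum_mul, Finset.sum_div]
    refine Finset.sum_congr rfl fun a _ => ?_
    rw [Finset.sum_mul, Finset.sum_div]
    refine Finset.sum_congr rfl fun b _ => ?_
    rw [Finset.mul_sum, Finset.sum_div]
  rw [Finset.sum_congr rfl fun p _ => h4 p, Finset.sum_comm]
  refine Finset.sum_congr rfl fun a _ => ?_
  rw [Finset.sum_comm]
  refine Finset.sum_congr rfl fun b _ => ?_
  rw [Finset.sum_comm]

private theorem tb_freq : ∃ᶠ x in 𝓝 (0 : ℂ), x.im ≠ 0 := by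
  have h1 : closure {x : ℂ | x.im ≠ 0} = Complex.im ⁻¹' closure {(0 : ℝ)}ᶜ :=
    Complex.closure_preimage_im {(0 : ℝ)}ᶜ
  have h2 : (0 : ℂ) ∈ closure {x : ℂ | x.im ≠ 0} := by
    rw [h1, closure_compl_singleton]
    exact Set.mem_univ _
  exact mem_closure_iff_frequently.1 h2

private theorem tb_cls_cont {H : P.D.W → (Fin r → ℂ) → ℂ} (h : P.D.GH H 0) (u : P.D.W)
    {f : ℂ → (Fin r → ℂ)} (hf : ContinuousAt f 0) (h0 : f 0 = 0) :
    ContinuousAt (fun x => P.D.cls H (f x) u) 0 := by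
  have h1 : ContinuousAt (fun y => P.D.cls H y u) (f 0) := by
    rw [h0]
    exact (cls_diff h u).self_of_nhds.continuousAt
  exact ContinuousAt.comp (f := f) h1 hf

include G in
private theorem tb_limit (i j : P.X) : (2 * Real.pi * Complex.I) ^ P.dm * evK 0 (P.chiM i j) =
      ∑ a, ∑ b, ∑ c, (-1) ^ P.len (ε a).1 *
        P.D.cls (fun p y => evK y (P.Bk i p)) 0 (ε a).1 *
        P.D.cls (fun p y => evK y (P.Bk j p)) 0 (ε b).1 *
        P.D.cls P.tdc 0 (ε c).1 * X.inv X.zero {a, b, c} := by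
  have hl : Continuous (ln0 n) := (line_diff n).continuous
  have hl0 : ln0 n 0 = 0 := by
    funext l
    show (0 : ℂ) * (n.ξ l : ℂ) = 0
    rw [zero_mul]
  have hn : Continuous fun x => ln0 n (-x) := hl.comp continuous_neg
  have hn0 : ln0 n (-0) = 0 := by rw [neg_zero, hl0]
  have h1 : ContinuousAt (fun x => (2 * Real.pi * Complex.I) ^ P.dm *
      evK (ln0 n x) (P.chiM i j)) 0 :=
    (((evK_diff (P.chiM i j)).continuous.comp hl).const_mul _).continuousAt
  have h2 : ContinuousAt (fun x => ∑ a, ∑ b, ∑ c, (-1) ^ P.len (ε a).1 *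
        P.D.cls (fun p y => evK y (P.Bk i p)) (ln0 n (-x)) (ε a).1 *
        P.D.cls (fun p y => evK y (P.Bk j p)) (ln0 n x) (ε b).1 *
        P.D.cls P.tdc (ln0 n x) (ε c).1 * (G.invT X.zero {a, b, c}).eval x) 0 := by
    refine tendsto_finsetSum _ fun a _ => tendsto_finsetSum _ fun b _ =>
      tendsto_finsetSum _ fun c _ => ?_
    refine ContinuousAt.mul (ContinuousAt.mul (ContinuousAt.mul (ContinuousAt.mul
      continuousAt_const ?_) ?_) ?_) (Polynomial.continuous _).continuousAt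
    · exact tb_cls_cont (gh_evK (isB_Bk i).isB.gkm 0) _ hn.continuousAt hn0
    · exact tb_cls_cont (gh_evK (isB_Bk j).isB.gkm 0) _ hl.continuousAt hl0
    · exact tb_cls_cont (gh_td P) _ hl.continuousAt hl0
  have h3 := tendsto_nhds_unique_of_frequently_eq h1 h2 (tb_freq.mono fun x hx => tb_key G i j hx)
  simp only [neg_zero, hl0, G.inv_zero] at h3
  exact h3

include G in
theorem hrr (i j : P.X) : eulerForm X (fun a => P.Tdv (ε a)) (fun a => P.D.chK (bB i) (ε a).1)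
    (fun a => P.D.chK (bB j) (ε a).1) = P.D.eul (bB i) (bB j) := by
  have hpi : (2 * Real.pi * Complex.I : ℂ) ≠ 0 := Complex.two_pi_I_ne_zero
  refine mul_left_cancel₀ (pow_ne_zero P.dm hpi) ?_
  rw [← chiM_eul, tb_limit G i j]
  unfold eulerForm
  rw [Finset.mul_sum]
  refine Finset.sum_congr rfl fun a _ => ?_
  rw [Finset.mul_sum]
  refine Finset.sum_congr rfl fun b _ => ?_
  rw [Finset.mul_sum]
  refine Finset.sum_congr rfl fun c _ => ?_
  by_cases h0 : X.inv X.zero {a, b, c} = 0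
  · rw [h0]
    ring
  · have h1 := X.dimension X.zero {a, b, c} h0
    have h2 : X.c1 X.zero = 0 := (X.c1_eq_zero X.zero).2 rfl
    have h3 : P.dm = P.len (ε a).1 + P.len (ε b).1 + P.len (ε c).1 := by
      simp only [Multiset.insert_eq_cons, Multiset.map_cons, Multiset.map_singleton,
        Multiset.sum_cons, Multiset.sum_singleton, Multiset.card_cons, Multiset.card_singleton,
        h2, G.dim_eq, G.deg_eq] at h1
      omega
    have h4 : P.D.cls P.tdc 0 (ε c).1 =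
        (2 * Real.pi * Complex.I) ^ P.len (ε c).1 * P.Tdv (ε c) := by
      unfold Tdv
      rw [mul_inv_cancel_left₀ (pow_ne_zero _ hpi)]
    rw [cls_Bk, cls_Bk, h4, ← len_val, ← len_val, G.deg_eq, h3, pow_add, pow_add]
    ring

end Pool.Agent.FLG.Par
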