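import Pool.Agent.FLB.JQ
import Pool.Agent.FLB.KLem
import Pool.Agent.FLB.TodB
import Pool.Agent.FLB.ExtA
import Pool.Agent.FLG.ZP.Main
import Pool.Agent.DST.ESemi

/-!
# FLB-Bulk: the structure `BulkGW` for `G/P`

PLAN. Assemble (compare `toBulkGW` in Pool/Agent/DSTJ/HMain.lean). `K = kd ht` (Pool/Agent/FLG/PK/Kd.lean; if
the import clashes with FLG/ZP/Main.lean use the latter, they define the same `kd`). `S` and its
differential equation from `exists_Sx`, `Sb` from `exists_Sb` (`sep_inf`, `cl_deg`), `J, cal` from `exists_J`.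
`wt p k = wtz n p (Fin.cast G.dim_eq k)`; products and sums over `Fin X.dim` are products over `Fin P.dm`
(`Fin.cast` is a bijection, `finCongr`); `res p a = P.Rm (ln0 n 1) (n.e p) (ε a)`, `κ = P.kap1 n.ξ`,
`B i p = resK n.ξ (K.B (n.e i) (n.e p))`, `χ = of (resK n.ξ (K.χ (n.e i) (n.e j)))`, `Td a = P.Tdv (ε a)`,
`ch i a = P.D.chK (bB (n.e i)) (ε a).1`, `G y = (K.G (ln0 n y)).submatrix ε n.e`. `hrr`: `evZ 0 (resK ξ F) = evK 0 F`
and `chiM_eul`. `G_res`: `kl_G` (reindex the sum over `P.X` by `ε`, `deg_eq`), and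
`∑ a, t a * res p a = - hv t p ξ`, more precisely `∑_a cl ε t a Rm ξ p (ε a) = hv t 1 ξ - hv t p ξ` for `P.Inv t`
(column `one` of `Rm_C0` as in `chern_res`).
ATTENTION: `G_res` of `BulkGW` has the exponent `∑ a, t a * res p a` with `t = cl ε t'`, that is
`hv t' 1 ξ - hv t' p ξ`, while `kl_G` has `- hv t' p ξ`: so take `G y = exp(hv t' 1 (ln0 n y)) • …` and multiply `J`
by the same scalar `exp(hv t' 1 (ln0 n y))`, and `S` by `exp(hv t' 1 ξ)` (entire and nonzero, `1` at `y = 0`; the
equations `J_ode`, `J_gamma`, `cal_lim` are not changed, `J_shift`: `J(y) = S J(y - 1)` gets the factor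
`exp(hv t' 1 (ln0 n y)) / exp(hv t' 1 (ln0 n (y - 1))) = exp(hv t' 1 (ln0 n 1))`; the hypothesis of `exists_Sb` is
linear in `S`).
-/

set_option autoImplicit false

open scoped BigOperators Topology
open Filter

namespace Pool.Agent.FLG.Par

open RS Pool.Agent.DST.TE Pool.Agent.DSTJ.Spec
open Pool.Agent.Helper18.Dub Pool.Agent.Helper7.DubStokes Pool.Agent.SHF Pool.Agent.DST
open Pool.Agent.FLB

variable {r N : ℕ} {P : Par r} {n : P.Num N} {ε : Fin N ≃ P.X} {X : FanoGW (Fin N)}
  (G : P.GW n ε X) {t : Fin r → ℂ} (ht : P.Inv t)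

private theorem blk_row {t : Fin r → ℂ} (ht : P.Inv t) (y : Fin r → ℂ) (p : P.X) :
    ∑ a, P.cl ε t a * P.Rm y p (ε a) = P.D.hv t 1 y - P.D.hv t p.1 y := by
  have h1 := congrFun (congrFun (Rm_C0 ht y) p) P.one
  rw [Matrix.diagonal_mul, Matrix.mul_apply, Rm_one, mul_one] at h1
  have h2 : ∀ u, P.Rm y p u * P.C0 t y u P.one =
      P.E0 (P.D.ch t) u P.one * P.Rm y p u - (if u = P.one then P.D.hv t 1 y else 0) := by
    intro u
    unfold C0
    rw [Matrix.sub_apply, Matrix.diagonal_apply]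
    by_cases hu : u = P.one
    · subst hu
      rw [if_pos rfl, if_pos rfl, Rm_one]
      show _ * (_ - P.D.hv t (1 : P.D.W) y) = _
      ring
    · rw [if_neg hu, if_neg hu]
      ring
  rw [Finset.sum_congr rfl fun u _ => h2 u, Finset.sum_sub_distrib, Finset.sum_ite_eq',
    if_pos (Finset.mem_univ _)] at h1
  have h3 : ∑ a, P.cl ε t a * P.Rm y p (ε a) = ∑ u, P.E0 (P.D.ch t) u P.one * P.Rm y p u :=
    Equiv.sum_comp ε fun u => P.E0 (P.D.ch t) u P.one * P.Rm y p u
  rw [h3]
  linear_combination h1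

private theorem blk_sum {m m' : ℕ} (h : m = m') (f : Fin m' → ℂ) :
    ∑ k : Fin m, f (Fin.cast h k) = ∑ k, f k := Equiv.sum_comp (finCongr h) f

private theorem blk_sumZ {m m' : ℕ} (h : m = m') (f : Fin m' → ℤ) :
    ∑ k : Fin m, f (Fin.cast h k) = ∑ k, f k := Equiv.sum_comp (finCongr h) f

private theorem blk_prod {m m' : ℕ} (h : m = m') {M : Type*} [CommMonoid M] (f : Fin m' → M) :
    ∏ k : Fin m, f (Fin.cast h k) = ∏ k, f k := Equiv.prod_comp (finCongr h) f

private noncomputable def blk_S (c : ℂ) (S : Matrix (Fin N) (Fin N) (Polynomial (Polynomial ℂ))) :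
    Matrix (Fin N) (Fin N) (Polynomial (Polynomial ℂ)) :=
  Polynomial.C (Polynomial.C c) • S

private theorem blk_ev (c : ℂ) (S : Matrix (Fin N) (Fin N) (Polynomial (Polynomial ℂ)))
    (x z : ℂ) : evm₂ (blk_S c S) x z = c • evm₂ S x z := by
  ext i j
  show Polynomial.evalEval x z (Polynomial.C (Polynomial.C c) * S i j) = c * _
  rw [Polynomial.evalEval_mul]
  congr 1
  simp [Polynomial.evalEval]

private theorem blk_unit {c : ℂ} (hc : c ≠ 0)
    {S : Matrix (Fin N) (Fin N) (Polynomial (Polynomial ℂ))} (h : IsUnit S.det) :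
    IsUnit (blk_S c S).det := by
  unfold blk_S
  rw [Matrix.det_smul]
  refine IsUnit.mul (IsUnit.pow _ ?_) h
  exact ((isUnit_iff_ne_zero.2 hc).map Polynomial.C).map Polynomial.C

include G ht in
theorem exists_bulk : ∃ T : BulkGW X (P.cl ε t),
    (∀ i a, T.ch i a = P.D.chK (bB (n.e i)) (ε a).1) ∧
    (∀ i j, evZ 0 (T.χ i j) = P.D.eul (bB (n.e i)) (bB (n.e j))) ∧
    (∀ w, T.J 0 w = (Zst n t w * P.GM t 0).submatrix ε n.e) := by
  set K : P.KD t := kd ht with hK
  obtain ⟨S, hSu, hSe, hSo⟩ := exists_Sx G ht K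
  obtain ⟨J, cal, hJ1, hJ2, hJ3, hc, hJ4, hJ0⟩ := exists_J G ht K S hSe
  set c : ℂ := P.D.hv t 1 (ln0 n 1) with hcdef
  have hSo' : ∀ (y w : ℂ) (i j : Fin N),
      HasDerivAt (fun w => evm₂ (blk_S (Complex.exp c) S) (y * Complex.exp w) (Complex.exp w) i j)
        (((theta X - Complex.exp (-w) • evm (chernT G.toEquivData (P.cl ε t) (P.kap1 n.ξ))
              (y * Complex.exp w)) *
            evm₂ (blk_S (Complex.exp c) S) (y * Complex.exp w) (Complex.exp w) -
          evm₂ (blk_S (Complex.exp c) S) (y * Complex.exp w) (Complex.exp w) *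
            (theta X - Complex.exp (-w) • evm (chernT G.toEquivData (P.cl ε t) (P.kap1 n.ξ))
              ((y - 1) * Complex.exp w))) i j) w := by
    intro y w i j
    have h1 := (hSo y w i j).const_mul (Complex.exp c)
    simp only [blk_ev]
    rw [Matrix.mul_smul, Matrix.smul_mul, ← smul_sub]
    exact h1
  obtain ⟨Sb, hSb0, hSb1⟩ := exists_Sb G.toAxGW (t := P.cl ε t) (fun i hi => cl_deg G i hi)
    (P.kap1 n.ξ) (sep_inf G ht) (blk_S (Complex.exp c) S) hSo'
  have hd : X.dim = P.dm := G.dim_eq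
  refine ⟨{ G.toAxGW with
    wt := fun p k => wtz n p (Fin.cast hd k)
    wt_ne := fun p k => wtz_ne n p _
    strict := by
      have h1 := strict_wtz n
      intro p q hpq
      have h2 := h1 hpq
      show ∑ k : Fin X.dim, wtz n p (Fin.cast hd k) < ∑ k : Fin X.dim, wtz n q (Fin.cast hd k)
      rw [blk_sumZ hd (wtz n p), blk_sumZ hd (wtz n q)]
      exact h2
    res := fun p a => P.Rm (ln0 n 1) (n.e p) (ε a)
    isRestriction := fun p => isRestriction G p
    localization := fun a b => by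
      rw [localization_eq G a b]
      refine Finset.sum_congr rfl fun p _ => ?_
      rw [blk_prod hd fun k => (wtz n p k : ℂ)]
    κ := P.kap1 n.ξ
    chern_res := fun p => by
      rw [blk_sum hd fun k => (wtz n p k : ℂ)]
      exact chern_res G p
    B := Matrix.of fun i p => resK n.ξ (K.B (n.e i) (n.e p))
    B_tri := fun i p h => kl_tri n K h
    B_diag := fun p => by
      rw [blk_prod hd fun k => if 0 < wtz n p k then
        (1 : LaurentPolynomial ℤ) - LaurentPolynomial.T (wtz n p k) else 1]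
      exact kl_diag n K p
    χ := Matrix.of fun i j => resK n.ξ (K.χ (n.e i) (n.e j))
    χ_unit := kl_unit n K
    χ_loc := fun y hy i j => by
      have h1 := kl_loc n K hy i j
      refine h1.trans ?_
      refine Finset.sum_congr rfl fun p _ => ?_
      rw [blk_prod hd fun k => (1 - Complex.exp (-(2 * Real.pi * Complex.I * y * wtz n p k)))]
      rfl
    Td := fun a => P.Tdv (ε a)
    todd := todd_like G
    ch := fun i a => P.D.chK (bB (n.e i)) (ε a).1
    hrr := fun i j => by
      rw [hrr G (n.e i) (n.e j)]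
      show _ = evZ 0 (resK n.ξ (K.χ (n.e i) (n.e j)))
      rw [evZ_resK, ← chiM_eul]
      show _ = evK _ (P.chiM (n.e i) (n.e j))
      congr 2
      funext k
      simp
    S := blk_S (Complex.exp c) S
    isUnit_S := blk_unit (Complex.exp_ne_zero _) hSu
    J := fun y w => Complex.exp (c * y) • J y w
    J_entire := fun i j => by
      have h1 : Differentiable ℂ fun p : ℂ × ℂ => Complex.exp (c * p.1) := by fun_prop
      exact h1.mul (hJ1 i j)
    J_ode := fun y w i j => by
      have h1 := (hJ2 y w i j).const_mul (Complex.exp (c * y))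
      rw [Matrix.mul_smul]
      exact h1
    J_shift := fun y w => by
      show Complex.exp (c * y) • J y w = _ * (Complex.exp (c * (y - 1)) • J (y - 1) w)
      rw [blk_ev, Matrix.mul_smul, Matrix.smul_mul, smul_smul, ← hJ3, ← Complex.exp_add]
      congr 2
      ring
    cal := cal
    cal_lim := hc
    G := fun y => Complex.exp (c * y) • (K.G (ln0 n y)).submatrix ε n.e
    G_res := fun y hy p i => by
      have h1 := kl_G n K hy p i
      have h2 : ∑ a, P.cl ε t a * P.Rm (ln0 n 1) (n.e p) (ε a) =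
          c - P.D.hv t (n.e p).1 (ln0 n 1) := blk_row ht _ _
      rw [← Equiv.sum_comp ε] at h1
      have h3 : ∀ a, P.Rm (ln0 n 1) (n.e p) (ε a) * y ^ X.deg a *
          (Complex.exp (c * y) • (K.G (ln0 n y)).submatrix ε n.e) a i =
          Complex.exp (c * y) * (P.Rm (ln0 n 1) (n.e p) (ε a) * y ^ P.len (ε a).1 *
            K.G (ln0 n y) (ε a) (n.e i)) := by
        intro a
        rw [G.deg_eq, Matrix.smul_apply, Matrix.submatrix_apply, smul_eq_mul]
        ring
      rw [Finset.sum_congr rfl fun a _ => h3 a, ← Finset.mul_sum, h1, h2,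
        blk_sum hd fun k => (wtz n p k : ℂ),
        blk_prod hd fun k => Complex.Gamma (1 - wtz n p k * y)]
      have h4 : Complex.exp ((c - P.D.hv t (n.e p).1 (ln0 n 1) +
          Real.pi * Complex.I * ∑ k, (wtz n p k : ℂ)) * y) =
          Complex.exp (c * y) * Complex.exp ((-P.D.hv t (n.e p).1 (ln0 n 1) +
            Real.pi * Complex.I * ∑ k, (wtz n p k : ℂ)) * y) := by
        rw [← Complex.exp_add]
        congr 1
        ring
      rw [h4]
      show _ = _ * evZ y (resK n.ξ (K.B (n.e i) (n.e p))) * _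
      ring
    J_gamma := fun y hy w => by
      rw [Matrix.mul_smul, ← hJ4 y hy w]
    Sb := Sb
    Sb_zero := hSb0
    intertwine := hSb1 }, ?_, ?_, ?_⟩
  · intro i a
    rfl
  · intro i j
    show evZ 0 (resK n.ξ (K.χ (n.e i) (n.e j))) = _
    rw [evZ_resK, ← chiM_eul]
    show evK _ (P.chiM (n.e i) (n.e j)) = _
    congr 2
    funext k
    simp
  · intro w
    show Complex.exp (c * 0) • J 0 w = _
    rw [mul_zero, Complex.exp_zero, one_smul, hJ0]
    rfl

include G in
theorem semisimple : X.IsGenericallySemisimple := by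
  have ht : P.Inv 0 := by
    intro j _
    unfold RS.ch
    simp
  have h0 : P.cl ε 0 = 0 := by
    funext a
    unfold cl E0 RS.ch
    simp
  obtain ⟨T, -⟩ := exists_bulk G ht
  rw [h0] at T
  exact semisimple_of_bulk T

end Pool.Agent.FLG.Par
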