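import Pool.Agent.FLB.Alg

/-!
# FLB-ClA: the classical equivariant cup product

`cup_unit`: `invT 0 {a, one, l} = pairT a l` (`unit_zero`, symmetry of multisets) and
`pairT⁻¹ pairT = 1`. `cup_symm`: the multiset `{a, b, l}`. `pair_cup`: `pairT * cupMatT a` has the entries
`invT 0 {a, b, k}`, symmetric.
`cup_comm`: by `cup_assoc0`: `∑ g^{ef} inv0{a,b,e} inv0{f,c,d} = ∑ g^{ef} inv0{b,c,e} inv0{f,a,d}`,
`inv0 s = invT zero s`, and the argument in `mulAt_comm` (Pool/Agent/DST/VAlg.lean).
`cup_assoc0`: evaluate at a number `x`. For real `s` put `t' = s chern` (nonzero only in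
degree 1, `chern_deg`); `wdvvAt t'`, constant coefficient (`serAt` has the constant coefficient `corrAt`), is
`∑ g^{ef} c_s{a,b,e} c_s{f,c,d} = ∑ g^{ef} c_s{b,c,e} c_s{f,a,d}` with
`c_s(S) = (corrAt T t' S).eval x = ∑ᶠ β, e^{s c1(β)} (invT β S).eval x` (`chern_period`), a finite sum. As
`s → -∞` it tends to `(invT zero S).eval x` (`c1 β = 0` iff `β = zero`), `tendsto_nhds_unique`.
-/

set_option autoImplicit false

open scoped BigOperators Topology
open Filter

namespace Pool.Agent.FLB

open Pool.Agent.Helper18.Dub Pool.Agent.Helper7.DubStokes Pool.Agent.SHF Pool.Agent.DST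

variable {N : ℕ} {X : FanoGW (Fin N)} (T : AxGW X)

private theorem cla_corrAt_eval (S : Multiset (Fin N)) (x : ℂ) :
    ∃ K : Finset X.Curve, X.zero ∈ K ∧ ∀ s : ℝ,
      (corrAt T.toEquivData (fun i => (s : ℂ) * X.chern i) S).eval x =
        ∑ β ∈ K, Complex.exp (s * (X.c1 β : ℂ)) * (T.invT β S).eval x := by
  classical
  refine ⟨insert X.zero (T.finite_support S).toFinset, Finset.mem_insert_self _ _, fun s => ?_⟩
  have h1 : corrAt T.toEquivData (fun i => (s : ℂ) * X.chern i) S =
      ∑ β ∈ insert X.zero (T.finite_support S).toFinset,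
        Polynomial.C (Complex.exp (∑ i, ((s : ℂ) * X.chern i) * X.period β i)) * T.invT β S := by
    rw [corrAt]
    refine finsum_eq_sum_of_support_subset _ fun β hβ => ?_
    refine Finset.mem_coe.2 (Finset.mem_insert_of_mem ?_)
    rw [Set.Finite.mem_toFinset, Function.mem_support]
    rw [Function.mem_support] at hβ
    exact right_ne_zero_of_mul hβ
  rw [h1, Polynomial.eval_finsetSum]
  refine Finset.sum_congr rfl fun β _ => ?_
  rw [Polynomial.eval_mul, Polynomial.eval_C]
  congr 2
  rw [← X.chern_period β, Finset.mul_sum]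
  exact Finset.sum_congr rfl fun i _ => by ring

theorem corrAt_tendsto (S : Multiset (Fin N)) (x : ℂ) :
    Tendsto (fun s : ℝ => (corrAt T.toEquivData (fun i => (s : ℂ) * X.chern i) S).eval x) atBot
      (𝓝 ((T.invT X.zero S).eval x)) := by
  classical
  obtain ⟨K, h0, hK⟩ := cla_corrAt_eval T S x
  have h1 : (T.invT X.zero S).eval x =
      ∑ β ∈ K, if β = X.zero then (T.invT β S).eval x else 0 := by
    rw [Finset.sum_ite_eq' K X.zero, if_pos h0]
  rw [h1]
  refine Tendsto.congr (fun s => (hK s).symm) (tendsto_finsetSum _ fun β _ => ?_)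
  by_cases hβ : β = X.zero
  · rw [if_pos hβ]
    have h2 : X.c1 β = 0 := (X.c1_eq_zero β).2 hβ
    refine Tendsto.congr (fun s => ?_) tendsto_const_nhds
    rw [h2, Nat.cast_zero, mul_zero, Complex.exp_zero, one_mul]
  · rw [if_neg hβ]
    have h2 : 0 < X.c1 β := Nat.pos_of_ne_zero fun h => hβ ((X.c1_eq_zero β).1 h)
    have h3 : Tendsto (fun s : ℝ => Complex.exp (s * (X.c1 β : ℂ))) atBot (𝓝 0) := by
      rw [tendsto_zero_iff_norm_tendsto_zero]
      have h4 : ∀ s : ℝ, ‖Complex.exp (s * (X.c1 β : ℂ))‖ = Real.exp (s * X.c1 β) := by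
        intro s
        rw [Complex.norm_exp]
        congr 1
        simp
      refine Tendsto.congr (fun s => (h4 s).symm) ?_
      refine Real.tendsto_exp_atBot.comp ?_
      exact Tendsto.atBot_mul_const (by exact_mod_cast h2) tendsto_id
    have h5 := h3.mul_const ((T.invT β S).eval x)
    rwa [zero_mul] at h5

private theorem cla_const (t' : Fin N → ℂ) (S : Multiset (Fin N)) :
    MvPowerSeries.constantCoeff (serAt T.toEquivData t' S) = corrAt T.toEquivData t' S := by
  show (serAt T.toEquivData t' S) 0 = _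
  simp [serAt]

theorem cup_assoc0 (a b c d : Fin N) :
    ∑ e, ∑ f, T.pairT⁻¹ e f * T.invT X.zero {a, b, e} * T.invT X.zero {f, c, d} =
      ∑ e, ∑ f, T.pairT⁻¹ e f * T.invT X.zero {b, c, e} * T.invT X.zero {f, a, d} := by
  refine Polynomial.funext fun x => ?_
  have key : ∀ a b c d : Fin N, Tendsto (fun s : ℝ =>
      (∑ e, ∑ f, T.pairT⁻¹ e f *
        corrAt T.toEquivData (fun i => (s : ℂ) * X.chern i) {a, b, e} *
        corrAt T.toEquivData (fun i => (s : ℂ) * X.chern i) {f, c, d}).eval x) atBot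
      (𝓝 ((∑ e, ∑ f, T.pairT⁻¹ e f * T.invT X.zero {a, b, e} *
        T.invT X.zero {f, c, d}).eval x)) := by
    intro a b c d
    simp only [Polynomial.eval_finsetSum, Polynomial.eval_mul]
    refine tendsto_finsetSum _ fun e _ => tendsto_finsetSum _ fun f _ => ?_
    exact (tendsto_const_nhds.mul (corrAt_tendsto T _ x)).mul (corrAt_tendsto T _ x)
  refine tendsto_nhds_unique (key a b c d) (Tendsto.congr (fun s => ?_) (key b c a d))
  have h1 := T.wdvvAt (fun i => (s : ℂ) * X.chern i)
    (fun i hi => X.chern_deg i (right_ne_zero_of_mul hi)) a b c d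
  have h2 := congrArg (MvPowerSeries.constantCoeff (σ := Fin N) (R := Polynomial ℂ)) h1
  simp only [map_sum, map_mul, cla_const, MvPowerSeries.constantCoeff_C] at h2
  rw [h2]

theorem pair_cup (a b k : Fin N) :
    (T.pairT * T.cupMatT a) k b = T.invT X.zero {a, b, k} := by
  have h1 : T.cupMatT a = T.pairT⁻¹ * Matrix.of fun l b => T.invT X.zero {a, b, l} := by
    ext1 k b
    rw [Matrix.mul_apply]
    rfl
  rw [h1, ← Matrix.mul_assoc, Matrix.mul_nonsing_inv _ T.pair_nondeg, Matrix.one_mul]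
  rfl

theorem cup_comm (a b : Fin N) : T.cupMatT a * T.cupMatT b = T.cupMatT b * T.cupMatT a := by
  have h1 : ∀ a, T.cupMatT a = T.pairT⁻¹ * Matrix.of fun l b => T.invT X.zero {a, b, l} := by
    intro a
    ext1 k b
    rw [Matrix.mul_apply]
    rfl
  have key : ∀ a b : Fin N, ∀ f c, ((Matrix.of fun l b => T.invT X.zero {a, b, l}) *
      (T.pairT⁻¹ * Matrix.of fun l c => T.invT X.zero {b, c, l})) f c =
      ∑ e, ∑ l, T.pairT⁻¹ e l * T.invT X.zero {b, c, e} * T.invT X.zero {l, a, f} := by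
    intro a b f c
    rw [← Matrix.mul_assoc, Matrix.mul_apply]
    refine Finset.sum_congr rfl fun e _ => ?_
    rw [Matrix.mul_apply, Finset.sum_mul]
    refine Finset.sum_congr rfl fun l _ => ?_
    rw [T.toEquivGW.pairInv_symm e l, FanoGW.mset_swap l a f]
    show T.invT X.zero {a, l, f} * T.pairT⁻¹ l e * T.invT X.zero {b, c, e} = _
    ring
  rw [h1 a, h1 b, Matrix.mul_assoc, Matrix.mul_assoc]
  refine congrArg (fun M => T.pairT⁻¹ * M) ?_
  ext1 f c
  rw [key, key, cup_assoc0 T b c a f]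
  refine Finset.sum_congr rfl fun e _ => Finset.sum_congr rfl fun l _ => ?_
  rw [FanoGW.mset_swap c a e]

theorem cup_unit (a k : Fin N) : T.cupMatT a k X.one = if k = a then 1 else 0 := by
  have h1 : T.cupMatT a k X.one = ∑ l, T.pairT⁻¹ k l * T.pairT l a := by
    show ∑ l, T.pairT⁻¹ k l * T.invT X.zero {a, X.one, l} = _
    refine Finset.sum_congr rfl fun l _ => ?_
    rw [FanoGW.mset_swap a X.one l, T.unit_zero, T.pair_symm l a]
  have h := congrFun (congrFun (Matrix.nonsing_inv_mul _ T.pair_nondeg) k) a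
  rw [Matrix.mul_apply, Matrix.one_apply] at h
  rw [h1, h]

theorem cup_symm (a b k : Fin N) : T.cupMatT a k b = T.cupMatT b k a := by
  show ∑ l, T.pairT⁻¹ k l * T.invT X.zero {a, b, l} =
    ∑ l, T.pairT⁻¹ k l * T.invT X.zero {b, a, l}
  refine Finset.sum_congr rfl fun l _ => ?_
  rw [FanoGW.mset_swap a b l]

end Pool.Agent.FLB
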