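import Pool.Agent.FLG.FlagP
import Pool.Agent.DSTJ.HDefs
import Pool.Agent.DST.BulkDefs

/-!
# The genus-zero theory of a flag variety `X = G/Q`, equivariant for a cocharacter

`FlagP.lean` (`Pool/Agent/FLG`) describes the flag variety `X = G/Q` of a root system `P` with base
`b` and the set `J` of the simple roots of the Levi subgroup of `Q`: Schubert classes `σ_u`,
`u ∈ Rep b J`, and the (quantum) Chevalley formula. The structures `FanoGW`, `EquivGW`
(`Pool/Agent/Helper18/Dub/GWDefs.lean`, `Pool/Agent/SHF/Defs.lean`) are the genus-zero theories,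
non-equivariant and equivariant for `ℂ^*`, with `H^*(pt) = ℂ[λ]`.
-/

set_option autoImplicit false

open scoped BigOperators Topology

namespace Pool.Agent.FLB

open Pool.Agent.Helper18.Dub Pool.Agent.Helper7.DubStokes Pool.Agent.SHF Pool.Agent.DST
open Pool.Agent.FLG Pool.Agent.FLG.FlagP

variable {ι V V' : Type} [Fintype ι] [AddCommGroup V] [Module ℂ V] [AddCommGroup V'] [Module ℂ V']
  {P : RootPairing ι ℂ V V'} (b : P.Base) (J : Set ι)

/-- `ξ` is a cocharacter of the maximal torus of the adjoint group of `G`, positive on the simple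
roots, such that the weights `ξ(u c_1(X))` of `c_1(X)` at the fixed points `u` of the torus in `X` are
pairwise distinct. -/
structure IsGeneric (ξ : V →ₗ[ℂ] ℂ) : Prop where
  pos : ∀ i ∈ b.support, ∃ n : ℕ, 0 < n ∧ ξ (P.root i) = n
  distinct : ∀ u v : Rep b J, ξ (u.1 • c₁ b J) = ξ (v.1 • c₁ b J) → u = v

/-- `h ∈ H^2(X)` -/
def IsDivisor (h : V) : Prop := ∀ j ∈ J, P.coroot' j h = 0

/-- The restriction of the equivariant class of `h ∈ H^2(X)` to the fixed point `u`, on the
cocharacter `ξ`, is `ξ(h - u h) λ`. -/
noncomputable def restr (ξ : V →ₗ[ℂ] ℂ) (h : V) : Matrix (Rep b J) (Rep b J) (Polynomial ℂ) :=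
  by classical exact Matrix.diagonal fun u => Polynomial.C (ξ (h - u.1 • h)) * Polynomial.X

/-- The matrix of the equivariant cup product with `h ∈ H^2(X)` (equivariant Chevalley formula). -/
noncomputable def cupT (ξ : V →ₗ[ℂ] ℂ) (h : V) : Matrix (Rep b J) (Rep b J) (Polynomial ℂ) :=
  (cup b J h).map Polynomial.C + restr b J ξ h

/-- The matrix of the equivariant quantum product with `h ∈ H^2(X)` at the point `t ∈ H^2(X)`
(equivariant quantum Chevalley formula). -/
noncomputable def mulT (ξ : V →ₗ[ℂ] ℂ) (t h : V) :
    Matrix (Rep b J) (Rep b J) (Polynomial ℂ) :=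
  (mul b J t h).map Polynomial.C + restr b J ξ h

section coord

variable {b J} {N : ℕ} (e : Fin N ≃ Rep b J) (X : FanoGW (Fin N))

/-- The coordinates of the class `h ∈ H^2(X)` (of `h ∪ 1`) in the basis of the Schubert classes,
numbered by `e`. -/
noncomputable def coord (h : V) (a : Fin N) : ℂ := cup b J h (e a) (e X.one)

end coord

/-- `X : FanoGW (Fin N)` is the genus-zero theory of the flag variety `X = G/Q`, in the basis of the
Schubert classes numbered by `e`, and the structure contains the theory which is equivariant for the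
cocharacter `ξ`. The dimension, the degrees, the Poincaré pairing and `c_1(X)` are those of
`FlagP.lean`; the equivariant numbers satisfy the divisor axiom, the degree zero axiom and the WDVV
equations, and the classical and the quantum products with the classes of degree one are given by the
equivariant (quantum) Chevalley formula. -/
structure FlagGW {N : ℕ} (ξ : V →ₗ[ℂ] ℂ) (e : Fin N ≃ Rep b J) (X : FanoGW (Fin N)) extends
    EquivGW X where
  dim_eq : X.dim = (pos b J).card
  deg_eq : ∀ a, X.deg a = Flag.len b (e a).1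
  pair_eq : X.pair = (small b J 0).pair.submatrix e e
  chern_eq : ∀ a, X.chern a = coord e X (c₁ b J) a
  /-- `∫_0 φ_i = 0` -/
  period_zero : ∀ i, X.period X.zero i = 0
  /-- divisor axiom -/
  divisorT : ∀ β s i, β ≠ X.zero → 3 ≤ Multiset.card s → X.deg i = 1 →
    invT β (i ::ₘ s) = Polynomial.C (X.period β i) * invT β s
  degree_zeroT : ∀ s, 4 ≤ Multiset.card s → invT X.zero s = 0
  /-- WDVV equations, with the class `β` weighted by `e^{∫_β t}`, `t ∈ H^2(X)` -/
  wdvvAt : ∀ t : Fin N → ℂ, (∀ i, t i ≠ 0 → X.deg i = 1) → ∀ a b c d,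
    ∑ e, ∑ f, MvPowerSeries.C (pairT⁻¹ e f) * serAt toEquivData t {a, b, e} *
        serAt toEquivData t {f, c, d} =
      ∑ e, ∑ f, MvPowerSeries.C (pairT⁻¹ e f) * serAt toEquivData t {b, c, e} *
        serAt toEquivData t {f, a, d}
  /-- equivariant Chevalley formula -/
  chevalley : ∀ h, IsDivisor J (P := P) h →
    ∑ a, Polynomial.C (coord e X h a) • toEquivData.cupMatT a = (cupT b J ξ h).submatrix e e
  /-- equivariant quantum Chevalley formula -/
  quantumChevalley : ∀ t h, IsDivisor J (P := P) t → IsDivisor J (P := P) h →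
    (Matrix.of fun k c => ∑ a, Polynomial.C (coord e X h a) *
        ∑ l, pairT⁻¹ k l * corrAt toEquivData (coord e X t) {a, c, l}) =
      (mulT b J ξ t h).submatrix e e

end Pool.Agent.FLB
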