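import Mathlib

/-!
# FLB-Der: the rescaling `f(z v)` and the derivation `ell`

`ell = z (δ - ∑_a d_a v_a ∂_a) + ∑_a c_a ∂_a` on `R[[v]]`, `δ` a derivation of the `ℂ`-algebra `R` acting on the
coefficients. Everything is proved coefficientwise; the Leibniz rule of the middle part: `∑_a d_a m_a` is additive
in `m`.  `ell_hat`: with `f̂ = f(z v)` (coefficients `z^{|m|} i(f_m)`), `δ(z^{|m|} i(f_m)) =
z^{|m|} (|m| i(f_m) + i(δ₀ f_m))` and `∂_a f̂ = z (∂_a f)^`.
-/

set_option autoImplicit false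

open scoped BigOperators

namespace Pool.Agent.FLB

variable {σ : Type} [Fintype σ] [DecidableEq σ] {R₀ R : Type} [CommRing R₀] [Algebra ℂ R₀]
  [CommRing R] [Algebra ℂ R]

/-- `δ - ∑ d_a v_a ∂_a` -/
noncomputable def edd (δ : Derivation ℂ R R) (d : σ → ℂ) (f : MvPowerSeries σ R) :
    MvPowerSeries σ R :=
  fun m => δ (MvPowerSeries.coeff m f) - (∑ a, (m a : ℂ) * d a) • MvPowerSeries.coeff m f

/-- `z (δ - ∑ d_a v_a ∂_a) + ∑ c_a ∂_a` -/
noncomputable def ell (z : R) (δ : Derivation ℂ R R) (d c : σ → ℂ) (f : MvPowerSeries σ R) :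
    MvPowerSeries σ R :=
  MvPowerSeries.C z * edd δ d f + ∑ a, c a • MvPowerSeries.pderiv R a f

/-- `f(z v)`, with coefficients mapped by `i` -/
noncomputable def hat (z : R) (i : R₀ →ₐ[ℂ] R) : MvPowerSeries σ R₀ →+* MvPowerSeries σ R :=
  (MvPowerSeries.rescale fun _ => z).comp (MvPowerSeries.map i.toRingHom)

variable (z : R) (δ : Derivation ℂ R R) (d c : σ → ℂ)

omit [Fintype σ] [DecidableEq σ] in
private theorem Der_csmul {S : Type} [CommRing S] [Algebra ℂ S] (w : ℂ) (f : MvPowerSeries σ S)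
    (m : σ →₀ ℕ) : MvPowerSeries.coeff m (w • f) = w • MvPowerSeries.coeff m f := rfl

omit [DecidableEq σ] in
private theorem Der_edd (f : MvPowerSeries σ R) (m : σ →₀ ℕ) :
    MvPowerSeries.coeff m (edd δ d f) =
      δ (MvPowerSeries.coeff m f) - (∑ a, (m a : ℂ) * d a) • MvPowerSeries.coeff m f := rfl

omit [DecidableEq σ] in
private theorem Der_deg (m : σ →₀ ℕ) : ((m.degree : ℕ) : ℂ) = ∑ a, (m a : ℂ) := by
  rw [Finsupp.degree_eq_sum]
  push_cast
  rfl

private theorem Der_edd_mul (f g : MvPowerSeries σ R) :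
    edd δ d (f * g) = edd δ d f * g + f * edd δ d g := by
  ext m
  rw [Der_edd, map_add, MvPowerSeries.coeff_mul, MvPowerSeries.coeff_mul, MvPowerSeries.coeff_mul,
    map_sum, Finset.smul_sum, ← Finset.sum_sub_distrib, ← Finset.sum_add_distrib]
  refine Finset.sum_congr rfl fun p hp => ?_
  have h1 : p.1 + p.2 = m := Finset.HasAntidiagonal.mem_antidiagonal.1 hp
  have h2 : (∑ a, (m a : ℂ) * d a) = (∑ a, (p.1 a : ℂ) * d a) + ∑ a, (p.2 a : ℂ) * d a := by
    rw [← h1, ← Finset.sum_add_distrib]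
    refine Finset.sum_congr rfl fun a _ => ?_
    rw [Finsupp.add_apply]
    push_cast
    ring
  rw [h2, Der_edd, Der_edd, Derivation.leibniz, add_smul, sub_mul, mul_sub, smul_mul_assoc,
    mul_smul_comm, smul_eq_mul, smul_eq_mul]
  ring

private theorem Der_nat (k : ℕ) (x : R) : δ (x * ((k : R) + 1)) = δ x * ((k : R) + 1) := by
  have h1 : ((k : R) + 1) = ((k + 1 : ℕ) : R) := by push_cast; rfl
  rw [h1, Derivation.leibniz, Derivation.map_natCast, smul_zero, zero_add, smul_eq_mul, mul_comm]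

omit [Fintype σ] [Algebra ℂ R] in
private theorem Der_pp (a b : σ) (f : MvPowerSeries σ R) :
    MvPowerSeries.pderiv R a (MvPowerSeries.pderiv R b f) =
      MvPowerSeries.pderiv R b (MvPowerSeries.pderiv R a f) := by
  ext n
  rw [MvPowerSeries.coeff_pderiv, MvPowerSeries.coeff_pderiv, MvPowerSeries.coeff_pderiv,
    MvPowerSeries.coeff_pderiv, add_right_comm n (Finsupp.single a 1) (Finsupp.single b 1)]
  by_cases h : a = b
  · subst h
    rfl
  · rw [Finsupp.add_apply, Finsupp.add_apply, Finsupp.single_eq_of_ne (Ne.symm h),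
      Finsupp.single_eq_of_ne h, add_zero, add_zero]
    ring

private theorem Der_pedd (a : σ) (f : MvPowerSeries σ R) :
    MvPowerSeries.pderiv R a (edd δ d f) =
      edd δ d (MvPowerSeries.pderiv R a f) - d a • MvPowerSeries.pderiv R a f := by
  ext n
  rw [MvPowerSeries.coeff_pderiv, Der_edd, map_sub, Der_edd, Der_csmul,
    MvPowerSeries.coeff_pderiv, Der_nat]
  have h2 : (∑ b, (((n + Finsupp.single a 1 : σ →₀ ℕ) b : ℕ) : ℂ) * d b) = (∑ b, (n b : ℂ) * d b) + d a := by
    have h3 : ∀ b, (((n + Finsupp.single a 1 : σ →₀ ℕ) b : ℕ) : ℂ) * d b =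
        (n b : ℂ) * d b + (if a = b then d b else 0) := by
      intro b
      rw [Finsupp.add_apply, Finsupp.single_apply]
      split_ifs <;> push_cast <;> ring
    rw [Finset.sum_congr rfl fun b _ => h3 b, Finset.sum_add_distrib, Finset.sum_ite_eq]
    simp
  rw [h2, add_smul, sub_mul, add_mul, smul_mul_assoc, smul_mul_assoc]
  abel

private theorem Der_pow (hz : δ z = z) (k : ℕ) : δ (z ^ k) = (k : R) * z ^ k := by
  rw [Derivation.leibniz_pow, hz, smul_eq_mul, nsmul_eq_mul]
  rcases Nat.eq_zero_or_pos k with h | h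
  · subst h
    simp
  · rw [← pow_succ, Nat.sub_add_cancel h]

theorem coeff_hat (i : R₀ →ₐ[ℂ] R) (f : MvPowerSeries σ R₀) (m : σ →₀ ℕ) :
    MvPowerSeries.coeff m (hat z i f) = z ^ m.degree * i (MvPowerSeries.coeff m f) := by
  unfold hat
  rw [RingHom.comp_apply, MvPowerSeries.coeff_rescale, MvPowerSeries.coeff_map, Finsupp.prod,
    Finset.prod_pow_eq_pow_sum]
  rfl

theorem pderiv_hat (i : R₀ →ₐ[ℂ] R) (f : MvPowerSeries σ R₀) (a : σ) :
    MvPowerSeries.pderiv R a (hat z i f) =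
      MvPowerSeries.C z * hat z i (MvPowerSeries.pderiv R₀ a f) := by
  ext m
  rw [MvPowerSeries.coeff_pderiv, MvPowerSeries.coeff_C_mul, coeff_hat, coeff_hat,
    MvPowerSeries.coeff_pderiv, map_mul, map_add, map_add, map_one, map_natCast,
    Finsupp.degree_single, pow_succ]
  ring

theorem coeff_ell (f : MvPowerSeries σ R) (m : σ →₀ ℕ) :
    MvPowerSeries.coeff m (ell z δ d c f) =
      z * (δ (MvPowerSeries.coeff m f) - (∑ a, (m a : ℂ) * d a) • MvPowerSeries.coeff m f) +
        ∑ a, c a • MvPowerSeries.coeff m (MvPowerSeries.pderiv R a f) := by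
  unfold ell
  rw [map_add, MvPowerSeries.coeff_C_mul, map_sum, Der_edd]
  rfl

theorem ell_add (f g : MvPowerSeries σ R) :
    ell z δ d c (f + g) = ell z δ d c f + ell z δ d c g := by
  ext m
  rw [map_add, coeff_ell, coeff_ell, coeff_ell, map_add, map_add, smul_add]
  have h1 : ∑ a, c a • MvPowerSeries.coeff m (MvPowerSeries.pderiv R a (f + g)) =
      ∑ a, c a • MvPowerSeries.coeff m (MvPowerSeries.pderiv R a f) +
        ∑ a, c a • MvPowerSeries.coeff m (MvPowerSeries.pderiv R a g) := by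
    rw [← Finset.sum_add_distrib]
    refine Finset.sum_congr rfl fun a _ => ?_
    rw [map_add, map_add, smul_add]
  rw [h1]
  ring

theorem ell_sub (f g : MvPowerSeries σ R) :
    ell z δ d c (f - g) = ell z δ d c f - ell z δ d c g := by
  have h := ell_add z δ d c (f - g) g
  rw [sub_add_cancel] at h
  rw [h, add_sub_cancel_right]

theorem ell_sum {κ : Type} (s : Finset κ) (f : κ → MvPowerSeries σ R) :
    ell z δ d c (∑ k ∈ s, f k) = ∑ k ∈ s, ell z δ d c (f k) := by
  classical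
  have h0 : ell z δ d c (0 : MvPowerSeries σ R) = 0 := by
    have h := ell_add z δ d c (0 : MvPowerSeries σ R) 0
    rw [add_zero] at h
    exact left_eq_add.1 h
  refine Finset.induction_on s ?_ fun k s hk ih => ?_
  · rw [Finset.sum_empty, Finset.sum_empty, h0]
  · rw [Finset.sum_insert hk, Finset.sum_insert hk, ell_add, ih]

theorem ell_mul (f g : MvPowerSeries σ R) :
    ell z δ d c (f * g) = ell z δ d c f * g + f * ell z δ d c g := by
  unfold ell
  rw [Der_edd_mul, add_mul, mul_add f, Finset.sum_mul, Finset.mul_sum]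
  have h1 : ∑ a, c a • MvPowerSeries.pderiv R a (f * g) =
      ∑ a, (c a • MvPowerSeries.pderiv R a f) * g + ∑ a, f * (c a • MvPowerSeries.pderiv R a g) := by
    rw [← Finset.sum_add_distrib]
    refine Finset.sum_congr rfl fun a _ => ?_
    rw [Derivation.leibniz, smul_eq_mul, smul_eq_mul, smul_add, smul_mul_assoc, mul_smul_comm,
      mul_comm g, add_comm]
  rw [h1]
  ring

/-- requires `δ z = z` -/
theorem pderiv_ell (a : σ) (f : MvPowerSeries σ R) :
    MvPowerSeries.pderiv R a (ell z δ d c f) = ell z δ d c (MvPowerSeries.pderiv R a f) -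
      d a • (MvPowerSeries.C z * MvPowerSeries.pderiv R a f) := by
  unfold ell
  rw [map_add, map_sum, Derivation.leibniz, MvPowerSeries.pderiv_C, smul_zero, add_zero,
    smul_eq_mul, Der_pedd, mul_sub, mul_smul_comm]
  have h1 : ∑ b, MvPowerSeries.pderiv R a (c b • MvPowerSeries.pderiv R b f) =
      ∑ b, c b • MvPowerSeries.pderiv R b (MvPowerSeries.pderiv R a f) := by
    refine Finset.sum_congr rfl fun b _ => ?_
    rw [← Der_pp a b f]
    ext n
    rw [MvPowerSeries.coeff_pderiv, Der_csmul, Der_csmul,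
      MvPowerSeries.coeff_pderiv (MvPowerSeries.pderiv R b f) n, smul_mul_assoc]
  rw [h1]
  abel

theorem ell_hat (hz : δ z = z) (δ₀ : Derivation ℂ R₀ R₀) (i : R₀ →ₐ[ℂ] R)
    (hi : ∀ x, δ (i x) = i (δ₀ x)) (f : MvPowerSeries σ R₀) (w : ℂ)
    (hf : ∀ m : σ →₀ ℕ, δ₀ (MvPowerSeries.coeff m f) +
      (∑ a, (m a : ℂ) * (1 - d a)) • MvPowerSeries.coeff m f +
      ∑ a, c a • MvPowerSeries.coeff m (MvPowerSeries.pderiv R₀ a f) =
        w • MvPowerSeries.coeff m f) :
    ell z δ d c (hat z i f) = w • (MvPowerSeries.C z * hat z i f) := by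
  ext m
  have hsum : ∑ a, c a • MvPowerSeries.coeff m (MvPowerSeries.pderiv R a (hat z i f)) =
      z * z ^ m.degree * i (∑ a, c a • MvPowerSeries.coeff m (MvPowerSeries.pderiv R₀ a f)) := by
    rw [map_sum, Finset.mul_sum]
    refine Finset.sum_congr rfl fun a _ => ?_
    rw [pderiv_hat, MvPowerSeries.coeff_C_mul, coeff_hat, map_smul, mul_smul_comm, mul_assoc]
  have hdeg : (m.degree : R) = algebraMap ℂ R (∑ a, (m a : ℂ)) := by
    rw [← Der_deg, map_natCast]
  have hsm : ∀ (u : ℂ) (x : R), u • x = algebraMap ℂ R u * x := fun u x => Algebra.smul_def u x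
  have h3 : (∑ a, (m a : ℂ) * (1 - d a)) = (∑ a, (m a : ℂ)) - ∑ a, (m a : ℂ) * d a := by
    rw [← Finset.sum_sub_distrib]
    refine Finset.sum_congr rfl fun a _ => ?_
    ring
  have h4 := congrArg i (hf m)
  rw [map_add, map_add, map_smul, map_smul, h3, hsm, hsm, map_sub] at h4
  rw [coeff_ell, hsum, coeff_hat, Derivation.leibniz, Der_pow z δ hz, hi, Der_csmul,
    MvPowerSeries.coeff_C_mul, coeff_hat, hdeg, hsm, hsm, smul_eq_mul, smul_eq_mul]
  linear_combination z * z ^ m.degree * h4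

end Pool.Agent.FLB
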