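import Mathlib

/-!
# FLB-Frm: formal flat systems `∂_a S = P_a S - S Q_a`

PLAN. `R` is a `ℂ`-algebra, all the series are in `R[[v_a : a ∈ σ]]`, `|m| = ∑ m_a` (`m.degree`).
Uniqueness (`flat_unique`): if a coefficient of `W` is nonzero take `m` with `|m|` minimal, `m ≠ 0`, `a` with
`m_a > 0`; the coefficient of `∂_a W = P_a W - W Q_a` at `m - e_a` is `m_a W_m`, on the right only coefficients
of `W` with smaller degree occur, so `m_a W_m = 0` (`m_a` is invertible in the `ℂ`-algebra `R`).
Existence: with `𝒫 = ∑ v_a P_a`, `𝒬 = ∑ v_a Q_a` (no constant term) define `S_m` by recursion on `|m|`: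
`|m| S_m = (𝒫 S - S 𝒬)_m` for `m ≠ 0` and `S_0` given (only `S_{m'}` with `|m'| < |m|` occur on the right),
that is `D S = 𝒫 S - S 𝒬`, `D = ∑ v_a ∂_a`. Then `K_a = ∂_a S - P_a S + S Q_a` satisfies
`D K_a + K_a = 𝒫 K_a - K_a 𝒬` (use `∂_a 𝒫 = P_a + D P_a`, which follows from `∂_a P_b = ∂_b P_a`, and
`[P_a, 𝒫] = 0`, the same for `Q`), and `(|m| + 1) (K_a)_m = (𝒫 K_a - K_a 𝒬)_m` gives `K_a = 0` by induction on
`|m|`.
-/

set_option autoImplicit false

open scoped BigOperators

namespace Pool.Agent.FLB

variable {n σ : Type} [Fintype n] [DecidableEq n] [Fintype σ] [DecidableEq σ]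
  {R : Type} [CommRing R] [Algebra ℂ R]

/-- the matrix of the coefficients at `m` -/
private noncomputable def cM (m : σ →₀ ℕ) (W : Matrix n n (MvPowerSeries σ R)) : Matrix n n R :=
  W.map (MvPowerSeries.coeff m)

private lemma cM_apply (m : σ →₀ ℕ) (W : Matrix n n (MvPowerSeries σ R)) (i j : n) :
    cM m W i j = MvPowerSeries.coeff m (W i j) := rfl

private lemma cM_add (m : σ →₀ ℕ) (V W : Matrix n n (MvPowerSeries σ R)) :
    cM m (V + W) = cM m V + cM m W := by
  ext i j; simp [cM]

private lemma cM_sub (m : σ →₀ ℕ) (V W : Matrix n n (MvPowerSeries σ R)) :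
    cM m (V - W) = cM m V - cM m W := by
  ext i j; simp [cM]

private lemma cM_ext {V W : Matrix n n (MvPowerSeries σ R)} (h : ∀ m, cM m V = cM m W) :
    V = W := by
  ext i j m
  have := congrFun (congrFun (h m) i) j
  simpa [cM] using this

private lemma cM_mul (m : σ →₀ ℕ) (V W : Matrix n n (MvPowerSeries σ R)) :
    cM m (V * W) = ∑ p ∈ Finset.HasAntidiagonal.antidiagonal m, cM p.1 V * cM p.2 W := by
  ext i j
  simp only [cM, Matrix.map_apply, Matrix.mul_apply, map_sum, MvPowerSeries.coeff_mul,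
    Matrix.sum_apply]
  rw [Finset.sum_comm]

private lemma cM_pd (m : σ →₀ ℕ) (a : σ) (W : Matrix n n (MvPowerSeries σ R)) (i j : n) :
    cM m (W.map (MvPowerSeries.pderiv R a)) i j =
      cM (m + Finsupp.single a 1) W i j * ((m a : R) + 1) := by
  simp [cM, MvPowerSeries.coeff_pderiv]

private lemma nz (k : ℕ) (x : R) (h : x * ((k : R) + 1) = 0) : x = 0 := by
  have hu : IsUnit ((k : R) + 1) := by
    have h1 : IsUnit ((k : ℂ) + 1) := by
      have : ((k : ℂ) + 1) ≠ 0 := Nat.cast_add_one_ne_zero k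
      exact this.isUnit
    have h2 := h1.map (algebraMap ℂ R)
    simpa using h2
  exact (hu.mul_left_eq_zero).1 h

/-- the degree of a smaller exponent -/
private lemma deg_anti {m : σ →₀ ℕ} {p : (σ →₀ ℕ) × (σ →₀ ℕ)} (h : p ∈ Finset.HasAntidiagonal.antidiagonal m) :
    p.1.degree + p.2.degree = m.degree := by
  rw [Finset.HasAntidiagonal.mem_antidiagonal] at h
  rw [← h, map_add]

/-- the derivation `∑ v_a ∂_a` -/
private noncomputable def Eu : Derivation R (MvPowerSeries σ R) (MvPowerSeries σ R) :=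
  ∑ a : σ, (MvPowerSeries.X a : MvPowerSeries σ R) • MvPowerSeries.pderiv R a

private lemma Eu_apply (f : MvPowerSeries σ R) :
    Eu f = ∑ a : σ, MvPowerSeries.X a * MvPowerSeries.pderiv R a f := by
  rw [Eu]
  have h : ∀ s : Finset σ, (∑ a ∈ s, (MvPowerSeries.X a : MvPowerSeries σ R) •
      MvPowerSeries.pderiv R a) f = ∑ a ∈ s, MvPowerSeries.X a * MvPowerSeries.pderiv R a f := by
    intro s
    induction s using Finset.induction_on with
    | empty => simp
    | insert a s ha ih =>
      rw [Finset.sum_insert ha, Finset.sum_insert ha, Derivation.add_apply, ih,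
        Derivation.smul_apply, smul_eq_mul]
  exact h Finset.univ

private lemma coeff_X_pd (m : σ →₀ ℕ) (a : σ) (f : MvPowerSeries σ R) :
    MvPowerSeries.coeff m (MvPowerSeries.X a * MvPowerSeries.pderiv R a f) =
      MvPowerSeries.coeff m f * (m a : R) := by
  by_cases h : m a = 0
  · rw [h, Nat.cast_zero, mul_zero, MvPowerSeries.X, MvPowerSeries.coeff_monomial_mul, if_neg]
    intro hle
    have := hle a
    simp [h] at this
  · obtain ⟨m', rfl⟩ : ∃ m', m = Finsupp.single a 1 + m' :=
      ⟨m - Finsupp.single a 1, by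
        rw [add_tsub_cancel_of_le]
        simpa [Nat.one_le_iff_ne_zero] using h⟩
    rw [MvPowerSeries.X, MvPowerSeries.coeff_add_monomial_mul, one_mul,
      MvPowerSeries.coeff_pderiv, add_comm m']
    simp [add_comm]

private lemma coeff_Eu (m : σ →₀ ℕ) (f : MvPowerSeries σ R) :
    MvPowerSeries.coeff m (Eu f) = MvPowerSeries.coeff m f * (m.degree : R) := by
  rw [Eu_apply, map_sum, Finsupp.degree_eq_sum, Nat.cast_sum, Finset.mul_sum]
  exact Finset.sum_congr rfl fun a _ => coeff_X_pd m a f

private lemma cM_Eu (m : σ →₀ ℕ) (W : Matrix n n (MvPowerSeries σ R)) (i j : n) :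
    cM m (W.map (Eu : Derivation R (MvPowerSeries σ R) (MvPowerSeries σ R))) i j =
      cM m W i j * (m.degree : R) := by
  simp only [cM, Matrix.map_apply]
  exact coeff_Eu m _

/-- the Leibniz rule for matrices -/
private lemma map_mul_der (d : Derivation R (MvPowerSeries σ R) (MvPowerSeries σ R))
    (V W : Matrix n n (MvPowerSeries σ R)) :
    (V * W).map d = V.map d * W + V * W.map d := by
  ext1 i j
  simp only [Matrix.map_apply, Matrix.mul_apply, Matrix.add_apply, map_sum, Derivation.leibniz,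
    smul_eq_mul, Finset.sum_add_distrib]
  rw [add_comm]
  congr 1
  exact Finset.sum_congr rfl fun k _ => mul_comm _ _

private lemma map_add_der (d : Derivation R (MvPowerSeries σ R) (MvPowerSeries σ R))
    (V W : Matrix n n (MvPowerSeries σ R)) :
    (V + W).map d = V.map d + W.map d := by
  ext1 i j
  simp

private lemma map_sub_der (d : Derivation R (MvPowerSeries σ R) (MvPowerSeries σ R))
    (V W : Matrix n n (MvPowerSeries σ R)) :
    (V - W).map d = V.map d - W.map d := by
  ext1 i j
  simp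

/-- `[∂_a, D] = ∂_a` -/
private lemma Eu_pd (a : σ) (W : Matrix n n (MvPowerSeries σ R)) :
    (W.map (MvPowerSeries.pderiv R a)).map (Eu : Derivation R _ (MvPowerSeries σ R)) =
      (W.map (Eu : Derivation R _ (MvPowerSeries σ R))).map (MvPowerSeries.pderiv R a) -
        W.map (MvPowerSeries.pderiv R a) := by
  ext1 i j
  ext m
  simp only [Matrix.map_apply, Matrix.sub_apply, map_sub, coeff_Eu, MvPowerSeries.coeff_pderiv,
    map_add, Finsupp.degree_single]
  push_cast
  ring

/-- uniqueness for the Euler field -/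
private lemma Eu_zero (P Q K : Matrix n n (MvPowerSeries σ R)) (hP : cM 0 P = 0) (hQ : cM 0 Q = 0)
    (h : K.map (Eu : Derivation R _ (MvPowerSeries σ R)) + K = P * K - K * Q) : K = 0 := by
  have key : ∀ N : ℕ, ∀ m : σ →₀ ℕ, m.degree = N → cM m K = 0 := by
    intro N
    induction N using Nat.strong_induction_on with
    | _ N ih =>
      intro m hm
      have h1 := congrArg (cM m) h
      rw [cM_add, cM_sub, cM_mul, cM_mul] at h1
      have h2 : ∑ p ∈ Finset.HasAntidiagonal.antidiagonal m, cM p.1 P * cM p.2 K = 0 := by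
        refine Finset.sum_eq_zero fun p hp => ?_
        by_cases h0 : p.1 = 0
        · rw [h0, hP, zero_mul]
        · have hd := deg_anti hp
          have h3 : p.1.degree ≠ 0 := by rwa [Ne, Finsupp.degree_eq_zero_iff]
          rw [ih p.2.degree (by omega) p.2 rfl, mul_zero]
      have h3 : ∑ p ∈ Finset.HasAntidiagonal.antidiagonal m, cM p.1 K * cM p.2 Q = 0 := by
        refine Finset.sum_eq_zero fun p hp => ?_
        by_cases h0 : p.2 = 0
        · rw [h0, hQ, mul_zero]
        · have hd := deg_anti hp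
          have h3 : p.2.degree ≠ 0 := by rwa [Ne, Finsupp.degree_eq_zero_iff]
          rw [ih p.1.degree (by omega) p.1 rfl, zero_mul]
      rw [h2, h3, sub_zero] at h1
      ext i j
      have h4 := congrFun (congrFun h1 i) j
      rw [Matrix.add_apply, cM_Eu] at h4
      refine nz m.degree _ ?_
      rw [mul_add, mul_one]
      simpa using h4
  refine cM_ext fun m => ?_
  rw [key m.degree m rfl]
  ext i j
  simp [cM]

/-- the coefficients of the solution of `D S = P S - S Q` -/
private noncomputable def sol (P Q : (σ →₀ ℕ) → Matrix n n R) (S₀ : Matrix n n R) :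
    (σ →₀ ℕ) → Matrix n n R :=
  (measure fun m : σ →₀ ℕ => m.degree).wf.fix fun m rec =>
    if m = 0 then S₀ else
      algebraMap ℂ R ((m.degree : ℂ)⁻¹) • (∑ p ∈ Finset.HasAntidiagonal.antidiagonal m,
        (if h : p.2.degree < m.degree then P p.1 * rec p.2 h - rec p.2 h * Q p.1 else 0))

private lemma sol_eq (P Q : (σ →₀ ℕ) → Matrix n n R) (S₀ : Matrix n n R) (m : σ →₀ ℕ) :
    sol P Q S₀ m = if m = 0 then S₀ else
      algebraMap ℂ R ((m.degree : ℂ)⁻¹) • (∑ p ∈ Finset.HasAntidiagonal.antidiagonal m,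
        (if _h : p.2.degree < m.degree then P p.1 * sol P Q S₀ p.2 - sol P Q S₀ p.2 * Q p.1
          else 0)) := by
  rw [sol, WellFounded.fix_eq]

private lemma sol_zero (P Q : (σ →₀ ℕ) → Matrix n n R) (S₀ : Matrix n n R) :
    sol P Q S₀ 0 = S₀ := by
  rw [sol_eq, if_pos rfl]

private lemma sol_deg (P Q : (σ →₀ ℕ) → Matrix n n R) (S₀ : Matrix n n R) (hP : P 0 = 0)
    (hQ : Q 0 = 0) (m : σ →₀ ℕ) :
    (m.degree : R) • sol P Q S₀ m =
      ∑ p ∈ Finset.HasAntidiagonal.antidiagonal m, (P p.1 * sol P Q S₀ p.2 - sol P Q S₀ p.2 * Q p.1) := by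
  by_cases hm : m = 0
  · subst hm
    simp [hP, hQ]
  · rw [sol_eq, if_neg hm, smul_smul]
    have hd : m.degree ≠ 0 := by rwa [Ne, Finsupp.degree_eq_zero_iff]
    have h1 : (m.degree : R) * algebraMap ℂ R ((m.degree : ℂ)⁻¹) = 1 := by
      have h2 : (m.degree : R) = algebraMap ℂ R (m.degree : ℂ) := by simp
      rw [h2, ← map_mul, mul_inv_cancel₀ (by exact_mod_cast hd), map_one]
    rw [h1, one_smul]
    refine Finset.sum_congr rfl fun p hp => ?_
    split_ifs with h
    · rfl
    · have hd := deg_anti hp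
      have h0 : p.1 = 0 := by
        rw [← Finsupp.degree_eq_zero_iff]
        omega
      rw [h0, hP, hQ, zero_mul, mul_zero, sub_zero]

/-- existence for the Euler field -/
private lemma Eu_exists (P Q : Matrix n n (MvPowerSeries σ R)) (hP : cM 0 P = 0) (hQ : cM 0 Q = 0)
    (S₀ : Matrix n n R) : ∃ S : Matrix n n (MvPowerSeries σ R), cM 0 S = S₀ ∧
      S.map (Eu : Derivation R _ (MvPowerSeries σ R)) = P * S - S * Q := by
  set T := sol (fun m => cM m P) (fun m => cM m Q) S₀ with hT
  let S : Matrix n n (MvPowerSeries σ R) := Matrix.of fun i j => fun m => T m i j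
  have hS : ∀ m, cM m S = T m := by
    intro m
    ext i j
    rfl
  refine ⟨S, ?_, ?_⟩
  · rw [hS, hT, sol_zero]
  · refine cM_ext fun m => ?_
    rw [cM_sub, cM_mul, cM_mul]
    have h1 : cM m (S.map (Eu : Derivation R _ (MvPowerSeries σ R))) =
        (m.degree : R) • T m := by
      ext i j
      rw [cM_Eu, hS, Matrix.smul_apply, smul_eq_mul, mul_comm]
    rw [h1, hT, sol_deg _ _ S₀ hP hQ m, Finset.sum_sub_distrib, ← hT]
    refine congrArg₂ (· - ·) (Finset.sum_congr rfl fun p _ => by rw [hS]) ?_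
    · refine Finset.sum_nbij' (fun p => p.swap) (fun p => p.swap) ?_ ?_ ?_ ?_ ?_
      · intro p hp
        rw [Finset.HasAntidiagonal.mem_antidiagonal] at hp ⊢
        rw [← hp, Prod.fst_swap, Prod.snd_swap, add_comm]
      · intro p hp
        rw [Finset.HasAntidiagonal.mem_antidiagonal] at hp ⊢
        rw [← hp, Prod.fst_swap, Prod.snd_swap, add_comm]
      · intro p _
        exact Prod.swap_swap p
      · intro p _
        exact Prod.swap_swap p
      · intro p _
        rw [Prod.fst_swap, Prod.snd_swap, hS]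

/-- `∑ v_b P_b` -/
private noncomputable def Pt (P : σ → Matrix n n (MvPowerSeries σ R)) :
    Matrix n n (MvPowerSeries σ R) :=
  ∑ b : σ, (MvPowerSeries.X b : MvPowerSeries σ R) • P b

private lemma Pt_zero (P : σ → Matrix n n (MvPowerSeries σ R)) : cM 0 (Pt P) = 0 := by
  ext i j
  simp [cM, Pt, Matrix.sum_apply]

private lemma Pt_pd (P : σ → Matrix n n (MvPowerSeries σ R))
    (hP : ∀ a b, (P b).map (MvPowerSeries.pderiv R a) = (P a).map (MvPowerSeries.pderiv R b))
    (a : σ) : (Pt P).map (MvPowerSeries.pderiv R a) =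
      P a + (P a).map (Eu : Derivation R _ (MvPowerSeries σ R)) := by
  ext1 i j
  have h1 : ∀ b, MvPowerSeries.pderiv R a (P b i j) = MvPowerSeries.pderiv R b (P a i j) :=
    fun b => by
      have := congrFun (congrFun (hP a b) i) j
      simpa using this
  simp only [Matrix.map_apply, Pt, Matrix.sum_apply, Matrix.smul_apply, smul_eq_mul, map_sum,
    Derivation.leibniz, Matrix.add_apply, Eu_apply, Finset.sum_add_distrib, h1]
  rw [add_comm]
  congr 1
  rw [Finset.sum_eq_single a]
  · rw [MvPowerSeries.pderiv_X_self, mul_one]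
  · intro b _ hb
    rw [MvPowerSeries.pderiv_X_of_ne hb, mul_zero]
  · intro h
    exact absurd (Finset.mem_univ a) h

private lemma Pt_comm (P : σ → Matrix n n (MvPowerSeries σ R)) (hP : ∀ a b, P a * P b = P b * P a)
    (a : σ) : P a * Pt P = Pt P * P a := by
  rw [Pt, Finset.mul_sum, Finset.sum_mul]
  refine Finset.sum_congr rfl fun b _ => ?_
  rw [Matrix.mul_smul, Matrix.smul_mul, hP a b]

theorem flat_unique (P Q : σ → Matrix n n (MvPowerSeries σ R)) (W : Matrix n n (MvPowerSeries σ R))
    (h : ∀ a, W.map (MvPowerSeries.pderiv R a) = P a * W - W * Q a)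
    (h0 : ∀ i j, MvPowerSeries.constantCoeff (W i j) = 0) : W = 0 := by
  have key : ∀ N : ℕ, ∀ m : σ →₀ ℕ, m.degree = N → cM m W = 0 := by
    intro N
    induction N using Nat.strong_induction_on with
    | _ N ih =>
      intro m hm
      by_cases hm0 : m = 0
      · subst hm0
        ext i j
        exact h0 i j
      · obtain ⟨a, ha⟩ : ∃ a, m a ≠ 0 := by
          by_contra hcon
          push Not at hcon
          exact hm0 (Finsupp.ext hcon)
        obtain ⟨m', rfl⟩ : ∃ m', m = m' + Finsupp.single a 1 :=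
          ⟨m - Finsupp.single a 1, by
            rw [tsub_add_cancel_of_le]
            simpa [Nat.one_le_iff_ne_zero] using ha⟩
        have hdm : m'.degree + 1 = N := by
          rw [← hm, map_add, Finsupp.degree_single]
        have h1 := congrArg (cM m') (h a)
        rw [cM_sub, cM_mul, cM_mul] at h1
        have h2 : ∑ p ∈ Finset.HasAntidiagonal.antidiagonal m', cM p.1 (P a) * cM p.2 W = 0 := by
          refine Finset.sum_eq_zero fun p hp => ?_
          have hd := deg_anti hp
          rw [ih p.2.degree (by omega) p.2 rfl, mul_zero]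
        have h3 : ∑ p ∈ Finset.HasAntidiagonal.antidiagonal m', cM p.1 W * cM p.2 (Q a) = 0 := by
          refine Finset.sum_eq_zero fun p hp => ?_
          have hd := deg_anti hp
          rw [ih p.1.degree (by omega) p.1 rfl, zero_mul]
        rw [h2, h3, sub_zero] at h1
        ext i j
        have h4 := congrFun (congrFun h1 i) j
        rw [cM_pd] at h4
        exact nz (m' a) _ h4
  refine cM_ext fun m => ?_
  rw [key m.degree m rfl]
  ext i j
  simp [cM]

theorem exists_flat (P Q : σ → Matrix n n (MvPowerSeries σ R))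
    (hP : ∀ a b, (P b).map (MvPowerSeries.pderiv R a) = (P a).map (MvPowerSeries.pderiv R b))
    (hQ : ∀ a b, (Q b).map (MvPowerSeries.pderiv R a) = (Q a).map (MvPowerSeries.pderiv R b))
    (hP' : ∀ a b, P a * P b = P b * P a) (hQ' : ∀ a b, Q a * Q b = Q b * Q a)
    (S₀ : Matrix n n R) :
    ∃ S : Matrix n n (MvPowerSeries σ R), (∀ i j, MvPowerSeries.constantCoeff (S i j) = S₀ i j) ∧
      ∀ a, S.map (MvPowerSeries.pderiv R a) = P a * S - S * Q a := by
  obtain ⟨S, hS0, hS⟩ := Eu_exists (Pt P) (Pt Q) (Pt_zero P) (Pt_zero Q) S₀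
  refine ⟨S, fun i j => ?_, fun a => ?_⟩
  · have := congrFun (congrFun hS0 i) j
    simpa [cM] using this
  · have hK := Eu_zero (Pt P) (Pt Q) (S.map (MvPowerSeries.pderiv R a) - P a * S + S * Q a)
      (Pt_zero P) (Pt_zero Q) ?_
    · have h1 := sub_eq_zero.1 (show S.map (MvPowerSeries.pderiv R a) - (P a * S - S * Q a) = 0 by
        rw [← hK]; abel)
      exact h1
    · have e1 := Eu_pd a S
      rw [hS, map_sub_der, map_mul_der, map_mul_der, Pt_pd P hP, Pt_pd Q hQ] at e1
      rw [map_add_der, map_sub_der, map_mul_der, map_mul_der, e1, hS]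
      have c1 := Pt_comm P hP' a
      have c2 := Pt_comm Q hQ' a
      have c1' : P a * (Pt P * S) = Pt P * (P a * S) := by
        rw [← mul_assoc, c1, mul_assoc]
      have c2' : S * Pt Q * Q a = S * Q a * Pt Q := by
        rw [mul_assoc, ← c2, mul_assoc]
      rw [mul_sub (P a), sub_mul _ _ (Q a), c1', c2']
      noncomm_ring

end Pool.Agent.FLB
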