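import Pool.Agent.FLG.P.Good
import Pool.Agent.FLG.P.Ode

/-!
# FLB-Good: elements of the extended affine Weyl group with a good polynomial matrix

As `FLG/P/Good.lean`, where moreover the matrix is polynomial in `λ, z` and intertwines the quantum
differential equations.
-/

set_option autoImplicit false

open scoped BigOperators Topology
open Filter
open Pool.Agent.DST.TE Pool.Agent.DSTJ

namespace Pool.Agent.FLG.Par

open RS

variable {r : ℕ} {P : Par r} {N : ℕ} (n : P.Num N) (t : Fin r → ℂ)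

/-- the point `(z, λ)` -/
def pz (y : Fin r → ℂ) (z : ℂ) : Option (Fin r) → ℂ := fun o => o.elim z y

/-- `f` is a polynomial function of `λ, z` -/
def IsPoly (f : (Fin r → ℂ) → ℂ → ℂ) : Prop :=
  ∃ p : MvPolynomial (Option (Fin r)) ℂ, ∀ y z, f y z = MvPolynomial.eval (pz y z) p

theorem IsPoly.const (c : ℂ) : IsPoly (r := r) fun _ _ => c :=
  ⟨MvPolynomial.C c, fun _ _ => (MvPolynomial.eval_C c).symm⟩

theorem IsPoly.coord (i : Fin r) : IsPoly (r := r) fun y _ => y i :=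
  ⟨MvPolynomial.X (some i), fun y z => by rw [MvPolynomial.eval_X]; rfl⟩

theorem IsPoly.last : IsPoly (r := r) fun _ z => z :=
  ⟨MvPolynomial.X none, fun y z => by rw [MvPolynomial.eval_X]; rfl⟩

theorem IsPoly.add {f g : (Fin r → ℂ) → ℂ → ℂ} (hf : IsPoly f) (hg : IsPoly g) :
    IsPoly fun y z => f y z + g y z := by
  obtain ⟨p, hp⟩ := hf
  obtain ⟨q, hq⟩ := hg
  exact ⟨p + q, fun y z => by
    rw [map_add, ← hp, ← hq]⟩

theorem IsPoly.sub {f g : (Fin r → ℂ) → ℂ → ℂ} (hf : IsPoly f) (hg : IsPoly g) :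
    IsPoly fun y z => f y z - g y z := by
  obtain ⟨p, hp⟩ := hf
  obtain ⟨q, hq⟩ := hg
  exact ⟨p - q, fun y z => by
    rw [map_sub, ← hp, ← hq]⟩

theorem IsPoly.mul {f g : (Fin r → ℂ) → ℂ → ℂ} (hf : IsPoly f) (hg : IsPoly g) :
    IsPoly fun y z => f y z * g y z := by
  obtain ⟨p, hp⟩ := hf
  obtain ⟨q, hq⟩ := hg
  exact ⟨p * q, fun y z => by
    rw [map_mul, ← hp, ← hq]⟩

theorem IsPoly.sum {ι : Type} (s : Finset ι) {f : ι → (Fin r → ℂ) → ℂ → ℂ}
    (hf : ∀ i, IsPoly (f i)) : IsPoly fun y z => ∑ i ∈ s, f i y z := by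
  choose p hp using hf
  exact ⟨∑ i ∈ s, p i, fun y z => by
    rw [map_sum]
    exact Finset.sum_congr rfl fun i _ => hp i y z⟩

theorem isPoly_pr (a : Fin r → ℤ) : IsPoly fun y _ => pr a y := by
  unfold pr
  exact IsPoly.sum _ fun i => (IsPoly.const _).mul (IsPoly.coord i)

theorem IsPoly.comp {f : (Fin r → ℂ) → ℂ → ℂ} (hf : IsPoly f)
    {g : Fin r → (Fin r → ℂ) → ℂ → ℂ} (hg : ∀ i, IsPoly (g i)) :
    IsPoly fun y z => f (fun i => g i y z) z := by
  obtain ⟨p, hp⟩ := hf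
  choose q hq using hg
  refine ⟨MvPolynomial.bind₁ (fun o => o.elim (MvPolynomial.X none) q) p, fun y z => ?_⟩
  show f (fun i => g i y z) z = _
  have h1 := MvPolynomial.eval₂Hom_bind₁ (RingHom.id ℂ) (pz y z)
    (fun o => o.elim (MvPolynomial.X none) q) p
  refine (hp _ _).trans (Eq.trans ?_ h1.symm)
  have h2 : pz (fun i => g i y z) z = fun o : Option (Fin r) =>
      MvPolynomial.eval₂Hom (RingHom.id ℂ) (pz y z) (o.elim (MvPolynomial.X none) q) := by
    funext o
    cases o with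
    | none => exact (MvPolynomial.eval_X (f := pz y z) none).symm
    | some i => exact hq i y z
  rw [h2]
  rfl

private theorem eval_contDiff (p : MvPolynomial (Option (Fin r)) ℂ) :
    ContDiff ℂ 1 fun q : (Fin r → ℂ) × ℂ => MvPolynomial.eval (pz q.1 q.2) p := by
  induction p using MvPolynomial.induction_on with
  | C a =>
    simp only [MvPolynomial.eval_C]
    exact contDiff_const
  | add p q hp hq =>
    simp only [map_add]
    exact hp.add hq
  | mul_X p o hp =>
    simp only [map_mul, MvPolynomial.eval_X]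
    refine hp.mul ?_
    cases o with
    | none => exact contDiff_snd
    | some i => exact (contDiff_apply ℂ ℂ i).comp contDiff_fst

theorem IsPoly.contDiff {f : (Fin r → ℂ) → ℂ → ℂ} (hf : IsPoly f) :
    ContDiff ℂ 1 fun q : (Fin r → ℂ) × ℂ => f q.1 q.2 := by
  obtain ⟨p, hp⟩ := hf
  simp only [hp]
  exact eval_contDiff p

/-- The element `t_ν w` has a good polynomial matrix. -/
def GoodP (w : P.D.W) (ν : Fin r → ℤ) : Prop := ∃ M : (Fin r → ℂ) → ℂ → Matrix P.X P.X ℂ,
  (∀ u v, IsPoly fun y z => M y z u v) ∧ (∀ y z, (M y z).det ≠ 0) ∧ P.Inter t w ν M ∧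
  ∀ y, P.SG y → ∀ s u v, (M (fun i => y i * Complex.exp s) (Complex.exp s) *
    FF n t (P.D.xi w ν y) s) u v * P.gam t v (P.D.xi w ν y) =
      FF n t y s u (P.lm w v) * P.gam t (P.lm w v) y

theorem goodP_one : GoodP n t 1 0 := by
  have h1 : ∀ y, P.D.xi 1 0 y = y := by
    intro y
    unfold xi
    rw [inv_one, P.D.yt_one]
    funext i
    simp [cc]
  refine ⟨fun _ _ => 1, fun u v => IsPoly.const _, fun y z => ?_, ?_, fun y hy s u v => ?_⟩
  · rw [Matrix.det_one]
    exact one_ne_zero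
  · intro y s u v
    rw [h1, Matrix.mul_one, Matrix.one_mul, sub_self]
    exact hasDerivAt_const _ _
  · rw [h1, Matrix.one_mul, lm_one]

private theorem xi_mul_P (w u : P.D.W) (ν μ : Fin r → ℤ) (y : Fin r → ℂ) :
    P.D.xi (w * u) (ν + P.D.yt w μ) y = P.D.xi u μ (P.D.xi w ν y) := by
  unfold xi
  rw [mul_inv_rev, P.D.yt_mul]
  congr 1
  have h1 : cc (ν + P.D.yt w μ) = cc ν + cc (P.D.yt w μ) := by
    funext i
    simp [cc]
  rw [h1, ← add_assoc, P.D.yt_add w⁻¹ (y + cc ν), ← P.D.yt_cc, P.D.yt_inv_yt]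

private theorem xi_pt (w : P.D.W) (ν : Fin r → ℤ) (y : Fin r → ℂ) (s : ℂ) :
    P.D.yt w⁻¹ ((fun i => y i * Complex.exp s) + Complex.exp s • cc ν) =
      fun i => P.D.xi w ν y i * Complex.exp s := by
  have h2 : ((fun i => y i * Complex.exp s) + Complex.exp s • cc ν) =
      Complex.exp s • (y + cc ν) := by
    funext i
    rw [Pi.add_apply, Pi.smul_apply, Pi.smul_apply, Pi.add_apply, smul_eq_mul, smul_eq_mul]
    ring
  rw [h2, P.D.yt_smul]
  funext i
  rw [Pi.smul_apply, smul_eq_mul, mul_comm]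
  rfl

theorem goodP_mul {w u : P.D.W} {ν μ : Fin r → ℤ} (h : GoodP n t w ν) (h' : GoodP n t u μ) :
    GoodP n t (w * u) (ν + P.D.yt w μ) := by
  obtain ⟨M, hM1, hM2, hM4, hM3⟩ := h
  obtain ⟨M', hM1', hM2', hM4', hM3'⟩ := h'
  refine ⟨fun l z => M l z * M' (P.D.yt w⁻¹ (l + z • cc ν)) z, fun p q => ?_, fun y z => ?_, ?_,
    fun y hy s p v => ?_⟩
  · have h1 : ∀ j, IsPoly fun (l : Fin r → ℂ) (z : ℂ) => P.D.yt w⁻¹ (l + z • cc ν) j := by
      intro j
      unfold yt
      refine IsPoly.sum _ fun i => ?_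
      refine (IsPoly.const _).mul ?_
      have h2 : (fun (l : Fin r → ℂ) (z : ℂ) => (l + z • cc ν) i) =
          fun l z => l i + z * cc ν i := by
        funext l z
        rw [Pi.add_apply, Pi.smul_apply, smul_eq_mul]
      rw [h2]
      exact (IsPoly.coord i).add (IsPoly.last.mul (IsPoly.const _))
    simp only [Matrix.mul_apply]
    refine IsPoly.sum _ fun k => ?_
    exact (hM1 p k).mul ((hM1' k q).comp h1)
  · rw [Matrix.det_mul]
    exact mul_ne_zero (hM2 _ _) (hM2' _ _)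
  · intro y s p q
    have h1 : (fun s => (M (fun i => y i * Complex.exp s) (Complex.exp s) *
        M' (P.D.yt w⁻¹ ((fun i => y i * Complex.exp s) + Complex.exp s • cc ν))
          (Complex.exp s)) p q) = fun s => ∑ k, M (fun i => y i * Complex.exp s) (Complex.exp s) p k *
        M' (fun i => P.D.xi w ν y i * Complex.exp s) (Complex.exp s) k q := by
      funext s
      rw [xi_pt, Matrix.mul_apply]
    show HasDerivAt (fun s => (M (fun i => y i * Complex.exp s) (Complex.exp s) *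
        M' (P.D.yt w⁻¹ ((fun i => y i * Complex.exp s) + Complex.exp s • cc ν))
          (Complex.exp s)) p q) _ s
    rw [h1]
    simp only [xi_pt, xi_mul_P]
    have h2 := HasDerivAt.fun_sum (u := Finset.univ) fun k _ =>
      (hM4 y s p k).mul (hM4' (P.D.xi w ν y) s k q)
    refine h2.congr_deriv ?_
    rw [Finset.sum_add_distrib]
    obtain ⟨A, hA⟩ : ∃ A : Matrix P.X P.X ℂ, A = Matrix.diagonal P.th -
      Complex.exp (-s) • P.Cq P.ctr t (fun i => y i * Complex.exp s) := ⟨_, rfl⟩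
    obtain ⟨A', hA'⟩ : ∃ A' : Matrix P.X P.X ℂ, A' = Matrix.diagonal P.th -
      Complex.exp (-s) • P.Cq P.ctr t (fun i => P.D.xi w ν y i * Complex.exp s) := ⟨_, rfl⟩
    obtain ⟨A'', hA''⟩ : ∃ A'' : Matrix P.X P.X ℂ, A'' = Matrix.diagonal P.th -
      Complex.exp (-s) • P.Cq P.ctr t (fun i => P.D.xi u μ (P.D.xi w ν y) i * Complex.exp s) :=
      ⟨_, rfl⟩
    obtain ⟨Q, hQ⟩ : ∃ Q : Matrix P.X P.X ℂ,
      Q = M (fun i => y i * Complex.exp s) (Complex.exp s) := ⟨_, rfl⟩
    obtain ⟨Q', hQ'⟩ : ∃ Q' : Matrix P.X P.X ℂ,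
      Q' = M' (fun i => P.D.xi w ν y i * Complex.exp s) (Complex.exp s) := ⟨_, rfl⟩
    rw [← hA, ← hA', ← hA'', ← hQ, ← hQ']
    show ((A * Q - Q * A') * Q') p q + (Q * (A' * Q' - Q' * A'')) p q =
      (A * (Q * Q') - (Q * Q') * A'') p q
    rw [← Matrix.add_apply, Matrix.sub_mul, Matrix.mul_sub, Matrix.mul_assoc A,
      Matrix.mul_assoc Q A', Matrix.mul_assoc Q Q' A'', sub_add_sub_cancel]
  · have hx := sg_xi hy w ν
    show (M (fun i => y i * Complex.exp s) (Complex.exp s) *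
      M' (P.D.yt w⁻¹ ((fun i => y i * Complex.exp s) + Complex.exp s • cc ν)) (Complex.exp s) *
      FF n t (P.D.xi (w * u) (ν + P.D.yt w μ) y) s) p v * _ = _
    rw [xi_pt, xi_mul_P, Matrix.mul_assoc, Matrix.mul_apply, Finset.sum_mul]
    have h3 : ∀ q, M (fun i => y i * Complex.exp s) (Complex.exp s) p q *
        (M' (fun i => P.D.xi w ν y i * Complex.exp s) (Complex.exp s) *
          FF n t (P.D.xi u μ (P.D.xi w ν y)) s) q v * P.gam t v (P.D.xi u μ (P.D.xi w ν y)) =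
        M (fun i => y i * Complex.exp s) (Complex.exp s) p q * FF n t (P.D.xi w ν y) s q (P.lm u v) *
          P.gam t (P.lm u v) (P.D.xi w ν y) := by
      intro q
      rw [mul_assoc, hM3' _ hx s q v, ← mul_assoc]
    rw [Finset.sum_congr rfl fun q _ => h3 q, ← Finset.sum_mul, ← Matrix.mul_apply,
      hM3 y hy s p (P.lm u v), ← lm_mul]

end Pool.Agent.FLG.Par
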