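import Pool.Agent.FLB.Star

/-!
# FLB-Ind: the extension lemma (abstract form)

`R₀ = R / z`, `i₀, i₁ : R₀ → R` are sections of `π : R → R₀` (in the application `R₀ = ℂ[λ]`, `R = ℂ[λ][z]`,
`i₀ λ = λ`, `i₁ λ = λ - z`). `A_a` are commuting, closed, homogeneous matrices over `R₀[[v]]`.
PLAN. `P_a = hat z i₀ A_a`, `Q_a = hat z i₁ A_a` (entrywise; coefficients `z^{|m|} i(A_m)`) satisfy the
hypotheses of `exists_flat` (`pderiv_hat`) and of `star` (`ell_hat`, with weight `w = d_a + D_j - D_i`; the
derivations commute with `i₀, i₁`): we get `Ŝ` with `∂_a Ŝ = P_a Ŝ - Ŝ Q_a`, `Ŝ(0) = S₀` and (star). CLAIM: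
`z^{|m|} ∣ Ŝ_m` for all `m` (all entries). By induction on `k`: assume it for `|m| ≤ k`, `Ŝ_m = z^{|m|} T_m`
(`T_m = 0` for `|m| > k`; `T` a matrix over `R[[v]]`). For `|m| ≤ k` compare the coefficients of `m` in (star)
(`coeff_ell`; `∑ c_a (∂_a Ŝ)_m = ∑ c_a (P_a Ŝ - Ŝ Q_a)_m = z^{|m|} ∑ c_a (i₀A_a T - T i₁A_a)_m`, and
`δ(z^{|m|} T_m) = z^{|m|} (|m| T_m + δ T_m)`): `z^{|m|+1} ∣ z^{|m|} (E T - T E')_m`, so `z ∣ (E T - T E')_m`,
`E = ∑ c_a i₀A_a`, `E' = ∑ c_a i₁A_a`. Apply `π`: with `T⁰ = π T` and `E⁰ = ∑ c_a A_a` the coefficients of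
`E⁰ T⁰ - T⁰ E⁰` vanish for `|m| ≤ k`, so by `hcomm` those of `A_a T⁰ - T⁰ A_a` vanish, that is
`z ∣ (i₀A_a T - T i₁A_a)_m`. If `|m| = k + 1`, `m_a > 0`: `m_a Ŝ_m = (∂_a Ŝ)_{m - e_a} =
z^k (i₀A_a T - T i₁A_a)_{m - e_a}` is divisible by `z^{k+1}`, and `m_a` is invertible in `R`. Now take `Sb_m = T_m`
with `Ŝ_m = z^{|m|} T_m` for all `m`: `z^{|m|} (z ∂_a Sb)_m = z^{|m|} (i₀A_a Sb - Sb i₁A_a)_m`, cancel `z^{|m|}`.
-/

set_option autoImplicit false

open scoped BigOperators

namespace Pool.Agent.FLB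

variable {n σ : Type} [Fintype n] [DecidableEq n] [Fintype σ] [DecidableEq σ]
  {R₀ R : Type} [CommRing R₀] [Algebra ℂ R₀] [CommRing R] [IsDomain R] [Algebra ℂ R]

private theorem Ind_fac (z : R) (i₀ i₁ : R₀ →ₐ[ℂ] R) (A : Matrix n n (MvPowerSeries σ R₀))
    (T S : Matrix n n (MvPowerSeries σ R)) (k : ℕ)
    (h : ∀ m : σ →₀ ℕ, m.degree ≤ k → ∀ i j, MvPowerSeries.coeff m (S i j) =
      z ^ m.degree * MvPowerSeries.coeff m (T i j)) (m : σ →₀ ℕ) (hm : m.degree ≤ k) (i j : n) :
    MvPowerSeries.coeff m ((A.map (hat z i₀) * S - S * A.map (hat z i₁)) i j) =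
      z ^ m.degree * MvPowerSeries.coeff m ((A.map (MvPowerSeries.map i₀.toRingHom) * T -
        T * A.map (MvPowerSeries.map i₁.toRingHom)) i j) := by
  have hdeg : ∀ p ∈ Finset.HasAntidiagonal.antidiagonal m, p.1.degree + p.2.degree = m.degree := by
    intro p hp
    rw [Finset.HasAntidiagonal.mem_antidiagonal] at hp
    rw [← hp, map_add]
  rw [Matrix.sub_apply, map_sub, Matrix.sub_apply, map_sub, mul_sub]
  congr 1
  · rw [Matrix.mul_apply, Matrix.mul_apply, map_sum, map_sum, Finset.mul_sum]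
    refine Finset.sum_congr rfl fun l _ => ?_
    rw [MvPowerSeries.coeff_mul, MvPowerSeries.coeff_mul, Finset.mul_sum]
    refine Finset.sum_congr rfl fun p hp => ?_
    have hd := hdeg p hp
    rw [Matrix.map_apply, Matrix.map_apply, coeff_hat, h p.2 (by omega), MvPowerSeries.coeff_map,
      ← hd, pow_add]
    change _ = _ * (i₀ _ * _)
    ring
  · rw [Matrix.mul_apply, Matrix.mul_apply, map_sum, map_sum, Finset.mul_sum]
    refine Finset.sum_congr rfl fun l _ => ?_
    rw [MvPowerSeries.coeff_mul, MvPowerSeries.coeff_mul, Finset.mul_sum]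
    refine Finset.sum_congr rfl fun p hp => ?_
    have hd := hdeg p hp
    rw [Matrix.map_apply, Matrix.map_apply, coeff_hat, h p.1 (by omega), MvPowerSeries.coeff_map,
      ← hd, pow_add]
    change _ = _ * (_ * i₁ _)
    ring

private theorem Ind_unit (x : ℕ) : IsUnit ((x : R) + 1) := by
  have h1 : IsUnit ((x : ℂ) + 1) := (Nat.cast_add_one_ne_zero x).isUnit
  have h2 := h1.map (algebraMap ℂ R)
  simpa using h2

private theorem Ind_pi (π : R →ₐ[ℂ] R₀) (i₀ i₁ : R₀ →ₐ[ℂ] R) (hi₀ : ∀ x, π (i₀ x) = x)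
    (hi₁ : ∀ x, π (i₁ x) = x) (A : Matrix n n (MvPowerSeries σ R₀))
    (T : Matrix n n (MvPowerSeries σ R)) (m : σ →₀ ℕ) (i j : n) :
    π (MvPowerSeries.coeff m ((A.map (MvPowerSeries.map i₀.toRingHom) * T -
        T * A.map (MvPowerSeries.map i₁.toRingHom)) i j)) =
      MvPowerSeries.coeff m ((A * T.map (MvPowerSeries.map π.toRingHom) -
        T.map (MvPowerSeries.map π.toRingHom) * A) i j) := by
  rw [Matrix.sub_apply, map_sub, Matrix.sub_apply, map_sub, map_sub]
  congr 1
  · rw [Matrix.mul_apply, Matrix.mul_apply, map_sum, map_sum, map_sum]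
    refine Finset.sum_congr rfl fun l _ => ?_
    rw [MvPowerSeries.coeff_mul, MvPowerSeries.coeff_mul, map_sum]
    refine Finset.sum_congr rfl fun p _ => ?_
    rw [Matrix.map_apply, Matrix.map_apply, MvPowerSeries.coeff_map, MvPowerSeries.coeff_map,
      map_mul]
    change π (i₀ _) * _ = _ * π _
    rw [hi₀]
  · rw [Matrix.mul_apply, Matrix.mul_apply, map_sum, map_sum, map_sum]
    refine Finset.sum_congr rfl fun l _ => ?_
    rw [MvPowerSeries.coeff_mul, MvPowerSeries.coeff_mul, map_sum]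
    refine Finset.sum_congr rfl fun p _ => ?_
    rw [Matrix.map_apply, Matrix.map_apply, MvPowerSeries.coeff_map, MvPowerSeries.coeff_map,
      map_mul]
    change _ * π (i₁ _) = π _ * _
    rw [hi₁]

private theorem Ind_pow (z : R) (δ : Derivation ℂ R R) (hz : δ z = z) (k : ℕ) :
    δ (z ^ k) = (k : R) * z ^ k := by
  rw [Derivation.leibniz_pow, hz, smul_eq_mul, nsmul_eq_mul]
  rcases Nat.eq_zero_or_pos k with h | h
  · subst h
    simp
  · rw [← pow_succ, Nat.sub_add_cancel h]

theorem exists_ext (z : R) (hz : z ≠ 0) (δ : Derivation ℂ R R) (hδz : δ z = z)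
    (δ₀ : Derivation ℂ R₀ R₀) (π : R →ₐ[ℂ] R₀) (hπ : ∀ x, π x = 0 ↔ z ∣ x)
    (i₀ i₁ : R₀ →ₐ[ℂ] R) (hi₀ : ∀ x, π (i₀ x) = x) (hi₁ : ∀ x, π (i₁ x) = x)
    (hδ₀ : ∀ x, δ (i₀ x) = i₀ (δ₀ x)) (hδ₁ : ∀ x, δ (i₁ x) = i₁ (δ₀ x))
    (d c : σ → ℂ) (D : n → ℂ) (κ : ℂ) (A : σ → Matrix n n (MvPowerSeries σ R₀))
    (hA : ∀ a b, (A b).map (MvPowerSeries.pderiv R₀ a) = (A a).map (MvPowerSeries.pderiv R₀ b))
    (hA' : ∀ a b, A a * A b = A b * A a)
    (hhom : ∀ (a : σ) (i j : n) (m : σ →₀ ℕ), δ₀ (MvPowerSeries.coeff m (A a i j)) +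
      (∑ b, (m b : ℂ) * (1 - d b)) • MvPowerSeries.coeff m (A a i j) +
      ∑ b, c b • MvPowerSeries.coeff m (MvPowerSeries.pderiv R₀ b (A a i j)) =
        (d a + D j - D i) • MvPowerSeries.coeff m (A a i j))
    (hcomm : ∀ (T : Matrix n n (MvPowerSeries σ R₀)) (k : ℕ),
      (∀ m : σ →₀ ℕ, m.degree ≤ k → ∀ i j, MvPowerSeries.coeff m
        (((∑ b, c b • A b) * T - T * ∑ b, c b • A b) i j) = 0) →
      ∀ (a : σ) (m : σ →₀ ℕ), m.degree ≤ k → ∀ i j,
        MvPowerSeries.coeff m ((A a * T - T * A a) i j) = 0)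
    (S₀ : Matrix n n R)
    (h₀ : ∀ i j, z * δ (S₀ i j) + ∑ a, c a •
        (((A a).map MvPowerSeries.constantCoeff).map i₀ * S₀ -
          S₀ * ((A a).map MvPowerSeries.constantCoeff).map i₁) i j =
        (D j - D i - κ) • (z * S₀ i j)) :
    ∃ S : Matrix n n (MvPowerSeries σ R),
      (∀ i j, MvPowerSeries.constantCoeff (S i j) = S₀ i j) ∧
      ∀ a, (MvPowerSeries.C z : MvPowerSeries σ R) • S.map (MvPowerSeries.pderiv R a) =
        (A a).map (MvPowerSeries.map i₀.toRingHom) * S -
          S * (A a).map (MvPowerSeries.map i₁.toRingHom) := by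
  classical
  set P : σ → Matrix n n (MvPowerSeries σ R) := fun a => (A a).map (hat z i₀) with hPd
  set Q : σ → Matrix n n (MvPowerSeries σ R) := fun a => (A a).map (hat z i₁) with hQd
  have hcl : ∀ (i : R₀ →ₐ[ℂ] R) (a b : σ), ((A b).map (hat z i)).map (MvPowerSeries.pderiv R a) =
      ((A a).map (hat z i)).map (MvPowerSeries.pderiv R b) := by
    intro i a b
    ext1 x y
    have h1 := congrFun (congrFun (hA a b) x) y
    rw [Matrix.map_apply, Matrix.map_apply] at h1
    rw [Matrix.map_apply, Matrix.map_apply, Matrix.map_apply, Matrix.map_apply, pderiv_hat,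
      pderiv_hat, h1]
  have hco : ∀ (i : R₀ →ₐ[ℂ] R) (a b : σ), (A a).map (hat z i) * (A b).map (hat z i) =
      (A b).map (hat z i) * (A a).map (hat z i) := by
    intro i a b
    rw [← Matrix.map_mul, ← Matrix.map_mul, hA' a b]
  obtain ⟨S, hS0, hS⟩ := exists_flat P Q (hcl i₀) (hcl i₁) (hco i₀) (hco i₁) S₀
  have hcc : ∀ (i : R₀ →ₐ[ℂ] R) (f : MvPowerSeries σ R₀),
      MvPowerSeries.constantCoeff (hat z i f) = i (MvPowerSeries.constantCoeff f) := by
    intro i f
    have h1 := coeff_hat z i f (0 : σ →₀ ℕ)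
    rw [MvPowerSeries.coeff_zero_eq_constantCoeff_apply, MvPowerSeries.coeff_zero_eq_constantCoeff_apply,
      map_zero, pow_zero, one_mul] at h1
    exact h1
  have hst : ∀ i j, ell z δ d c (S i j) = (D j - D i - κ) • (MvPowerSeries.C z * S i j) := by
    refine star z δ d c D κ P Q ?_ ?_ S hS ?_
    · intro a i j
      rw [hPd]
      exact ell_hat z δ d c hδz δ₀ i₀ hδ₀ (A a i j) (d a + D j - D i) (hhom a i j)
    · intro a i j
      rw [hQd]
      exact ell_hat z δ d c hδz δ₀ i₁ hδ₁ (A a i j) (d a + D j - D i) (hhom a i j)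
    · intro i j
      rw [hS0, ← h₀ i j]
      congr 1
      refine Finset.sum_congr rfl fun a _ => ?_
      congr 1
      rw [Matrix.sub_apply, Matrix.sub_apply, map_sub, Matrix.mul_apply, Matrix.mul_apply,
        Matrix.mul_apply, Matrix.mul_apply, map_sum, map_sum]
      congr 1
      · refine Finset.sum_congr rfl fun l _ => ?_
        rw [map_mul, hS0, hPd]
        change MvPowerSeries.constantCoeff (hat z i₀ (A a i l)) * _ = _
        rw [hcc]
        rfl
      · refine Finset.sum_congr rfl fun l _ => ?_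
        rw [map_mul, hS0, hQd]
        change _ * MvPowerSeries.constantCoeff (hat z i₁ (A a l j)) = _
        rw [hcc]
        rfl
  have hder : ∀ (a : σ) (m : σ →₀ ℕ) (i j : n),
      MvPowerSeries.coeff m (MvPowerSeries.pderiv R a (S i j)) =
        MvPowerSeries.coeff m ((P a * S - S * Q a) i j) := by
    intro a m i j
    have h1 := congrFun (congrFun (hS a) i) j
    rw [Matrix.map_apply] at h1
    rw [h1]
  have hkey : ∀ k : ℕ, ∀ m : σ →₀ ℕ, m.degree ≤ k → ∀ i j,
      z ^ m.degree ∣ MvPowerSeries.coeff m (S i j) := by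
    intro k
    induction k with
    | zero =>
      intro m hm i j
      have h0 : m.degree = 0 := by omega
      rw [h0, pow_zero]
      exact one_dvd _
    | succ k ih =>
      choose! t ht using ih
      set T : Matrix n n (MvPowerSeries σ R) :=
        Matrix.of fun i j => (fun m => t m i j : MvPowerSeries σ R) with hTd
      have hT : ∀ m : σ →₀ ℕ, m.degree ≤ k → ∀ i j, MvPowerSeries.coeff m (S i j) =
          z ^ m.degree * MvPowerSeries.coeff m (T i j) := by
        intro m hm i j
        exact ht m hm i j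
      have hcomm' : ∀ (a : σ) (m : σ →₀ ℕ), m.degree ≤ k → ∀ i j,
          z ∣ MvPowerSeries.coeff m (((A a).map (MvPowerSeries.map i₀.toRingHom) * T -
            T * (A a).map (MvPowerSeries.map i₁.toRingHom)) i j) := by
        intro a m hm i j
        rw [← hπ, Ind_pi π i₀ i₁ hi₀ hi₁]
        refine hcomm (T.map (MvPowerSeries.map π.toRingHom)) k ?_ a m hm i j
        intro m hm i j
        have e1 : MvPowerSeries.coeff m (((∑ b, c b • A b) * T.map (MvPowerSeries.map π.toRingHom) -
            T.map (MvPowerSeries.map π.toRingHom) * ∑ b, c b • A b) i j) =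
            π (∑ b, c b • MvPowerSeries.coeff m (((A b).map (MvPowerSeries.map i₀.toRingHom) * T -
              T * (A b).map (MvPowerSeries.map i₁.toRingHom)) i j)) := by
          rw [map_sum]
          have e2 : ∀ b, π (c b • MvPowerSeries.coeff m
              (((A b).map (MvPowerSeries.map i₀.toRingHom) * T -
              T * (A b).map (MvPowerSeries.map i₁.toRingHom)) i j)) =
              c b • MvPowerSeries.coeff m ((A b * T.map (MvPowerSeries.map π.toRingHom) -
                T.map (MvPowerSeries.map π.toRingHom) * A b) i j) := by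
            intro b
            rw [map_smul, Ind_pi π i₀ i₁ hi₀ hi₁]
          rw [Finset.sum_congr rfl fun b _ => e2 b]
          have e3 : (∑ b, c b • A b) * T.map (MvPowerSeries.map π.toRingHom) -
              T.map (MvPowerSeries.map π.toRingHom) * ∑ b, c b • A b =
              ∑ b, c b • (A b * T.map (MvPowerSeries.map π.toRingHom) -
                T.map (MvPowerSeries.map π.toRingHom) * A b) := by
            rw [Finset.sum_mul, Finset.mul_sum, ← Finset.sum_sub_distrib]
            refine Finset.sum_congr rfl fun b _ => ?_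
            rw [Matrix.smul_mul, Matrix.mul_smul, smul_sub]
          rw [e3, Matrix.sum_apply, map_sum]
          refine Finset.sum_congr rfl fun b _ => ?_
          rfl
        rw [e1, hπ]
        have e4 := congrArg (MvPowerSeries.coeff m) (hst i j)
        rw [coeff_ell] at e4
        have e5 : ∑ a, c a • MvPowerSeries.coeff m (MvPowerSeries.pderiv R a (S i j)) =
            z ^ m.degree * ∑ b, c b • MvPowerSeries.coeff m
              (((A b).map (MvPowerSeries.map i₀.toRingHom) * T -
              T * (A b).map (MvPowerSeries.map i₁.toRingHom)) i j) := by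
          rw [Finset.mul_sum]
          refine Finset.sum_congr rfl fun b _ => ?_
          rw [hder, hPd, hQd, Ind_fac z i₀ i₁ (A b) T S k hT m hm i j, mul_smul_comm]
        have e6 : MvPowerSeries.coeff m ((D j - D i - κ) • (MvPowerSeries.C z * S i j)) =
            (D j - D i - κ) • (z * MvPowerSeries.coeff m (S i j)) := by
          have e7 : MvPowerSeries.coeff m ((D j - D i - κ) • (MvPowerSeries.C z * S i j)) =
            (D j - D i - κ) • MvPowerSeries.coeff m (MvPowerSeries.C z * S i j) := rfl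
          rw [e7, MvPowerSeries.coeff_C_mul]
        rw [e5, e6, hT m hm i j, Derivation.leibniz, Ind_pow z δ hδz, smul_eq_mul, smul_eq_mul,
          Algebra.smul_def, Algebra.smul_def] at e4
        refine ⟨algebraMap ℂ R (D j - D i - κ) * MvPowerSeries.coeff m (T i j) -
          (m.degree : R) * MvPowerSeries.coeff m (T i j) - δ (MvPowerSeries.coeff m (T i j)) +
          algebraMap ℂ R (∑ a, (m a : ℂ) * d a) * MvPowerSeries.coeff m (T i j), ?_⟩
        refine mul_left_cancel₀ (pow_ne_zero m.degree hz) ?_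
        linear_combination e4
      intro m hm i j
      by_cases hmk : m.degree ≤ k
      · exact ⟨_, ht m hmk i j⟩
      · have hmk' : m.degree = k + 1 := by omega
        obtain ⟨a, ha⟩ : ∃ a, m a ≠ 0 := by
          by_contra hcon
          push Not at hcon
          have h0 : m = 0 := Finsupp.ext hcon
          rw [h0, map_zero] at hmk'
          omega
        obtain ⟨m', rfl⟩ : ∃ m', m = m' + Finsupp.single a 1 :=
          ⟨m - Finsupp.single a 1, by
            rw [tsub_add_cancel_of_le]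
            simpa [Nat.one_le_iff_ne_zero] using ha⟩
        have hdm : m'.degree = k := by
          rw [map_add, Finsupp.degree_single] at hmk'
          omega
        obtain ⟨w, hw⟩ := hcomm' a m' (by omega) i j
        have h1 := hder a m' i j
        rw [MvPowerSeries.coeff_pderiv, hPd, hQd, Ind_fac z i₀ i₁ (A a) T S k hT m' (by omega) i j, hw,
          hdm] at h1
        rw [hmk', ← (Ind_unit (R := R) (m' a)).dvd_mul_right, h1]
        exact ⟨w, by ring⟩
  have hkey' : ∀ (m : σ →₀ ℕ) (i j : n), z ^ m.degree ∣ MvPowerSeries.coeff m (S i j) :=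
    fun m i j => hkey m.degree m le_rfl i j
  choose t ht using hkey'
  set T : Matrix n n (MvPowerSeries σ R) :=
    Matrix.of fun i j => (fun m => t m i j : MvPowerSeries σ R) with hTd
  have hT : ∀ (m : σ →₀ ℕ) (i j : n), MvPowerSeries.coeff m (S i j) =
      z ^ m.degree * MvPowerSeries.coeff m (T i j) := by
    intro m i j
    exact ht m i j
  refine ⟨T, ?_, ?_⟩
  · intro i j
    have h1 := hT 0 i j
    rw [MvPowerSeries.coeff_zero_eq_constantCoeff_apply, MvPowerSeries.coeff_zero_eq_constantCoeff_apply,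
      map_zero, pow_zero, one_mul, hS0] at h1
    exact h1.symm
  · intro a
    ext1 i j
    ext m
    refine mul_left_cancel₀ (pow_ne_zero m.degree hz) ?_
    rw [← Ind_fac z i₀ i₁ (A a) T S m.degree (fun m' _ => hT m') m le_rfl i j]
    have h1 := hder a m i j
    rw [hPd, hQd] at h1
    rw [← h1, MvPowerSeries.coeff_pderiv, hT]
    have e7 : MvPowerSeries.coeff m (((MvPowerSeries.C z : MvPowerSeries σ R) •
        T.map (MvPowerSeries.pderiv R a)) i j) =
        MvPowerSeries.coeff m (MvPowerSeries.C z * MvPowerSeries.pderiv R a (T i j)) := rfl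
    rw [e7, MvPowerSeries.coeff_C_mul, MvPowerSeries.coeff_pderiv, map_add, Finsupp.degree_single,
      pow_succ]
    ring

end Pool.Agent.FLB
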