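import Pool.Agent.FLB.Shx
import Pool.Agent.FLG.P.FMain

/-!
# FLB-JQ: the `Γ`-solutions of the theory of `G/P`

The entire solutions `exists_JQ (toFro n ht K)` along the line of `ξ`, in the numbering `n.e`, are reindexed by
`sg n ε`, using `theta_eq`, `chernT_eq` and `cupChernT_eq`.
-/

set_option autoImplicit false

open scoped BigOperators Topology
open Filter

namespace Pool.Agent.FLG.Par

open RS Pool.Agent.DST.TE
open Pool.Agent.Helper18.Dub Pool.Agent.Helper7.DubStokes Pool.Agent.SHF Pool.Agent.DST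
open Pool.Agent.FLB

variable {r N : ℕ} {P : Par r} {n : P.Num N} {ε : Fin N ≃ P.X} {X : FanoGW (Fin N)}
  (G : P.GW n ε X) {t : Fin r → ℂ} (ht : P.Inv t) (K : P.KD t)

private theorem e_sg (i : Fin N) : n.e (sg n ε i) = ε i := by
  unfold sg
  rw [Equiv.trans_apply, Equiv.apply_symm_apply]

private theorem sg_e (i : Fin N) : n.e.symm (ε i) = sg n ε i := rfl

include G in
private theorem theta_sg : theta X =
    (Matrix.diagonal (toFro n ht K).θ).submatrix (sg n ε) (sg n ε) := by
  rw [theta_eq G]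
  ext i j
  rw [Matrix.submatrix_apply, Matrix.submatrix_apply, Matrix.diagonal_apply, Matrix.diagonal_apply]
  refine if_congr ?_ ?_ rfl
  · rw [ε.injective.eq_iff, (sg n ε).injective.eq_iff]
  · show P.th (ε i) = P.th (n.e (sg n ε i))
    rw [e_sg]

private theorem sub_e {A : Matrix P.X P.X ℂ} :
    A.submatrix ε ε = (A.submatrix n.e n.e).submatrix (sg n ε) (sg n ε) := by
  ext i j
  simp only [Matrix.submatrix_apply, e_sg]

private theorem sub_e' {A : Matrix P.X P.X ℂ} :
    A.submatrix ε n.e = (A.submatrix n.e n.e).submatrix (sg n ε) id := by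
  ext i j
  simp only [Matrix.submatrix_apply, e_sg, id]

private theorem exp_sg (A : Matrix (Fin N) (Fin N) ℂ) :
    (NormedSpace.exp A).submatrix (sg n ε) (sg n ε) =
      NormedSpace.exp (A.submatrix (sg n ε) (sg n ε)) := Mo.exp_sub A (sg n ε)

theorem exists_J (S : Matrix (Fin N) (Fin N) (Polynomial (Polynomial ℂ)))
    (hS : ∀ y w : ℂ, evm₂ S (y * Complex.exp w) (Complex.exp w) =
      ((toFro n ht K).S n.ξ (fun k => y * (n.ξ k : ℂ)) w).submatrix (sg n ε) (sg n ε)) :
    ∃ (J : ℂ → ℂ → Matrix (Fin N) (Fin N) ℂ) (cal : ℂ → ℂ → Matrix (Fin N) (Fin N) ℂ),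
      (∀ i j, Differentiable ℂ fun p : ℂ × ℂ => J p.1 p.2 i j) ∧
      (∀ y w i j, HasDerivAt (fun w => J y w i j)
        (((theta X - Complex.exp (-w) • evm (chernT G.toEquivData (P.cl ε t) (P.kap1 n.ξ))
          (y * Complex.exp w)) * J y w) i j) w) ∧
      (∀ y w, J y w = evm₂ S (y * Complex.exp w) (Complex.exp w) * J (y - 1) w) ∧
      (∀ y : ℂ, y.im ≠ 0 → ∀ i j,
        Tendsto (fun z => cal y z i j) (Bornology.cobounded ℂ) (𝓝 ((1 : Matrix _ _ ℂ) i j))) ∧
      (∀ y : ℂ, y.im ≠ 0 → ∀ w, J y w =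
        NormedSpace.exp (w • theta X) * cal y (Complex.exp w) *
          NormedSpace.exp (-w • evm (cupChernT G.toEquivData (P.kap1 n.ξ)) y) *
            (K.G (ln0 n y)).submatrix ε n.e) ∧
      ∀ w, J 0 w = (Zst n t w * K.G 0).submatrix ε n.e := by
  have hS' : ∀ y w, (toFro n ht K).S (toFro n ht K).ξ (fun l => y * ((toFro n ht K).ξ l : ℂ)) w =
      (fun x z => (evm₂ S x z).submatrix (sg n ε).symm (sg n ε).symm)
        (y * Complex.exp w) (Complex.exp w) := by
    intro y w
    show _ = (evm₂ S (y * Complex.exp w) (Complex.exp w)).submatrix _ _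
    rw [hS, Matrix.submatrix_submatrix, Equiv.self_comp_symm, Matrix.submatrix_id_id]
    rfl
  obtain ⟨J, cal, hJ1, hJ2, hJ3, hc1, hJ4, hJ0⟩ := Dl.exists_JQ (toFro n ht K)
    (fun x => (P.Cq P.ctr t (ln0 n x)).submatrix n.e n.e)
    (fun i j => ((Cq_diff P.ctr t _ _).comp (line_diff n)).continuous)
    (fun x z => (evm₂ S x z).submatrix (sg n ε).symm (sg n ε).symm)
    (fun i j => (diff_evm₂ S _ _).continuous) (by
      intro k m
      obtain ⟨μ, hμ⟩ := exists_prim k.2
      refine ⟨m • μ, ?_⟩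
      have h1 : ∑ i, (toFro n ht K).wt k i * (m • μ) i = m * dotProduct μ k.1 := by
        unfold dotProduct
        rw [Finset.mul_sum]
        refine Finset.sum_congr rfl fun i _ => ?_
        show k.1 i * (m • μ) i = _
        rw [Pi.smul_apply, smul_eq_mul]
        ring
      rw [h1, hμ, mul_one]) (by
      intro y w i j
      have h1 := P.C_graded t (ln0 n y) w (n.e i) (n.e j)
      rw [line_smul] at h1
      exact h1) hS'
  have hmul : ∀ A B : Matrix (Fin N) (Fin N) ℂ, (A * B).submatrix (sg n ε) id =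
      A.submatrix (sg n ε) (sg n ε) * B.submatrix (sg n ε) id := fun A B =>
    (Matrix.submatrix_mul_equiv A B (sg n ε) (sg n ε) id).symm
  refine ⟨fun y w => (J y w).submatrix (sg n ε) id,
    fun y z => (cal y z).submatrix (sg n ε) (sg n ε), ?_, ?_, ?_, ?_, ?_, ?_⟩
  · intro i j
    exact hJ1 (sg n ε i) j
  · intro y w i j
    have h1 := hJ2 y w (sg n ε i) j
    refine h1.congr_deriv ?_
    have h2 : theta X - Complex.exp (-w) • evm (chernT G.toEquivData (P.cl ε t) (P.kap1 n.ξ))
        (y * Complex.exp w) = (Matrix.diagonal (toFro n ht K).θ - Complex.exp (-w) •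
          (P.Cq P.ctr t (ln0 n (y * Complex.exp w))).submatrix n.e n.e).submatrix
            (sg n ε) (sg n ε) := by
      rw [theta_sg G ht K, chernT_eq G ht, sub_e (n := n)]
      rfl
    rw [h2, ← hmul]
    rfl
  · intro y w
    show (J y w).submatrix (sg n ε) id = _
    rw [hJ3 y w, hmul, Matrix.submatrix_submatrix, Equiv.symm_comp_self, Matrix.submatrix_id_id]
  · intro y hy i j
    have h1 := hc1 y hy (sg n ε i) (sg n ε j)
    have h2 : (1 : Matrix (Fin N) (Fin N) ℂ) (sg n ε i) (sg n ε j) =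
        (1 : Matrix (Fin N) (Fin N) ℂ) i j := by
      rw [Matrix.one_apply, Matrix.one_apply]
      exact if_congr (sg n ε).injective.eq_iff rfl rfl
    rw [h2] at h1
    exact h1
  · intro y hy w
    show (J y w).submatrix (sg n ε) id = _
    rw [hJ4 y hy w, Matrix.mul_assoc, Matrix.mul_assoc, hmul, hmul, hmul, exp_sg, exp_sg,
      ← Matrix.mul_assoc, ← Matrix.mul_assoc]
    congr 1
    · congr 1
      · rw [theta_sg G ht K]
        rfl
      · rw [cupChernT_eq G, sub_e (n := n)]
        congr 1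
    · exact (sub_e' (ε := ε) (n := n)).symm
  · intro w
    show (J 0 w).submatrix (sg n ε) id = _
    rw [hJ0 w]
    have h7 : (toFro n ht K).J0 (toFro n ht K).G 0 w =
        (toBase n t).J0 (fun _ => 1) 0 w * (K.G 0).submatrix n.e n.e := by
      show (toBase n t).J0 _ 0 w = _
      unfold DSTJ.Base.J0
      rw [mul_one]
      rfl
    have h8 : (Zst n t w).submatrix n.e n.e = (toBase n t).J0 (fun _ => 1) 0 w := by
      ext a b
      simp [Zst]
    rw [h7, sub_e' (ε := ε) (n := n), ← h8, Matrix.submatrix_mul_equiv]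

end Pool.Agent.FLG.Par
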