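import Pool.Agent.FLB.TodB
import Pool.Agent.FLG.P.FMain
import Pool.Agent.FLG.Z.Uniq
import Pool.Agent.DSTJ.HDefs
import Pool.Agent.DST.FEuler

/-!
# FLB-PStd: the standard solution at `t ∈ H^2` in the theory of `G/P`

`euler_cl`: at the point `cl ε t` the Euler matrix is the quantum product with `c_1`. So a matrix function is a
standard solution for `X` at `cl ε t` iff the reindexed one is a standard solution of `smallF P t`; existence
and uniqueness are known for the latter.
-/

set_option autoImplicit false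

open scoped BigOperators Topology
open Filter

namespace Pool.Agent.FLG.Par

open RS Pool.Agent.DST.TE
open Pool.Agent.Helper18.Dub Pool.Agent.Helper7.DubStokes Pool.Agent.SHF Pool.Agent.DST
open Pool.Agent.FLB

variable {r N : ℕ} {P : Par r} {n : P.Num N} {ε : Fin N ≃ P.X} {X : FanoGW (Fin N)}
  (G : P.GW n ε X) {t : Fin r → ℂ} (ht : P.Inv t)

private theorem ps_hv_zero (h : Fin r → ℂ) (u : P.D.W) : P.D.hv h u 0 = 0 := by
  unfold hv
  rw [P.D.yt_zero]
  simp

private theorem ps_Cq_zero (h t : Fin r → ℂ) : P.Cq h t 0 = P.E (P.D.ch h) t := by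
  unfold Cq
  rw [show (fun u : P.X => P.D.hv h u.1 0) = fun _ => (0 : ℂ) from funext fun u => ps_hv_zero h u.1]
  rw [show (Matrix.diagonal fun _ : P.X => (0 : ℂ)) = 0 from Matrix.diagonal_zero, sub_zero]

include G ht in
theorem euler_cl : eulerMat X (P.cl ε t) = (P.E (P.D.ch P.ctr) t).submatrix ε ε := by
  have h0 : ln0 n 0 = 0 := by
    funext i
    simp [ln0]
  rw [euler_at_zero G.toEquivGW (P.kap1 n.ξ) G.period_zero (fun i hi => cl_deg G i hi),
    chernT_eq G ht, h0, ps_Cq_zero]

include G in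
private theorem ps_theta : (smallF P t).theta.submatrix ε ε = theta X := (theta_eq G).symm

include G ht in
private theorem ps_mul : (smallF P t).mul.submatrix ε ε = eulerMat X (P.cl ε t) :=
  (euler_cl G ht).symm

include G in
private theorem ps_cup : (smallF P t).cup.submatrix ε ε = X.cupMat := (cup_zero G).symm

include G in
private theorem ps_theta' : (theta X).submatrix ε.symm ε.symm = (smallF P t).theta := by
  rw [← ps_theta (t := t) G]
  ext a b
  simp

include G ht in
private theorem ps_mul' : (eulerMat X (P.cl ε t)).submatrix ε.symm ε.symm = (smallF P t).mul := by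
  rw [← ps_mul G ht]
  ext a b
  simp

private theorem ps_exp_sub {ι κ : Type} [Fintype ι] [DecidableEq ι] [Fintype κ] [DecidableEq κ]
    (A : Matrix ι ι ℂ) (e : κ ≃ ι) :
    (NormedSpace.exp A).submatrix e e = NormedSpace.exp (A.submatrix e e) := by
  let _ : NormedRing (Matrix ι ι ℂ) := Matrix.linftyOpNormedRing
  let _ : NormedAlgebra ℂ (Matrix ι ι ℂ) := Matrix.linftyOpNormedAlgebra
  let _ : NormedAlgebra ℚ (Matrix ι ι ℂ) := NormedAlgebra.restrictScalars ℚ ℂ _
  let _ : NormedRing (Matrix κ κ ℂ) := Matrix.linftyOpNormedRing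
  let _ : NormedAlgebra ℂ (Matrix κ κ ℂ) := Matrix.linftyOpNormedAlgebra
  let _ : NormedAlgebra ℚ (Matrix κ κ ℂ) := NormedAlgebra.restrictScalars ℚ ℂ _
  exact NormedSpace.map_exp (Matrix.reindexAlgEquiv ℂ ℂ e.symm)
    (continuous_id.matrix_submatrix e e) A

include G ht in
private theorem ps_forth {Z : ℂ → Matrix P.X P.X ℂ} (hZ : IsStandard (smallF P t) Z) :
    Pool.Agent.DSTJ.Spec.IsStandard X (P.cl ε t) fun w => (Z w).submatrix ε ε := by
  obtain ⟨h1, M, h2, h3⟩ := hZ
  refine ⟨fun w i j => ?_, fun z => (M z).submatrix ε ε, fun i j => ?_, fun w => ?_⟩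
  · have h4 := h1 w (ε i) (ε j)
    have h5 : ((theta X - Complex.exp (-w) • eulerMat X (P.cl ε t)) * (Z w).submatrix ε ε) i j =
        (((smallF P t).theta - Complex.exp (-w) • (smallF P t).mul) * Z w) (ε i) (ε j) := by
      rw [← ps_theta (t := t) G, ← ps_mul G ht]
      have h6 : (smallF P t).theta.submatrix ε ε - Complex.exp (-w) • (smallF P t).mul.submatrix ε ε =
          ((smallF P t).theta - Complex.exp (-w) • (smallF P t).mul).submatrix ε ε := rfl
      rw [h6, Matrix.submatrix_mul_equiv]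
      rfl
    rw [h5]
    exact h4
  · have h4 := h2 (ε i) (ε j)
    have h5 : (1 : Matrix P.X P.X ℂ) (ε i) (ε j) = (1 : Matrix (Fin N) (Fin N) ℂ) i j := by
      rw [Matrix.one_apply, Matrix.one_apply]
      exact if_congr ε.injective.eq_iff rfl rfl
    rw [h5] at h4
    exact h4
  · show (Z w).submatrix ε ε = _
    rw [h3 w, ← ps_theta (t := t) G, ← ps_cup (t := t) G]
    have e1 : w • (smallF P t).theta.submatrix ε ε = (w • (smallF P t).theta).submatrix ε ε := rfl
    have e2 : -w • (smallF P t).cup.submatrix ε ε = (-w • (smallF P t).cup).submatrix ε ε := rfl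
    rw [e1, e2, ← ps_exp_sub, ← ps_exp_sub, Matrix.submatrix_mul_equiv, Matrix.submatrix_mul_equiv]

include G ht in
private theorem ps_back {Z : ℂ → Matrix (Fin N) (Fin N) ℂ}
    (hZ : Pool.Agent.DSTJ.Spec.IsStandard X (P.cl ε t) Z) :
    IsStandard (smallF P t) fun w => (Z w).submatrix ε.symm ε.symm := by
  obtain ⟨h1, M, h2, h3⟩ := hZ
  refine ⟨fun w i j => ?_, fun z => (M z).submatrix ε.symm ε.symm, fun i j => ?_, fun w => ?_⟩
  · have h4 := h1 w (ε.symm i) (ε.symm j)
    have h5 : (((smallF P t).theta - Complex.exp (-w) • (smallF P t).mul) *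
        (Z w).submatrix ε.symm ε.symm) i j =
        ((theta X - Complex.exp (-w) • eulerMat X (P.cl ε t)) * Z w) (ε.symm i) (ε.symm j) := by
      rw [← ps_theta' G, ← ps_mul' G ht]
      have h6 : (theta X).submatrix ε.symm ε.symm -
          Complex.exp (-w) • (eulerMat X (P.cl ε t)).submatrix ε.symm ε.symm =
          (theta X - Complex.exp (-w) • eulerMat X (P.cl ε t)).submatrix ε.symm ε.symm := rfl
      rw [h6, Matrix.submatrix_mul_equiv]
      rfl
    rw [h5]
    exact h4
  · have h4 := h2 (ε.symm i) (ε.symm j)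
    have h5 : (1 : Matrix (Fin N) (Fin N) ℂ) (ε.symm i) (ε.symm j) = (1 : Matrix P.X P.X ℂ) i j := by
      rw [Matrix.one_apply, Matrix.one_apply]
      exact if_congr ε.symm.injective.eq_iff rfl rfl
    rw [h5] at h4
    exact h4
  · show (Z w).submatrix ε.symm ε.symm = _
    rw [h3 w, ← ps_theta (t := t) G, ← ps_cup (t := t) G]
    have e1 : w • (smallF P t).theta.submatrix ε ε = (w • (smallF P t).theta).submatrix ε ε := rfl
    have e2 : -w • (smallF P t).cup.submatrix ε ε = (-w • (smallF P t).cup).submatrix ε ε := rfl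
    have e3 : ∀ A : Matrix P.X P.X ℂ, (A.submatrix ε ε).submatrix ε.symm ε.symm = A := by
      intro A
      ext a b
      simp
    rw [e1, e2, ← ps_exp_sub, ← ps_exp_sub, ← Matrix.submatrix_mul_equiv _ _ ε.symm ε.symm ε.symm,
      ← Matrix.submatrix_mul_equiv _ _ ε.symm ε.symm ε.symm, e3, e3]

include G ht in
theorem std_Zst : Pool.Agent.DSTJ.Spec.IsStandard X (P.cl ε t)
    fun w => (Zst n t w).submatrix ε ε :=
  ps_forth G ht (isStandard_Zst n ht)

include G ht in
theorem std_unique {Z Z' : ℂ → Matrix (Fin N) (Fin N) ℂ}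
    (h : Pool.Agent.DSTJ.Spec.IsStandard X (P.cl ε t) Z)
    (h' : Pool.Agent.DSTJ.Spec.IsStandard X (P.cl ε t) Z') : Z = Z' := by
  have h1 := Pool.Agent.FLG.Mo.standard_unique (ok_smallF ht) (ps_back G ht h) (ps_back G ht h')
  funext w
  have h2 := congrFun h1 w
  ext i j
  have h3 := congrFun (congrFun h2 (ε i)) (ε j)
  simpa using h3

end Pool.Agent.FLG.Par
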