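import Pool.Agent.FLB.Bulk
import Pool.Agent.FLB.PStd
import Pool.Agent.FLG.ZP.Main
import Pool.Agent.DST.GFin
import Pool.Agent.DSTJ.HStd

/-!
# FLB-PFin: the numerical conjecture of Dubrovin for `G/P` in big quantum cohomology, in coordinates

`exists_bulk G ht` and `numerical_dubrovin` (Pool/Agent/DST/GFin.lean). For monodromy data `M` we get `U`, and
`v j = vU n U j = ∑_i U i j • bB (n.e i)` (Pool/Agent/FLG/ZP/Main.lean). The two matrices `C'` of `ConnectionFactors` and
`ConnectionIsometric` agree since the matrix of the `ch (v j)` is invertible (its Gram matrix `S` is unipotent).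
-/

set_option autoImplicit false

open scoped BigOperators Topology
open Filter

namespace Pool.Agent.FLG.Par

open RS Pool.Agent.DST.TE
open Pool.Agent.Helper18.Dub Pool.Agent.Helper7.DubStokes Pool.Agent.SHF Pool.Agent.DST
open Pool.Agent.FLB

variable {r N : ℕ} {P : Par r} {n : P.Num N} {ε : Fin N ≃ P.X} {X : FanoGW (Fin N)}
  (G : P.GW n ε X) {t : Fin r → ℂ} (ht : P.Inv t)

/-- the matrix of the Euler form -/
private noncomputable def pfE (X : FanoGW (Fin N)) (T : Fin N → ℂ) : Matrix (Fin N) (Fin N) ℂ :=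
  Matrix.of fun a b => ∑ c, (-1) ^ X.deg a * T c * X.inv X.zero {a, b, c}

private theorem pf_ef (X : FanoGW (Fin N)) (T v w : Fin N → ℂ) :
    eulerForm X T v w = Matrix.toBilin' (pfE X T) v w := by
  rw [Matrix.toBilin'_apply]
  unfold eulerForm pfE
  refine Finset.sum_congr rfl fun a _ => Finset.sum_congr rfl fun b _ => ?_
  rw [Matrix.of_apply, Finset.mul_sum, Finset.sum_mul]
  exact Finset.sum_congr rfl fun c _ => by ring

private theorem pf_sum (X : FanoGW (Fin N)) (T : Fin N → ℂ) (α β : Fin N → ℂ)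
    (v w : Fin N → Fin N → ℂ) :
    eulerForm X T (∑ i, α i • v i) (∑ j, β j • w j) =
      ∑ i, ∑ j, α i * β j * eulerForm X T (v i) (w j) := by
  rw [pf_ef, map_sum (Matrix.toBilin' (pfE X T)), LinearMap.sum_apply]
  refine Finset.sum_congr rfl fun i _ => ?_
  rw [map_smul, LinearMap.smul_apply, map_sum, Finset.smul_sum]
  refine Finset.sum_congr rfl fun j _ => ?_
  rw [map_smul, smul_eq_mul, smul_eq_mul, ← pf_ef, mul_assoc]

private theorem pf_dot (X : FanoGW (Fin N)) (T v w : Fin N → ℂ) :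
    eulerForm X T v w = dotProduct v ((pfE X T).mulVec w) := by
  rw [pf_ef, Matrix.toBilin'_apply']

private theorem pf_gram (X : FanoGW (Fin N)) (T : Fin N → ℂ) (v : Fin N → Fin N → ℂ) :
    gramMatrix X T v = (Matrix.of fun a j => v j a).transpose * pfE X T *
      (Matrix.of fun a j => v j a) := by
  ext i j
  show eulerForm X T (v i) (v j) = _
  rw [pf_dot, Matrix.mul_assoc, Matrix.mul_apply]
  rfl

private theorem pf_det_gram {X : FanoGW (Fin N)} {T : Fin N → ℂ} {v : Fin N → Fin N → ℂ}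
    (h : IsExceptional X T v) : (gramMatrix X T v).det = 1 := by
  rw [Matrix.det_of_isUpperTriangular]
  · exact Finset.prod_eq_one fun i _ => h.self i
  · intro i j hij
    exact h.zero i j hij

private theorem pf_tw (X : FanoGW (Fin N)) : (twist X).det ≠ 0 := by
  unfold twist
  rw [Matrix.det_diagonal]
  refine Finset.prod_ne_zero_iff.2 fun a _ => pow_ne_zero _ ?_
  exact Complex.two_pi_I_ne_zero

include G ht in
theorem final_par : ∃ ρ : ℝ, 0 < ρ ∧ ∀ p : Fin N → ℂ, (∀ i, ‖p i - P.cl ε t i‖ < ρ) →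
    ConvergesAt X p ∧
    (∀ δ : ℝ, 0 < δ → ∃ p' : Fin N → ℂ, (∀ i, ‖p' i - p i‖ < δ) ∧
      (eulerMat X p').charpoly.Separable) ∧
    ((eulerMat X p).charpoly.Separable → ∀ φ : ℝ, DST.IsAdmissible X p φ →
      ∃ M : Helper7.DubStokes.MonodromyData X p, M.φ = φ) ∧
    ∀ M : Helper7.DubStokes.MonodromyData X p, ∃ v : Fin N → P.D.KB, (∀ j, P.InvK (v j)) ∧
      (∀ x : P.D.KB, P.InvK x → ∃ c : Fin N → ℤ, ∀ u,
        P.D.chK x u = ∑ j, (c j : ℂ) * P.D.chK (v j) u) ∧
      (∀ a : Fin N → ℂ, (cM v).mulVec a = 0 → a = 0) ∧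
      (∀ i, P.D.eul (v i) (v i) = 1) ∧ (∀ i j, j < i → P.D.eul (v i) (v j) = 0) ∧
      (∀ i j, M.S i j = P.D.eul (v i) (v j)) ∧
      (∃ C' : Matrix (Fin N) (Fin N) ℂ, C' * X.cupMat = X.cupMat * C' ∧ C'.det ≠ 0 ∧
        M.C = C' * twist X * (cM v).submatrix ε id ∧
        ∀ (x y : P.D.KB) (w : ℂ), P.InvK x → P.InvK y → Helper7.DubStokes.flatPairing M w
          ((C' * twist X).mulVec fun a => P.D.chK x (ε a).1)
          ((C' * twist X).mulVec fun a => P.D.chK y (ε a).1) = P.D.eul x y) ∧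
      ∃ F : ℂ → ℂ → Matrix (Fin N) (Fin N) ℂ,
        Pool.Agent.DSTJ.Spec.IsTransport X (P.cl ε t) p F ∧
        (∀ w, F 0 w = (Complex.I / (Real.sqrt (2 * Real.pi) : ℂ)) ^ X.dim •
          (Zst n t w * (P.GEX t * (smallF P t).twist * cM v)).submatrix ε id) ∧
        ∀ w, F 1 w = M.Xminus w := by
  obtain ⟨T, hch, hχ, hJ⟩ := exists_bulk G ht
  obtain ⟨ρ, hρ, h⟩ := numerical_dubrovin (t := P.cl ε t) (fun i hi => cl_deg G i hi) T
  refine ⟨ρ, hρ, fun p hp => ?_⟩
  obtain ⟨h1, h2, h3, h4⟩ := h p hp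
  refine ⟨h1, h2, h3, fun M => ?_⟩
  obtain ⟨U, hU, h5, h6, ⟨C1, hC1, hC1c⟩, ⟨C2, hC2, hC2i⟩, Y, ⟨F, hF0, hF1, hF⟩, h9⟩ := h4 M
  have hcomb : ∀ j, comb U T.ch j = fun a => P.D.chK (vU n U j) (ε a).1 := by
    intro j
    funext a
    unfold comb
    rw [chK_vU]
    refine Finset.sum_congr rfl fun i _ => ?_
    rw [hch, mul_comm]
  have hcomb' : ∀ j, comb U T.ch j = ∑ i, (U i j : ℂ) • T.ch i := by
    intro j
    funext a
    rw [Finset.sum_apply]
    rfl
  have heul : ∀ i j, eulerForm X T.Td (comb U T.ch i) (comb U T.ch j) =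
      P.D.eul (vU n U i) (vU n U j) := by
    intro i j
    rw [hcomb', hcomb', pf_sum, eul_vU]
    refine Finset.sum_congr rfl fun k _ => Finset.sum_congr rfl fun l _ => ?_
    rw [T.hrr, hχ]
  have hx : ∀ x : P.D.KB, P.InvK x → (fun a => P.D.chK x (ε a).1) =
      ∑ j, (aU n U x j : ℂ) • comb U T.ch j := by
    intro x hx
    funext a
    rw [chK_aU n hU hx, Finset.sum_apply]
    refine Finset.sum_congr rfl fun j _ => ?_
    rw [hcomb]
    rfl
  have hEF : ∀ x y : P.D.KB, P.InvK x → P.InvK y → eulerForm X T.Td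
      (fun a => P.D.chK x (ε a).1) (fun a => P.D.chK y (ε a).1) = P.D.eul x y := by
    intro x y hx' hy'
    rw [hx x hx', hx y hy', pf_sum, eul_aU n hU hx' hy']
    refine Finset.sum_congr rfl fun i _ => Finset.sum_congr rfl fun j _ => ?_
    rw [heul]
  -- the matrix of the Chern characters
  have hW : (Matrix.of fun a j => comb U T.ch j a) = (cM (vU n U)).submatrix ε id := by
    ext a j
    show comb U T.ch j a = _
    rw [hcomb]
    rfl
  have hdet : ((cM (vU n U)).submatrix ε id).det ≠ 0 ∧ (pfE X T.Td).det ≠ 0 := by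
    have h10 := pf_det_gram h5
    rw [pf_gram, hW, Matrix.det_mul, Matrix.det_mul] at h10
    constructor
    · intro h0
      rw [h0, mul_zero] at h10
      exact zero_ne_one h10
    · intro h0
      rw [h0, mul_zero, zero_mul] at h10
      exact zero_ne_one h10
  have hC1' : M.C = C1 * twist X * (cM (vU n U)).submatrix ε id := by
    rw [Matrix.mul_assoc, ← hW]
    ext a j
    rw [hC1 a j, Matrix.mul_apply]
    rfl
  have hC2' : M.C = C2 * twist X * (cM (vU n U)).submatrix ε id := by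
    rw [Matrix.mul_assoc, ← hW]
    ext a j
    rw [hC2 a j, Matrix.mul_apply]
    rfl
  have hinv : IsUnit ((cM (vU n U)).submatrix ε id).det := isUnit_iff_ne_zero.2 hdet.1
  have htwu : IsUnit (twist X).det := isUnit_iff_ne_zero.2 (pf_tw X)
  have h12 : C1 = C2 := by
    have h13 : C1 * twist X = C2 * twist X := by
      have h14 := hC1'.symm.trans hC2'
      calc C1 * twist X = C1 * twist X * (cM (vU n U)).submatrix ε id *
            ((cM (vU n U)).submatrix ε id)⁻¹ := by
              rw [Matrix.mul_assoc (C1 * twist X), Matrix.mul_nonsing_inv _ hinv, Matrix.mul_one]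
        _ = C2 * twist X * (cM (vU n U)).submatrix ε id *
            ((cM (vU n U)).submatrix ε id)⁻¹ := by rw [h14]
        _ = C2 * twist X := by
              rw [Matrix.mul_assoc (C2 * twist X), Matrix.mul_nonsing_inv _ hinv, Matrix.mul_one]
    calc C1 = C1 * twist X * (twist X)⁻¹ := by
            rw [Matrix.mul_assoc, Matrix.mul_nonsing_inv _ htwu, Matrix.mul_one]
      _ = C2 * twist X * (twist X)⁻¹ := by rw [h13]
      _ = C2 := by rw [Matrix.mul_assoc, Matrix.mul_nonsing_inv _ htwu, Matrix.mul_one]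
  subst h12
  refine ⟨vU n U, invK_vU n U, fun x hx' => ⟨aU n U x, fun u => chK_aU n hU hx' u⟩, ?_, ?_, ?_,
    ?_, ⟨C1, hC1c, ?_, hC1', ?_⟩, ?_⟩
  · intro a ha
    have h15 : ((cM (vU n U)).submatrix ε id).mulVec a = 0 := by
      funext i
      exact congrFun ha (ε i)
    exact Matrix.eq_zero_of_mulVec_eq_zero hdet.1 h15
  · intro i
    rw [← heul]
    exact h5.self i
  · intro i j hij
    rw [← heul]
    exact h5.zero i j hij
  · intro i j
    rw [h6, ← heul]
    rfl
  · intro h0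
    obtain ⟨z, hz, hz0⟩ := Matrix.exists_mulVec_eq_zero_iff.2 h0
    have h17 : (C1 * twist X).mulVec ((twist X)⁻¹.mulVec z) = 0 := by
      rw [Matrix.mulVec_mulVec, Matrix.mul_assoc, Matrix.mul_nonsing_inv _ htwu, Matrix.mul_one,
        hz0]
    have h19 : ∀ y, dotProduct ((twist X)⁻¹.mulVec z) ((pfE X T.Td).mulVec y) = 0 := by
      intro y
      rw [← pf_dot, ← hC2i 0, h17]
      unfold Helper7.DubStokes.flatPairing
      rw [Matrix.mulVec_zero, zero_dotProduct]
    have h16 : (twist X)⁻¹.mulVec z = 0 := by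
      refine Matrix.eq_zero_of_vecMul_eq_zero hdet.2 (dotProduct_eq_zero _ fun y => ?_)
      rw [← Matrix.dotProduct_mulVec]
      exact h19 y
    apply hz
    calc z = (twist X).mulVec ((twist X)⁻¹.mulVec z) := by
            rw [Matrix.mulVec_mulVec, Matrix.mul_nonsing_inv _ htwu, Matrix.one_mulVec]
      _ = 0 := by rw [h16, Matrix.mulVec_zero]
  · intro x y w hx' hy'
    rw [hC2i w, hEF x y hx' hy']
  · refine ⟨fun s w => (Complex.I / (Real.sqrt (2 * Real.pi) : ℂ)) ^ X.dim •
      (F s w * U.map (Int.castRingHom ℂ)), Pool.Agent.DSTJ.Spec.transport_mul hF _ _, ?_, ?_⟩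
    · intro w
      beta_reduce
      rw [hF0, hJ]
      congr 1
      have h18 : (Zst n t w * P.GM t 0).submatrix ε n.e =
          (Zst n t w).submatrix ε id * (P.GM t 0).submatrix id n.e := rfl
      rw [h18, Matrix.mul_assoc, GM_U n ht U]
      rfl
    · intro w
      ext i j
      beta_reduce
      rw [Matrix.smul_apply, smul_eq_mul, hF1, h9]

end Pool.Agent.FLG.Par
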