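import Pool.Agent.FLB.Tr
import Pool.Agent.FLB.PFin

/-!
# FLB-Main: the numerical conjecture of Dubrovin for all flag varieties in big quantum cohomology

The theory `T` is transported to the model of the root system in coordinates (`exists_model`, `exists_GW`), where
`final_par` and `semisimple` apply; the transfer of the K-theory and of `gammaOp` is as in `final_flagP`
(Pool/Agent/FLG/ZP/Fin.lean).
-/

set_option autoImplicit false

open scoped BigOperators Topology

namespace Pool.Agent.FLB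

open Pool.Agent.Helper18.Dub Pool.Agent.Helper7.DubStokes Pool.Agent.SHF Pool.Agent.DST
open Pool.Agent.FLG Pool.Agent.FLG.FlagP

theorem all_flags {ι V V' : Type} [Fintype ι] [AddCommGroup V] [Module ℂ V] [AddCommGroup V']
    [Module ℂ V'] (P : RootPairing ι ℂ V V') [P.IsRootSystem] [P.IsCrystallographic]
    [P.IsReduced] (b : P.Base) (J : Set ι) (hJ : J ⊆ b.support) [Fintype P.weylGroup]
    [DecidableEq P.weylGroup] {N : ℕ} (e : Fin N ≃ Rep b J) (ξ : V →ₗ[ℂ] ℂ)
    (hξ : IsGeneric b J ξ) (X : FanoGW (Fin N)) (T : FlagGW b J ξ e X) :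
    X.IsGenericallySemisimple ∧
    ∀ t : V, (∀ j ∈ J, P.coroot' j t = 0) →
      (∃! Z, Pool.Agent.DSTJ.Spec.IsStandard X (coord e X t) Z) ∧
      ∃ ρ : ℝ, 0 < ρ ∧ ∀ p : Fin N → ℂ, (∀ i, ‖p i - coord e X t i‖ < ρ) →
        ConvergesAt X p ∧
        (∀ δ : ℝ, 0 < δ → ∃ p' : Fin N → ℂ, (∀ i, ‖p' i - p i‖ < δ) ∧
          (eulerMat X p').charpoly.Separable) ∧
        ((eulerMat X p).charpoly.Separable → ∀ φ : ℝ, DST.IsAdmissible X p φ →
          ∃ M : Helper7.DubStokes.MonodromyData X p, M.φ = φ) ∧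
        ∀ M : Helper7.DubStokes.MonodromyData X p, ∃ v : Fin N → KClass P J,
          IsExceptionalBasis b J v ∧
          (∀ i j, M.S i j = euler b J (v i) (v j)) ∧
          (∃ C' : Matrix (Fin N) (Fin N) ℂ, C' * X.cupMat = X.cupMat * C' ∧ C'.det ≠ 0 ∧
            M.C = C' * twist X * (chernMatrix b J v).submatrix e id ∧
            ∀ (x y : KClass P J) (w : ℂ), Helper7.DubStokes.flatPairing M w
              ((C' * twist X).mulVec fun a => chern b J x (e a))
              ((C' * twist X).mulVec fun a => chern b J y (e a)) = euler b J x y) ∧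
          ∀ Z, Pool.Agent.DSTJ.Spec.IsStandard X (coord e X t) Z →
            ∃ F : ℂ → ℂ → Matrix (Fin N) (Fin N) ℂ,
              Pool.Agent.DSTJ.Spec.IsTransport X (coord e X t) p F ∧
              (∀ w, F 0 w = (Complex.I / (Real.sqrt (2 * Real.pi) : ℂ)) ^ X.dim •
                (Z w * (gammaOp b J t).submatrix e e * twist X *
                  (chernMatrix b J v).submatrix e id)) ∧
              ∀ w, F 1 w = M.Xminus w := by
  classical
  obtain ⟨D, ⟨m⟩⟩ := exists_model P b
  obtain ⟨n, ⟨G⟩⟩ := m.exists_GW hJ hξ T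
  have hone : m.fX hJ (e X.one) = (m.par J).one := G.one_eq
  refine ⟨Par.semisimple G, fun t ht => ?_⟩
  have hs := m.inv_s hJ ht
  obtain ⟨t, rfl⟩ := m.bk_surj t
  rw [m.s_bk] at hs
  have hco : coord e X (m.bk t) = (m.par J).cl (e.trans (m.fX hJ)) t := m.coord_bk hJ hone t
  rw [hco]
  refine ⟨⟨_, Par.std_Zst G hs, fun Z hZ => Par.std_unique G hs hZ (Par.std_Zst G hs)⟩, ?_⟩
  obtain ⟨ρ, hρ, hmain⟩ := Par.final_par G hs
  refine ⟨ρ, hρ, fun p hp => ?_⟩
  obtain ⟨hcv, hden, hex, hall⟩ := hmain p hp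
  refine ⟨hcv, hden, hex, fun M => ?_⟩
  obtain ⟨v, hinv, hgen, hind, hE1, hE0, hSv, ⟨C', hC1, hC2, hC3, hC4⟩, F, hF, hF0, hF1⟩ :=
    hall M
  have hch : ∀ j (u : Rep b J), chern b J ⟨m.back (v j), m.inv_back hJ (hinv j)⟩ u =
      D.chK (v j) (m.f u.1) := fun j u => m.chern_back (v j) u.1
  have hchf : ∀ (x : KClass P J) (u : Rep b J), D.chK (m.fwd x.1) (m.f u.1) =
      chern b J x u := fun x u => m.chern_fwd x.1 u.1
  have hcM : chernMatrix b J (fun j => ⟨m.back (v j), m.inv_back hJ (hinv j)⟩) =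
      (Par.cM v).submatrix (m.fX hJ) id := by
    ext u j
    exact hch j u
  have hcM' : (chernMatrix b J (fun j => ⟨m.back (v j), m.inv_back hJ (hinv j)⟩)).submatrix e id =
      (Par.cM v).submatrix (e.trans (m.fX hJ)) id := by
    rw [hcM]
    rfl
  have heu : ∀ i j, euler b J ⟨m.back (v i), m.inv_back hJ (hinv i)⟩
      ⟨m.back (v j), m.inv_back hJ (hinv j)⟩ = D.eul (v i) (v j) :=
    fun i j => m.euler_back (v i) (v j)
  refine ⟨fun j => ⟨m.back (v j), m.inv_back hJ (hinv j)⟩, ⟨?_, ?_, ?_, ?_⟩, ?_, ?_, ?_⟩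
  · intro x
    obtain ⟨c, hc⟩ := hgen (m.fwd x.1) (m.inv_fwd hJ x)
    refine ⟨c, ?_⟩
    funext u
    rw [← hchf]
    have h3 := hc (m.f u.1)
    refine h3.trans ?_
    rw [Finset.sum_apply]
    refine Finset.sum_congr rfl fun j _ => ?_
    rw [Pi.smul_apply, hch, zsmul_eq_mul]
    rfl
  · rw [Fintype.linearIndependent_iff]
    intro g hg i
    have h2 := hind g (by
      funext u
      have h3 := congrFun hg ((m.fX hJ).symm u)
      rw [Finset.sum_apply] at h3
      show ∑ j, Par.cM v u j * g j = 0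
      rw [Pi.zero_apply] at h3
      rw [← h3]
      refine Finset.sum_congr rfl fun j _ => ?_
      rw [Pi.smul_apply, hch, smul_eq_mul, mul_comm, ← m.fX_val hJ, Equiv.apply_symm_apply]
      rfl)
    rw [h2]
    rfl
  · intro i
    rw [heu]
    exact hE1 i
  · intro i j hij
    rw [heu]
    exact hE0 i j hij
  · intro i j
    rw [heu]
    exact hSv i j
  · refine ⟨C', hC1, hC2, ?_, ?_⟩
    · rw [hC3, hcM']
    · intro x y w
      have h2 := hC4 (m.fwd x.1) (m.fwd y.1) w (m.inv_fwd hJ x) (m.inv_fwd hJ y)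
      refine Eq.trans ?_ (h2.trans (m.euler_fwd x.1 y.1))
      have h3 : ∀ x : KClass P J, (fun a => chern b J x (e a)) =
          fun a => (m.par J).D.chK (m.fwd x.1) (((e.trans (m.fX hJ)) a).1) := by
        intro x
        funext a
        exact (hchf x (e a)).symm
      rw [h3 x, h3 y]
  · intro Z hZ
    have hZeq : Z = fun w => (Par.Zst n t w).submatrix (e.trans (m.fX hJ)) (e.trans (m.fX hJ)) :=
      Par.std_unique G hs hZ (Par.std_Zst G hs)
    refine ⟨F, hF, fun w => ?_, hF1⟩
    rw [hF0, hZeq]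
    congr 1
    have htw : twist X = (Par.smallF (m.par J) t).twist.submatrix (e.trans (m.fX hJ))
        (e.trans (m.fX hJ)) := by
      ext i j
      unfold twist Small.twist
      rw [Matrix.submatrix_apply]
      by_cases hij : i = j
      · subst hij
        rw [Matrix.diagonal_apply_eq, Matrix.diagonal_apply_eq, G.deg_eq]
        rfl
      · rw [Matrix.diagonal_apply_ne _ hij, Matrix.diagonal_apply_ne _ fun h =>
          hij ((e.trans (m.fX hJ)).injective h)]
    have hga : (gammaOp b J (m.bk t)).submatrix e e =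
        ((m.par J).GEX t).submatrix (e.trans (m.fX hJ)) (e.trans (m.fX hJ)) := by
      rw [m.gammaP_bk hJ]
      rfl
    rw [hcM', htw, hga, Matrix.submatrix_mul_equiv, Matrix.submatrix_mul_equiv,
      Matrix.submatrix_mul_equiv]
    simp only [Matrix.mul_assoc]

end Pool.Agent.FLB
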