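import Pool.Agent.FLB.Ax
import Pool.Agent.FLG.P.Num

/-!
# FLB-PDefs: the equivariant theory of `G/P` in coordinates

`P : Par r` is the flag variety (`Pool/Agent/FLG/P/Defs.lean`), `n : P.Num N` the numbering of the fixed points
with its cocharacter `n.ξ`, `ε : Fin N ≃ P.X` the numbering of the Schubert classes (it may be different from
`n.e`).
-/

set_option autoImplicit false

open scoped BigOperators Topology

namespace Pool.Agent.FLG.Par

open RS Pool.Agent.DST.TE
open Pool.Agent.Helper18.Dub Pool.Agent.Helper7.DubStokes Pool.Agent.SHF Pool.Agent.DST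
open Pool.Agent.FLB

variable {r N : ℕ} (P : Par r)

/-- the coordinates of the class of `h` (of `h ∪ 1`) -/
noncomputable def cl (ε : Fin N ≃ P.X) (h : Fin r → ℂ) (a : Fin N) : ℂ :=
  P.E0 (P.D.ch h) (ε a) P.one

/-- the restrictions of the equivariant Schubert divisor class of `h`, on `ξ` -/
noncomputable def rd (ξ : Fin r → ℤ) (h : Fin r → ℂ) : Matrix P.X P.X (Polynomial ℂ) :=
  Matrix.diagonal fun u => Polynomial.C (P.D.hv h 1 (cc ξ) - P.D.hv h u.1 (cc ξ)) * Polynomial.X

/-- the `c_1`-part in `H^2_T(pt)` -/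
noncomputable def kap1 (ξ : Fin r → ℤ) : ℂ := -P.D.hv P.ctr 1 (cc ξ)

/-- the theory of `G/P` -/
structure GW (n : P.Num N) (ε : Fin N ≃ P.X) (X : FanoGW (Fin N)) extends AxGW X where
  dim_eq : X.dim = P.dm
  deg_eq : ∀ a, X.deg a = P.len (ε a).1
  one_eq : ε X.one = P.one
  pair_eq : ∀ a b, X.pair a b = if ε a = P.lm P.D.w0 (ε b) then 1 else 0
  chern_eq : ∀ a, X.chern a = P.cl ε P.ctr a
  chev : ∀ h, P.Inv h → ∑ a, Polynomial.C (P.cl ε h a) • toEquivData.cupMatT a =
    ((P.E0 (P.D.ch h)).map Polynomial.C + P.rd n.ξ h).submatrix ε ε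
  qchev : ∀ t h, P.Inv t → P.Inv h →
    (Matrix.of fun k c => ∑ a, Polynomial.C (P.cl ε h a) *
        ∑ l, pairT⁻¹ k l * corrAt toEquivData (P.cl ε t) {a, c, l}) =
      ((P.E (P.D.ch h) t).map Polynomial.C + P.rd n.ξ h).submatrix ε ε

end Pool.Agent.FLG.Par
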