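import Pool.Agent.FLB.Good
import Pool.Agent.FLG.P.Gam
import Pool.Agent.FLG.P.Pair

/-!
# FLB-Phi: the simple reflections and the elements of length zero have good polynomial matrices

As `FLG/P/Phi.lean`.
-/

set_option autoImplicit false

open scoped BigOperators Topology
open Filter
open Pool.Agent.DST.TE Pool.Agent.DSTJ

namespace Pool.Agent.FLG.Par

open RS

variable {r : ℕ} {P : Par r} {N : ℕ} (n : P.Num N) {t : Fin r → ℂ} (ht : P.Inv t)

private theorem ph_xi (i : Fin r) (y : Fin r → ℂ) : P.D.xi (P.D.s i) 0 y = P.D.yt (P.D.s i)⁻¹ y := by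
  have h0 : (cc (0 : Fin r → ℤ) : Fin r → ℂ) = 0 := by
    funext j
    simp [cc]
  unfold xi
  rw [h0, add_zero]

private theorem ph_ne {y : Fin r → ℂ} (hy : P.SG y) : ∀ a ∈ P.D.Φ, pr a y ≠ 0 := fun a ha => by
  have := hy.1 a ha 0
  simpa using this

private theorem ph_lm {w : P.D.W} {p v : P.X} : P.lm w⁻¹ p = v ↔ p = P.lm w v :=
  ⟨fun h => by rw [← h, lm_lm_inv], fun h => by rw [h, lm_inv_lm]⟩

/-- the relation between the restriction matrices -/
private theorem key {i : Fin r} {y : Fin r → ℂ} (hy : ∀ a ∈ P.D.Φ, pr a y ≠ 0)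
    (hy' : ∀ a ∈ P.D.Φ, pr a (P.D.yt (P.D.s i)⁻¹ y) ≠ 0) (u v : P.X) :
    ((1 - pr (al i) y • P.A i) * (P.Rm (P.D.yt (P.D.s i)⁻¹ y))⁻¹) u v =
      (P.Rm y)⁻¹ u (P.lm (P.D.s i) v) := by
  have h1 : IsUnit (P.Rm y).det := isUnit_iff_ne_zero.2 (Rm_det_ne hy)
  have h2 : IsUnit (P.Rm (P.D.yt (P.D.s i)⁻¹ y)).det := isUnit_iff_ne_zero.2 (Rm_det_ne hy')
  have h3 : ∀ p, (P.Rm y * ((1 - pr (al i) y • P.A i) * (P.Rm (P.D.yt (P.D.s i)⁻¹ y))⁻¹)) p v =
      if p = P.lm (P.D.s i) v then 1 else 0 := by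
    intro p
    rw [← Matrix.mul_assoc, Matrix.mul_apply]
    have h4 : ∀ k, (P.Rm y * (1 - pr (al i) y • P.A i)) p k =
        P.Rm (P.D.yt (P.D.s i)⁻¹ y) (P.lm (P.D.s i)⁻¹ p) k := fun k => Rm_left (IsLeft.simple i) y p k
    simp only [h4]
    rw [← Matrix.mul_apply, Matrix.mul_nonsing_inv _ h2, Matrix.one_apply]
    exact if_congr ph_lm rfl rfl
  have h5 : (1 - pr (al i) y • P.A i) * (P.Rm (P.D.yt (P.D.s i)⁻¹ y))⁻¹ = (P.Rm y)⁻¹ *
      (P.Rm y * ((1 - pr (al i) y • P.A i) * (P.Rm (P.D.yt (P.D.s i)⁻¹ y))⁻¹)) := by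
    rw [← Matrix.mul_assoc (P.Rm y)⁻¹, Matrix.nonsing_inv_mul _ h1, Matrix.one_mul]
  rw [h5, Matrix.mul_apply]
  simp only [h3]
  simp

private theorem ph_diag {y : Fin r → ℂ} (hy : P.SG y) (p : P.X) : P.Rm y p p ≠ 0 := by
  rw [Rm_diag]
  exact Finset.prod_ne_zero_iff.2 fun b hb =>
    neg_ne_zero.2 (ph_ne hy _ ((P.D.rt_mem).2 (pos_mem (Finset.mem_filter.1 hb).1)))

include ht

theorem goodP_s (i : Fin r) : GoodP n t (P.D.s i) 0 := by
  have hL := IsLeft.simple (P := P) i
  refine ⟨P.Ms i, ?_, ?_, inter_Ms ht i, ?_⟩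
  · intro u v
    have h1 : (fun (y : Fin r → ℂ) (z : ℂ) => P.Ms i y z u v) =
        fun y _ => (1 : Matrix P.X P.X ℂ) u v - pr (al i) y * P.A i u v := by
      funext y z
      simp [Ms, Matrix.sub_apply, Matrix.smul_apply]
    rw [h1]
    exact (IsPoly.const _).sub ((isPoly_pr _).mul (IsPoly.const _))
  · intro y z
    show (1 - pr (al i) y • P.A i).det ≠ 0
    rw [hL.det]
    exact one_ne_zero
  · intro y hy
    have hy' : P.SG (P.D.xi (P.D.s i) 0 y) := sg_xi hy _ _
    have hc : ∀ v : P.X, pr (P.D.rt v.1 P.tr) (P.D.xi (P.D.s i) 0 y) =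
        pr (P.D.rt (P.lm (P.D.s i) v).1 P.tr) y := by
      intro v
      rw [rt_lm_tr, RS.pr_xi, zero_dotProduct, rt_mul]
      simp
    have hmain : ∀ v, ∀ s u, (P.Ms i (fun i => y i * Complex.exp s) (Complex.exp s) *
        FF n t (P.D.xi (P.D.s i) 0 y) s) u v = FF n t y s u (P.lm (P.D.s i) v) := by
      intro v
      obtain ⟨h, hh⟩ := inter_FF n t (inter_Ms ht i) hy v
      suffices h1 : h = 1 by
        intro s u
        rw [hh s u, h1, one_mul]
      set u := P.lm (P.D.s i) v with hu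
      have ha : Tendsto (fun s : ℝ => Complex.exp (-s * P.th u) *
          Complex.exp (-s * pr (P.D.rt u.1 P.tr) y) * (h * FF n t y s u u)) atTop
          (𝓝 (h * (P.Rm y)⁻¹ u u)) := by
        have := (FF_lim n t hy u u).const_mul h
        refine this.congr fun s => ?_
        ring
      have hb : Tendsto (fun s : ℝ => ∑ k, (1 - pr (al i) y • P.A i) u k *
          (Complex.exp (-s * P.th k) * Complex.exp (-s * pr (P.D.rt v.1 P.tr) (P.D.xi (P.D.s i) 0 y)) *
            FF n t (P.D.xi (P.D.s i) 0 y) s k v)) atTop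
          (𝓝 (∑ k, (1 - pr (al i) y • P.A i) u k * (P.Rm (P.D.xi (P.D.s i) 0 y))⁻¹ k v)) :=
        tendsto_finsetSum _ fun k _ => (FF_lim n t hy' k v).const_mul _
      have hab : ∀ s : ℝ, Complex.exp (-s * P.th u) *
          Complex.exp (-s * pr (P.D.rt u.1 P.tr) y) * (h * FF n t y s u u) =
          ∑ k, (1 - pr (al i) y • P.A i) u k *
          (Complex.exp (-s * P.th k) * Complex.exp (-s * pr (P.D.rt v.1 P.tr) (P.D.xi (P.D.s i) 0 y)) *
            FF n t (P.D.xi (P.D.s i) 0 y) s k v) := by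
        intro s
        have h1 := hh s u
        rw [← h1, Matrix.mul_apply, Finset.mul_sum]
        refine Finset.sum_congr rfl fun k _ => ?_
        rw [hc v]
        have h2 := hL.homog (Complex.exp s) y u k
        have h3 : P.Ms i (fun i => y i * Complex.exp s) (Complex.exp s) u k =
            (1 - pr (al i) (fun i => Complex.exp s * y i) • P.A i) u k := by
          unfold Ms
          have : (fun i => y i * Complex.exp s) = fun i => Complex.exp s * y i := by
            funext j; ring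
          rw [this]
        rw [h3]
        have h4 : Complex.exp (-s * P.th u) *
            (1 - pr (al i) (fun i => Complex.exp s * y i) • P.A i) u k =
            Complex.exp (-s * P.th k) * (1 - pr (al i) y • P.A i) u k := by
          have h5 : Complex.exp (-s * P.th u) =
              Complex.exp (-s * ((P.dm : ℂ) / 2)) * Complex.exp s ^ P.len u.1 := by
            rw [← Complex.exp_nat_mul, ← Complex.exp_add]
            congr 1
            unfold th
            ring
          have h6 : Complex.exp (-s * P.th k) =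
              Complex.exp (-s * ((P.dm : ℂ) / 2)) * Complex.exp s ^ P.len k.1 := by
            rw [← Complex.exp_nat_mul, ← Complex.exp_add]
            congr 1
            unfold th
            ring
          rw [h5, h6, mul_assoc, h2, mul_assoc]
        rw [show Complex.exp (-s * P.th u) * Complex.exp (-s * pr (P.D.rt u.1 P.tr) y) *
          ((1 - pr (al i) (fun i => Complex.exp s * y i) • P.A i) u k *
            FF n t (P.D.xi (P.D.s i) 0 y) s k v) = (Complex.exp (-s * P.th u) *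
            (1 - pr (al i) (fun i => Complex.exp s * y i) • P.A i) u k) *
            (Complex.exp (-s * pr (P.D.rt u.1 P.tr) y) * FF n t (P.D.xi (P.D.s i) 0 y) s k v) by ring, h4]
        ring
      have h1 : h * (P.Rm y)⁻¹ u u =
          ∑ k, (1 - pr (al i) y • P.A i) u k * (P.Rm (P.D.xi (P.D.s i) 0 y))⁻¹ k v :=
        tendsto_nhds_unique ha (hb.congr fun s => (hab s).symm)
      rw [← Matrix.mul_apply, ph_xi, key (ph_ne hy) (by rw [← ph_xi]; exact ph_ne hy')] at h1
      have h2 : (P.Rm y)⁻¹ u u ≠ 0 := by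
        rw [Rm_inv_diag (ph_ne hy)]
        exact inv_ne_zero (ph_diag hy u)
      rw [← hu] at h1
      exact mul_right_cancel₀ h2 (by rw [h1, one_mul])
    intro s u v
    rw [hmain v s u, gam_s ht]

omit ht in
private theorem Mτ_det (x : P.D.W) (ν : Fin r → ℤ) : (P.Mτ x ν t).det ≠ 0 := by
  have h1 : (Matrix.of fun u w => if w = P.lm x u then (qq t (P.D.yt w.1⁻¹ ν))⁻¹ else 0 :
      Matrix P.X P.X ℂ) * P.Mτ x ν t = 1 := by
    ext u v
    rw [Matrix.mul_apply, Matrix.one_apply]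
    simp only [Matrix.of_apply, Mτ]
    rw [Finset.sum_eq_single (P.lm x u)]
    · by_cases h : u = v
      · subst h
        rw [if_pos rfl, if_pos rfl, if_pos rfl]
        exact inv_mul_cancel₀ (qq_ne_zero _ _)
      · have h3 : ¬ P.lm x u = P.lm x v := fun h' => h (by
          have h2 := congrArg (P.lm x⁻¹) h'
          rwa [lm_inv_lm, lm_inv_lm] at h2)
        rw [if_neg h, if_neg h3, mul_zero]
    · intro w _ hw
      rw [if_neg hw, zero_mul]
    · intro h
      exact absurd (Finset.mem_univ _) h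
  intro h2
  have h3 := congrArg Matrix.det h1
  rw [Matrix.det_mul, h2, mul_zero, Matrix.det_one] at h3
  exact zero_ne_one h3

theorem goodP_τ {x : P.D.W} {ν : Fin r → ℤ} (h : P.D.IsTau x ν) : GoodP n t x ν := by
  refine ⟨fun _ _ => P.Mτ x ν t, fun u v => IsPoly.const _, fun _ _ => Mτ_det x ν,
    inter_Mτ ht h, ?_⟩
  intro y hy s u v
  have hy' : P.SG (P.D.xi x ν y) := sg_xi hy _ _
  obtain ⟨k, hk'⟩ := inter_FF n t (inter_Mτ ht h) hy v
  have hk : ∀ s u, (P.Mτ x ν t * FF n t (P.D.xi x ν y) s) u v =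
      k * FF n t y s u (P.lm x v) := hk'
  show (P.Mτ x ν t * FF n t (P.D.xi x ν y) s) u v * _ = _
  rw [hk s u]
  suffices h1 : k * P.gam t v (P.D.xi x ν y) = P.gam t (P.lm x v) y by
    rw [← h1]; ring
  have hRv : P.Rm (P.D.xi x ν y) v v ≠ 0 := ph_diag hy' v
  have hRx : P.Rm y (P.lm x v) (P.lm x v) ≠ 0 := ph_diag hy _
  have hentry : ∀ s, (P.Mτ x ν t * FF n t (P.D.xi x ν y) s) (P.lm x v) v =
      qq t (P.D.yt (P.lm x v).1⁻¹ ν) * FF n t (P.D.xi x ν y) s v v := by
    intro s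
    rw [Matrix.mul_apply, Finset.sum_eq_single v]
    · simp only [Mτ, Matrix.of_apply]
      rw [if_pos trivial]
    · intro w _ hw
      simp only [Mτ, Matrix.of_apply]
      rw [if_neg fun h' => hw ?_, zero_mul]
      have h2 := congrArg (P.lm x⁻¹) h'
      rw [lm_inv_lm, lm_inv_lm] at h2
      exact h2.symm
    · intro h'
      exact absurd (Finset.mem_univ _) h'
  have ha : Tendsto (fun s : ℝ => Complex.exp (-s * P.th (P.lm x v)) *
      Complex.exp (-s * pr (P.D.rt (P.lm x v).1 P.tr) y) * (k * FF n t y s (P.lm x v) (P.lm x v))) atTop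
      (𝓝 (k * (P.Rm y)⁻¹ (P.lm x v) (P.lm x v))) := by
    have := (FF_lim n t hy (P.lm x v) (P.lm x v)).const_mul k
    refine this.congr fun s => ?_
    ring
  have hb : Tendsto (fun s : ℝ => qq t (P.D.yt (P.lm x v).1⁻¹ ν) *
      (Complex.exp (-s * P.th v) * Complex.exp (-s * pr (P.D.rt v.1 P.tr) (P.D.xi x ν y)) *
        FF n t (P.D.xi x ν y) s v v)) atTop
      (𝓝 (qq t (P.D.yt (P.lm x v).1⁻¹ ν) * (P.Rm (P.D.xi x ν y))⁻¹ v v)) :=
    (FF_lim n t hy' v v).const_mul _
  have hab : ∀ s : ℝ, Complex.exp (-s * P.th (P.lm x v)) *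
      Complex.exp (-s * pr (P.D.rt (P.lm x v).1 P.tr) y) * (k * FF n t y s (P.lm x v) (P.lm x v)) =
      qq t (P.D.yt (P.lm x v).1⁻¹ ν) *
      (Complex.exp (-s * P.th v) * Complex.exp (-s * pr (P.D.rt v.1 P.tr) (P.D.xi x ν y)) *
        FF n t (P.D.xi x ν y) s v v) := by
    intro s
    rw [← hk s (P.lm x v), hentry s]
    have h1 : Complex.exp (-s * P.th (P.lm x v)) * Complex.exp (-s * pr (P.D.rt (P.lm x v).1 P.tr) y) =
        Complex.exp (-s * P.th v) * Complex.exp (-s * pr (P.D.rt v.1 P.tr) (P.D.xi x ν y)) := by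
      rw [← Complex.exp_add, ← Complex.exp_add]
      congr 1
      rw [rt_lm_tr, RS.pr_xi, ← rt_mul]
      have h2 : (P.len (P.lm x v).1 : ℂ) =
          P.len v.1 - ((dotProduct ν (P.D.rt (x * v.1) P.tr) : ℤ) : ℂ) := by
        rw [len_lm]
        exact_mod_cast congrArg (Int.cast (R := ℂ)) (tau_len h v.1)
      unfold th
      rw [h2]
      ring
    rw [h1]
    ring
  have h1 := tendsto_nhds_unique ha (hb.congr fun s => (hab s).symm)
  rw [Rm_inv_diag (ph_ne hy), Rm_inv_diag (ph_ne hy')] at h1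
  have h2 := gam_M ht h v hy
  have h3 : k * P.Rm (P.D.xi x ν y) v v =
      qq t (P.D.yt (P.lm x v).1⁻¹ ν) * P.Rm y (P.lm x v) (P.lm x v) := by
    field_simp at h1
    linear_combination h1
  have h4 : P.Rm (P.D.xi x ν y) v v * (k * P.gam t v (P.D.xi x ν y)) =
      P.Rm (P.D.xi x ν y) v v * P.gam t (P.lm x v) y := by
    rw [← h2, ← h3]
    ring
  exact mul_left_cancel₀ hRv h4

end Pool.Agent.FLG.Par
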