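import Pool.Agent.FLB.Good
import Pool.Agent.FLG.P.Gam

/-!
# FLB-PhiT: the affine reflections have good polynomial matrices

As `FLG/P/PhiT.lean`.
-/

set_option autoImplicit false

open scoped BigOperators Topology
open Filter
open Pool.Agent.DST.TE Pool.Agent.DSTJ

namespace Pool.Agent.FLG.Par

open RS

variable {r : ℕ} {P : Par r} {N : ℕ} (n : P.Num N) {t : Fin r → ℂ} (ht : P.Inv t)

private theorem pt_flag {b : Fin r → ℤ} (hb : b ∈ P.D.Φ) (v : P.X) :
    ∃ x ∈ P.WJ, P.D.rt (P.lm (P.D.refl b) v).1⁻¹ b = -P.D.rt x (P.D.rt v.1⁻¹ b) := by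
  obtain ⟨x, hx, h⟩ := fl_spec (P.D.refl b * v.1)
  refine ⟨x, hx, ?_⟩
  have h1 : (P.lm (P.D.refl b) v).1⁻¹ = x * (P.D.refl b * v.1)⁻¹ := by
    have h2 : (P.lm (P.D.refl b) v).1 = P.D.refl b * v.1 * x⁻¹ := by
      rw [h, mul_inv_cancel_right]
      rfl
    rw [h2, mul_inv_rev, inv_inv]
  rw [h1, P.D.rt_mul, mul_inv_rev, refl_inv hb, P.D.rt_mul, rt_refl_self hb, P.D.rt_neg,
    P.D.rt_neg]

private theorem pt_sq (t : Fin r → ℂ) {b : Fin r → ℤ} (hb : b ∈ P.D.Φ) :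
    P.Aθ b t * P.Aθ b t = 0 := by
  ext u w
  rw [Matrix.mul_apply, Matrix.zero_apply]
  refine Finset.sum_eq_zero fun v _ => ?_
  unfold Aθ
  rw [Matrix.of_apply, Matrix.of_apply]
  by_cases h1 : v = P.lm (P.D.refl b) w ∧ P.D.rt w.1⁻¹ b ∈ P.Pos
  · obtain ⟨h2, h3⟩ := h1
    rw [if_neg, zero_mul]
    rintro ⟨-, h4⟩
    obtain ⟨x, hx, h5⟩ := pt_flag hb w
    rw [h2, h5] at h4
    exact neg_not_pos (mem_Pos.1 (wj_pos hx h3)).1 (mem_Pos.1 h4).1
  · rw [if_neg h1, mul_zero]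

private theorem pt_mul (t : Fin r → ℂ) {b : Fin r → ℤ} (hb : b ∈ P.D.Φ) {y y' : Fin r → ℂ}
    {z z' : ℂ} (h : (z + pr b y) + (z' + pr b y') = 0) :
    P.Mθ t b y z * P.Mθ t b y' z' = 1 := by
  unfold Mθ
  rw [mul_add, mul_one, add_mul, one_mul, smul_mul_smul_comm, pt_sq t hb, smul_zero, add_zero,
    add_assoc, ← add_smul, h, zero_smul, add_zero]

private theorem pt_det (t : Fin r → ℂ) {b : Fin r → ℤ} (hb : b ∈ P.D.Φ) (y : Fin r → ℂ) (z : ℂ) :
    (P.Mθ t b y z).det ≠ 0 := by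
  have h1 : P.Mθ t b y z * P.Mθ t b y (-z - 2 * pr b y) = 1 := pt_mul t hb (by ring)
  have h2 := congrArg Matrix.det h1
  rw [Matrix.det_mul, Matrix.det_one] at h2
  exact left_ne_zero_of_mul_eq_one h2

private theorem pt_cd (t : Fin r → ℂ) (b : Fin r → ℤ) (u v : P.X) :
    IsPoly fun y z => P.Mθ t b y z u v := by
  simp only [Mθ, Matrix.add_apply, Matrix.smul_apply, smul_eq_mul]
  exact (IsPoly.const _).add ((IsPoly.last.add (isPoly_pr _)).mul (IsPoly.const _))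

private theorem pt_xi_xi {b : Fin r → ℤ} (hb : b ∈ P.D.Φ) (y : Fin r → ℂ) :
    P.D.xi (P.D.refl b) (P.D.co b) (P.D.xi (P.D.refl b) (P.D.co b) y) = y := by
  unfold RS.xi
  rw [refl_inv hb, P.D.yt_add, ← P.D.yt_mul, refl_mul_self hb, P.D.yt_one, P.D.yt_cc,
    ← P.D.co_rt_eq _ hb, rt_refl_self hb, co_neg hb]
  funext i
  simp [cc]

private theorem pt_dot {b : Fin r → ℤ} (hb : b ∈ P.D.Φ) (x : Fin r → ℤ) :
    dotProduct (P.D.co b) (P.D.rt (P.D.refl b) x) = -dotProduct (P.D.co b) x := by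
  rw [rt_refl hb, dotProduct_sub, dotProduct_smul, P.D.co_self b hb, smul_eq_mul]
  ring

private theorem pt_exp {κ : ℤ} (hκ : 2 ≤ κ) :
    Tendsto (fun s : ℝ => Complex.exp (-(s : ℂ) * κ)) atTop (𝓝 0) := by
  rw [tendsto_zero_iff_norm_tendsto_zero]
  have h1 : (fun s : ℝ => ‖Complex.exp (-(s : ℂ) * κ)‖) = fun s : ℝ => Real.exp (-(s * κ)) := by
    funext s
    rw [Complex.norm_exp]
    congr 1
    have h2 : (-(s : ℂ) * κ) = ((-(s * κ) : ℝ) : ℂ) := by push_cast; ring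
    rw [h2, Complex.ofReal_re]
  rw [h1]
  refine Real.tendsto_exp_neg_atTop_nhds_zero.comp ?_
  refine tendsto_id.atTop_mul_const ?_
  have h3 : (2 : ℝ) ≤ κ := by exact_mod_cast hκ
  linarith

private theorem pt_pr (b : Fin r → ℤ) (y : Fin r → ℂ) (s : ℂ) :
    pr b (fun i => y i * Complex.exp s) = pr b y * Complex.exp s := by
  unfold pr
  rw [Finset.sum_mul]
  exact Finset.sum_congr rfl fun i _ => by ring

private theorem pt_Rne {y : Fin r → ℂ} (hy : P.SG y) :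
    (∀ a ∈ P.D.Φ, pr a y ≠ 0) ∧ ∀ p : P.X, P.Rm y p p ≠ 0 := by
  have hne : ∀ a ∈ P.D.Φ, pr a y ≠ 0 := by
    intro a ha
    have h6 := hy.1 a ha 0
    rwa [Int.cast_zero] at h6
  refine ⟨hne, fun p => ?_⟩
  rw [Rm_diag]
  refine Finset.prod_ne_zero_iff.2 fun a ha => neg_ne_zero.2 (hne _ (P.D.rt_mem.2 (pos_mem ?_)))
  exact (Finset.mem_filter.1 ha).1

include ht

private theorem pt_case {b : Fin r → ℤ} (hb : P.D.IsMax b) {v : P.X}
    (hv : P.D.rt v.1⁻¹ b ∈ P.Pos) {y : Fin r → ℂ} (hy : P.SG y) (s : ℂ) (u : P.X) :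
    (P.Mθ t b (fun i => y i * Complex.exp s) (Complex.exp s) *
      FF n t (P.D.xi (P.D.refl b) (P.D.co b) y) s) u v *
        P.gam t v (P.D.xi (P.D.refl b) (P.D.co b) y) =
      FF n t y s u (P.lm (P.D.refl b) v) * P.gam t (P.lm (P.D.refl b) v) y := by
  have hbΦ := hb.mem
  have hy' := sg_xi hy (P.D.refl b) (P.D.co b)
  obtain ⟨y', hy'd⟩ : ∃ y', y' = P.D.xi (P.D.refl b) (P.D.co b) y := ⟨_, rfl⟩
  obtain ⟨h, hh⟩ := inter_FF n t (inter_Mθ ht hb) hy v
  obtain ⟨κ, hκ⟩ : ∃ κ : ℤ, κ = dotProduct (P.D.co b) (P.D.rt v.1 P.tr) := ⟨_, rfl⟩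
  have hgam := gam_θ ht hb v hv hy
  rw [← hy'd] at hy' hh hgam ⊢
  have hκ2 : 2 ≤ κ := by
    have h1 := two_le_L hv
    unfold L at h1
    rw [co_rt _ hbΦ, inv_inv] at h1
    rw [hκ]
    exact h1
  -- exponents
  have hpr : pr (P.D.rt (P.lm (P.D.refl b) v).1 P.tr) y = pr (P.D.rt v.1 P.tr) y' + κ := by
    rw [hy'd, pr_xi, rt_lm_tr, ← P.D.rt_mul, P.D.rt_mul (P.D.refl b) v.1, pt_dot hbΦ, ← hκ]
    push_cast
    ring
  have hth : P.th (P.lm (P.D.refl b) v) = P.th v - κ + 1 := by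
    unfold th
    have h1 := max_len hb v.1
    rw [if_pos hv, ← hκ] at h1
    rw [len_lm]
    have h2 : ((P.len (P.D.refl b * v.1) : ℤ) : ℂ) = ((P.len v.1 + κ - 1 : ℤ) : ℂ) := by rw [h1]
    push_cast at h2
    rw [h2]
    ring
  -- the entry
  have hent : ∀ s : ℂ, h * FF n t y s (P.lm (P.D.refl b) v) (P.lm (P.D.refl b) v) =
      FF n t y' s (P.lm (P.D.refl b) v) v + Complex.exp s * (1 + pr b y) *
        (qq t (-P.D.co (P.D.rt v.1⁻¹ b)) * FF n t y' s v v) := by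
    intro s
    rw [← hh s (P.lm (P.D.refl b) v)]
    unfold Mθ
    rw [add_mul, one_mul, Matrix.add_apply, Matrix.smul_mul, Matrix.smul_apply, smul_eq_mul]
    congr 1
    have h1 : (P.Aθ b t * FF n t y' s) (P.lm (P.D.refl b) v) v =
        qq t (-P.D.co (P.D.rt v.1⁻¹ b)) * FF n t y' s v v := by
      rw [Matrix.mul_apply, Finset.sum_eq_single v]
      · congr 1
        unfold Aθ
        rw [Matrix.of_apply, if_pos ⟨rfl, hv⟩]
      · intro k _ hk
        unfold Aθ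
        rw [Matrix.of_apply, if_neg, zero_mul]
        rintro ⟨h2, -⟩
        apply hk
        rw [← lm_inv_lm (P.D.refl b) k, ← h2, lm_inv_lm]
      · intro h2
        exact absurd (Finset.mem_univ _) h2
    rw [h1]
    congr 1
    rw [pt_pr]
    ring
  -- the limit
  have hL := (FF_lim n t hy (P.lm (P.D.refl b) v) (P.lm (P.D.refl b) v)).const_mul h
  have hR1 := (pt_exp hκ2).mul (FF_lim n t hy' (P.lm (P.D.refl b) v) v)
  have hR2 := (FF_lim n t hy' v v).const_mul ((1 + pr b y) * qq t (-P.D.co (P.D.rt v.1⁻¹ b)))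
  have hR := hR1.add hR2
  have heq : ∀ s : ℝ, h * (Complex.exp (-s * P.th (P.lm (P.D.refl b) v)) *
      Complex.exp (-s * pr (P.D.rt (P.lm (P.D.refl b) v).1 P.tr) y) *
        FF n t y s (P.lm (P.D.refl b) v) (P.lm (P.D.refl b) v)) =
      Complex.exp (-(s : ℂ) * κ) * (Complex.exp (-s * P.th (P.lm (P.D.refl b) v)) *
        Complex.exp (-s * pr (P.D.rt v.1 P.tr) y') * FF n t y' s (P.lm (P.D.refl b) v) v) +
      (1 + pr b y) * qq t (-P.D.co (P.D.rt v.1⁻¹ b)) * (Complex.exp (-s * P.th v) *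
        Complex.exp (-s * pr (P.D.rt v.1 P.tr) y') * FF n t y' s v v) := by
    intro s
    have e1 : Complex.exp (-(s : ℂ) * pr (P.D.rt (P.lm (P.D.refl b) v).1 P.tr) y) =
        Complex.exp (-(s : ℂ) * κ) * Complex.exp (-s * pr (P.D.rt v.1 P.tr) y') := by
      rw [hpr, ← Complex.exp_add]
      congr 1
      ring
    have e2 : Complex.exp (-(s : ℂ) * P.th (P.lm (P.D.refl b) v)) * Complex.exp (-(s : ℂ) * κ) *
        Complex.exp s = Complex.exp (-s * P.th v) := by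
      rw [hth, ← Complex.exp_add, ← Complex.exp_add]
      congr 1
      ring
    have e3 := hent s
    rw [e1, ← e2]
    linear_combination Complex.exp (-(s : ℂ) * P.th (P.lm (P.D.refl b) v)) *
      (Complex.exp (-(s : ℂ) * κ) * Complex.exp (-s * pr (P.D.rt v.1 P.tr) y')) * e3
  have hlim : h * (P.Rm y)⁻¹ (P.lm (P.D.refl b) v) (P.lm (P.D.refl b) v) =
      (1 + pr b y) * qq t (-P.D.co (P.D.rt v.1⁻¹ b)) * (P.Rm y')⁻¹ v v := by
    have h1 := tendsto_nhds_unique (hL.congr heq) hR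
    rw [h1, zero_mul, zero_add]
  rw [Rm_inv_diag (pt_Rne hy).1, Rm_inv_diag (pt_Rne hy').1] at hlim
  have h1 := (pt_Rne hy).2 (P.lm (P.D.refl b) v)
  have h2 := (pt_Rne hy').2 v
  have h3 : h * P.Rm y' v v = (1 + pr b y) * qq t (-P.D.co (P.D.rt v.1⁻¹ b)) *
      P.Rm y (P.lm (P.D.refl b) v) (P.lm (P.D.refl b) v) := by
    field_simp at hlim
    linear_combination hlim
  have h4 : h * P.gam t v y' = P.gam t (P.lm (P.D.refl b) v) y := by
    apply mul_left_cancel₀ h2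
    rw [← hgam]
    linear_combination P.gam t v y' * h3
  rw [hh s u, ← h4]
  ring

private theorem pt_levi {b : Fin r → ℤ} (hb : P.D.IsMax b) {v : P.X}
    (hv : P.Levi (P.D.rt v.1⁻¹ b)) {y : Fin r → ℂ} (hy : P.SG y) (s : ℂ) (u : P.X) :
    (P.Mθ t b (fun i => y i * Complex.exp s) (Complex.exp s) *
      FF n t (P.D.xi (P.D.refl b) (P.D.co b) y) s) u v *
        P.gam t v (P.D.xi (P.D.refl b) (P.D.co b) y) =
      FF n t y s u (P.lm (P.D.refl b) v) * P.gam t (P.lm (P.D.refl b) v) y := by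
  have hbΦ := hb.mem
  have hy' := sg_xi hy (P.D.refl b) (P.D.co b)
  obtain ⟨y', hy'd⟩ : ∃ y', y' = P.D.xi (P.D.refl b) (P.D.co b) y := ⟨_, rfl⟩
  obtain ⟨h, hh⟩ := inter_FF n t (inter_Mθ ht hb) hy v
  have hgam := gam_levi ht hb v hv hy
  rw [← hy'd] at hy' hh hgam ⊢
  have hlm : P.lm (P.D.refl b) v = v := by
    have h1 : P.D.refl b * v.1 = v.1 * P.D.refl (P.D.rt v.1⁻¹ b) := by
      have h2 := refl_rt v.1 hv.1
      rw [P.D.rt_rt_inv] at h2
      rw [h2]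
      group
    show P.fl (P.D.refl b * v.1) = v
    rw [h1, fl_mul _ (refl_mem hv), fl_val]
  rw [hlm] at hh ⊢
  have hκ : dotProduct (P.D.co b) (P.D.rt v.1 P.tr) = 0 := by
    have h1 := L_levi hv
    unfold L at h1
    rw [co_rt _ hbΦ, inv_inv] at h1
    exact h1
  have hpr : pr (P.D.rt v.1 P.tr) y = pr (P.D.rt v.1 P.tr) y' := by
    rw [hy'd, pr_xi, pt_dot hbΦ, hκ, neg_zero, Int.cast_zero, add_zero]
    congr 1
    rw [rt_refl hbΦ, hκ, zero_smul, sub_zero]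
  have hent : ∀ s : ℂ, h * FF n t y s v v = FF n t y' s v v := by
    intro s
    rw [← hh s v]
    unfold Mθ
    rw [add_mul, one_mul, Matrix.add_apply, Matrix.smul_mul, Matrix.smul_apply, smul_eq_mul]
    have h1 : (P.Aθ b t * FF n t y' s) v v = 0 := by
      rw [Matrix.mul_apply]
      refine Finset.sum_eq_zero fun k _ => ?_
      unfold Aθ
      rw [Matrix.of_apply, if_neg, zero_mul]
      rintro ⟨h2, h3⟩
      have h4 : k = v := by
        rw [← lm_inv_lm (P.D.refl b) k, ← h2]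
        conv_rhs => rw [← lm_inv_lm (P.D.refl b) v, hlm]
      rw [h4] at h3
      exact (mem_Pos.1 h3).2 hv
    rw [h1, mul_zero, add_zero]
  have hL := (FF_lim n t hy v v).const_mul h
  have hR := FF_lim n t hy' v v
  have heq : ∀ s : ℝ, h * (Complex.exp (-s * P.th v) *
      Complex.exp (-s * pr (P.D.rt v.1 P.tr) y) * FF n t y s v v) =
      Complex.exp (-s * P.th v) * Complex.exp (-s * pr (P.D.rt v.1 P.tr) y') *
        FF n t y' s v v := by
    intro s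
    rw [hpr, ← hent s]
    ring
  have hlim : h * (P.Rm y)⁻¹ v v = (P.Rm y')⁻¹ v v :=
    tendsto_nhds_unique (hL.congr heq) hR
  rw [Rm_inv_diag (pt_Rne hy).1, Rm_inv_diag (pt_Rne hy').1] at hlim
  have h1 := (pt_Rne hy).2 v
  have h2 := (pt_Rne hy').2 v
  have h3 : h * P.Rm y' v v = P.Rm y v v := by
    field_simp at hlim
    linear_combination hlim
  have h4 : h * P.gam t v y' = P.gam t v y := by
    apply mul_left_cancel₀ h2
    rw [← hgam]
    linear_combination P.gam t v y' * h3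
  rw [hh s u, ← h4]
  ring

theorem goodP_θ {b : Fin r → ℤ} (hb : P.D.IsMax b) : GoodP n t (P.D.refl b) (P.D.co b) := by
  have hbΦ := hb.mem
  refine ⟨P.Mθ t b, fun u v => pt_cd t b u v, fun y z => pt_det t hbΦ y z, inter_Mθ ht hb,
    fun y hy s u v => ?_⟩
  rcases cases (P := P) (P.D.rt_mem.2 hbΦ : P.D.rt v.1⁻¹ b ∈ P.D.Φ) with hv | hv | hv
  · exact pt_levi n ht hb hv hy s u
  · exact pt_case n ht hb hv hy s u
  · have hv' : P.D.rt (P.lm (P.D.refl b) v).1⁻¹ b ∈ P.Pos := by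
      obtain ⟨x, hx, h1⟩ := pt_flag hbΦ v
      rw [h1, ← P.D.rt_neg]
      exact wj_pos hx hv
    have hy' := sg_xi hy (P.D.refl b) (P.D.co b)
    have h1 := fun k => pt_case n ht hb hv' hy' s k
    rw [pt_xi_xi hbΦ, ← lm_mul, refl_mul_self hbΦ, lm_one] at h1
    have h2 : P.Mθ t b (fun i => y i * Complex.exp s) (Complex.exp s) *
        P.Mθ t b (fun i => P.D.xi (P.D.refl b) (P.D.co b) y i * Complex.exp s) (Complex.exp s) = 1 := by
      refine pt_mul t hbΦ ?_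
      rw [pt_pr, pt_pr, pr_xi, rt_refl_self hbΦ, dotProduct_neg, P.D.co_self b hbΦ]
      have h4 : pr (-b) y = -pr b y := by
        simp [pr]
      rw [h4]
      push_cast
      ring
    have h3 : (P.Mθ t b (fun i => y i * Complex.exp s) (Complex.exp s) *
        FF n t (P.D.xi (P.D.refl b) (P.D.co b) y) s) u v *
          P.gam t v (P.D.xi (P.D.refl b) (P.D.co b) y) =
        (P.Mθ t b (fun i => y i * Complex.exp s) (Complex.exp s) *
          (P.Mθ t b (fun i => P.D.xi (P.D.refl b) (P.D.co b) y i * Complex.exp s)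
            (Complex.exp s) * FF n t y s)) u (P.lm (P.D.refl b) v) *
              P.gam t (P.lm (P.D.refl b) v) y := by
      rw [Matrix.mul_apply, Matrix.mul_apply (M := P.Mθ t b (fun i => y i * Complex.exp s) (Complex.exp s)), Finset.sum_mul, Finset.sum_mul]
      refine Finset.sum_congr rfl fun k _ => ?_
      rw [mul_assoc, mul_assoc, h1 k]
    rw [h3, ← Matrix.mul_assoc, h2, Matrix.one_mul]

end Pool.Agent.FLG.Par
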