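import Pool.Agent.FLB.Phi
import Pool.Agent.FLB.PhiT
import Pool.Agent.FLG.P.Fro
import Mathlib.RingTheory.Nullstellensatz

/-!
# FLB-Shp: the shift operators of `G/P` are polynomial in `λ, z`, and intertwine

The operators `S` of `toFro` are the polynomial matrices of `GoodP`.
-/

set_option autoImplicit false

open scoped BigOperators Topology
open Filter
open Pool.Agent.DST.TE Pool.Agent.DSTJ Pool.Agent.DSTJ.Spec

namespace Pool.Agent.FLG.Par

open RS

variable {r : ℕ} {P : Par r} {N : ℕ} (n : P.Num N) {t : Fin r → ℂ} (ht : P.Inv t)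

/-- a polynomial without zeros is constant -/
theorem isUnit_of_eval_ne {σ : Type} [Finite σ] (p : MvPolynomial σ ℂ)
    (h : ∀ x, MvPolynomial.eval x p ≠ 0) : IsUnit p := by
  have h1 := MvPolynomial.vanishingIdeal_zeroLocus_eq_radical (K := ℂ) (Ideal.span {p})
  have h2 : MvPolynomial.zeroLocus ℂ (Ideal.span {p}) = ∅ := by
    rw [Set.eq_empty_iff_forall_notMem]
    intro x hx
    have h3 := (MvPolynomial.mem_zeroLocus_iff.1 hx) p (Ideal.mem_span_singleton_self p)
    exact h x h3
  rw [h2, MvPolynomial.vanishingIdeal_empty] at h1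
  exact Ideal.span_singleton_eq_top.1 (Ideal.radical_eq_top.1 h1.symm)

private theorem xi_one (μ : Fin r → ℤ) (y : Fin r → ℂ) : P.D.xi 1 (-μ) y = y - cc μ := by
  unfold xi
  rw [inv_one, P.D.yt_one]
  funext i
  simp [cc, sub_eq_add_neg]

private theorem J0_FF {y : Fin r → ℂ} (hy : P.SG y) (G : (Fin r → ℂ) → Matrix (Fin N) (Fin N) ℂ)
    (s : ℂ) : (toBase n t).J0 G y s =
      (FF n t y s).submatrix n.e n.e * ((toBase n t).R y * G y) := by
  have hR : ((toBase n t).R y).det ≠ 0 :=
    base_R_det n y fun a h => hy.1 a.1 a.2 0 (by rw [h]; simp)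
  rw [(toBase n t).J0_EE hR, ← Matrix.mul_assoc]
  congr 1
  ext i j
  simp [FF]

include ht

theorem goodP_all (ν : Fin r → ℤ) : GoodP n t 1 ν :=
  generation (fun w ν => GoodP n t w ν) (goodP_one n t)
    (fun _ _ _ _ h h' => goodP_mul n t h h') (goodP_s n ht) (fun _ h => goodP_θ n ht h)
    (fun _ _ h => goodP_τ n ht h) ν

omit ht in
private theorem ev_sub_cc (μ : Fin r → ℤ) (y : Fin r → ℂ) (f : RH r) :
    evK (y - cc μ) f = evK y f := by
  rw [← evK_add_int μ y (-1) f]
  congr 2
  funext i
  simp only [Pi.sub_apply, cc]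
  push_cast
  ring

/-- the operators `S` of `toFro` are those of `GoodP` -/
private theorem eq_S (K : P.KD t) {μ : Fin r → ℤ} {M : (Fin r → ℂ) → ℂ → Matrix P.X P.X ℂ}
    (hM1 : ∀ u v, IsPoly fun y z => M y z u v)
    (hM3 : ∀ y, P.SG y → ∀ s u v, (M (fun i => y i * Complex.exp s) (Complex.exp s) *
      FF n t (P.D.xi 1 (-μ) y) s) u v * P.gam t v (P.D.xi 1 (-μ) y) =
        FF n t y s u (P.lm 1 v) * P.gam t (P.lm 1 v) y) (y : Fin r → ℂ) (w : ℂ) :
    (M (fun i => y i * Complex.exp w) (Complex.exp w)).submatrix n.e n.e =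
      (toFro n ht K).S μ y w := by
  have hSG : ∀ y, P.SG y → (M (fun i => y i * Complex.exp w) (Complex.exp w)).submatrix n.e n.e =
      (toFro n ht K).S μ y w := by
    intro y hy
    have hy' : P.SG (y - cc μ) := by
      rw [← xi_one]
      exact sg_xi hy _ _
    have hw := sg_w1 n t hy
    have hw' := sg_w1 n t hy'
    have h1 := (toFro n ht K).shift μ y hw (sg_nr n t hy) (sg_nr n t hy') w
    have hB : (toFro n ht K).B (y - cc μ) = (toFro n ht K).B y := by
      ext p i
      exact ev_sub_cc μ y _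
    have h2 : (toBase n t).J0 (toFro n ht K).G y w =
        (M (fun i => y i * Complex.exp w) (Complex.exp w)).submatrix n.e n.e *
          (toBase n t).J0 (toFro n ht K).G (y - cc μ) w := by
      rw [J0_FF n hy, J0_FF n hy']
      have e1 : (toBase n t).R y * (toFro n ht K).G y =
          Matrix.diagonal (fun p => P.gam t (n.e p) y) * (toFro n ht K).B y :=
        (toFro n ht K).RG y hw
      have e2 : (toBase n t).R (y - cc μ) * (toFro n ht K).G (y - cc μ) =
          Matrix.diagonal (fun p => P.gam t (n.e p) (y - cc μ)) * (toFro n ht K).B y := by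
        rw [← hB]
        exact (toFro n ht K).RG _ hw'
      rw [e1, e2, ← Matrix.mul_assoc, ← Matrix.mul_assoc, ← Matrix.mul_assoc]
      congr 1
      ext i p
      rw [Matrix.mul_diagonal, Matrix.mul_diagonal, Matrix.submatrix_apply,
        Matrix.submatrix_mul_equiv, Matrix.submatrix_apply]
      have h1 := hM3 y hy w (n.e i) (n.e p)
      rw [lm_one, xi_one] at h1
      exact h1.symm
    have h3 : ((toBase n t).J0 (toFro n ht K).G (y - cc μ) w).det ≠ 0 := by
      rw [J0_FF n hy', Matrix.det_mul]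
      refine mul_ne_zero ?_ ?_
      · rw [Matrix.det_submatrix_equiv_self]
        exact FF_det n t hy' w
      · have e2 : (toBase n t).R (y - cc μ) * (toFro n ht K).G (y - cc μ) =
            Matrix.diagonal (fun p => P.gam t (n.e p) (y - cc μ)) *
              (toFro n ht K).B (y - cc μ) := (toFro n ht K).RG _ hw'
        rw [e2, Matrix.det_mul, Matrix.det_diagonal]
        exact mul_ne_zero (Finset.prod_ne_zero_iff.2 fun p _ => gam_ne t _ hy')
          ((toFro n ht K).B_det _ hw')
    have h4 : (toFro n ht K).S μ y w * (toBase n t).J0 (toFro n ht K).G (y - cc μ) w =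
        (M (fun i => y i * Complex.exp w) (Complex.exp w)).submatrix n.e n.e *
          (toBase n t).J0 (toFro n ht K).G (y - cc μ) w := by
      rw [← h2]
      exact h1.symm
    have hu : IsUnit ((toBase n t).J0 (toFro n ht K).G (y - cc μ) w) :=
      (Matrix.isUnit_iff_isUnit_det _).2 (isUnit_iff_ne_zero.2 h3)
    exact (hu.mul_right_cancel h4).symm
  ext i j
  have hc1 : Continuous fun y : Fin r → ℂ =>
      (M (fun i => y i * Complex.exp w) (Complex.exp w)).submatrix n.e n.e i j :=
    (hM1 (n.e i) (n.e j)).contDiff.continuous.comp (f := fun y : Fin r → ℂ =>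
      ((fun i => y i * Complex.exp w, Complex.exp w) : (Fin r → ℂ) × ℂ)) (by fun_prop)
  have hc2 : Continuous fun y : Fin r → ℂ => (toFro n ht K).S μ y w i j :=
    ((toFro n ht K).S_hol μ i j).continuous.comp (f := fun y : Fin r → ℂ => (y, w)) (by fun_prop)
  have hd : Dense {y : Fin r → ℂ | P.SG y} := dense_SG P
  exact congrFun (Continuous.ext_on hd hc1 hc2 fun y hy => by rw [hSG y hy]) y

theorem shift_poly (K : P.KD t) (μ : Fin r → ℤ) :
    ∃ S : Matrix (Fin N) (Fin N) (MvPolynomial (Option (Fin r)) ℂ), IsUnit S.det ∧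
      ∀ (y : Fin r → ℂ) (w : ℂ), S.map (MvPolynomial.eval fun o =>
        o.elim (Complex.exp w) fun k => y k * Complex.exp w) = (toFro n ht K).S μ y w := by
  obtain ⟨M, hM1, hM2, hM4, hM3⟩ := goodP_all n ht (-μ)
  choose p hp using hM1
  refine ⟨Matrix.of fun i j => p (n.e i) (n.e j), ?_, fun y w => ?_⟩
  · refine isUnit_of_eval_ne _ fun x => ?_
    have h1 := hM2 (fun i => x (some i)) (x none)
    have h2 : x = pz (fun i => x (some i)) (x none) := by
      funext o
      cases o <;> rfl
    rw [RingHom.map_det, h2, ← Matrix.det_submatrix_equiv_self n.e.symm]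
    refine ne_of_eq_of_ne ?_ h1
    congr 1
    ext u v
    refine Eq.trans ?_ (hp u v _ _).symm
    simp only [Matrix.submatrix_apply, RingHom.mapMatrix_apply, Matrix.map_apply, Matrix.of_apply,
      Equiv.apply_symm_apply]
  · rw [← eq_S n ht K (fun u v => ⟨p u v, hp u v⟩) hM3 y w]
    ext i j
    exact (hp (n.e i) (n.e j) _ _).symm

theorem shift_ode (K : P.KD t) (μ : Fin r → ℤ) (y : Fin r → ℂ) (w : ℂ) (i j : Fin N) :
    HasDerivAt (fun w => (toFro n ht K).S μ y w i j)
      (((Matrix.diagonal (toBase n t).θ - Complex.exp (-w) •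
          (P.Cq P.ctr t (fun k => y k * Complex.exp w)).submatrix n.e n.e) *
        (toFro n ht K).S μ y w - (toFro n ht K).S μ y w *
        (Matrix.diagonal (toBase n t).θ - Complex.exp (-w) •
          (P.Cq P.ctr t (fun k => (y k - μ k) * Complex.exp w)).submatrix n.e n.e)) i j) w := by
  obtain ⟨M, hM1, hM2, hM4, hM3⟩ := goodP_all n ht (-μ)
  have h0 := fun w => eq_S n ht K hM1 hM3 y w
  have h1 := hM4 y w (n.e i) (n.e j)
  have h2 : (fun w => (toFro n ht K).S μ y w i j) = fun w =>
      M (fun i => y i * Complex.exp w) (Complex.exp w) (n.e i) (n.e j) := by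
    funext w
    rw [← h0 w]
    rfl
  rw [h2]
  refine h1.congr_deriv ?_
  have h3 : (fun k => P.D.xi 1 (-μ) y k * Complex.exp w) =
      fun k => (y k - μ k) * Complex.exp w := by
    funext k
    rw [xi_one]
    rfl
  have h4 : ∀ h : Fin r → ℂ, Matrix.diagonal (toBase n t).θ - Complex.exp (-w) •
      (P.Cq P.ctr t h).submatrix n.e n.e =
      (Matrix.diagonal P.th - Complex.exp (-w) • P.Cq P.ctr t h).submatrix n.e n.e := by
    intro h
    ext a b
    simp only [Matrix.sub_apply, Matrix.smul_apply, Matrix.submatrix_apply, Matrix.diagonal_apply,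
      n.e.apply_eq_iff_eq]
    rfl
  rw [h3, h4, h4, ← h0 w, Matrix.submatrix_mul_equiv, Matrix.submatrix_mul_equiv]
  rfl

end Pool.Agent.FLG.Par
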