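import Pool.Agent.FLB.Shp
import Pool.Agent.FLB.Chern
import Pool.Agent.DSTJ.SpecF

/-!
# FLB-Shx: the shift operator of `ξ` over `ℂ[λ][z]` in the theory of `G/P`

The operator `S₀` of `shift_poly n ht K n.ξ`, a matrix over `ℂ[λ_1, …, λ_r, z]`, is restricted to the line
`λ_k = ξ_k λ` (`spz`, `evm₂_spz`, `isUnit_spz` in Pool/Agent/DSTJ/SpecF.lean) and reindexed by
`sg = ε.trans n.e.symm`. The differential equation is `shift_ode` at `y ξ`, where `y ξ - ξ = (y - 1) ξ`,
with `theta_eq` and `chernT_eq`.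
-/

set_option autoImplicit false

open scoped BigOperators Topology
open Filter

namespace Pool.Agent.FLG.Par

open RS Pool.Agent.DST.TE
open Pool.Agent.Helper18.Dub Pool.Agent.Helper7.DubStokes Pool.Agent.SHF Pool.Agent.DST
open Pool.Agent.FLB

variable {r N : ℕ} {P : Par r} {n : P.Num N} {ε : Fin N ≃ P.X} {X : FanoGW (Fin N)}
  (G : P.GW n ε X) {t : Fin r → ℂ} (ht : P.Inv t) (K : P.KD t)

/-- from the numbering `ε` to the numbering `n.e` -/
def sg (n : P.Num N) (ε : Fin N ≃ P.X) : Fin N ≃ Fin N := ε.trans n.e.symm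

include G in
theorem exists_Sx : ∃ S : Matrix (Fin N) (Fin N) (Polynomial (Polynomial ℂ)), IsUnit S.det ∧
    (∀ y w : ℂ, evm₂ S (y * Complex.exp w) (Complex.exp w) =
      ((toFro n ht K).S n.ξ (fun k => y * (n.ξ k : ℂ)) w).submatrix (sg n ε) (sg n ε)) ∧
    ∀ (y w : ℂ) (i j : Fin N),
      HasDerivAt (fun w => evm₂ S (y * Complex.exp w) (Complex.exp w) i j)
        (((theta X - Complex.exp (-w) • evm (chernT G.toEquivData (P.cl ε t) (P.kap1 n.ξ))
              (y * Complex.exp w)) *
            evm₂ S (y * Complex.exp w) (Complex.exp w) -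
          evm₂ S (y * Complex.exp w) (Complex.exp w) *
            (theta X - Complex.exp (-w) • evm (chernT G.toEquivData (P.cl ε t) (P.kap1 n.ξ))
              ((y - 1) * Complex.exp w))) i j) w := by
  obtain ⟨S₀, hU, hS⟩ := shift_poly n ht K n.ξ
  have hev : ∀ y w : ℂ, evm₂ ((S₀.map (Pool.Agent.DSTJ.Spec.spz n.ξ)).submatrix (sg n ε) (sg n ε))
      (y * Complex.exp w) (Complex.exp w) =
      ((toFro n ht K).S n.ξ (fun k => y * (n.ξ k : ℂ)) w).submatrix (sg n ε) (sg n ε) := by
    intro y w
    rw [← hS]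
    have h1 := Pool.Agent.DSTJ.Spec.evm₂_spz n.ξ S₀ (y * Complex.exp w) (Complex.exp w)
    have h2 : (fun o : Option (Fin r) =>
        o.elim (Complex.exp w) fun k => (y * Complex.exp w) * (n.ξ k : ℂ)) =
        fun o : Option (Fin r) =>
          o.elim (Complex.exp w) fun k => (y * (n.ξ k : ℂ)) * Complex.exp w := by
      funext o
      cases o with
      | none => rfl
      | some k =>
        simp only [Option.elim_some]
        ring
    rw [h2] at h1
    rw [← h1]
    rfl
  refine ⟨(S₀.map (Pool.Agent.DSTJ.Spec.spz n.ξ)).submatrix (sg n ε) (sg n ε), ?_, hev, ?_⟩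
  · rw [Matrix.det_submatrix_equiv_self]
    exact Pool.Agent.DSTJ.Spec.isUnit_spz n.ξ hU
  · intro y w i j
    have h1 := shift_ode n ht K n.ξ (fun k => y * (n.ξ k : ℂ)) w (sg n ε i) (sg n ε j)
    have h2 : (fun w => evm₂ ((S₀.map (Pool.Agent.DSTJ.Spec.spz n.ξ)).submatrix (sg n ε) (sg n ε))
        (y * Complex.exp w) (Complex.exp w) i j) = fun w =>
        (toFro n ht K).S n.ξ (fun k => y * (n.ξ k : ℂ)) w (sg n ε i) (sg n ε j) := by
      funext w
      rw [hev y w]
      rfl
    rw [h2]
    refine h1.congr_deriv ?_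
    have e1 : (fun k => y * (n.ξ k : ℂ) * Complex.exp w) = ln0 n (y * Complex.exp w) := by
      funext k
      simp only [ln0]
      ring
    have e2 : (fun k => (y * (n.ξ k : ℂ) - (n.ξ k : ℂ)) * Complex.exp w) =
        ln0 n ((y - 1) * Complex.exp w) := by
      funext k
      simp only [ln0]
      ring
    have e3 : ∀ z : ℂ, theta X - Complex.exp (-w) •
        evm (chernT G.toEquivData (P.cl ε t) (P.kap1 n.ξ)) z =
        (Matrix.diagonal (toBase n t).θ - Complex.exp (-w) •
          (P.Cq P.ctr t (ln0 n z)).submatrix n.e n.e).submatrix (sg n ε) (sg n ε) := by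
      intro z
      rw [theta_eq G, chernT_eq G ht]
      have e4 : ∀ a, n.e (sg n ε a) = ε a := fun a => n.e.apply_symm_apply _
      ext a b
      simp only [Matrix.sub_apply, Matrix.smul_apply, Matrix.submatrix_apply, e4,
        Matrix.diagonal_apply, (sg n ε).apply_eq_iff_eq, ε.apply_eq_iff_eq]
      by_cases hab : a = b
      · subst hab
        rw [if_pos rfl, if_pos rfl]
        congr 1
        exact (congrArg P.th (e4 a)).symm
      · rw [if_neg hab, if_neg hab]
    rw [e3, e3, hev y w, Matrix.submatrix_mul_equiv, Matrix.submatrix_mul_equiv]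
    simp only [e1, e2, Matrix.sub_apply, Matrix.submatrix_apply]

end Pool.Agent.FLG.Par
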