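import Pool.Agent.FLB.Frm
import Pool.Agent.FLB.Der

/-!
# FLB-Star: homogeneity of a flat section

PLAN. Put `W = ell S - (S Deg - Deg S - κ S) z`, that is `W_{ij} = ell (S_{ij}) - (D_j - D_i - κ) z S_{ij}`.
`hS` and the homogeneity of `P_a`, `Q_a` give `∂_a W = P_a W - W Q_a` for all `a` and `W(0) = 0` is `h₀`; so
`W = 0` by `flat_unique`. Computation (`ℓ = ell`, `Deg = diag D`; `[∂_a, ℓ] = - d_a z ∂_a` is `pderiv_ell`):
`∂_a ℓ S = ℓ ∂_a S - d_a z ∂_a S`, `ℓ (P_a S - S Q_a) = z (d_a P_a + P_a Deg - Deg P_a) S + P_a ℓ S - ℓ S Q_a -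
S z (d_a Q_a + Q_a Deg - Deg Q_a)`; the terms with `d_a` cancel, and the remaining ones are
`P_a W - W Q_a - ∂_a (…)` by expanding. The constant coefficient of `ell (S_{ij})` is
`z δ(S₀) + ∑ c_a (∂_a S)(0)` (`coeff_ell` at `m = 0`), `(∂_a S)(0) = P_a(0) S₀ - S₀ Q_a(0)`.
-/

set_option autoImplicit false

open scoped BigOperators

namespace Pool.Agent.FLB

variable {n σ : Type} [Fintype n] [DecidableEq n] [Fintype σ] [DecidableEq σ]
  {R : Type} [CommRing R] [Algebra ℂ R]

theorem star (z : R) (δ : Derivation ℂ R R) (d c : σ → ℂ) (D : n → ℂ) (κ : ℂ)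
    (P Q : σ → Matrix n n (MvPowerSeries σ R))
    (hP : ∀ a i j, ell z δ d c (P a i j) =
      (d a + D j - D i) • (MvPowerSeries.C z * P a i j))
    (hQ : ∀ a i j, ell z δ d c (Q a i j) =
      (d a + D j - D i) • (MvPowerSeries.C z * Q a i j))
    (S : Matrix n n (MvPowerSeries σ R))
    (hS : ∀ a, S.map (MvPowerSeries.pderiv R a) = P a * S - S * Q a)
    (h₀ : ∀ i j, z * δ (MvPowerSeries.constantCoeff (S i j)) +
      ∑ a, c a • MvPowerSeries.constantCoeff ((P a * S - S * Q a) i j) =
        (D j - D i - κ) • (z * MvPowerSeries.constantCoeff (S i j))) (i j : n) :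
    ell z δ d c (S i j) = (D j - D i - κ) • (MvPowerSeries.C z * S i j) := by
  classical
  obtain ⟨W, hW⟩ : ∃ W : Matrix n n (MvPowerSeries σ R), ∀ i j, W i j =
      ell z δ d c (S i j) - (D j - D i - κ) • (MvPowerSeries.C z * S i j) :=
    ⟨fun i j => ell z δ d c (S i j) - (D j - D i - κ) • (MvPowerSeries.C z * S i j),
      fun i j => rfl⟩
  have hSij : ∀ a i j, MvPowerSeries.pderiv R a (S i j) =
      ∑ k, (P a i k * S k j - S i k * Q a k j) := by
    intro a i j
    have h1 := congrFun (congrFun (hS a) i) j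
    rw [Matrix.map_apply] at h1
    rw [h1, Matrix.sub_apply, Matrix.mul_apply, Matrix.mul_apply, Finset.sum_sub_distrib]
  have hpd : ∀ (a : σ) (w : ℂ) (f : MvPowerSeries σ R),
      MvPowerSeries.pderiv R a (w • f) = w • MvPowerSeries.pderiv R a f := by
    intro a w f
    rw [← algebraMap_smul R w f, Derivation.map_smul, algebraMap_smul]
  have hflat : ∀ a, W.map (MvPowerSeries.pderiv R a) = P a * W - W * Q a := by
    intro a
    ext1 i j
    rw [Matrix.map_apply, Matrix.sub_apply, Matrix.mul_apply, Matrix.mul_apply,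
      ← Finset.sum_sub_distrib, hW, map_sub, pderiv_ell, hpd, Derivation.leibniz,
      MvPowerSeries.pderiv_C, smul_zero, add_zero, smul_eq_mul, hSij, ell_sum, Finset.mul_sum,
      Finset.smul_sum, Finset.smul_sum, ← Finset.sum_sub_distrib, ← Finset.sum_sub_distrib]
    refine Finset.sum_congr rfl fun k _ => ?_
    rw [ell_sub, ell_mul, ell_mul, hP, hQ, hW, hW]
    simp only [Algebra.smul_def, map_sub, map_add]
    ring
  have h0 : ∀ i j, MvPowerSeries.constantCoeff (W i j) = 0 := by
    intro i j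
    have h1 : MvPowerSeries.constantCoeff (ell z δ d c (S i j)) =
        z * δ (MvPowerSeries.constantCoeff (S i j)) +
          ∑ a, c a • MvPowerSeries.constantCoeff ((P a * S - S * Q a) i j) := by
      rw [← MvPowerSeries.coeff_zero_eq_constantCoeff_apply, coeff_ell]
      have h2 : (∑ a, (((0 : σ →₀ ℕ) a : ℕ) : ℂ) * d a) = 0 :=
        Finset.sum_eq_zero fun a _ => by
          rw [Finsupp.coe_zero, Pi.zero_apply, Nat.cast_zero, zero_mul]
      rw [h2, zero_smul, sub_zero, MvPowerSeries.coeff_zero_eq_constantCoeff_apply]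
      congr 1
      refine Finset.sum_congr rfl fun a _ => ?_
      rw [MvPowerSeries.coeff_zero_eq_constantCoeff_apply]
      have h3 := congrFun (congrFun (hS a) i) j
      rw [Matrix.map_apply] at h3
      rw [h3]
    have h4 : MvPowerSeries.constantCoeff ((D j - D i - κ) • (MvPowerSeries.C z * S i j)) =
        (D j - D i - κ) • (z * MvPowerSeries.constantCoeff (S i j)) := by
      rw [← algebraMap_smul R (D j - D i - κ) (MvPowerSeries.C z * S i j),
        MvPowerSeries.constantCoeff_smul, map_mul, MvPowerSeries.constantCoeff_C, algebraMap_smul]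
    rw [hW, map_sub, h1, h4, h₀, sub_self]
  have h5 := congrFun (congrFun (flat_unique P Q W hflat h0) i) j
  rw [hW] at h5
  exact sub_eq_zero.1 h5

end Pool.Agent.FLB
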