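import Pool.Agent.FLG.PK.Cls
import Pool.Agent.FLG.PK.Ev
import Pool.Agent.FLG.PK.Gam

/-!
# FLB-TodA: the equivariant Todd class of `G/P`

`td x = x / (1 - e^{-x})`, `td 0 = 1`; `tdc p y = ∏_{a ∈ Pos} td(-2πi (p a)(y))`.
PLAN. `td_diff`: `(1 - e^{-x})/x` extends to an entire function (`dslope`, or `AnalyticAt` of the quotient) with
value `1` at `0`, nonzero near `0`; `td_mul`: `td x (1 - e^{-x}) = x` (for `x = 0` too); `td_neg`:
`td (-x) = e^{-x} td x` (all `x` with `e^x ≠ 1` or `x = 0`; in the other cases both sides are `0`, `x / 0 = 0`).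
`gh_td`: like `gh_gg` in Pool/Agent/FLG/PK/Cls.lean (K/Gh.lean); wall: `(s_b p a)(y) = (p a)(y)` if `b(y) = 0`.
`ri_td`: the Levi Weyl group permutes `P.Pos` (`prod_Pos`), as `ri_gg`.
-/

set_option autoImplicit false

open scoped BigOperators Topology
open Filter
open Pool.Agent.DST.TE Pool.Agent.DSTJ.Spec

namespace Pool.Agent.FLG.Par

open RS

variable {r : ℕ} {P : Par r}

/-- `x / (1 - e^{-x})` -/
noncomputable def td (x : ℂ) : ℂ := if x = 0 then 1 else x / (1 - Complex.exp (-x))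

theorem td_diff : ∀ᶠ x in 𝓝 (0 : ℂ), DifferentiableAt ℂ td x := by
  set f : ℂ → ℂ := fun x => 1 - Complex.exp (-x) with hf
  have hfd : Differentiable ℂ f := by
    rw [hf]
    fun_prop
  have hf0 : f 0 = 0 := by
    show 1 - Complex.exp (-0) = 0
    rw [neg_zero, Complex.exp_zero, sub_self]
  have hgd : Differentiable ℂ (dslope f 0) := by
    rw [← differentiableOn_univ, Complex.differentiableOn_dslope Filter.univ_mem]
    exact hfd.differentiableOn
  have h0 : dslope f 0 0 = 1 := by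
    rw [dslope_same]
    have h1 : HasDerivAt f (0 - Complex.exp (-0) * -1) 0 :=
      (hasDerivAt_const (0 : ℂ) (1 : ℂ)).sub (hasDerivAt_neg (0 : ℂ)).cexp
    rw [h1.deriv, neg_zero, Complex.exp_zero]
    ring
  have h1 : td = fun x => (dslope f 0 x)⁻¹ := by
    funext x
    by_cases hx : x = 0
    · rw [hx, h0, inv_one]
      unfold td
      rw [if_pos rfl]
    · unfold td
      rw [if_neg hx, dslope_of_ne _ hx, slope_def_field, hf0, sub_zero, sub_zero, inv_div]
  have h2 : ∀ᶠ x in 𝓝 (0 : ℂ), dslope f 0 x ≠ 0 :=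
    hgd.continuous.continuousAt.eventually_ne (by rw [h0]; exact one_ne_zero)
  filter_upwards [h2] with x hx
  rw [h1]
  exact (hgd x).inv hx

theorem td_zero : td 0 = 1 := by
  unfold td
  rw [if_pos rfl]

theorem td_mul {x : ℂ} (hx : ∀ n : ℤ, n ≠ 0 → x ≠ 2 * Real.pi * Complex.I * n) :
    td x * (1 - Complex.exp (-x)) = x := by
  by_cases h0 : x = 0
  · rw [h0, neg_zero, Complex.exp_zero, sub_self, mul_zero]
  · unfold td
    rw [if_neg h0]
    refine div_mul_cancel₀ _ fun h => ?_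
    have h1 : Complex.exp (-x) = 1 := (sub_eq_zero.1 h).symm
    obtain ⟨n, hn⟩ := Complex.exp_eq_one_iff.1 h1
    refine hx (-n) (fun hn0 => h0 ?_) ?_
    · have h2 : n = 0 := by omega
      rw [h2, Int.cast_zero, zero_mul] at hn
      exact neg_eq_zero.1 hn
    · push_cast
      linear_combination (-1 : ℂ) * hn

theorem td_neg (x : ℂ) : td (-x) = Complex.exp (-x) * td x := by
  by_cases h0 : x = 0
  · rw [h0, neg_zero, Complex.exp_zero, one_mul]
  · unfold td
    rw [if_neg h0, if_neg (neg_ne_zero.2 h0), neg_neg]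
    have h1 : Complex.exp (-x) * Complex.exp x = 1 := by
      rw [← Complex.exp_add, neg_add_cancel, Complex.exp_zero]
    by_cases h2 : 1 - Complex.exp x = 0
    · have h3 : Complex.exp x = 1 := (sub_eq_zero.1 h2).symm
      have h4 : Complex.exp (-x) = 1 := by
        rw [h3, mul_one] at h1
        exact h1
      rw [h3, h4, sub_self, div_zero, div_zero, mul_zero]
    · have h3 : 1 - Complex.exp (-x) ≠ 0 := by
        intro h3
        apply h2
        have h4 : Complex.exp (-x) = 1 := (sub_eq_zero.1 h3).symm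
        rw [h4, one_mul] at h1
        rw [h1, sub_self]
      rw [← mul_div_assoc, div_eq_div_iff h2 h3]
      linear_combination x * h1

/-- the restrictions of the Todd class -/
noncomputable def tdc (P : Par r) (p : P.D.W) (y : Fin r → ℂ) : ℂ :=
  ∏ a ∈ P.Pos, td (-(2 * Real.pi * Complex.I * pr (P.D.rt p a) y))

private theorem tdc_wall (a : Fin r → ℤ) (p : P.D.W) {b : Fin r → ℤ} (hb : b ∈ P.D.Φ) {y : Fin r → ℂ}
    (hy : pr b y = 0) : pr (P.D.rt (P.D.refl b * p) a) y = pr (P.D.rt p a) y := by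
  rw [P.D.rt_mul, P.D.pr_rt (P.D.refl b), refl_inv hb, yt_refl hb, hy, zero_smul, sub_zero]

private theorem tdc_prod {ι : Type*} (s : Finset ι) {f : ι → (Fin r → ℂ) → ℂ} {y : Fin r → ℂ}
    (h : ∀ a ∈ s, DifferentiableAt ℂ (f a) y) : DifferentiableAt ℂ (fun y => ∏ a ∈ s, f a y) y := by
  induction s using Finset.cons_induction with
  | empty => simp
  | cons a s ha ih =>
    simp only [Finset.prod_cons]
    exact (h a (Finset.mem_cons_self a s)).mul
      (ih fun b hb => h b (Finset.mem_cons_of_mem hb))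

private theorem tdc_pr_diff (a : Fin r → ℤ) : Differentiable ℂ fun y : Fin r → ℂ =>
    -(2 * Real.pi * Complex.I * pr a y) := by
  unfold pr
  fun_prop

theorem gh_td (P : Par r) : P.D.GH P.tdc 0 := by
  refine ⟨fun p => ?_, fun b hb _ p => Filter.Eventually.of_forall fun y hy0 => ?_⟩
  · have h1 : ∀ᶠ y in 𝓝 (0 : Fin r → ℂ), ∀ a ∈ P.Pos,
        DifferentiableAt ℂ (fun y : Fin r → ℂ => td (-(2 * Real.pi * Complex.I * pr (P.D.rt p a) y))) y := by
      refine (Filter.eventually_all_finset _).2 fun a _ => ?_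
      have h2 : Tendsto (fun y : Fin r → ℂ => -(2 * Real.pi * Complex.I * pr (P.D.rt p a) y)) (𝓝 0) (𝓝 0) := by
        have h3 := (tdc_pr_diff (P.D.rt p a)).continuous.tendsto (0 : Fin r → ℂ)
        rwa [pr_zero_right, mul_zero, neg_zero] at h3
      filter_upwards [h2.eventually td_diff] with y hy
      exact hy.comp y (tdc_pr_diff (P.D.rt p a) y)
    filter_upwards [h1] with y h2
    exact tdc_prod P.Pos h2
  · unfold tdc
    exact Finset.prod_congr rfl fun a _ => by rw [tdc_wall a p hb hy0]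

theorem ri_td (P : Par r) (y : Fin r → ℂ) : P.RI fun p => P.tdc p y := by
  intro p w hw
  show P.tdc (p * w) y = P.tdc p y
  unfold tdc
  rw [← prod_Pos hw fun a => td (-(2 * Real.pi * Complex.I * pr (P.D.rt p a) y))]
  refine Finset.prod_congr rfl fun a _ => ?_
  rw [P.D.rt_mul]

theorem tdc_neg (p : P.D.W) (y : Fin r → ℂ) : P.tdc p (-y) =
    Complex.exp (2 * Real.pi * Complex.I * P.D.hv P.ctr p y) * P.tdc p y := by
  have h1 : ∀ a, pr a (-y) = -pr a y := by
    intro a
    simp [pr]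
  have h2 : pr (P.D.rt p P.tr) y = ∑ a ∈ P.Pos, pr (P.D.rt p a) y := by
    unfold tr
    rw [P.D.rt_sum]
    simp only [pr, Finset.sum_apply, Int.cast_sum, Finset.sum_mul]
    exact Finset.sum_comm
  unfold tdc
  rw [hv_ctr, h2, Finset.mul_sum, Complex.exp_sum, ← Finset.prod_mul_distrib]
  refine Finset.prod_congr rfl fun a _ => ?_
  have h3 := td_neg (-(2 * Real.pi * Complex.I * pr (P.D.rt p a) y))
  rw [h1, mul_neg]
  rw [neg_neg] at h3 ⊢
  exact h3

/-- localisation of the Euler characteristic by the Todd class -/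
theorem chi_td (f : P.D.W → RH r) {F : RH r} (h : P.IsChi f F) {y : Fin r → ℂ}
    (hy : ∀ a ∈ P.D.Φ, ∀ n : ℤ, pr a y ≠ n) :
    (2 * Real.pi * Complex.I) ^ P.dm * evK y F =
      ∑ p : P.X, evK y (f p.1) * P.tdc p.1 y / ∏ a ∈ P.Pos, (-pr (P.D.rt p.1 a) y) := by
  rw [h y hy]
  unfold KSum
  rw [Finset.mul_sum]
  refine Finset.sum_congr rfl fun p _ => ?_
  have hm : ∀ a ∈ P.Pos, P.D.rt p.1 a ∈ P.D.Φ := fun a ha =>
    P.D.rt_mem.2 (mem_of_pos (Finset.mem_filter.1 ha).1)
  have hpi : (2 * Real.pi * Complex.I : ℂ) ≠ 0 := Complex.two_pi_I_ne_zero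
  have h1 : ∏ a ∈ P.Pos, (-pr (P.D.rt p.1 a) y) ≠ 0 := by
    refine Finset.prod_ne_zero_iff.2 fun a ha => neg_ne_zero.2 ?_
    have h2 := hy _ (hm a ha) 0
    rwa [Int.cast_zero] at h2
  have h3 : ∏ a ∈ P.Pos, (1 - Complex.exp (2 * Real.pi * Complex.I * pr (P.D.rt p.1 a) y)) ≠ 0 := by
    refine Finset.prod_ne_zero_iff.2 fun a ha h2 => ?_
    obtain ⟨n, hn⟩ := Complex.exp_eq_one_iff.1 (sub_eq_zero.1 h2).symm
    refine hy _ (hm a ha) n ?_
    have h4 : (2 * Real.pi * Complex.I : ℂ) * (pr (P.D.rt p.1 a) y - n) = 0 := by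
      linear_combination hn
    exact sub_eq_zero.1 ((mul_eq_zero.1 h4).resolve_left hpi)
  have h5 : P.tdc p.1 y * ∏ a ∈ P.Pos, (1 - Complex.exp (2 * Real.pi * Complex.I * pr (P.D.rt p.1 a) y)) =
      (2 * Real.pi * Complex.I) ^ P.dm * ∏ a ∈ P.Pos, (-pr (P.D.rt p.1 a) y) := by
    unfold tdc dm
    rw [← Finset.prod_const, ← Finset.prod_mul_distrib, ← Finset.prod_mul_distrib]
    refine Finset.prod_congr rfl fun a ha => ?_
    have h6 := td_mul (x := -(2 * Real.pi * Complex.I * pr (P.D.rt p.1 a) y)) (fun n _ h7 => by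
      refine hy _ (hm a ha) (-n) ?_
      have h8 : (2 * Real.pi * Complex.I : ℂ) * (pr (P.D.rt p.1 a) y + n) = 0 := by
        linear_combination (-1 : ℂ) * h7
      have h9 := (mul_eq_zero.1 h8).resolve_left hpi
      push_cast
      linear_combination h9)
    rw [neg_neg] at h6
    rw [h6]
    ring
  rw [← mul_div_assoc, div_eq_div_iff h3 h1]
  linear_combination (-evK y (f p.1)) * h5

/-- the coordinates of the Todd class, `(2πi)^{-deg}` of the class with the restrictions `tdc` -/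
noncomputable def Tdv (P : Par r) (u : P.X) : ℂ :=
  ((2 * Real.pi * Complex.I) ^ P.len u.1)⁻¹ * P.D.cls P.tdc 0 u.1

/-! ### duality -/

section

open scoped Matrix.Norms.Operator

private theorem ex_int' {m n : Type*} [Fintype m] [DecidableEq m] [Fintype n] [DecidableEq n]
    {A : Matrix m m ℂ} {B : Matrix n n ℂ} {R : Matrix m n ℂ} (h : A * R = R * B) :
    NormedSpace.exp A * R = R * NormedSpace.exp B := by
  have hp : ∀ k : ℕ, A ^ k * R = R * B ^ k := by
    intro k
    induction k with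
    | zero => rw [pow_zero, pow_zero, Matrix.one_mul, Matrix.mul_one]
    | succ k ih => rw [pow_succ, Matrix.mul_assoc, h, ← Matrix.mul_assoc, ih, Matrix.mul_assoc, ← pow_succ]
  have h1 := NormedSpace.exp_series_hasSum_exp' (𝕂 := ℂ) A
  have h2 := NormedSpace.exp_series_hasSum_exp' (𝕂 := ℂ) B
  have e1 : ∀ i j, HasSum (fun k : ℕ => ((k.factorial : ℂ)⁻¹ • A ^ k) i j) (NormedSpace.exp A i j) :=
    fun i j => Pi.hasSum.1 (Pi.hasSum.1 h1 i) j
  have e2 : ∀ i j, HasSum (fun k : ℕ => ((k.factorial : ℂ)⁻¹ • B ^ k) i j) (NormedSpace.exp B i j) :=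
    fun i j => Pi.hasSum.1 (Pi.hasSum.1 h2 i) j
  ext i j
  rw [Matrix.mul_apply, Matrix.mul_apply]
  have h3 : HasSum (fun k : ℕ => ∑ l, ((k.factorial : ℂ)⁻¹ • A ^ k) i l * R l j)
      (∑ l, NormedSpace.exp A i l * R l j) := hasSum_sum fun l _ => (e1 i l).mul_right (R l j)
  have h4 : HasSum (fun k : ℕ => ∑ l, R i l * ((k.factorial : ℂ)⁻¹ • B ^ k) l j)
      (∑ l, R i l * NormedSpace.exp B l j) := hasSum_sum fun l _ => (e2 l j).mul_left (R i l)
  have h5 : (fun k : ℕ => ∑ l, ((k.factorial : ℂ)⁻¹ • A ^ k) i l * R l j) =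
      fun k : ℕ => ∑ l, R i l * ((k.factorial : ℂ)⁻¹ • B ^ k) l j := by
    funext k
    rw [← Matrix.mul_apply, ← Matrix.mul_apply, Matrix.smul_mul, Matrix.mul_smul, hp]
  rw [h5] at h3
  exact h3.unique h4

end

private theorem ex_int {m n : Type*} [Fintype m] [DecidableEq m] [Fintype n] [DecidableEq n]
    {A : Matrix m m ℂ} {B : Matrix n n ℂ} {R : Matrix m n ℂ} (h : A * R = R * B) :
    NormedSpace.exp A * R = R * NormedSpace.exp B := ex_int' h

private theorem td_C0_cont (h : Fin r → ℂ) : Continuous fun y : Fin r → ℂ => P.D.C0 h y := by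
  refine continuous_matrix fun u v => ?_
  unfold RS.C0 hv yt
  by_cases huv : u = v
  · subst huv
    simp only [Matrix.sub_apply, Matrix.diagonal_apply_eq]
    fun_prop
  · simp only [Matrix.sub_apply, Matrix.diagonal_apply_ne _ huv]
    fun_prop

/-- multiplication by `e^{-2πi h}` -/
private theorem td_mop (c : ℂ) (h : Fin r → ℂ) :
    P.D.mop (fun p y => Complex.exp (c * P.D.hv h p y)) 0 =
      NormedSpace.exp ((-c) • P.D.E0 (P.D.ch h)) := by
  have h0 : P.D.E0 (P.D.ch h) = P.D.C0 h 0 := (C0_zero h).symm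
  rw [h0]
  refine mop_ext (A := fun y => NormedSpace.exp ((-c) • P.D.C0 h y)) (gh_exp c h 0) ?_ ?_
  · intro u a
    let _ : NormedRing (Matrix P.D.W P.D.W ℂ) := Matrix.linftyOpNormedRing
    let _ : NormedAlgebra ℂ (Matrix P.D.W P.D.W ℂ) := Matrix.linftyOpNormedAlgebra
    let _ : NormedAlgebra ℚ (Matrix P.D.W P.D.W ℂ) := NormedAlgebra.restrictScalars ℚ ℂ _
    have h1 : Continuous fun y => NormedSpace.exp ((-c) • P.D.C0 h y) :=
      NormedSpace.exp_continuous.comp ((td_C0_cont h).const_smul (-c))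
    exact ((continuous_apply a).comp ((continuous_apply u).comp h1)).continuousAt
  · refine Eventually.of_forall fun y _ => ?_
    have h1 : Matrix.diagonal (fun p => c * P.D.hv h p y) * P.D.Rm y =
        P.D.Rm y * ((-c) • P.D.C0 h y) := by
      rw [Matrix.mul_smul, RS.Rm_C0]
      ext p v
      rw [Matrix.smul_apply, Matrix.diagonal_mul, Matrix.diagonal_mul, smul_eq_mul]
      ring
    have h2 := ex_int h1
    rw [Matrix.exp_diagonal] at h2
    rw [← h2]
    congr 2
    funext p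
    rw [Pi.coe_exp, Complex.exp_eq_exp_ℂ]

private theorem td_cls_neg (u : P.D.W) : P.D.cls (fun p y => P.tdc p (-y)) 0 u =
    (-1) ^ P.D.len u * P.D.cls P.tdc 0 u := by
  have hg : P.D.GH (fun p y => P.tdc p (-y)) 0 := by
    have h1 : (fun (p : P.D.W) (y : Fin r → ℂ) => P.tdc p (-y)) = fun p y =>
        Complex.exp (2 * Real.pi * Complex.I * P.D.hv P.ctr p y) * P.tdc p y := by
      funext p y
      rw [tdc_neg]
    rw [h1]
    exact gh_mul (gh_exp _ P.ctr 0) (gh_td P)
  have hc : ContinuousAt (fun y => P.D.cls P.tdc (-y) u) (0 : Fin r → ℂ) := by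
    have h1 : ContinuousAt (fun y => P.D.cls P.tdc y u) (-(0 : Fin r → ℂ)) := by
      rw [neg_zero]
      exact (cls_diff (gh_td P) u).self_of_nhds.continuousAt
    exact h1.comp continuous_neg.continuousAt
  have h2 : (fun y => P.D.cls (fun p y => P.tdc p (-y)) y u) 0 =
      (fun y => (-1) ^ P.D.len u * P.D.cls P.tdc (-y) u) (0 : Fin r → ℂ) := by
    refine cls_ext P.D (cls_diff hg u).self_of_nhds.continuousAt
      (continuousAt_const.mul hc) ?_
    refine Eventually.of_forall fun y hy => ?_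
    have hy' : ∀ a ∈ P.D.Φ, pr a (-y) ≠ 0 := by
      intro a ha h3
      apply hy a ha
      have h4 : pr a (-y) = -pr a y := by simp [pr]
      rw [h4] at h3
      exact neg_eq_zero.1 h3
    have hR : P.D.Rm (-y) = P.D.Rm y * Matrix.diagonal fun w => (-1 : ℂ) ^ P.D.len w := by
      ext p w
      have h5 := RS.Rm_homog (D := P.D) (-1) y p w
      have h6 : (fun i => (-1 : ℂ) * y i) = -y := by
        funext i
        rw [neg_one_mul]
        rfl
      rw [h6] at h5
      rw [Matrix.mul_diagonal, h5, mul_comm]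
    have h7 : (P.D.Rm y).mulVec ((Matrix.diagonal fun w => (-1 : ℂ) ^ P.D.len w).mulVec
        (P.D.cls P.tdc (-y))) = fun p => P.tdc p (-y) := by
      rw [Matrix.mulVec_mulVec, ← hR]
      funext p
      exact cls_res hy' p
    have h8 : (P.D.Rm y).mulVec (P.D.cls (fun p y => P.tdc p (-y)) y) = fun p => P.tdc p (-y) := by
      funext p
      exact cls_res hy p
    have h9 : P.D.cls (fun p y => P.tdc p (-y)) y =
        (Matrix.diagonal fun w => (-1 : ℂ) ^ P.D.len w).mulVec (P.D.cls P.tdc (-y)) := by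
      have hu : IsUnit (P.D.Rm y).det := isUnit_iff_ne_zero.2 (RS.Rm_det_ne hy)
      have h10 := congrArg ((P.D.Rm y)⁻¹.mulVec) (h8.trans h7.symm)
      rwa [Matrix.mulVec_mulVec, Matrix.mulVec_mulVec, Matrix.nonsing_inv_mul _ hu,
        Matrix.one_mulVec, Matrix.one_mulVec] at h10
    show P.D.cls (fun p y => P.tdc p (-y)) y u = (-1) ^ P.D.len u * P.D.cls P.tdc (-y) u
    rw [h9, Matrix.mulVec_diagonal]
  show (fun y => P.D.cls (fun p y => P.tdc p (-y)) y u) 0 = _
  rw [h2]
  show (-1) ^ P.D.len u * P.D.cls P.tdc (-(0 : Fin r → ℂ)) u = _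
  rw [neg_zero]

open Classical in
/-- `Td^∨ = e^{-c_1} Td` -/
theorem tdv_dual (P : Par r) : (fun u : P.X => (-1) ^ P.len u.1 * P.Tdv u) =
    (NormedSpace.exp (-P.E0 (P.D.ch P.ctr))).mulVec P.Tdv := by
  have hpi : (2 * Real.pi * Complex.I : ℂ) ≠ 0 := Complex.two_pi_I_ne_zero
  set c : P.D.W → ℂ := P.D.cls P.tdc 0 with hc
  have h1 : (fun u => (-1) ^ P.D.len u * c u) =
      (NormedSpace.exp ((-(2 * Real.pi * Complex.I) : ℂ) • P.D.E0 (P.D.ch P.ctr))).mulVec c := by
    have h2 := cls_mul (D := P.D) (gh_exp (2 * Real.pi * Complex.I) P.ctr 0) (gh_td P)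
    rw [td_mop] at h2
    rw [← h2]
    funext u
    have h3 : (fun (p : P.D.W) (y : Fin r → ℂ) =>
        Complex.exp (2 * Real.pi * Complex.I * P.D.hv P.ctr p y) * P.tdc p y) =
        fun p y => P.tdc p (-y) := by
      funext p y
      rw [tdc_neg]
    rw [h3, td_cls_neg]
  -- the intertwiner
  set R : Matrix P.D.W P.X ℂ := Matrix.of fun v u =>
    if v = u.1 then (2 * Real.pi * Complex.I) ^ P.len u.1 else 0 with hR
  have hRa : ∀ v u, R v u = if v = u.1 then (2 * Real.pi * Complex.I) ^ P.len u.1 else 0 := fun _ _ => rfl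
  have hI : ((-(2 * Real.pi * Complex.I) : ℂ) • P.D.E0 (P.D.ch P.ctr)) * R =
      R * (-P.E0 (P.D.ch P.ctr)) := by
    ext v u
    rw [Matrix.smul_mul, Matrix.smul_apply, Matrix.mul_apply, Matrix.mul_apply, smul_eq_mul]
    have e1 : ∑ w, P.D.E0 (P.D.ch P.ctr) v w * R w u =
        P.D.E0 (P.D.ch P.ctr) v u.1 * (2 * Real.pi * Complex.I) ^ P.len u.1 := by
      rw [Finset.sum_eq_single u.1]
      · rw [hRa, if_pos rfl]
      · intro w _ hw
        rw [hRa, if_neg hw, mul_zero]
      · intro hw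
        exact absurd (Finset.mem_univ _) hw
    rw [e1, E0_block (lab_ch inv_ctr) v u]
    by_cases hv : ∀ j ∈ P.J, P.D.rt v (al j) ∈ P.D.Pos
    · have e2 : ∑ w, R v w * (-P.E0 (P.D.ch P.ctr)) w u =
          (2 * Real.pi * Complex.I) ^ P.len v * (-P.E0 (P.D.ch P.ctr) ⟨v, hv⟩ u) := by
        refine (Finset.sum_eq_single (⟨v, hv⟩ : P.X) ?_ ?_).trans ?_
        · intro w _ hw
          rw [hRa, if_neg (fun h => hw (Subtype.ext h.symm)), zero_mul]
        · intro hw
          exact absurd (Finset.mem_univ _) hw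
        · rw [hRa, if_pos rfl, Matrix.neg_apply]
      rw [e2, dif_pos hv]
      by_cases h0 : P.E0 (P.D.ch P.ctr) ⟨v, hv⟩ u = 0
      · rw [h0]
        ring
      · have h3 : P.len v = P.len u.1 + 1 := E0_ne h0
        rw [h3, pow_succ]
        ring
    · rw [dif_neg hv, zero_mul, mul_zero]
      symm
      refine Finset.sum_eq_zero fun w _ => ?_
      rw [hRa, if_neg, zero_mul]
      rintro rfl
      exact hv w.2
  have hE := ex_int hI
  -- `c` is in the image
  have hcR : c = R.mulVec P.Tdv := by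
    funext v
    show c v = ∑ u, R v u * P.Tdv u
    by_cases hv : ∀ j ∈ P.J, P.D.rt v (al j) ∈ P.D.Pos
    · symm
      refine (Finset.sum_eq_single (⟨v, hv⟩ : P.X) ?_ ?_).trans ?_
      · intro w _ hw
        rw [hRa, if_neg (fun h => hw (Subtype.ext h.symm)), zero_mul]
      · intro hw
        exact absurd (Finset.mem_univ _) hw
      · rw [hRa, if_pos rfl]
        show (2 * Real.pi * Complex.I) ^ P.len v *
          (((2 * Real.pi * Complex.I) ^ P.len v)⁻¹ * P.D.cls P.tdc 0 v) = c v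
        rw [← mul_assoc, mul_inv_cancel₀ (pow_ne_zero _ hpi), one_mul]
    · rw [hc, cls_out (ri_td P) (gh_td P) hv]
      symm
      refine Finset.sum_eq_zero fun w _ => ?_
      rw [hRa, if_neg, zero_mul]
      rintro rfl
      exact hv w.2
  funext u
  have h4 := congrFun h1 u.1
  rw [hcR, Matrix.mulVec_mulVec, hE, ← Matrix.mulVec_mulVec] at h4
  have hRu : ∀ x : P.X → ℂ, R.mulVec x u.1 = (2 * Real.pi * Complex.I) ^ P.len u.1 * x u := by
    intro x
    show ∑ w, R u.1 w * x w = _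
    refine (Finset.sum_eq_single u ?_ ?_).trans ?_
    · intro w _ hw
      rw [hRa, if_neg (fun h => hw (Subtype.ext h.symm)), zero_mul]
    · intro hw
      exact absurd (Finset.mem_univ _) hw
    · rw [hRa, if_pos rfl]
  have h5 : (-1) ^ P.D.len u.1 * ((2 * Real.pi * Complex.I) ^ P.len u.1 * P.Tdv u) =
      (2 * Real.pi * Complex.I) ^ P.len u.1 *
        ((NormedSpace.exp (-P.E0 (P.D.ch P.ctr))).mulVec P.Tdv) u := by
    rw [← hRu, ← hRu]
    exact h4
  rw [← len_val u] at h5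
  refine mul_left_cancel₀ (pow_ne_zero (P.len u.1) hpi) ?_
  rw [← h5]
  ring

end Pool.Agent.FLG.Par
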