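import Pool.Agent.FLB.Defs
import Pool.Agent.FLB.PDefs
import Pool.Agent.FLG.ZP.Fin

/-!
# FLB-Tr: from `FlagGW` to the theory in coordinates

PLAN. `m : IsModel P b D`, `m.par J` the parabolic in coordinates, `m.fX hJ : Rep b J ≃ (m.par J).X`,
`m.bk h = ∑ h_k α_k ∈ V`, `m.s` its inverse (Pool/Agent/FLG/Z/Tr.lean, ZP/Tr.lean). `exists_num_of`: the cocharacter
`ξ` has `ξ(α_k) = ξz k`, a positive integer (`hξ.pos`), `ξ (m.bk h) = ∑ h_k ξz k`,
`ξ (u • m.bk h) = hv h (m.f u) (cc ξz)` (`smul_bk`: the action of the Weyl group in coordinates; by linearity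
from the roots: `weylGroup_apply_root`, `m.f_root`, `hv (ca a) u y = pr (rt u a) y`). The numbering `n.e` of the fixed
points by increasing `- ξ(p c_1)`: as in `exists_num` (Pool/Agent/FLG/P/Num.lean), injectivity is `hξ.distinct`
(`m.c1_eq'`), `N = card (Rep b J)` by `e`. `toGW`: all the fields are transported by `m.cupP_bk`, `m.mulP_bk`,
`m.card_pos'`, `m.len_eq'`, `m.pair_iff` (`small_bkP`), `m.c1_eq'`; `P.Inv h ↔ IsDivisor J (m.bk h)` (`m.ch_s`,
`inv_s`); `(m.fX hJ) (e X.one) = one` since the degree of the unit is `0` (`X.deg_one`, `eq_one_of_len`).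
-/

set_option autoImplicit false
set_option linter.unusedSectionVars false

open scoped BigOperators Topology
open Filter

namespace Pool.Agent.FLG.IsModel

open Pool.Agent.DST.TE
open Pool.Agent.Helper18.Dub Pool.Agent.Helper7.DubStokes Pool.Agent.SHF Pool.Agent.DST
open Pool.Agent.FLB

variable {ι V V' : Type} [Fintype ι] [AddCommGroup V] [Module ℂ V] [AddCommGroup V'] [Module ℂ V']
  {P : RootPairing ι ℂ V V'} [P.IsCrystallographic] [P.IsRootSystem] {b : P.Base} {r : ℕ}
  {D : RS r} (m : IsModel P b D) {J : Set ι} (hJ : J ⊆ b.support)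
  {N : ℕ} {ξ : V →ₗ[ℂ] ℂ} {e : Fin N ≃ FlagP.Rep b J} {X : FanoGW (Fin N)}

include m in
theorem smul_bk (ξz : Fin r → ℤ) (hξz : ∀ k, ξ (P.root (m.e k)) = ξz k) (u : P.weylGroup)
    (h : Fin r → ℂ) : ξ (u • m.bk h) = D.hv h (m.f u) (cc ξz) := by
  have hlin : ∀ x : V, ξ (u • x) = (ξ.comp (P.weylGroupRootRep u)) x := fun _ => rfl
  rw [hlin, bk_apply, map_sum]
  unfold RS.hv
  refine Finset.sum_congr rfl fun k _ => ?_
  rw [map_smul, smul_eq_mul]
  congr 1
  show ξ (u • P.root (m.e k)) = _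
  rw [P.weylGroup_apply_root, m.root, map_sum]
  unfold RS.yt
  refine Finset.sum_congr rfl fun j _ => ?_
  rw [inv_inv, map_zsmul, hξz, zsmul_eq_mul, ← m.f_root, m.v_e]
  show _ = _ * ((ξz j : ℤ) : ℂ)
  congr 2
  unfold RS.rt RS.al
  rw [Matrix.mulVec_single_one]
  rfl

theorem coord_bk (hone : m.fX hJ (e X.one) = (m.par J).one) (h : Fin r → ℂ) :
    coord e X (m.bk h) = (m.par J).cl (e.trans (m.fX hJ)) h := by
  funext a
  unfold coord Par.cl
  rw [m.cupP_bk hJ, Matrix.submatrix_apply, hone]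
  rfl

private theorem one_of_deg {w : FlagP.Rep b J} (h : Flag.len b w.1 = 0) :
    m.fX hJ w = (m.par J).one := by
  apply Subtype.ext
  show m.f w.1 = 1
  apply RS.eq_one_of_len
  rw [← m.len_eq]
  exact h

private theorem restr_bk (ξz : Fin r → ℤ) (hξz : ∀ k, ξ (P.root (m.e k)) = ξz k)
    (h : Fin r → ℂ) : restr b J ξ (m.bk h) =
      ((m.par J).rd ξz h).submatrix (m.fX hJ) (m.fX hJ) := by
  classical
  have h0 : ξ (m.bk h) = D.hv h 1 (cc ξz) := by
    have h1 := m.smul_bk ξz hξz 1 h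
    rw [one_smul, map_one] at h1
    exact h1
  ext1 u v
  unfold restr Par.rd
  rw [Matrix.submatrix_apply]
  by_cases huv : u = v
  · rw [huv, Matrix.diagonal_apply_eq, Matrix.diagonal_apply_eq, map_sub, h0,
      m.smul_bk ξz hξz]
    rfl
  · rw [Matrix.diagonal_apply_ne _ huv,
      Matrix.diagonal_apply_ne _ fun h1 => huv ((m.fX hJ).injective h1)]

include hJ in
private theorem div_bk {h : Fin r → ℂ} (hh : (m.par J).Inv h) : IsDivisor J (P := P) (m.bk h) := by
  intro j hj
  obtain ⟨k, hk, hk'⟩ := m.exists_mem hJ hj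
  have h1 := hh k hk'
  have h2 : (m.par J).D.ch h (m.v (m.e k)) = P.coroot' (m.e k) (m.bk h) := m.ch_bk h _
  rw [m.v_e, h1, hk] at h2
  exact h2.symm

theorem exists_GW (hξ : IsGeneric b J ξ) (T : FlagGW b J ξ e X) :
    ∃ n : (m.par J).Num N, Nonempty ((m.par J).GW n (e.trans (m.fX hJ)) X) := by
  classical
  have hpos : ∀ k : Fin r, ∃ n : ℕ, 0 < n ∧ ξ (P.root (m.e k)) = n := fun k =>
    hξ.pos _ (m.e k).2
  choose ν hν using hpos
  obtain ⟨ξz, hξz, hξp⟩ : ∃ ξz : Fin r → ℤ, (∀ k, ξ (P.root (m.e k)) = ξz k) ∧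
      ∀ k, 0 < ξz k :=
    ⟨fun k => (ν k : ℤ), fun k => by rw [(hν k).2, Int.cast_natCast],
      fun k => Int.natCast_pos.2 (hν k).1⟩
  have hw : ∀ u : FlagP.Rep b J, ξ (u.1 • FlagP.c₁ b J) =
      ((dotProduct ξz ((m.par J).D.rt (m.fX hJ u).1 (m.par J).tr) : ℤ) : ℂ) := by
    intro u
    rw [m.c1_eq' hJ, m.smul_bk ξz hξz]
    have h1 := Par.hv_ctr (P := m.par J) (m.fX hJ u).1 (cc ξz)
    refine Eq.trans ?_ (h1.trans ?_)
    · rfl
    · unfold pr cc dotProduct
      push_cast
      exact Finset.sum_congr rfl fun i _ => mul_comm _ _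
  have hinj : Function.Injective fun p : (m.par J).X =>
      -dotProduct ξz ((m.par J).D.rt p.1 (m.par J).tr) := by
    intro p q hpq
    obtain ⟨u, rfl⟩ := (m.fX hJ).surjective p
    obtain ⟨v, rfl⟩ := (m.fX hJ).surjective q
    have h1 := neg_injective hpq
    congr 1
    apply hξ.distinct
    rw [hw, hw]
    exact congrArg _ h1
  have hcard : Fintype.card (m.par J).X = N := by
    rw [← Fintype.card_congr (e.trans (m.fX hJ)), Fintype.card_fin]
  let _ : LinearOrder (m.par J).X := LinearOrder.lift' (fun p : (m.par J).X =>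
      -dotProduct ξz ((m.par J).D.rt p.1 (m.par J).tr)) hinj
  let f : Fin N ≃o (m.par J).X := monoEquivOfFin (m.par J).X hcard
  have hone : m.fX hJ (e X.one) = (m.par J).one := by
    apply one_of_deg
    rw [← T.deg_eq]
    exact X.deg_one
  have hc : ∀ h, coord e X (m.bk h) = (m.par J).cl (e.trans (m.fX hJ)) h := m.coord_bk hJ hone
  have hr := m.restr_bk hJ ξz hξz
  refine ⟨{ e := f.toEquiv
            ξ := ξz
            ξ_pos := hξp
            mono := fun p q hpq => f.strictMono hpq }, ⟨?_⟩⟩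
  exact
    { toEquivGW := T.toEquivGW
      period_zero := T.period_zero
      divisorT := T.divisorT
      degree_zeroT := T.degree_zeroT
      wdvvAt := T.wdvvAt
      dim_eq := T.dim_eq.trans (m.card_pos' hJ)
      deg_eq := fun a => (T.deg_eq a).trans (m.len_eq' hJ _)
      one_eq := hone
      pair_eq := by
        intro a c
        rw [T.pair_eq]
        show (if ∃ w₀ : P.weylGroup, (∀ i, b.IsPos i → ¬ b.IsPos (P.weylGroupToPerm w₀ i)) ∧
          (e a).1⁻¹ * (w₀ * (e c).1) ∈ FlagP.levi P J then (1 : ℂ) else 0) = _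
        exact if_congr (m.pair_iff hJ _ _) rfl rfl
      chern_eq := by
        intro a
        rw [T.chern_eq, m.c1_eq' hJ, hc]
      chev := by
        intro h hh
        have h1 := T.chevalley (m.bk h) (m.div_bk hJ hh)
        rw [hc] at h1
        refine h1.trans ?_
        unfold cupT
        rw [m.cupP_bk hJ, hr]
        rfl
      qchev := by
        intro t h ht hh
        have h1 := T.quantumChevalley (m.bk t) (m.bk h) (m.div_bk hJ ht) (m.div_bk hJ hh)
        rw [hc, hc] at h1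
        refine h1.trans ?_
        unfold mulT
        rw [m.mulP_bk hJ, hr]
        rfl }

end Pool.Agent.FLG.IsModel
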